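import Pool.Agent.Lib.MP_12eaff_co.Acc2.Defs

set_option autoImplicit false
set_option linter.unusedSectionVars false

namespace Pool.Agent.Lib.MP_12eaff_co.Acc2

open Finset Pool.Agent.Lib.MP_12eaff_co.BK
open scoped Classical

variable {V : Type} [Fintype V] {G : SimpleGraph V} {D : ℕ}

/-- Frame of a test: the movable set `S` and the blank set `B`. -/
structure Fm (V : Type) where
  S : Finset V
  B : Finset V

/-- The visible degree of `a` is at most `D + 1`. -/
def Fm.Dg (F : Fm V) (G : SimpleGraph V) (D : ℕ) (a : V) : Prop := (nb G a \ F.B).card ≤ D + 1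

/-- `f` is proper, `v` is the hole, `B` is blank, and the hole cannot be filled inside `S`. -/
structure HC (G : SimpleGraph V) (D : ℕ) (F : Fm V) (v : V) (f : V → ℕ) : Prop where
  pr : ∀ a b, G.Adj a b → f a ≠ f b
  hole : f v = D
  mem : v ∈ F.S
  dis : ∀ m ∈ F.S, m ∉ F.B
  ltB : ∀ m, m ∉ F.B → m ≠ v → f m < D
  bl : ∀ m ∈ F.B, D < f m
  nf : ∀ g : V → ℕ, (∀ m, m ∉ F.S → g m = f m) → (∀ m ∈ F.S, g m < D) →
    (∀ a b, G.Adj a b → g a ≠ g b) → False

/-- `u` is the only neighbour of `a` with the colour of `u`. -/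
def Uq (G : SimpleGraph V) (f : V → ℕ) (a u : V) : Prop :=
  ∀ m, G.Adj a m → m ≠ u → f m ≠ f u

namespace HC

variable {F : Fm V} {v : V} {f : V → ℕ}

theorem ne (h : HC G D F v f) {a b : V} (hab : G.Adj a b) : f a ≠ f b := h.pr a b hab

theorem pc (h : HC G D F v f) : PCol G D f := fun a b k _ => h.pr a b k

theorem lt (h : HC G D F v f) (m : V) (hm : m ∈ F.S) (hne : m ≠ v) : f m < D :=
  h.ltB m (h.dis m hm) hne

theorem ne_D (h : HC G D F v f) {m : V} (hne : m ≠ v) : f m ≠ D := by
  by_cases k : m ∈ F.B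
  exacts [(h.bl m k).ne', (h.ltB m k hne).ne]

theorem nB (h : HC G D F v f) {m : V} (hm : f m ≤ D) : m ∉ F.B := fun k => by
  have := h.bl m k; omega

theorem ne_hole (h : HC G D F v f) {a : V} (ha : f a < D) : a ≠ v := by
  rintro rfl; rw [h.hole] at ha; omega

theorem mono (h : HC G D F v f) {S : Finset V} (hS : S ⊆ F.S) (hv : v ∈ S) :
    HC G D ⟨S, F.B⟩ v f :=
  ⟨h.pr, h.hole, hv, fun m k => h.dis m (hS k), h.ltB, h.bl, fun g a b c =>
    h.nf g (fun m k => a m fun e => k (hS e)) (fun m k => by
      by_cases e : m ∈ S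
      · exact b m e
      · rw [a m e]; exact h.lt m k fun q => e (q ▸ hv)) c⟩

theorem pr_of (h : HC G D F v f) {g : V → ℕ}
    (h3 : ∀ a b, G.Adj a b → g a ≠ f a → g a ≠ g b) (a b : V) (hab : G.Adj a b) : g a ≠ g b := by
  by_cases ha : g a = f a
  · by_cases hb : g b = f b
    · rw [ha, hb]; exact h.ne hab
    · exact (h3 b a hab.symm hb).symm
  · exact h3 a b hab ha

/-- General change of hole and colours inside `S`. -/
theorem change' (h : HC G D F v f) {w : V} {g : V → ℕ} (hw : w ∈ F.S)
    (h0 : ∀ m, m ∉ F.S → g m = f m) (h1 : g w = D) (h2 : ∀ m ∈ F.S, m ≠ w → g m < D)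
    (h3 : ∀ a b, G.Adj a b → g a ≠ g b) : HC G D F w g :=
  ⟨h3, h1, hw, h.dis, fun m a b => by
    by_cases k : m ∈ F.S
    · exact h2 m k b
    · rw [h0 m k]; exact h.ltB m a fun e => k (e ▸ h.mem),
    fun m a => by rw [h0 m fun k => h.dis m k a]; exact h.bl m a,
    fun g' a => h.nf g' fun m k => (a m k).trans (h0 m k)⟩

/-- The same; only edges at changed vertices are checked. -/
theorem change (h : HC G D F v f) {w : V} {g : V → ℕ} (hw : w ∈ F.S)
    (h0 : ∀ m, m ∉ F.S → g m = f m) (h1 : g w = D) (h2 : ∀ m ∈ F.S, m ≠ w → g m < D)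
    (h3 : ∀ a b, G.Adj a b → g a ≠ f a → g a ≠ g b) : HC G D F w g :=
  h.change' hw h0 h1 h2 (h.pr_of h3)

/-- No filling; only edges at changed vertices are checked. -/
theorem nofill (h : HC G D F v f) {g : V → ℕ} (h0 : ∀ m, m ∉ F.S → g m = f m)
    (h2 : ∀ m ∈ F.S, g m < D) (h3 : ∀ a b, G.Adj a b → g a ≠ f a → g a ≠ g b) : False :=
  h.nf g h0 h2 (h.pr_of h3)

theorem upd_off (_ : HC G D F v f) {a : V} (ha : a ∈ F.S) (g : V → ℕ) (κ : ℕ) {m : V}
    (hm : m ∉ F.S) : Function.update g a κ m = g m :=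
  Function.update_of_ne (fun e : m = a => hm (e ▸ ha)) _ _

/-- TIGHT: the hole sees every colour. -/
theorem sees (h : HC G D F v f) {κ : ℕ} (hκ : κ < D) : ∃ m, G.Adj v m ∧ f m = κ := by
  by_contra hc
  push Not at hc
  refine h.nofill (g := Function.update f v κ) (fun m k => h.upd_off h.mem f κ k)
    (fun a k => ?_) fun a b hab k => ?_
  · by_cases ha : a = v
    · rw [ha, Function.update_self]; exact hκ
    · rw [Function.update_of_ne ha]; exact h.lt a k ha
  · have e : a = v := by
      by_contra e; exact k (Function.update_of_ne e _ _)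
    subst e
    rw [Function.update_self, Function.update_of_ne hab.ne.symm]
    exact (hc b hab).symm

/-- Recolouring one vertex with a colour it does not see. -/
theorem recol (h : HC G D F v f) {a : V} {κ : ℕ} (hS : a ∈ F.S) (ha : a ≠ v) (hκ : κ < D)
    (hs : ∀ m, G.Adj a m → f m ≠ κ) : HC G D F v (Function.update f a κ) := by
  refine h.change h.mem (fun m k => h.upd_off hS f κ k)
    (by rw [Function.update_of_ne ha.symm, h.hole]) (fun m k hm => ?_) (fun x y hxy hx => ?_)
  · by_cases e : m = a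
    · rw [e, Function.update_self]; exact hκ
    · rw [Function.update_of_ne e]; exact h.lt m k hm
  · have e : x = a := by
      by_contra e; exact hx (Function.update_of_ne e _ _)
    subst e
    rw [Function.update_self, Function.update_of_ne hxy.ne.symm]
    exact (hs y hxy).symm

/-- Moving the hole to a vertex whose colour is not seen elsewhere. -/
theorem shift (h : HC G D F v f) {u : V} (hS : u ∈ F.S) (hu : u ≠ v) (hq : Uq G f v u) :
    HC G D F u (shift D f v u) := by
  have l := h.lt u hS hu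
  refine h.change hS (fun m k => by rw [Acc2.shift, h.upd_off hS _ _ k, h.upd_off h.mem _ _ k])
    (by simp [Acc2.shift]) (fun m k hm => ?_) fun a b hab ha => ?_
  · rw [Acc2.shift, Function.update_of_ne hm]
    by_cases e : m = v
    · rw [e, Function.update_self]; exact l
    · rw [Function.update_of_ne e]; exact h.lt m k e
  · unfold Acc2.shift at ha ⊢
    by_cases h1 : a = u
    · subst h1
      rw [Function.update_self, Function.update_of_ne hab.ne.symm]
      by_cases e : b = v
      · rw [e, Function.update_self]; exact l.ne'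
      · rw [Function.update_of_ne e]; exact (h.ne_D e).symm
    rw [Function.update_of_ne h1] at ha ⊢
    have e : a = v := by
      by_contra e; exact ha (Function.update_of_ne e _ _)
    subst e
    rw [Function.update_self]
    by_cases h2 : b = u
    · rw [h2, Function.update_self]; exact l.ne
    · rw [Function.update_of_ne h2, Function.update_of_ne hab.ne.symm]
      exact (hq b hab h2).symm

/-- Exchange of the colours of two vertices. -/
theorem swap (h : HC G D F v f) {a b : V} (sa : a ∈ F.S) (sb : b ∈ F.S) (ha : a ≠ v) (hb : b ≠ v)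
    (hab : a ≠ b) (h1 : Uq G f a b) (h2 : Uq G f b a) (hne : f a ≠ f b) :
    HC G D F v (Function.update (Function.update f a (f b)) b (f a)) := by
  refine h.change h.mem (fun m k => by rw [h.upd_off sb _ _ k, h.upd_off sa _ _ k]) ?_
    (fun m k hm => ?_) (fun x y hxy hx => ?_)
  · rw [Function.update_of_ne hb.symm, Function.update_of_ne ha.symm, h.hole]
  · by_cases e : m = b
    · rw [e, Function.update_self]; exact h.lt a sa ha
    · rw [Function.update_of_ne e]
      by_cases e2 : m = a
      · rw [e2, Function.update_self]; exact h.lt b sb hb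
      · rw [Function.update_of_ne e2]; exact h.lt m k hm
  · by_cases e : x = b
    · subst e
      rw [Function.update_self, Function.update_of_ne hxy.ne.symm]
      by_cases e2 : y = a
      · rw [e2, Function.update_self]; exact hne
      · rw [Function.update_of_ne e2]; exact (h2 y hxy e2).symm
    · rw [Function.update_of_ne e] at hx ⊢
      have e1 : x = a := by
        by_contra e1; exact hx (Function.update_of_ne e1 _ _)
      subst e1
      rw [Function.update_self]
      by_cases e2 : y = b
      · rw [e2, Function.update_self]; exact hne.symm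
      · rw [Function.update_of_ne e2, Function.update_of_ne hxy.ne.symm]
        exact (h1 y hxy e2).symm

/-- A vertex that is unique at the hole keeps its colour in every colouring that fixes the
other neighbours of the hole. -/
theorem rigid {u : V} (hl : f u < D) (hq : Uq G f v u) {F' : Fm V}
    {g : V → ℕ} (hg : HC G D F' v g) (he : ∀ m, G.Adj v m → m ≠ u → g m = f m) : g u = f u := by
  obtain ⟨m, hm, hc⟩ := hg.sees hl
  by_cases e : m = u
  · rw [← hc, e]
  · exact absurd ((he m hm e).symm.trans hc) (hq m hm e)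

/-- A vertex that is unique at the hole sees every other colour. -/
theorem uq_sees (h : HC G D F v f) {u : V} (hS : u ∈ F.S) (hu : u ≠ v) (hq : Uq G f v u)
    {κ : ℕ} (hκ : κ < D) (hne : κ ≠ f u) : ∃ m, G.Adj u m ∧ f m = κ := by
  by_contra hc
  push Not at hc
  have := rigid (h.lt u hS hu) hq (h.recol hS hu hκ hc)
    (fun m _ e => Function.update_of_ne e _ _)
  rw [Function.update_self] at this
  exact hne this

theorem image_nb (h : HC G D F v f) : (nb G v \ F.B).image f = range D := by
  ext κ
  simp only [mem_image, mem_sdiff, mem_nb, mem_range]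
  refine ⟨fun ⟨m, hm, e⟩ => e ▸ h.ltB m hm.2 hm.1.ne.symm, fun hκ => ?_⟩
  obtain ⟨m, a, b⟩ := h.sees hκ
  exact ⟨m, ⟨a, h.nB (by omega)⟩, b⟩

end HC

/-- A map that loses at most one value identifies only one pair. -/
theorem one_double {s : Finset V} {f : V → ℕ} (hs : s.card ≤ (s.image f).card + 1)
    {a b x y : V} (ha : a ∈ s) (hb : b ∈ s) (hab : a ≠ b) (h : f a = f b) (hx : x ∈ s)
    (hy : y ∈ s) (hxy : x ≠ y) (h' : f x = f y) : x = a ∨ x = b := by
  by_contra hc
  push Not at hc
  have key : ∀ a b, a ∈ s → b ∈ s → a ≠ b → f a = f b → x ≠ a → x ≠ b → y ≠ a → False := by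
    intro a b ha hb hab h h1 h2 h3
    have h4 : s.image f ⊆ ((s.erase x).erase a).image f := by
      intro κ hκ
      obtain ⟨m, hm, rfl⟩ := mem_image.1 hκ
      by_cases e1 : m = x
      · exact mem_image.2 ⟨y, by simp [hy, h3, hxy.symm], by rw [e1, h']⟩
      by_cases e2 : m = a
      · exact mem_image.2 ⟨b, by simp [hb, hab.symm, h2.symm], by rw [e2, h]⟩
      · exact mem_image.2 ⟨m, by simp [hm, e1, e2], rfl⟩
    have h5 := (card_le_card h4).trans card_image_le
    rw [card_erase_of_mem (by simp [ha, h1.symm]), card_erase_of_mem hx] at h5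
    have : 2 ≤ s.card := one_lt_card.2 ⟨a, ha, b, hb, hab⟩
    omega
  by_cases e : y = a
  · exact key b a hb ha hab.symm h.symm hc.2 hc.1 (fun e2 => hab (e.symm.trans e2))
  · exact key a b ha hb hab h hc.1 hc.2 e

/-- At a hole of degree at most `D + 1` only two neighbours can share a colour. -/
theorem HC.double {F : Fm V} {v : V} {f : V → ℕ} (h : HC G D F v f)
    (hd : F.Dg G D v) {a b x : V} (ha : G.Adj v a) (hb : G.Adj v b) (hab : a ≠ b)
    (he : f a = f b) (la : f a < D) (hx : G.Adj v x) (lx : f x < D) (h1 : x ≠ a) (h2 : x ≠ b) :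
    Uq G f v x := by
  intro y hy hyx hc
  have k : ∀ m, G.Adj v m → f m < D → m ∈ nb G v \ F.B := fun m p q =>
    mem_sdiff.2 ⟨mem_nb.2 p, h.nB q.le⟩
  have := one_double (s := nb G v \ F.B) (f := f) (by rw [h.image_nb, card_range]; exact hd)
    (k a ha la) (k b hb (he ▸ la)) hab he (k x hx lx) (k y hy (hc ▸ lx)) hyx.symm hc.symm
  tauto

/-- The swap lemma behind the clique claim. -/
theorem HC.swap_adj {F : Fm V} {q : V} {f : V → ℕ} (h : HC G D F q f) {u v w : V}
    (su : u ∈ F.S) (sv : v ∈ F.S) (sw : w ∈ F.S)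
    (hu : u ≠ q) (hv : G.Adj q v) (hw : w ≠ q) (hqw : Uq G f q w) (huv : G.Adj u v)
    (huw : G.Adj u w) (h1 : Uq G f v u) (h2 : Uq G f w u) (h3 : Uq G f u v) (hne : v ≠ w) :
    G.Adj v w := by
  by_contra hc
  have hs := h.swap su sv hu hv.ne.symm huv.ne h3 h1 (h.ne huv)
  have hvw : f v ≠ f w := hqw v hv hne
  have hr := hs.recol (a := w) (κ := f u) sw hw (h.lt u su hu) (fun m hm => by
    have e1 : m ≠ v := fun e => hc (e ▸ hm.symm)
    rw [Function.update_of_ne e1]
    by_cases e2 : m = u
    · rw [e2, Function.update_self]; exact (h.ne huv).symm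
    · rw [Function.update_of_ne e2]; exact h2 m hm e2)
  obtain ⟨m, hm, he⟩ := hr.sees (h.lt w sw hw)
  by_cases e : m = w
  · rw [e, Function.update_self] at he; exact h.ne huw he
  rw [Function.update_of_ne e] at he
  by_cases e1 : m = v
  · rw [e1, Function.update_self] at he; exact h.ne huw he
  rw [Function.update_of_ne e1] at he
  by_cases e2 : m = u
  · rw [e2, Function.update_self] at he; exact hvw he
  rw [Function.update_of_ne e2] at he
  exact hqw m hm e he

namespace Cov

variable {A B : Finset V} {s t : ℕ}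

theorem mono (h : Cov G B t) (k : A ⊆ B) : Cov G A t := fun I a => h I (a.trans k)

theorem le (h : Cov G A s) (k : s ≤ t) : Cov G A t := fun I a b => (h I a b).trans k

theorem clq (h : IsClq G A) : Cov G A 1 := fun _ a b => card_le_one.2 fun x p y q => by
  by_contra e; exact b x p y q (h x (a p) y (a q) e)

theorem union (h1 : Cov G A s) (h2 : Cov G B t) : Cov G (A ∪ B) (s + t) := fun I a b => by
  have p := h1 (I ∩ A) inter_subset_right fun x p y q =>
    b x (mem_inter.1 p).1 y (mem_inter.1 q).1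
  have q := h2 (I \ A) (fun x k => (mem_union.1 (a (mem_sdiff.1 k).1)).resolve_left
    (mem_sdiff.1 k).2) fun x p y q => b x (mem_sdiff.1 p).1 y (mem_sdiff.1 q).1
  have := card_sdiff_add_card_inter I A
  omega

theorem card (A : Finset V) : Cov G A A.card := fun _ a _ => card_le_card a

theorem one (a : V) : Cov G {a} 1 := card {a}

theorem ins (h : Cov G A s) (a : V) : Cov G (insert a A) (s + 1) := by
  rw [insert_eq, add_comm]; exact (one a).union h

theorem pair {a b : V} (h : G.Adj a b) : Cov G {a, b} 1 := clq fun x p y q e => by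
  simp only [mem_insert, mem_singleton] at p q
  rcases p with rfl | rfl <;> rcases q with rfl | rfl
  exacts [absurd rfl e, h, h.symm, absurd rfl e]

theorem two (a b : V) : Cov G {a, b} 2 := (card _).le card_le_two

/-- Two cliques. -/
theorem clq2 (h1 : IsClq G A) (h2 : IsClq G B) : Cov G (A ∪ B) 2 := (clq h1).union (clq h2)

/-- A clique and a vertex. -/
theorem clq1 (h : IsClq G A) (a : V) : Cov G (insert a A) 2 := (clq h).ins a

/-- A clique and an edge. -/
theorem clqe (h : IsClq G A) {a b : V} (e : G.Adj a b) : Cov G (insert a (insert b A)) 2 :=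
  ((pair e).union (clq h)).mono (by intro x; simp only [mem_insert, mem_union, mem_singleton]; tauto)

/-- Two edges. -/
theorem edges {a b x y : V} (e : G.Adj a b) (e' : G.Adj x y) : Cov G {a, b, x, y} 2 :=
  ((pair e).union (pair e')).mono
    (by intro x; simp only [mem_insert, mem_union, mem_singleton]; tauto)

/-- An edge and a vertex. -/
theorem edge1 {a b : V} (e : G.Adj a b) (x : V) : Cov G {x, a, b} 2 := (pair e).ins x

end Cov

namespace Tr

variable {T : Tr G D}

/-- The frame of a test in the state `s(z)`. -/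
noncomputable def fm (T : Tr G D) (z : V) (S : Finset V) : Fm V :=
  ⟨S, univ.filter fun m => D < T.col z m⟩

@[simp] theorem fm_S {z : V} {S : Finset V} : (T.fm z S).S = S := rfl

theorem mem_fm_B {z m : V} {S : Finset V} : m ∈ (T.fm z S).B ↔ D < T.col z m := by simp [fm]

/-- A frame is a test if no filling inside it exists. -/
theorem hc_of {z : V} (hz : z ∈ T.R) {S : Finset V} (h1 : z ∈ S) (h2 : ∀ m ∈ S, m ∉ T.Dm)
    (h : ∀ g : V → ℕ, (∀ m, m ∉ S → g m = T.col z m) → (∀ m ∈ T.Dm, g m = T.col z m) →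
      (∀ m, m ∉ T.Dm → g m < D) → (∀ a b, G.Adj a b → g a ≠ g b) → False) :
    HC G D (T.fm z S) z (T.col z) := by
  refine ⟨T.prop z hz, col_self hz, h1, fun m k e => ?_, fun m k e => ?_, fun m k => mem_fm_B.1 k,
    fun g a b c => h g a (fun m k => a m fun e => h2 m e k) (fun m k => ?_) c⟩
  · have := mem_fm_B.1 e
    by_cases q : m = z
    · rw [q, col_self hz] at this; omega
    · have := T.full z hz m (h2 m k) q; omega
  · have := col_ne_D hz e
    have := mem_fm_B.not.1 k
    omega
  · by_cases q : m ∈ S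
    · exact b m q
    · rw [a m q]; exact T.full z hz m k fun e => q (e ▸ h1)

/-- A test set that meets every slot set in a set of independence number at most `t`. -/
theorem NF.hcx {t : ℕ} (h : T.NF t) {z : V} (hz : z ∈ T.R) {S : Finset V} (h1 : z ∈ S)
    (h2 : ∀ m ∈ S, m ∉ T.Dm) (h3 : ∀ A ∈ T.Sx, Cov G (S ∩ A) t) :
    HC G D (T.fm z S) z (T.col z) :=
  hc_of hz h1 h2 fun g a b c d => h z hz g b c d fun A p => (h3 A p).mono fun x k =>
    mem_inter.2 ⟨by_contra fun q => (mem_filter.1 k).2 (a x q), (mem_filter.1 k).1⟩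

/-- A test set whose slot vertices have independence number at most `t`. -/
theorem NF.hc' {t : ℕ} (h : T.NF t) {z : V} (hz : z ∈ T.R) {S : Finset V} (h1 : z ∈ S)
    (h2 : ∀ m ∈ S, m ∉ T.Dm) (h3 : Cov G (S.filter T.Sl) t) : HC G D (T.fm z S) z (T.col z) :=
  h.hcx hz h1 h2 fun A p => h3.mono fun _ k =>
    mem_filter.2 ⟨(mem_inter.1 k).1, A, p, (mem_inter.1 k).2⟩

theorem NF.hc {t : ℕ} (h : T.NF t) {z : V} (hz : z ∈ T.R) {S : Finset V} (h1 : z ∈ S)
    (h2 : ∀ m ∈ S, m ∉ T.Dm) (h3 : Cov G S t) : HC G D (T.fm z S) z (T.col z) :=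
  h.hc' hz h1 h2 (h3.mono (filter_subset _ _))

/-- Count form for an explicit final colouring on a test set `S`. -/
theorem NFc.fill {t : ℕ} (h : T.NFc t) {z : V} (hz : z ∈ T.R) {S : Finset V} (h1 : z ∈ S)
    (h2 : ∀ m ∈ S, m ∉ T.Dm) (g : V → ℕ) (h3 : ∀ m, m ∉ S → g m = T.col z m)
    (h4 : ∀ m ∈ S, g m < D) (h5 : ∀ a ∈ S, ∀ b, G.Adj a b → g a ≠ g b)
    (h6 : ∀ κ < D, (S.filter fun a => g a = κ ∧ T.col z a ≠ κ).card ≤ t)
    (h7 : ∀ κ < D, (S.filter fun a => T.col z a = κ ∧ g a ≠ κ).card ≤ t) : False := by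
  refine h z hz g (fun m k => h3 m fun e => h2 m e k) (fun m k => ?_) (fun a b e => ?_)
    (fun _ _ κ l => (card_le_card fun x k => ?_).trans (h6 κ l))
    fun _ _ κ l => (card_le_card fun x k => ?_).trans (h7 κ l)
  · by_cases q : m ∈ S
    · exact h4 m q
    · rw [h3 m q]; exact T.full z hz m k fun e => q (e ▸ h1)
  · by_cases p : a ∈ S
    · exact h5 a p b e
    by_cases q : b ∈ S
    · exact (h5 b q a e.symm).symm
    · rw [h3 a p, h3 b q]; exact T.prop z hz a b e
  · obtain ⟨_, k2, k3⟩ := mem_filter.1 k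
    refine mem_filter.2 ⟨?_, k2, k3⟩
    by_contra q
    exact k3 ((h3 x q).symm.trans k2)
  · obtain ⟨_, k2, k3⟩ := mem_filter.1 k
    refine mem_filter.2 ⟨?_, k2, k3⟩
    by_contra q
    exact k3 ((h3 x q).trans k2)

end Tr

end Pool.Agent.Lib.MP_12eaff_co.Acc2
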