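import Pool.Agent.Lib.MP_12eaff_co.Acc2.Count
import Pool.Agent.Lib.MP_12eaff_co.Acc2.Hole

set_option autoImplicit false
set_option linter.unusedSectionVars false

namespace Pool.Agent.Lib.MP_12eaff_co.Acc2

open Finset Pool.Agent.Lib.MP_12eaff_co.BK
open scoped Classical

variable {V : Type} [Fintype V] {G : SimpleGraph V} {D : ℕ}

/-- Trees with ports: no filling, degree bound without the soft ports, own ports do not repeat
the colour of a real parent.  Arcs may be dropped. -/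
structure IsB (T : Tr G D) : Prop where
  nf : T.NF 2
  deg : ∀ v, v ∉ T.Dm → (nb G v \ T.S2).card ≤ D + 1
  soft : ∀ v ∈ T.R, T.NS v v
  uqp : ∀ v ∈ T.R, v ≠ T.r → v ∈ T.O (T.p v) → ∀ m ∈ T.Dm, G.Adj v m → T.col v m ≠ T.c v

/-- All unique real neighbours are arcs. -/
structure IsA (T : Tr G D) : Prop extends IsB T where
  all : ∀ v ∈ T.R, ∀ u, u ∉ T.Dm → G.Adj v u → u ≠ T.p v → Uq G (T.col v) v u → u ∈ T.O v

/-- `v` can shift to `u` in its own state. -/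
def Pr (T : Tr G D) (v u : V) : Prop := G.Adj v u ∧ u ≠ T.p v ∧ Uq G (T.col v) v u

namespace IsB

variable {T : Tr G D}

open Tr

/-- A test on a real set without independent triple. -/
theorem hc (h : IsB T) {z : V} (hz : z ∈ T.R) {S : Finset V} (h1 : z ∈ S)
    (h2 : ∀ m ∈ S, m ∉ T.Dm) (h3 : Cov G S 2) : HC G D (T.fm z S) z (T.col z) :=
  h.nf.hc hz h1 h2 h3

theorem hc1 (h : IsB T) {z : V} (hz : z ∈ T.R) : HC G D (T.fm z {z}) z (T.col z) :=
  h.hc hz (mem_singleton_self z) (fun _ k => mem_singleton.1 k ▸ T.real z hz)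
    ((Cov.one z).le one_le_two)

theorem hc2 (h : IsB T) {z u : V} (hz : z ∈ T.R) (hu : u ∉ T.Dm) :
    HC G D (T.fm z {z, u}) z (T.col z) :=
  h.hc hz (mem_insert_self _ _) (by simpa using ⟨T.real z hz, hu⟩) (Cov.two z u)

/-- Visible degree of a real vertex without visible soft port. -/
theorem dg (h : IsB T) {z v : V} (hv : v ∉ T.Dm) (ns : T.NS z v) (S : Finset V) :
    (T.fm z S).Dg G D v := (card_le_card fun m k => by
  obtain ⟨a, b⟩ := mem_sdiff.1 k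
  exact mem_sdiff.2 ⟨a, fun e => b (mem_fm_B.2 (ns m e (mem_nb.1 a)))⟩).trans (h.deg v hv)

theorem dgo (h : IsB T) {z : V} (hz : z ∈ T.R) (S : Finset V) : (T.fm z S).Dg G D z :=
  h.dg (T.real z hz) (h.soft z hz) S

/-- A visible soft port is a port ticket. -/
theorem ns_or (h : IsB T) {z v : V} (hz : z ∈ T.R) (hv : v ∈ T.R) :
    T.NS z v ∨ ∃ m ∈ T.S2, G.Adj v m ∧ T.col z m < D ∧ T.Port z v (T.col z m) := by
  by_contra! k
  refine k.1 fun m a b => ?_
  by_contra e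
  have := T.dm_ne z hz m (T.S2_sub a)
  have := h.soft v hv m a b
  exact k.2 m a b (by omega) ⟨m, T.S2_sub a, b, rfl, by omega⟩

theorem adj_par (_ : IsB T) {v : V} (hv : v ∈ T.R) (hr : v ≠ T.r) (ho : v ∈ T.O (T.p v)) :
    G.Adj (T.p v) v := T.O_adj _ (T.p_mem v hv hr) v ho

theorem par_O (_ : IsB T) {v : V} (hv : v ∈ T.R) (hr : v ≠ T.r) (a : G.Adj (T.p v) v) :
    v ∈ T.O (T.p v) := Tr.ch_O (T.mem_ch.2 ⟨hv, hr, rfl⟩) (.inl a)

theorem uq_O (_ : IsB T) {v u : V} (hv : v ∈ T.R) (hu : u ∈ T.O v) : Uq G (T.col v) v u :=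
  T.uniq v hv u hu

/-- No real neighbour other than the parent has the colour of the parent. -/
theorem ne_par (_ : IsB T) {v m : V} (hv : v ∈ T.R) (hr : v ≠ T.r) (hm : G.Adj v m)
    (md : m ∉ T.Dm) (hne : m ≠ T.p v) : T.col v m ≠ T.c v := by
  rw [col_step hv hr md hm.ne.symm hne, ← col_p_self hv hr]
  exact (T.prop _ (T.p_mem v hv hr) v m hm).symm

/-- A real parent is unique at the hole. -/
theorem uq_par (h : IsB T) {v : V} (hv : v ∈ T.R) (hr : v ≠ T.r) (ho : v ∈ T.O (T.p v)) :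
    Uq G (T.col v) v (T.p v) := by
  intro m hm hne
  rw [col_par hv hr]
  by_cases md : m ∈ T.Dm
  exacts [h.uqp v hv hr ho m md hm, h.ne_par hv hr hm md hne]

/-- The coloured neighbours that are not unique at the hole. -/
noncomputable def _root_.Pool.Agent.Lib.MP_12eaff_co.Acc2.Tr.Bd (T : Tr G D) (w : V) : Finset V :=
  (nb G w).filter (fun m => ¬ Uq G (T.col w) w m ∧ T.col w m < D)

/-- Dropped arcs (unique ports included). -/
noncomputable def _root_.Pool.Agent.Lib.MP_12eaff_co.Acc2.Tr.Dr (T : Tr G D) (w : V) : Finset V :=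
  (nb G w).filter (fun m => Pr T w m ∧ m ∉ T.O w ∧ T.col w m < D)

theorem mem_Bd {w m : V} : m ∈ T.Bd w ↔ G.Adj w m ∧ ¬ Uq G (T.col w) w m ∧ T.col w m < D := by
  simp [Tr.Bd]

theorem mem_Bd' {w m : V} (hw : w ∈ T.R) (md : m ∉ T.Dm) :
    m ∈ T.Bd w ↔ G.Adj w m ∧ ¬ Uq G (T.col w) w m :=
  mem_Bd.trans ⟨fun k => ⟨k.1, k.2.1⟩, fun k => ⟨k.1, k.2, T.full w hw m md k.1.ne.symm⟩⟩

theorem mem_Dr {w m : V} : m ∈ T.Dr w ↔ Pr T w m ∧ m ∉ T.O w ∧ T.col w m < D := by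
  simp only [Tr.Dr, mem_filter, mem_nb]
  exact ⟨fun h => h.2, fun h => ⟨h.1.1, h⟩⟩

theorem pr_O (h : IsB T) {v u : V} (hv : v ∈ T.R) (hu : u ∈ T.O v) : Pr T v u :=
  ⟨T.O_adj v hv u hu, O_ne_p hv hu, h.uq_O hv hu⟩

theorem mem_H2 (h : IsB T) {w m : V} (hw : w ∈ T.R) : m ∈ T.H w ↔ m ∈ T.Bd w ∨ m ∈ T.Dr w := by
  rw [T.mem_H, mem_Bd, mem_Dr]
  refine ⟨fun ⟨h1, l, h3, h4⟩ => ?_, fun k => ?_⟩
  · by_cases e : Uq G (T.col w) w m
    exacts [.inr ⟨⟨h1, h4, e⟩, h3, l⟩, .inl ⟨h1, e, l⟩]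
  rcases k with ⟨h1, h2, l⟩ | ⟨⟨h1, h2, _⟩, h3, l⟩
  · refine ⟨h1, l, fun h3 => h2 (h.uq_O hw h3), fun e => ?_⟩
    by_cases hr : w = T.r
    · rw [hr, T.p_r] at e; exact h1.ne (hr.trans e.symm)
    · exact h2 (e ▸ h.uq_par hw hr (h.par_O hw hr (e ▸ h1.symm)))
  · exact ⟨h1, l, h3, h2⟩

theorem Bd_H (h : IsB T) {w m : V} (hw : w ∈ T.R) (hm : m ∈ T.Bd w) : m ∈ T.H w :=
  (h.mem_H2 hw).2 (.inl hm)

/-- Every hidden vertex has a partner of the same colour. -/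
theorem Bd_partner (_ : IsB T) {w a : V} (_ : w ∈ T.R) (ha : a ∈ T.Bd w) :
    ∃ b ∈ T.Bd w, b ≠ a ∧ T.col w b = T.col w a := by
  obtain ⟨h1, h2, l⟩ := mem_Bd.1 ha
  unfold Uq at h2
  push Not at h2
  obtain ⟨b, hb, hne, he⟩ := h2
  exact ⟨b, mem_Bd.2 ⟨hb, fun h3 => h3 a h1 hne.symm he.symm, he ▸ l⟩, hne, he⟩

/-- The hidden set is empty or a pair of equal colour. -/
theorem Bd_cases (h : IsB T) {w : V} (hw : w ∈ T.R) :
    T.Bd w = ∅ ∨ ∃ a b, a ≠ b ∧ T.col w a = T.col w b ∧ T.Bd w = {a, b} := by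
  rcases (T.Bd w).eq_empty_or_nonempty with e | ⟨a, ha⟩
  · exact Or.inl e
  obtain ⟨b, hb, hne, he⟩ := h.Bd_partner hw ha
  refine Or.inr ⟨a, b, hne.symm, he.symm, ?_⟩
  ext x
  simp only [mem_insert, mem_singleton]
  refine ⟨fun hx => ?_, fun hx => by rcases hx with rfl | rfl <;> assumption⟩
  by_contra hc
  push Not at hc
  obtain ⟨h1, h2, l⟩ := mem_Bd.1 hx
  exact h2 ((h.hc1 hw).double (h.dgo hw _) (mem_Bd.1 ha).1 (mem_Bd.1 hb).1 hne.symm he.symm
    (mem_Bd.1 ha).2.2 h1 l hc.1 hc.2)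

theorem card_Bd (h : IsB T) {w : V} (hw : w ∈ T.R) : (T.Bd w).card ≤ 2 := by
  rcases h.Bd_cases hw with e | ⟨a, b, _, _, e⟩
  · simp [e]
  · rw [e]; exact card_le_two

theorem Bd_col (h : IsB T) {w a b : V} (hw : w ∈ T.R) (ha : a ∈ T.Bd w) (hb : b ∈ T.Bd w) :
    T.col w a = T.col w b := by
  rcases h.Bd_cases hw with e | ⟨x, y, _, he, e⟩
  · simp [e] at ha
  · rw [e] at ha hb
    simp only [mem_insert, mem_singleton] at ha hb
    rcases ha with rfl | rfl <;> rcases hb with rfl | rfl <;> simp [he]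

theorem Bd_nadj (h : IsB T) {w a b : V} (hw : w ∈ T.R) (ha : a ∈ T.Bd w) (hb : b ∈ T.Bd w) :
    ¬ G.Adj a b := fun e => T.prop w hw a b e (h.Bd_col hw ha hb)

/-- Number of arcs out of a vertex. -/
theorem card_O2 (h : IsB T) {w : V} (hw : w ∈ T.R) : (T.O w).card + (T.Dr w).card +
    (if w ≠ T.r ∧ w ∈ T.O (T.p w) then 1 else 0) + (if T.Bd w = ∅ then 0 else 1) = D := by
  set U := (nb G w).filter (fun u => Uq G (T.col w) w u ∧ T.col w u < D) with hU
  have h1 : U.card = (T.O w).card + (T.Dr w).card +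
      (if w ≠ T.r ∧ w ∈ T.O (T.p w) then 1 else 0) := by
    have h2 : T.O w ∪ T.Dr w = U.erase (T.p w) := by
      ext u
      simp only [hU, mem_erase, mem_filter, mem_nb, mem_union, mem_Dr]
      have := h.pr_O (u := u) hw
      have := T.lt w hw u
      unfold Pr at *
      tauto
    rw [← card_union_of_disjoint (disjoint_left.2 fun u a b => (mem_Dr.1 b).2.1 a)]
    split_ifs with hr
    · rw [h2, card_erase_add_one]
      simp only [hU, mem_filter, mem_nb]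
      exact ⟨(h.adj_par hw hr.1 hr.2).symm, h.uq_par hw hr.1 hr.2,
        col_lt hw (T.p_mem w hw hr.1) (p_ne hw hr.1)⟩
    · rw [h2, erase_eq_of_notMem]
      · rfl
      · intro k
        have a := (mem_nb.1 (mem_filter.1 k).1).symm
        have e : w ≠ T.r := fun e => by rw [e, T.p_r] at a; exact a.ne rfl
        exact hr ⟨e, h.par_O hw e a⟩
  have h3 : (U.image (T.col w)).card = U.card := by
    refine card_image_of_injOn (fun a ha b hb e => ?_)
    simp only [hU, coe_filter, mem_nb, Set.mem_ofPred_eq] at ha hb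
    by_contra hne
    exact hb.2.1 a ha.1 hne e
  have h4 : nb G w \ (T.fm w {w}).B = U ∪ T.Bd w := by
    ext u
    simp only [hU, mem_union, mem_filter, mem_nb, mem_Bd, mem_sdiff, mem_fm_B]
    have : G.Adj w u → T.col w u ≠ D := fun a => col_ne_D hw a.ne.symm
    constructor
    · rintro ⟨a, b⟩
      have := this a
      have l : T.col w u < D := by omega
      tauto
    · rintro (⟨a, _, b⟩ | ⟨a, _, b⟩) <;> exact ⟨a, by omega⟩
  have h5 := (h.hc1 hw).image_nb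
  have h6 : Disjoint (U.image (T.col w)) ((T.Bd w).image (T.col w)) := by
    refine disjoint_left.2 (fun κ ha hb => ?_)
    obtain ⟨a, ha, e1⟩ := mem_image.1 ha
    obtain ⟨b, hb, e2⟩ := mem_image.1 hb
    simp only [hU, mem_filter, mem_nb] at ha
    obtain ⟨h7, h8, _⟩ := mem_Bd.1 hb
    exact ha.2.1 b h7 (fun e => h8 (e ▸ ha.2.1)) (e2.trans e1.symm)
  have h7 : ((T.Bd w).image (T.col w)).card = if T.Bd w = ∅ then 0 else 1 := by
    rcases h.Bd_cases hw with e | ⟨a, b, _, he, e⟩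
    · simp [e]
    · simp [e, he]
  rw [h4, image_union] at h5
  have h8 := congrArg card h5
  rw [card_union_of_disjoint h6, card_range, h3, h7, h1] at h8
  exact h8

theorem sum_real_par : ∑ v ∈ T.R, (if v ≠ T.r ∧ v ∈ T.O (T.p v) then 1 else 0) +
    ∑ v ∈ T.R, (T.CX v).card + 1 = T.R.card := by
  have h1 : (T.R.filter fun v => v ≠ T.r ∧ v ∉ T.O (T.p v)).card = ∑ w ∈ T.R,
      ((T.R.filter fun v => v ≠ T.r ∧ v ∉ T.O (T.p v)).filter fun x => T.p x = w).card :=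
    card_eq_sum_card_fiberwise fun x hx =>
      T.p_mem x (mem_filter.1 (mem_coe.1 hx)).1 (mem_filter.1 (mem_coe.1 hx)).2.1
  have h2 : ∀ w, ((T.R.filter fun v => v ≠ T.r ∧ v ∉ T.O (T.p v)).filter fun x => T.p x = w) =
      T.CX w := fun w => by
    ext x
    simp only [mem_filter, T.mem_CX, T.mem_ch]
    exact ⟨fun ⟨⟨a, b, c⟩, e⟩ => ⟨⟨a, b, e⟩, e ▸ c⟩, fun ⟨⟨a, b, e⟩, c⟩ => ⟨⟨a, b, e ▸ c⟩, e⟩⟩
  simp only [h2] at h1
  have h3 : ∑ v ∈ T.R, (if v = T.r then 1 else 0) = 1 := by simp [T.r_mem]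
  rw [← h1, card_filter, card_eq_sum_ones T.R, ← sum_add_distrib]
  nth_rewrite 3 [← h3]
  rw [← sum_add_distrib]
  refine sum_congr rfl fun v _ => ?_
  by_cases a : v = T.r <;> by_cases b : v ∈ T.O (T.p v) <;> simp [a, b]

/-- The regrouped budget with dropped arcs and passage children. -/
theorem budget2 (h : IsB T) (hD : 5 ≤ D) : ∑ v ∈ T.R, ((T.NT v).card + (T.Dr v).card) =
    ∑ v ∈ T.R, (D - 5 + 2 * (T.ch v).card + (if T.Bd v = ∅ then 1 else 0) +
      2 * (T.CX v).card) + 4 := by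
  have h1 := T.count
  have h2 := T.sum_ch
  have h3 : ∀ v ∈ T.R, (T.O v).card + (T.Dr v).card +
      (if v ≠ T.r ∧ v ∈ T.O (T.p v) then 1 else 0) =
      (D - 5 + (if T.Bd v = ∅ then 1 else 0)) + 4 := by
    intro v hv
    have := h.card_O2 hv
    split_ifs at this ⊢ <;> omega
  have h5 := sum_congr rfl h3
  have h6 := sum_real_par (T := T)
  simp only [sum_add_distrib, ← mul_sum, sum_const, smul_eq_mul] at h1 h5 ⊢
  omega

/-- A unique real neighbour of the hole is tight. -/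
theorem uq_tight (h : IsB T) {m v : V} (hm : m ∈ T.R) (vd : v ∉ T.Dm) (a : G.Adj m v)
    (hq : Uq G (T.col m) m v) : T.Tight m v := fun _ hκ hne =>
  (h.hc2 hm vd).uq_sees (by simp) a.ne.symm hq hκ hne

/-- A prober sees a tight vertex. -/
theorem probe_tight (h : IsB T) {m v : V} (hm : m ∈ T.R) (hv : v ∈ T.O m) : T.Tight m v :=
  h.uq_tight hm (O_real hm hv) (T.O_adj m hm v hv) (h.uq_O hm hv)

/-- Two hidden real vertices cannot both be recoloured. -/
theorem Bd_tight (h : IsB T) {w a b : V} (hw : w ∈ T.R) (ha : a ∈ T.Bd w) (hb : b ∈ T.Bd w)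
    (ad : a ∉ T.Dm) (bd : b ∉ T.Dm) (hab : a ≠ b) (h1 : ¬ T.Tight w a) : T.Tight w b := by
  unfold Tr.Tight at h1
  push Not at h1
  obtain ⟨κ, hκ, hne, hs⟩ := h1
  have haw := (mem_Bd.1 ha).1
  have hbw := (mem_Bd.1 hb).1
  have h0 := h.hc hw (S := {b, w, a}) (by simp) (by simpa using ⟨bd, T.real w hw, ad⟩)
    (Cov.edge1 haw b)
  have hr := h0.recol (by simp) haw.ne.symm hκ hs
  have hq : Uq G (Function.update (T.col w) a κ) w b := by
    intro m hm hmb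
    rw [Function.update_of_ne hab.symm]
    by_cases e : m = a
    · rw [e, Function.update_self, ← h.Bd_col hw ha hb]; exact hne
    · rw [Function.update_of_ne e]
      intro k
      exact h0.double (h.dgo hw _) haw hbw hab (h.Bd_col hw ha hb) (mem_Bd.1 ha).2.2 hm
        (k ▸ (mem_Bd.1 hb).2.2) e hmb b hbw hmb.symm k.symm
  intro ζ hζ hz
  obtain ⟨m, hm, e⟩ := hr.uq_sees (by simp) hbw.ne.symm hq hζ
    (by rwa [Function.update_of_ne hab.symm])
  have : m ≠ a := fun e2 => h.Bd_nadj hw hb ha (e2 ▸ hm)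
  rw [Function.update_of_ne this] at e
  exact ⟨m, hm, e⟩

end IsB

namespace IsA

variable {T : Tr G D}

open Tr

/-- In the plain tree a hidden real vertex is doubled. -/
theorem H_Bd (h : IsA T) {w m : V} (hw : w ∈ T.R) (md : m ∉ T.Dm) : m ∈ T.H w ↔ m ∈ T.Bd w :=
  ⟨fun k => ((h.mem_H2 hw).1 k).resolve_right fun e => by
    obtain ⟨⟨a, b, c⟩, d, _⟩ := IsB.mem_Dr.1 e
    exact d (h.all w hw m md a b c), h.Bd_H hw⟩

theorem mem_H' (h : IsA T) {w m : V} (hw : w ∈ T.R) (md : m ∉ T.Dm) :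
    m ∈ T.H w ↔ G.Adj w m ∧ ¬ Uq G (T.col w) w m := (h.H_Bd hw md).trans (IsB.mem_Bd' hw md)

theorem Dr_dm (h : IsA T) {w m : V} (hw : w ∈ T.R) (k : m ∈ T.Dr w) : m ∈ T.Dm := by
  by_contra md
  obtain ⟨⟨a, b, c⟩, d, _⟩ := IsB.mem_Dr.1 k
  exact d (h.all w hw m md a b c)

/-- At most two real vertices are hidden. -/
theorem card_H (h : IsA T) {w : V} (hw : w ∈ T.R) {s : Finset V} (h1 : s ⊆ T.H w)
    (h2 : ∀ m ∈ s, m ∉ T.Dm) : s.card ≤ 2 :=
  (card_le_card fun m k => (h.H_Bd hw (h2 m k)).1 (h1 k)).trans (h.card_Bd hw)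

theorem H_col (h : IsA T) {w a b : V} (hw : w ∈ T.R) (ha : a ∈ T.H w) (hb : b ∈ T.H w)
    (ad : a ∉ T.Dm) (bd : b ∉ T.Dm) : T.col w a = T.col w b :=
  h.Bd_col hw ((h.H_Bd hw ad).1 ha) ((h.H_Bd hw bd).1 hb)

theorem H_nadj (h : IsA T) {w a b : V} (hw : w ∈ T.R) (ha : a ∈ T.H w) (hb : b ∈ T.H w)
    (ad : a ∉ T.Dm) (bd : b ∉ T.Dm) : ¬ G.Adj a b :=
  fun e => T.prop w hw a b e (h.H_col hw ha hb ad bd)

theorem H_tight (h : IsA T) {w a b : V} (hw : w ∈ T.R) (ha : a ∈ T.H w) (hb : b ∈ T.H w)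
    (ad : a ∉ T.Dm) (bd : b ∉ T.Dm) (hab : a ≠ b) (h1 : ¬ T.Tight w a) : T.Tight w b :=
  h.Bd_tight hw ((h.H_Bd hw ad).1 ha) ((h.H_Bd hw bd).1 hb) ad bd hab h1

/-- `T0` tails of `u`. -/
noncomputable def W (T : Tr G D) (u : V) : Finset V := (nb G u).filter (fun v => T.PayZ v u)

theorem mem_W {u v : V} : v ∈ W T u ↔ G.Adj u v ∧ T.PayZ v u := by simp [W]

theorem W_uq {u v : V} (hu : u ∈ T.R) (hv : v ∈ W T u) : Uq G (T.col (T.p u)) v u := by
  obtain ⟨_, h1, _, _, h4, _⟩ := mem_W.1 hv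
  intro m hm hne e
  rw [col_p_self hu h1] at e
  exact hne (h4 m hm e)

theorem W_mem {u v : V} (hu : u ∈ T.R) (hv : v ∈ W T u) : v ∈ T.R :=
  (T.clo _ (T.p_mem u hu (mem_W.1 hv).2.1) v (mem_W.1 hv).2.2.1).1

theorem W_real {u v : V} (hu : u ∈ T.R) (hv : v ∈ W T u) : v ∉ T.Dm := T.real v (W_mem hu hv)

theorem W_par {u v : V} (hv : v ∈ W T u) : u ∈ T.O (T.p u) := (mem_W.1 hv).2.2.2.2.2

/-- The colour of a `T0` tail is the same in `s(u)` and in the state of the parent. -/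
theorem W_col {u v : V} (hu : u ∈ T.R) (hv : v ∈ W T u) : T.col u v = T.col (T.p u) v := by
  obtain ⟨h0, h1, h2, _⟩ := mem_W.1 hv
  exact col_step hu h1 (W_real hu hv) h0.ne.symm (T.O_adj _ (T.p_mem u hu h1) v h2).ne.symm

theorem W0_sub {S Use : V → V → Prop} {u : V} : T.W0 S Use u ⊆ W T u := by
  intro v hv
  obtain ⟨h1, h2, h3, _⟩ := (T.mem_W0 S Use).1 hv
  exact mem_W.2 ⟨(T.O_adj v h1 u (T.mem_NT.1 h2).1).symm, h3⟩

end IsA

namespace IsB

variable {T : Tr G D}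

open Tr IsA

/-- A `T0` tail is unique at its head in the state of the parent, or the head hides it, or the
head has a port ticket for its colour. -/
theorem W_clean2 (_ : IsB T) {u v : V} (hu : u ∈ T.R) (hv : v ∈ W T u) (hn : v ∉ T.Bd u) :
    Uq G (T.col (T.p u)) u v ∨ T.Port (T.p u) u (T.col u v) := by
  obtain ⟨h0, h1, h2, _⟩ := mem_W.1 hv
  have hq := T.p_mem u hu h1
  have h5 : Uq G (T.col u) u v := by
    by_contra hc; exact hn ((mem_Bd' hu (W_real hu hv)).2 ⟨h0, hc⟩)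
  by_contra! k
  refine k.1 fun m hm hne e => ?_
  rw [← W_col hu hv] at e
  by_cases md : m ∈ T.Dm
  · exact k.2 ⟨m, md, hm, e, h5 m hm hne⟩
  by_cases e' : m = T.p u
  · have := col_lt hu (W_mem hu hv) h0.ne.symm
    rw [e', col_self hq] at e; omega
  · exact h5 m hm hne (by rw [col_step hu h1 md hm.ne.symm e', e])

/-- At most one `T0` tail is hidden by its head. -/
theorem W_soft2 (h : IsB T) {u v w : V} (hu : u ∈ T.R) (hv : v ∈ W T u) (hw : w ∈ W T u)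
    (h1 : v ∈ T.Bd u) (h2 : w ∈ T.Bd u) : v = w := by
  refine O_inj (T.p_mem u hu (mem_W.1 hv).2.1) (mem_W.1 hv).2.2.1 (mem_W.1 hw).2.2.1 ?_
  rw [← W_col hu hv, ← W_col hu hw]
  exact h.Bd_col hu h1 h2

/-- At most one `T0` tail is not unique at its head in the state of the parent. -/
theorem W_soft3 (h : IsB T) {u v w : V} (hu : u ∈ T.R) (ns : T.NS (T.p u) u) (hv : v ∈ W T u)
    (hw : w ∈ W T u) (h1 : ¬ Uq G (T.col (T.p u)) u v) (h2 : ¬ Uq G (T.col (T.p u)) u w) :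
    v = w := by
  obtain ⟨a0, a1, a2, _⟩ := mem_W.1 hv
  obtain ⟨b0, _, b2, _⟩ := mem_W.1 hw
  have hq := T.p_mem u hu a1
  have h0 := h.hc2 hq (T.real u hu)
  have hs := h0.shift (by simp) (p_ne hu a1).symm (h.uq_O hq (W_par hv))
  have e : ∀ m, G.Adj u m → T.col (T.p u) m < D →
      shift D (T.col (T.p u)) (T.p u) u m = T.col (T.p u) m := fun m a l => by
    rw [shift, Function.update_of_ne a.ne.symm, Function.update_of_ne (h0.ne_hole l)]
  have lv := T.lt _ hq v a2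
  have lw := T.lt _ hq w b2
  unfold Uq at h1 h2
  push Not at h1 h2
  obtain ⟨m, m1, m2, m3⟩ := h1
  obtain ⟨n, n1, n2, n3⟩ := h2
  by_contra ne
  by_cases k : w = m
  · exact ne (O_inj hq a2 b2 (by rw [k, m3]))
  refine hs.double (h.dg (T.real u hu) ns _) a0 m1 m2.symm
    (by rw [e v a0 lv, e m m1 (m3 ▸ lv), m3]) (by rwa [e v a0 lv]) b0 (by rwa [e w b0 lw])
    (Ne.symm ne) k n n1 n2 ?_
  rw [e w b0 lw, e n n1 (n3 ▸ lw), n3]

/-- A clean `T0` tail is adjacent to every other `T0` tail. -/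
theorem W_adj' (h : IsB T) {u v w : V} (hu : u ∈ T.R) (hv : v ∈ W T u) (hw : w ∈ W T u)
    (hne : v ≠ w) (hn : Uq G (T.col (T.p u)) u v) : G.Adj v w := by
  obtain ⟨a0, a1, a2, _⟩ := mem_W.1 hv
  obtain ⟨b0, _, b2, _⟩ := mem_W.1 hw
  have hq := T.p_mem u hu a1
  exact (h.hc hq (S := {T.p u, v, u, w}) (by simp)
    (by simpa using ⟨T.real _ hq, W_real hu hv, T.real u hu, W_real hu hw⟩)
    (Cov.edges (T.O_adj _ hq v a2) b0)).swap_adj (by simp) (by simp) (by simp)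
    (p_ne hu a1).symm (T.O_adj _ hq v a2)
    (T.O_adj _ hq w b2).ne.symm (h.uq_O hq b2) a0 b0 (W_uq hu hv) (W_uq hu hw) hn hne

/-- CLIQUE CLAIM: two `T0` tails of one head are adjacent. -/
theorem W_adj (h : IsB T) {u v w : V} (hu : u ∈ T.R) (ns : T.NS (T.p u) u) (hv : v ∈ W T u)
    (hw : w ∈ W T u) (hne : v ≠ w) : G.Adj v w := by
  by_cases h1 : Uq G (T.col (T.p u)) u v
  · exact h.W_adj' hu hv hw hne h1
  · exact (h.W_adj' hu hw hv hne.symm (by
      by_contra h2; exact hne (h.W_soft3 hu ns hv hw h1 h2))).symm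

theorem W_clq (h : IsB T) {u : V} (hu : u ∈ T.R) (hr : u ≠ T.r) (ho : u ∈ T.O (T.p u))
    (ns : T.NS (T.p u) u) : IsClq G (insert (T.p u) (insert u (W T u))) ∧
      (insert (T.p u) (insert u (W T u))).card = (W T u).card + 2 := by
  have hq := T.p_mem u hu hr
  have h1 : ∀ v ∈ W T u, G.Adj u v ∧ G.Adj (T.p u) v :=
    fun v hv => ⟨(mem_W.1 hv).1, T.O_adj _ hq v (mem_W.1 hv).2.2.1⟩
  have h2 := h.adj_par hu hr ho
  constructor
  · intro a ha b hb hab
    simp only [mem_insert] at ha hb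
    rcases ha with rfl | rfl | ha <;> rcases hb with rfl | rfl | hb
    · exact absurd rfl hab
    · exact h2
    · exact (h1 b hb).2
    · exact h2.symm
    · exact absurd rfl hab
    · exact (h1 b hb).1
    · exact (h1 a ha).2.symm
    · exact (h1 a ha).1.symm
    · exact h.W_adj hu ns ha hb hab
  · rw [card_insert_of_notMem, card_insert_of_notMem]
    · exact fun e => (h1 u e).1.ne rfl
    · simp only [mem_insert, not_or]
      exact ⟨h2.ne, fun e => (h1 _ e).2.ne rfl⟩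

end IsB

end Pool.Agent.Lib.MP_12eaff_co.Acc2
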