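import Pool.Agent.Lib.MP_12eaff_co.Acc2.Replay

set_option autoImplicit false
set_option linter.unusedSectionVars false

namespace Pool.Agent.Lib.MP_12eaff_co.Acc2

open Finset Pool.Agent.Lib.MP_12eaff_co.BK
open scoped Classical

variable {V : Type} [Fintype V] {G : SimpleGraph V} {D : ℕ}

/-- Transfers between vertices do not change the total. -/
theorem transfer (R : Finset V) (cost cap : V → ℕ) (give : V → V → ℕ)
    (h : ∀ y ∈ R, cost y + ∑ x ∈ R, give y x ≤ cap y + ∑ x ∈ R, give x y) :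
    ∑ y ∈ R, cost y ≤ ∑ y ∈ R, cap y := by
  have := sum_le_sum h
  rw [sum_add_distrib, sum_add_distrib, sum_comm] at this
  omega

namespace Tr

variable (T : Tr G D) (Use : V → V → Prop)

/-- The pair of head `x` and tail `v` has target `u`. -/
def Pr (x v u : V) : Prop := x ∈ T.R ∧ x ≠ T.r ∧ v ∈ T.H (T.p x) ∧ T.tc x v = T.col v u

/-- The arc `v → u` has a port ticket in some state. -/
def PT (v u : V) : Prop := ∃ z ∈ T.R, T.Port z v (T.col v u)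

def HasQ (v u : V) : Prop := (∃ x, T.Pr x v u ∧ Use x v) ∨ T.PT v u

noncomputable def tQ (v : V) : Finset V := (T.NT v).filter fun u => T.PayT v u ∧ ¬ T.HasQ Use v u

noncomputable def WQ (u : V) : Finset V :=
  T.R.filter fun v => u ∈ T.NT v ∧ (T.PayZ v u ∧ ¬ T.PayT v u ∧ ¬ T.HasQ Use v u)

/-- Tails of the arcs into `w` that have no other payer. -/
noncomputable def nuQ (w : V) : Finset V :=
  T.R.filter fun v => w ∈ T.NT v ∧ (¬ T.PayZ v w ∧ ¬ T.PayT v w ∧ ¬ T.HasQ Use v w)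

/-- Used pairs with head `x`. -/
noncomputable def piQ (x : V) : Finset V :=
  T.R.filter fun v => Use x v ∧ ∃ u ∈ T.NT v, T.Pr x v u ∧ ¬ T.PT v u

/-- Arcs out of `v` with a port ticket. -/
noncomputable def ptQ (v : V) : Finset V := (T.O v).filter (T.PT v)

/-- Non-tree arcs with a port ticket. -/
noncomputable def ptN (v : V) : Finset V := (T.NT v).filter (T.PT v)

/-- Port tokens: tree arcs with a port ticket. -/
noncomputable def ptC (v : V) : Finset V := (T.ch v).filter fun u => u ∈ T.O v ∧ T.PT v u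

noncomputable def costQ (y : V) : ℕ :=
  (T.tQ Use y).card + (T.WQ Use y).card + (T.nuQ Use y).card + (T.piQ Use y).card + (T.ptN y).card

variable {T Use} {u v w x z : V}

theorem mem_tQ : u ∈ T.tQ Use v ↔ u ∈ T.NT v ∧ T.PayT v u ∧ ¬ T.HasQ Use v u := mem_filter

theorem mem_WQ : v ∈ T.WQ Use u ↔
    v ∈ T.R ∧ u ∈ T.NT v ∧ T.PayZ v u ∧ ¬ T.PayT v u ∧ ¬ T.HasQ Use v u := mem_filter

theorem mem_nuQ : v ∈ T.nuQ Use w ↔
    v ∈ T.R ∧ w ∈ T.NT v ∧ ¬ T.PayZ v w ∧ ¬ T.PayT v w ∧ ¬ T.HasQ Use v w := mem_filter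

theorem mem_piQ : v ∈ T.piQ Use x ↔
    v ∈ T.R ∧ Use x v ∧ ∃ u ∈ T.NT v, T.Pr x v u ∧ ¬ T.PT v u := mem_filter

theorem mem_ptQ : u ∈ T.ptQ v ↔ u ∈ T.O v ∧ T.PT v u := mem_filter

theorem mem_ptN : u ∈ T.ptN v ↔ u ∈ T.NT v ∧ T.PT v u := mem_filter

theorem mem_ptC : u ∈ T.ptC v ↔ u ∈ T.ch v ∧ u ∈ T.O v ∧ T.PT v u := mem_filter

theorem card_ptQ (T : Tr G D) (v : V) : (T.ptQ v).card = (T.ptN v).card + (T.ptC v).card := by
  rw [← card_union_of_disjoint (disjoint_left.2 fun u a b =>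
    (T.mem_NT.1 (mem_ptN.1 a).1).2 (mem_ptC.1 b).1)]
  congr 1
  ext u
  simp only [mem_union, mem_ptQ, mem_ptN, mem_ptC, T.mem_NT]
  tauto

theorem PayP.pr {S : V → Prop} (h : T.PayP S x v u) : T.Pr x v u :=
  ⟨h.1, h.2.1, h.2.2.1, h.2.2.2.1⟩

theorem Port.pt (h : T.Port z v (T.col v u)) (hz : z ∈ T.R) : T.PT v u := ⟨z, hz, h⟩

theorem PT.hasQ (h : T.PT v u) : T.HasQ Use v u := .inr h

theorem Pr.hasQ (h : T.Pr x v u) (k : Use x v) : T.HasQ Use v u := .inl ⟨x, h, k⟩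

/-- The tail of a pair with a leaf head is not below the head. -/
theorem Pr.leaf_nanc (k : T.Pr x v u) (hx : T.ch x = ∅) : ¬ T.Anc x v := fun z => by
  obtain rfl := leaf_anc hx z
  exact (T.mem_H.1 k.2.2.1).2.2.1
    (ch_O (T.mem_ch.2 ⟨k.1, k.2.1, rfl⟩) (.inl (T.mem_H.1 k.2.2.1).1))

theorem card_tQ (hv : v ∈ T.R) : (T.tQ Use v).card ≤ 1 := card_le_one.2 fun _ ha _ hb =>
  O_inj hv (T.mem_NT.1 (mem_tQ.1 ha).1).1 (T.mem_NT.1 (mem_tQ.1 hb).1).1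
    ((mem_tQ.1 ha).2.1.2.trans (mem_tQ.1 hb).2.1.2.symm)

theorem piQ_sub : T.piQ Use x ⊆ T.H (T.p x) := fun _ h => by
  obtain ⟨-, -, u, -, k, -⟩ := mem_piQ.1 h
  exact k.2.2.1

theorem piQ_real (h : v ∈ T.piQ Use x) : v ∉ T.Dm := T.real v (mem_piQ.1 h).1

theorem piQ_r : T.piQ Use T.r = ∅ := eq_empty_of_forall_notMem fun v k => by
  obtain ⟨-, -, u, -, k, -⟩ := mem_piQ.1 k
  exact k.2.1 rfl

theorem accountQ (T : Tr G D) (Use : V → V → Prop) :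
    ∑ v ∈ T.R, (T.NT v).card ≤ ∑ v ∈ T.R, T.costQ Use v := by
  simp only [costQ, sum_add_distrib]
  have h1 : ∑ v ∈ T.R, ((T.NT v).filter
      fun u => T.PayZ v u ∧ ¬ T.PayT v u ∧ ¬ T.HasQ Use v u).card = ∑ v ∈ T.R, (T.WQ Use v).card := by
    unfold WQ
    convert T.sum_head fun v u => T.PayZ v u ∧ ¬ T.PayT v u ∧ ¬ T.HasQ Use v u
  have h2 : ∑ v ∈ T.R, ((T.NT v).filter fun u => ¬ T.PayZ v u ∧ ¬ T.PayT v u ∧
      ¬ T.HasQ Use v u).card = ∑ v ∈ T.R, (T.nuQ Use v).card := by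
    unfold nuQ
    convert T.sum_head fun v u => ¬ T.PayZ v u ∧ ¬ T.PayT v u ∧ ¬ T.HasQ Use v u
  have h3 : ∑ v ∈ T.R, ((T.NT v).filter fun u => T.HasQ Use v u ∧ ¬ T.PT v u).card ≤
      ∑ x ∈ T.R, (T.piQ Use x).card := by
    have : ∑ x ∈ T.R, (T.piQ Use x).card = ∑ v ∈ T.R,
        (T.R.filter fun x => Use x v ∧ ∃ u ∈ T.NT v, T.Pr x v u ∧ ¬ T.PT v u).card := by
      simp only [piQ, card_filter]
      exact sum_comm
    rw [this]
    refine sum_le_sum fun v hv => ?_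
    have : ∀ u, ∃ x, T.HasQ Use v u ∧ ¬ T.PT v u → T.Pr x v u ∧ Use x v := fun u => by
      by_cases k : ∃ x, T.Pr x v u ∧ Use x v
      exacts [k.imp fun _ k _ => k, ⟨u, fun x => absurd (x.1.resolve_right x.2) k⟩]
    choose f hf using this
    refine card_le_card_of_injOn f (fun u k => ?_) fun a ha b hb e => ?_
    · obtain ⟨k1, k2⟩ := mem_filter.1 k
      exact mem_filter.2 ⟨(hf u k2).1.1, (hf u k2).2, u, k1, (hf u k2).1, k2.2⟩
    · obtain ⟨a1, a2⟩ := mem_filter.1 ha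
      obtain ⟨b1, b2⟩ := mem_filter.1 hb
      exact O_inj hv (T.mem_NT.1 a1).1 (T.mem_NT.1 b1).1
        (by rw [← (hf a a2).1.2.2.2, e, (hf b b2).1.2.2.2])
  have h4 : ∀ v ∈ T.R, (T.NT v).card ≤ (T.tQ Use v).card +
      ((T.NT v).filter fun u => T.PayZ v u ∧ ¬ T.PayT v u ∧ ¬ T.HasQ Use v u).card +
      ((T.NT v).filter fun u => ¬ T.PayZ v u ∧ ¬ T.PayT v u ∧ ¬ T.HasQ Use v u).card +
      ((T.NT v).filter fun u => T.HasQ Use v u ∧ ¬ T.PT v u).card + (T.ptN v).card := fun v _ => by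
    simp only [tQ, ptN, card_filter, ← sum_add_distrib]
    rw [card_eq_sum_ones]
    refine sum_le_sum fun u _ => ?_
    by_cases a : T.PayT v u <;> by_cases b : T.PayZ v u <;> by_cases c : T.HasQ Use v u <;>
      by_cases d : T.PT v u <;> simp [a, b, c, d]
  have h5 := sum_le_sum h4
  simp only [sum_add_distrib] at h5
  omega

theorem costQ_r : T.costQ Use T.r = (T.nuQ Use T.r).card := by
  have h1 : T.WQ Use T.r = ∅ := eq_empty_of_forall_notMem fun v k => (mem_WQ.1 k).2.2.1.1 rfl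
  simp [costQ, tQ, ptN, NT_r, h1, piQ_r]

/-- A pair whose head is adjacent to, and not above, the hidden vertex is a triangle pair. -/
theorem pr_tri (hv : v ∈ T.R) (hu : u ∈ T.O v) (k : T.Pr x v u) (a : G.Adj v x)
    (n : ¬ T.Anc x v) : x = u := by
  by_contra e
  exact T.uniq v hv u hu x a e (by rw [col_base hv (T.real x k.1) n, ← k.2.2.2, tc, if_neg n])

/-- An arc without payer is unexplained, or all its good pairs are declined. -/
theorem nuQ_esc {S : V → V → Prop} (hS : T.IsSig v (S v)) (hv : v ∈ T.nuQ Use w) :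
    v ∈ T.nuS S w ∨ ∃ x, T.PayP (S v) x v w ∧ ¬ Use x v := by
  obtain ⟨h1, h2, h3, h4, h5⟩ := mem_nuQ.1 hv
  by_cases k : T.Expl (S v) v w
  · rcases lemE hS h1 (T.mem_NT.1 h2).1 k with z | z | ⟨x, z⟩ | ⟨z, a, b⟩
    exacts [absurd z h4, absurd z h3, .inr ⟨x, z, fun y => h5 (z.pr.hasQ y)⟩,
      absurd (b.pt (hS.mem z a)).hasQ h5]
  · exact .inl ((T.mem_nuS _).2 ⟨h1, h2, k⟩)

end Tr

namespace IsA

variable {T : Tr G D} {Use : V → V → Prop} {u w : V}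

open Tr

theorem WQ_spec (hw : w ∈ T.WQ Use u) : w ∈ W T u ∧ u ∈ T.O w := by
  obtain ⟨h1, h2, h3, -⟩ := mem_WQ.1 hw
  exact ⟨mem_W.2 ⟨(T.O_adj w h1 u (T.mem_NT.1 h2).1).symm, h3⟩, (T.mem_NT.1 h2).1⟩

theorem WQ_sub : T.WQ Use u ⊆ W T u := fun _ k => (WQ_spec k).1

end IsA

theorem IsB.finalQ {T : Tr G D} (h : IsB T) (hD : 5 ≤ D) (Use : V → V → Prop) :
    ∑ y ∈ T.R, (D - 3 + (if T.Bd y = ∅ then 1 else 0) + 2 * (T.CX y).card) + 2 ≤
      ∑ y ∈ T.R, (T.costQ Use y + (T.Dr y).card) := by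
  have h1 := T.accountQ Use
  have h2 := h.budget2 hD
  have h3 := T.sum_ch
  have h4 : ∑ y ∈ T.R, (D - 3 + (if T.Bd y = ∅ then 1 else 0) + 2 * (T.CX y).card) =
      ∑ y ∈ T.R, ((D - 5) + 2 + (if T.Bd y = ∅ then 1 else 0) + 2 * (T.CX y).card) :=
    sum_congr rfl fun _ _ => by omega
  simp only [sum_add_distrib, ← mul_sum, sum_const, smul_eq_mul] at h2 h4 ⊢
  omega

end Pool.Agent.Lib.MP_12eaff_co.Acc2
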