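import Pool.Agent.Lib.MP_12eaff_co.Acc2.E2
import Pool.Agent.Lib.MP_12eaff_co.Acc2.Cnt2

set_option autoImplicit false
set_option linter.unusedSectionVars false

namespace Pool.Agent.Lib.MP_12eaff_co.Acc2

open Finset Pool.Agent.Lib.MP_12eaff_co.BK
open scoped Classical

variable {V : Type} [Fintype V] {G : SimpleGraph V} {D : ℕ}

namespace Tr

variable (T : Tr G D)

/-- Internal heads whose parent has `v` as a double: the free supply of the tail `v`. -/
noncomputable def Int (v : V) : Finset V :=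
  T.R.filter fun x => x ≠ T.r ∧ T.ch x ≠ ∅ ∧ v ∈ T.Bd (T.p x)

variable {T} {v x : V}

theorem mem_Int : x ∈ T.Int v ↔ x ∈ T.R ∧ x ≠ T.r ∧ T.ch x ≠ ∅ ∧ v ∈ T.Bd (T.p x) := mem_filter

/-- Supply of one tail: targets `A` with named heads and hiders `B` with a free head. -/
theorem tail_count (hv : v ∈ T.R) (A B : Finset V) (σ : V → V) (hA : A ⊆ T.O v)
    (h1 : ∀ u ∈ A, σ u ∈ T.Int v ∧ T.tc (σ u) v = T.col v u)
    (h2 : ∀ m ∈ B, ∃ x ∈ T.Int v, T.p x = m ∧ ∀ u ∈ A, σ u ≠ x) :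
    A.card + B.card ≤ (T.Int v).card := by
  choose! τ t1 t2 t3 using h2
  have c1 : (A.image σ).card = A.card := card_image_of_injOn fun a ha b hb e =>
    O_inj hv (hA ha) (hA hb) (by rw [← (h1 a ha).2, e, (h1 b hb).2])
  have c2 : (B.image τ).card = B.card := card_image_of_injOn fun a ha b hb e => by
    rw [← t2 a ha, e, t2 b hb]
  rw [← c1, ← c2, ← card_union_of_disjoint]
  · refine card_le_card (union_subset ?_ ?_) <;> intro x hx <;>
      obtain ⟨a, ha, rfl⟩ := mem_image.1 hx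
    exacts [(h1 a ha).1, t1 a ha]
  · refine disjoint_left.2 fun x h3 h4 => ?_
    obtain ⟨a, ha, rfl⟩ := mem_image.1 h3
    obtain ⟨b, hb, e⟩ := mem_image.1 h4
    exact t3 b hb a ha e.symm

end Tr

namespace IsB

variable {T : Tr G D}

open Tr

theorem sum_Int (h : IsB T) : ∑ v ∈ T.R, (T.Int v).card +
    ∑ x ∈ T.R, (if x ≠ T.r ∧ T.ch x = ∅ then 2 else 0) ≤ ∑ w ∈ T.R, 2 * (T.ch w).card := by
  have h1 : ∑ v ∈ T.R, (T.Int v).card = ∑ x ∈ T.R, (T.R.filter fun v =>
      x ≠ T.r ∧ T.ch x ≠ ∅ ∧ v ∈ T.Bd (T.p x)).card := by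
    simp only [Tr.Int, card_filter]
    exact sum_comm
  have h2 : ∑ w ∈ T.R, 2 * (T.ch w).card = ∑ x ∈ T.R, if x = T.r then 0 else 2 := by
    rw [← T.sum_sum_ch fun _ => 2]
    exact sum_congr rfl fun w _ => by rw [sum_const, smul_eq_mul, mul_comm]
  rw [h1, h2, ← sum_add_distrib]
  refine sum_le_sum fun x hx => ?_
  by_cases e : x = T.r
  · simp [e]
  by_cases e2 : T.ch x = ∅
  · simp [e, e2]
  · rw [if_neg e, if_neg (fun k => e2 k.2), add_zero]
    exact (card_le_card fun v hv => (mem_filter.1 hv).2.2.2).trans (h.card_Bd (T.p_mem x hx e))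

/-- The account in supply form: internal heads always accept their two units. -/
theorem final_sup (h : IsB T) (hD : 5 ≤ D) (ext give : V → ℕ)
    (k : ∀ v ∈ T.R, (T.NT v).card + give v ≤ (T.Int v).card + ext v) :
    ∑ v ∈ T.R, (D - 5 + (if v ≠ T.r ∧ T.ch v = ∅ then 2 else 0) + (if T.Bd v = ∅ then 1 else 0) +
      2 * (T.CX v).card + give v) + 4 ≤ ∑ v ∈ T.R, (ext v + (T.Dr v).card) := by
  have h1 := h.budget2 hD
  have h2 := h.sum_Int
  have h3 := sum_le_sum k
  simp only [sum_add_distrib] at h1 h3 ⊢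
  omega

end IsB

end Pool.Agent.Lib.MP_12eaff_co.Acc2
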