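import Pool.Agent.Lib.MP_12eaff_co.Acc2.G01
import Pool.Agent.Lib.MP_12eaff_co.Acc2.Cnt4
import Pool.Agent.Lib.MP_12eaff_co.ATD

set_option autoImplicit false
set_option linter.unusedSectionVars false

namespace Pool.Agent.Lib.MP_12eaff_co.Acc2

open Finset Pool.Agent.Lib.MP_12eaff_co.BK
open scoped Classical

variable {V : Type} [Fintype V] {G : SimpleGraph V} {D : ℕ}

/-- `t` is charged only on mutual arcs. -/
def MT (T : Tr G D) (a e : V) : Prop := a ∈ T.O e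

/-- Clean charged `T0` tails. -/
noncomputable def Zc (T : Tr G D) (u : V) : Finset V := (T.WQ (O0 T) u).filter (· ∈ T.O u)

/-- The other charged tails. -/
noncomputable def Xc (T : Tr G D) (u : V) : Finset V :=
  (T.WQ (O0 T) u ∪ T.nE (MT T) (O0 T) u ∪ if T.ch u = ∅ then T.piQ (O0 T) u else ∅) \ Zc T u

/-- Load without the pair units of internal heads. -/
noncomputable def ld (T : Tr G D) (u : V) : ℕ :=
  (T.tE (MT T) (O0 T) u).card + (Zc T u).card + (Xc T u).card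

/-- Colours of the port tickets of `u`. -/
noncomputable def PA (T : Tr G D) (u : V) : Finset ℕ :=
  (range D).filter fun κ => ∃ z ∈ T.R, T.Port z u κ

/-- Hanger property of the vertices of `R`. -/
def Hg (G : SimpleGraph V) (R : Finset V) : Prop := ∀ b ∈ R, ∀ K ⊆ R, IsClq G K → b ∉ K →
  4 ≤ (K.filter (G.Adj b)).card → ∀ w ∈ K, ∀ w' ∈ K, ¬ G.Adj b w → ¬ G.Adj b w' → w = w'

/-- A clique with all vertices that have four neighbours in it is a clique with at most one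
twin. -/
theorem near {Dm R K N : Finset V} (hS : AT.Stat G D Dm) (o : ∀ v ∈ R, v ∉ Dm) (hg : Hg G R)
    (hK : IsClq G K) (c7 : 7 ≤ K.card) (kR : K ⊆ R) (nR : N ⊆ R)
    (hN : ∀ b ∈ N, 4 ≤ (K.filter (G.Adj b)).card) : ∃ Q, IsClq G Q ∧ K ⊆ Q ∧ Q ⊆ K ∪ N ∧
      (K ∪ N ⊆ Q ∨ ∃ a z, a ∉ Q ∧ z ∈ Q ∧ a ∈ N ∧ K ∪ N ⊆ insert a Q ∧ ¬ G.Adj a z ∧
        ∀ w ∈ Q, w ≠ z → G.Adj a w) := by
  obtain ⟨Q, q0, qm⟩ := exists_max_image
    ((K ∪ N).powerset.filter fun Q => IsClq G Q ∧ K ⊆ Q) card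
    ⟨K, mem_filter.2 ⟨mem_powerset.2 subset_union_left, hK, Subset.rfl⟩⟩
  simp only [mem_filter, mem_powerset] at q0 qm
  obtain ⟨q1, q2, q3⟩ := q0
  have qR : Q ⊆ R := q1.trans (union_subset kR nR)
  have cQ := card_le_card q3
  have one : ∀ b ∈ N, b ∉ Q → ∃ z ∈ Q, ¬ G.Adj b z ∧ ∀ w ∈ Q, w ≠ z → G.Adj b w := fun b k n => by
    obtain ⟨z, z1, z2⟩ : ∃ z ∈ Q, ¬ G.Adj b z := by
      by_contra! c
      have := qm (insert b Q) ⟨insert_subset (mem_union_right _ k) q1, fun x p y q e => by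
        rcases mem_insert.1 p with p | p <;> rcases mem_insert.1 q with q | q
        exacts [absurd (p.trans q.symm) e, p ▸ c y q, q ▸ (c x p).symm, q2 x p y q e],
        q3.trans (subset_insert _ _)⟩
      rw [card_insert_of_notMem n] at this
      omega
    refine ⟨z, z1, z2, fun w p q => by_contra fun c => q (hg b (nR k) Q qR q2 n
      ((hN b k).trans (card_le_card (filter_subset_filter _ q3))) w p z z1 c z2)⟩
  refine ⟨Q, q2, q3, q1, ?_⟩
  by_cases s : K ∪ N ⊆ Q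
  · exact .inl s
  obtain ⟨a, a1, a2⟩ := not_subset.1 s
  have aN := (mem_union.1 a1).resolve_left fun k => a2 (q3 k)
  obtain ⟨z, z1, z2, z3⟩ := one a aN a2
  refine .inr ⟨a, z, a2, z1, aN, fun b k => by_contra fun c => ?_, z2, z3⟩
  simp only [mem_insert, not_or] at c
  have bN := (mem_union.1 k).resolve_left fun k => c.2 (q3 k)
  obtain ⟨y, y1, y2, y3⟩ := one b bN c.2
  have az : a ≠ z := fun e => a2 (e ▸ z1)
  have ay : a ≠ y := fun e => a2 (e ▸ y1)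
  have bz : b ≠ z := fun e => c.2 (e ▸ z1)
  have bY : b ≠ y := fun e => c.2 (e ▸ y1)
  have e1 := card_erase_add_one z1
  have cl : ∀ S ⊆ Q, IsClq G S := fun S k x p y q => q2 x (k p) y (k q)
  by_cases e : y = z
  · subst e
    by_cases ab : G.Adj a b
    · have k : Q.erase y ⊆ (insert a (insert b (Q.erase y))).filter (G.Adj y) := fun x p =>
        mem_filter.2 ⟨by simp [p], q2 y y1 x (mem_of_mem_erase p) (ne_of_mem_erase p).symm⟩
      have := card_le_card k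
      refine c.1 (hg y (qR y1) (insert a (insert b (Q.erase y))) (insert_subset (nR aN)
        (insert_subset (nR bN) ((erase_subset _ _).trans qR))) (fun x p w q e => ?_)
        (by simp [az.symm, bz.symm]) (by omega) b (by simp) a (by simp) (fun k => y2 k.symm)
        fun k => z2 k.symm)
      simp only [mem_insert, mem_erase] at p q
      rcases p with rfl | rfl | p <;> rcases q with rfl | rfl | q
      exacts [absurd rfl e, ab, z3 w q.2 q.1, ab.symm, absurd rfl e, y3 w q.2 q.1,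
        (z3 x p.2 p.1).symm, (y3 x p.2 p.1).symm, q2 x p.2 w q.2 e]
    · exact hS.k6e3 (cl _ (erase_subset y Q)) (fun w p => o w (qR (mem_of_mem_erase p))) (by omega)
        ⟨o a (nR aN), o b (nR bN), o y (qR y1)⟩ (fun w p =>
          have p := mem_erase.1 p
          ⟨(z3 w p.2 p.1).symm, (y3 w p.2 p.1).symm, q2 w p.2 y y1 p.1⟩) (Ne.symm c.1) az bz ab z2 y2
  · have e2 := card_erase_add_one (mem_erase.2 ⟨e, y1⟩)
    exact hS.k4two (cl _ ((erase_subset y _).trans (erase_subset z Q)))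
      (fun w p => o w (qR (mem_of_mem_erase (mem_of_mem_erase p)))) (by omega)
      ⟨o a (nR aN), o z (qR z1), o b (nR bN), o y (qR y1)⟩ (fun w p =>
        have p' := mem_erase.1 p
        have p := mem_erase.1 p'.2
        ⟨(z3 w p.2 p.1).symm, q2 w p.2 z z1 p.1, (y3 w p.2 p'.1).symm, q2 w p.2 y y1 p'.1⟩)
      az bY (Ne.symm c.1) ay bz.symm (Ne.symm e) z2 y2

variable {T : Tr G D} {u v w e x y z m : V}

open Tr IsA

theorem mem_Zc : w ∈ Zc T u ↔ w ∈ T.WQ (O0 T) u ∧ w ∈ T.O u := mem_filter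

theorem Zc_W (k : w ∈ Zc T u) : w ∈ W T u := WQ_sub (mem_Zc.1 k).1

theorem Zc_O (k : w ∈ Zc T u) : w ∈ T.O u := (mem_Zc.1 k).2

theorem Zc_pr (k : w ∈ Zc T u) : u ∈ T.O w := (WQ_spec (mem_Zc.1 k).1).2

theorem Zc_R (k : w ∈ Zc T u) : w ∈ T.R := (mem_WQ.1 (mem_Zc.1 k).1).1

theorem Zc_nq (k : w ∈ Zc T u) : ¬ T.HasQ (O0 T) w u := (mem_WQ.1 (mem_Zc.1 k).1).2.2.2.2

theorem Zc_Oq (k : w ∈ Zc T u) : w ∈ T.O (T.p u) := (mem_W.1 (Zc_W k)).2.2.1

theorem Zc_nr (k : w ∈ Zc T u) : u ≠ T.r := (mem_W.1 (Zc_W k)).2.1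

theorem PA_spec (u e : V) : ∀ z, T.Anc z e → ∀ κ < D, T.Port z u κ → κ ∈ PA T u :=
  fun z a _ l k => mem_filter.2 ⟨mem_range.2 l, z, a.mem.1, k⟩

theorem pi_tri (hl : T.ch u = ∅) (k : v ∈ T.piQ (O0 T) u) :
    v ∈ T.R ∧ u ∈ T.NT v ∧ T.HasQ (O0 T) v u ∧ v ∈ T.H (T.p u) ∧ u ≠ T.r := by
  obtain ⟨a, b, x, c, d, -⟩ := mem_piQ.1 k
  obtain rfl := pr_tri a (T.mem_NT.1 c).1 d (b hl) (d.leaf_nanc hl)
  exact ⟨a, c, d.hasQ b, d.2.2.1, d.2.1⟩

theorem cost_ld (T : Tr G D) (u : V) : T.cost3 (MT T) (O0 T) u ≤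
    ld T u + (if T.ch u = ∅ then 0 else (T.piQ (O0 T) u).card) + (T.ptN u).card := by
  have d1 : Disjoint (T.WQ (O0 T) u) (T.nE (MT T) (O0 T) u) := disjoint_left.2 fun v p q =>
    (mem_nE.1 q).2.2 (.inr (.inl ⟨(mem_WQ.1 p).2.2.1, (mem_WQ.1 p).2.2.2.1⟩))
  have s : Zc T u ⊆ T.WQ (O0 T) u ∪ T.nE (MT T) (O0 T) u ∪
      if T.ch u = ∅ then T.piQ (O0 T) u else ∅ := fun _ k => by simp [(mem_Zc.1 k).1]
  have e := card_sdiff_add_card_eq_card s
  unfold Tr.cost3 ld Xc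
  split_ifs at e ⊢ with l
  · rw [card_union_of_disjoint (disjoint_left.2 fun v p q => (mem_union.1 p).elim
      (fun p => (mem_WQ.1 p).2.2.2.2 (pi_tri l q).2.2.1)
      fun p => (mem_nE.1 p).2.2 (.inr (.inr (pi_tri l q).2.2.1))), card_union_of_disjoint d1] at e
    omega
  · rw [union_empty, card_union_of_disjoint d1] at e
    rw [union_empty]
    omega

theorem Xc_tail (k : v ∈ Xc T u) : v ∈ T.R ∧ u ∈ T.NT v ∧ v ∉ Zc T u := by
  obtain ⟨a, b⟩ := mem_sdiff.1 k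
  simp only [mem_union] at a
  rcases a with (a | a) | a
  · exact ⟨(mem_WQ.1 a).1, (mem_WQ.1 a).2.1, b⟩
  · exact ⟨(mem_nE.1 a).1, (mem_nE.1 a).2.1, b⟩
  · split_ifs at a with l
    exacts [⟨(pi_tri l a).1, (pi_tri l a).2.1, b⟩, by simp at a]

theorem IsB.nE_nO (h : IsB T) (k : v ∈ T.nE (MT T) (O0 T) u) : v ∉ T.O u := fun o => by
  obtain ⟨hv, h1, h2⟩ := mem_nE.1 k
  obtain ⟨h3, h4⟩ := T.mem_NT.1 h1
  by_cases t : T.PayT v u
  · exact h2 (.inl ⟨t, o⟩)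
  rcases lemE (h.isSig_SP v) hv h3
    ⟨u, ⟨(T.clo v hv u h3).1, o, nanc_of_O hv h3 h4⟩, .inl rfl⟩ with z | z | ⟨x, z⟩ | z
  exacts [t z, h2 (.inr (.inl ⟨z, t⟩)), h2 (.inr (.inr (z.pr.hasQ (h.ok_SP z)))),
    h2 (.inr (.inr (PayD.pt z fun _ k => k.1).hasQ))]

namespace IsA

theorem Xc_cases (h : IsA T) (hu : u ∈ T.R) (k : v ∈ Xc T u) : v ∈ T.Bd u ∨
    T.ch u = ∅ ∧ v ∈ T.O u ∧ v ∈ T.H (T.p u) ∧ u ≠ T.r := by
  obtain ⟨hv, n, nz⟩ := Xc_tail k
  obtain ⟨n1, n2⟩ := T.mem_NT.1 n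
  by_cases o : v ∈ T.O u
  swap
  · exact .inl ((h.H_Bd hu (T.real v hv)).1 (((adj_cases hu hv
      (T.O_adj v hv u n1).symm).resolve_left o).resolve_right n2))
  have a := (mem_sdiff.1 k).1
  simp only [mem_union] at a
  rcases a with (a | a) | a
  · exact absurd (mem_Zc.2 ⟨a, o⟩) nz
  · exact absurd o (h.nE_nO a)
  · split_ifs at a with l
    exacts [.inr ⟨l, o, (pi_tri l a).2.2.2⟩, by simp at a]

theorem O_nBd (h : IsA T) (hu : u ∈ T.R) (o : v ∈ T.O u) : v ∉ T.Bd u := fun k =>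
  (T.mem_H.1 (h.Bd_H hu k)).2.2.1 o

/-- At most one vertex of `O u` is hidden by the parent. -/
theorem inner_one (h : IsA T) (hu : u ∈ T.R) (ur : u ≠ T.r) {a b : V} (a1 : a ∈ T.O u)
    (b1 : b ∈ T.O u) (a2 : a ∈ T.H (T.p u)) (b2 : b ∈ T.H (T.p u)) : a = b := by
  by_contra e
  exact h.O_nBd hu a1 (by
    rw [h.H_ch hu ur a2 b2 (O_real hu a1) (O_real hu b1) e (T.O_adj u hu a a1)
      (T.O_adj u hu b b1)]; simp)

theorem Xc_int (h : IsA T) (hu : u ∈ T.R) (l : T.ch u ≠ ∅) : Xc T u ⊆ T.Bd u := fun _ k =>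
  (h.Xc_cases hu k).resolve_right fun z => l z.1

theorem card_Xc (h : IsA T) (hu : u ∈ T.R) :
    (Xc T u).card ≤ (Xc T u ∩ T.Bd u).card + if T.ch u = ∅ then 1 else 0 := by
  have := card_sdiff_add_card_inter (Xc T u) (T.Bd u)
  have k : ∀ v ∈ Xc T u \ T.Bd u, T.ch u = ∅ ∧ v ∈ T.O u ∧ v ∈ T.H (T.p u) ∧ u ≠ T.r :=
    fun v k => (h.Xc_cases hu (mem_sdiff.1 k).1).resolve_left (mem_sdiff.1 k).2
  split_ifs with l
  · have : (Xc T u \ T.Bd u).card ≤ 1 := card_le_one.2 fun a p b q =>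
      h.inner_one hu (k a p).2.2.2 (k a p).2.1 (k b q).2.1 (k a p).2.2.1 (k b q).2.2.1
    omega
  · have : (Xc T u \ T.Bd u).card = 0 :=
      card_eq_zero.2 (eq_empty_of_forall_notMem fun v p => l (k v p).1)
    omega

theorem card_Xc' (h : IsA T) (hu : u ∈ T.R) :
    (Xc T u).card ≤ 2 + if T.ch u = ∅ then 1 else 0 := by
  have := h.card_Xc hu
  have := (card_le_card (inter_subset_right (s₁ := Xc T u))).trans (h.card_Bd hu)
  omega

end IsA

namespace IsB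

theorem hg (h : IsB T) (hn : ∀ z v, T.NS z v) : Hg G T.R := fun b hb K kR hK bK c4 w p w' q =>
  (h.hc hb (S := insert b K) (by simp) (fun m k => T.real m (insert_subset hb kR k))
    (Cov.clq1 hK b)).hang4 (h.dgo hb _) (fun v k => h.dg (T.real v (kR k)) (hn b v) _)
    (subset_insert _ _) hK bK c4 p q

theorem cover2 (h : IsB T) (hw : w ∈ T.R) (hu : u ∈ T.O w) (n1 : ¬ T.PayT w u)
    (n2 : ¬ T.HasQ (O0 T) w u) (hy : y ∈ T.R) (py : T.ch y ≠ ∅ ∨ T.c y ≠ T.col w u)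
    (a : G.Adj w m) (ne : m ≠ u) (hc : T.col y m = T.col w u) :
    ∃ x ∈ T.ch m, T.Anc x y ∧ T.c x = T.col w u ∧ ¬ T.Anc x w ∧ (w ∈ T.O m ∨ m ∈ T.ch w) := by
  by_cases md : m ∈ T.Dm
  · exact absurd ((port_of hw hu a md hc).pt hy).hasQ n2
  have uq := h.uq_O hw hu m a ne
  by_cases k : T.Anc m y
  · obtain ⟨x, x1, x2⟩ := k.child fun z => by
      have := T.lt w hw u hu
      rw [← hc, z, col_self hy] at this
      omega
    obtain ⟨p1, p2, p3⟩ := T.mem_ch.1 x1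
    rw [col_anc x1 x2] at hc
    have n : ¬ T.Anc x w := fun z => uq (by rw [col_anc x1 z, hc])
    refine ⟨x, x1, x2, hc, n, (adj_cases k.mem.1 hw a.symm).imp_right fun z =>
      z.resolve_left fun z => n2 (Pr.hasQ ⟨p1, p2, p3 ▸ z, by rw [tc, if_neg n, hc]⟩ fun l => ?_)⟩
    obtain rfl := leaf_anc l x2
    exact py.elim (absurd l) (absurd hc)
  · rw [col_base hy md k] at hc
    have k' : T.Anc m w := by
      by_contra z
      exact uq (by rw [col_base hw md z, hc])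
    obtain ⟨x, x1, x2⟩ := k'.child a.ne.symm
    obtain ⟨p1, p2, p3⟩ := T.mem_ch.1 x1
    by_cases z : x = w
    · subst z
      exact absurd ⟨⟨p2, p3 ▸ ch_O x1 (.inl a.symm)⟩, by rw [← hc, p3]⟩ n1
    · exact absurd (Pr.hasQ ⟨p1, p2, p3 ▸ F2' x1 x2 z a.symm, by rw [tc, if_pos x2, p3, hc]⟩
        fun l => absurd (leaf_anc l x2) z) n2

theorem Zc_clq (h : IsB T) (hn : ∀ z v, T.NS z v) (hu : u ∈ T.R) : IsClq G (Zc T u) :=
  h.W_clq' hu (hn _ _) fun _ => Zc_W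

end IsB

namespace IsA

/-- EVENT: a prober from outside sees all clean tails but two. -/
theorem ev (h : IsA T) (hn : ∀ z v, T.NS z v) (hu : u ∈ T.R) (he : e ∈ T.R) (ho : u ∈ T.O e)
    (n : ¬ T.Anc u e) (nz : e ∉ Zc T u) :
    (Zc T u).card ≤ ((Zc T u).filter (G.Adj e)).card + 2 + (PA T u).card := by
  have a := T.O_adj e he u ho
  have k := h.entry' hu he a.symm (h.probe_tight he ho) (Zc T u) (fun w k => ⟨Zc_W k, fun s =>
    h.entry_gen hu (Zc_W k) (Zc_pr k) n (fun y => T.ch y ≠ ∅ ∨ T.c y ≠ T.col w u)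
      (fun y m p hy => h.cover2 (Zc_R k) (Zc_pr k) (mem_WQ.1 (mem_Zc.1 k).1).2.2.2.1 (Zc_nq k) hy p)
      (fun _ _ p _ => .inl (ne_empty_of_mem p)) (.refl e he) (.inr (by
        rw [(mem_W.1 (Zc_W k)).2.2.2.1, ← T.col_r]
        exact T.prop _ T.r_mem e u a)) s⟩) (h.Zc_clq hn hu) (PA_spec u e)
  have k2 := card_filter_add_card_filter_not (s := Zc T u)
    fun w => Uq G (T.col e) w u ∧ Uq G (T.col e) u w
  have k3 : ((Zc T u).filter fun w => Uq G (T.col e) w u ∧ Uq G (T.col e) u w) ⊆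
      (Zc T u).filter (G.Adj e) := fun w p =>
    have p := mem_filter.1 p
    mem_filter.2 ⟨p.1, h.probe_adj he ho (mem_W.1 (Zc_W p.1)).1 (fun z => nz (z ▸ p.1))
      (T.real w (Zc_R p.1)) p.2.1 p.2.2⟩
  have := card_le_card k3
  split_ifs at k <;> omega

/-- A charged `t` leaves at most three clean tails. -/
theorem t_few (h : IsA T) (hn : ∀ z v, T.NS z v) (hu : u ∈ T.R)
    (k : e ∈ T.tE (MT T) (O0 T) u) : (Zc T u).card ≤ 3 + (PA T u).card := by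
  obtain ⟨⟨k1, k2, k3⟩, k4⟩ := mem_tE.1 k
  obtain ⟨o, nc⟩ := T.mem_NT.1 k1
  have hq := T.p_mem u hu k2.1.1
  have na := h.t_nadj2 hu o k2 k4
  have := h.ev hn hu (T.clo u hu e o).1 k4 (nanc_of_O hu o nc)
    fun z => na (T.O_adj _ hq e (Zc_Oq z))
  have : ((Zc T u).filter (G.Adj e)).card ≤ 1 := card_le_one.2 fun a p b q =>
    (h.exit_one3' hu o (hn _ _) (hn _ _) (.inl na) (Zc_W (mem_filter.1 p).1)
      (Zc_W (mem_filter.1 q).1) (mem_filter.1 p).2 (mem_filter.1 q).2).resolve_right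
      fun z => k3 (z.pt hq).hasQ
  omega

end IsA

end Pool.Agent.Lib.MP_12eaff_co.Acc2
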