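import Pool.Agent.Lib.MP_12eaff_co.Acc2.AD1

set_option autoImplicit false
set_option linter.unusedSectionVars false

namespace Pool.Agent.Lib.MP_12eaff_co.Acc2

open Finset Pool.Agent.Lib.MP_12eaff_co.BK
open scoped Classical

variable {V : Type} [Fintype V] {G : SimpleGraph V} {D : ℕ} {T : Tr G D} {u v w e x y z m : V}

open Tr IsA

/-- Deficits are paid by a child or a grandchild. -/
theorem Tr.ledger (T : Tr G D) (f cap : V → ℕ) (h : ∀ x ∈ T.R, cap x < f x →
    (∃ y ∈ T.ch x, f y + f x ≤ cap y + cap x) ∨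
      ∃ y ∈ T.ch x, ∃ z ∈ T.ch y, f z + (f y - cap y) + (f x - cap x) ≤ cap z) :
    ∑ x ∈ T.R, f x ≤ ∑ x ∈ T.R, cap x := by
  have : ∀ x, ∃ z, x ∈ T.R.filter (fun x => cap x < f x) → z ∈ T.R ∧
      (x = T.p z ∧ f z + (f x - cap x) ≤ cap z ∨
        x = T.p (T.p z) ∧ f z + (f (T.p z) - cap (T.p z)) + (f x - cap x) ≤ cap z) := fun x => by
    by_cases k : x ∈ T.R.filter (fun x => cap x < f x)
    swap
    · exact ⟨x, fun z => absurd z k⟩
    have l := (mem_filter.1 k).2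
    rcases h x (mem_filter.1 k).1 l with ⟨y, a, b⟩ | ⟨y, a, z, b, c⟩
    · exact ⟨y, fun _ => ⟨(T.mem_ch.1 a).1, .inl ⟨(T.mem_ch.1 a).2.2.symm, by omega⟩⟩⟩
    · obtain ⟨b1, -, rfl⟩ := T.mem_ch.1 b
      exact ⟨z, fun _ => ⟨b1, .inr ⟨(T.mem_ch.1 a).2.2.symm, c⟩⟩⟩
  choose σ hσ using this
  have e1 := sum_fiberwise_of_maps_to (fun x k => (hσ x k).1) fun x => f x - cap x
  have e2 : ∀ z ∈ T.R, ∑ x ∈ (T.R.filter fun x => cap x < f x).filter (σ · = z), (f x - cap x) ≤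
      cap z - f z := fun z _ => by
    by_cases k : ∃ x ∈ (T.R.filter fun x => cap x < f x).filter (σ · = z), x = T.p (T.p z) ∧
        f z + (f (T.p z) - cap (T.p z)) + (f x - cap x) ≤ cap z
    · obtain ⟨x, -, rfl, k⟩ := k
      refine (sum_le_sum_of_subset (t := {T.p z, T.p (T.p z)}) fun a p => ?_).trans
        ((sum_le_sum_of_subset_of_nonneg Subset.rfl (by simp)).trans ?_)
      · have := hσ a (mem_filter.1 p).1
        rw [(mem_filter.1 p).2] at this
        simp only [mem_insert, mem_singleton]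
        tauto
      · by_cases q : T.p z = T.p (T.p z)
        · rw [← q] at k ⊢
          simp only [mem_singleton, insert_eq_of_mem, sum_singleton]
          omega
        · rw [sum_pair q]
          omega
    · by_cases q : T.p z ∈ (T.R.filter fun x => cap x < f x).filter (σ · = z)
      · have s : ∀ a ∈ (T.R.filter fun x => cap x < f x).filter (σ · = z),
            a = T.p z ∧ f z + (f a - cap a) ≤ cap z := fun a p => by
          have := hσ a (mem_filter.1 p).1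
          rw [(mem_filter.1 p).2] at this
          exact this.2.resolve_right fun r => k ⟨a, p, r⟩
        have := (s _ q).2
        refine (sum_le_sum_of_subset (t := {T.p z}) fun a p => by simp [(s a p).1]).trans ?_
        rw [sum_singleton]
        omega
      · rw [eq_empty_of_forall_notMem (s := (T.R.filter fun x => cap x < f x).filter (σ · = z))
          fun a p => by
            have := hσ a (mem_filter.1 p).1
            rw [(mem_filter.1 p).2] at this
            exact this.2.elim (fun r => q (r.1 ▸ p)) fun r => k ⟨a, p, r⟩]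
        simp
  have e3 := sum_le_sum e2
  have e4 : ∑ x ∈ T.R, (f x + (cap x - f x)) = ∑ x ∈ T.R, (cap x + (f x - cap x)) :=
    sum_congr rfl fun _ _ => by omega
  have e5 : ∑ x ∈ T.R, (f x - cap x) = ∑ x ∈ T.R.filter fun x => cap x < f x, (f x - cap x) :=
    (sum_filter_of_ne fun _ _ _ => by omega).symm
  rw [sum_add_distrib, sum_add_distrib] at e4
  omega

/-- The clique of a head. -/
noncomputable def Kc (T : Tr G D) (u : V) : Finset V := insert (T.p u) (insert u (Zc T u))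

theorem tail_Kc (hv : v ∈ T.R) (k : u ∈ T.NT v) (n : v ∉ Zc T u) (ur : u ≠ T.r) : v ∉ Kc T u := by
  obtain ⟨a, b⟩ := T.mem_NT.1 k
  simp only [Kc, mem_insert, not_or]
  exact ⟨fun z => b (T.mem_ch.2 ⟨(T.clo v hv u a).1, ur, z.symm⟩), (T.O_adj v hv u a).ne, n⟩

theorem Kc_R (hu : u ∈ T.R) (ur : u ≠ T.r) : Kc T u ⊆ T.R :=
  insert_subset (T.p_mem u hu ur) (insert_subset hu fun _ => Zc_R)

theorem card_Kc (hu : u ∈ T.R) (ur : u ≠ T.r) : (Kc T u).card = (Zc T u).card + 2 := by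
  rw [Kc, card_insert_of_notMem, card_insert_of_notMem fun k => (mem_W.1 (Zc_W k)).1.ne rfl]
  simp only [mem_insert, not_or]
  exact ⟨p_ne hu ur, fun k => O_ne_p hu (Zc_O k) rfl⟩

theorem ch_nZ (k : y ∈ T.ch x) : y ∉ Zc T x := fun z => by
  obtain ⟨a, -, rfl⟩ := T.mem_ch.1 k
  exact O_ne_p a (Zc_pr z) rfl

theorem pass_Z (k : y ∈ T.ch x) (n : y ∉ T.O x) : Zc T y = ∅ ∧ T.tE (MT T) (O0 T) y = ∅ := by
  obtain ⟨-, -, rfl⟩ := T.mem_ch.1 k
  exact ⟨eq_empty_of_forall_notMem fun _ z => n (W_par (Zc_W z)),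
    eq_empty_of_forall_notMem fun _ z => n (mem_tE.1 z).1.2.1.1.2⟩

/-- PAIR, counting inside `O x`. -/
theorem pair_O (k : y ∈ T.ch x) {E : Finset V} (hE : E ⊆ T.O x) (n : y ∉ E)
    (d : ∀ a ∈ E, a ∉ Zc T x ∧ a ∉ Zc T y)
    (g : (T.tE (MT T) (O0 T) y).card + (Zc T y ∩ Zc T x).card ≤ 1) :
    (T.tE (MT T) (O0 T) y).card + (Zc T y).card + (Zc T x).card + E.card ≤ (T.O x).card := by
  have s : Zc T y ∪ Zc T x ∪ E ⊆ T.O x := union_subset (union_subset
    (fun _ z => (T.mem_ch.1 k).2.2 ▸ Zc_Oq z) fun _ => Zc_O) hE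
  have c : (Zc T y ∪ Zc T x ∪ E).card = (Zc T y ∪ Zc T x).card + E.card :=
    card_union_of_disjoint (disjoint_right.2 fun a p q =>
      (mem_union.1 q).elim (d a p).2 (d a p).1)
  have := card_union_add_card_inter (Zc T y) (Zc T x)
  by_cases o : y ∈ T.O x
  · have := card_le_card (insert_subset o s)
    rw [card_insert_of_notMem (by
      simp only [mem_union, not_or]
      exact ⟨⟨fun z => (mem_W.1 (Zc_W z)).1.ne rfl, ch_nZ k⟩, n⟩)] at this
    omega
  · have := card_le_card s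
    obtain ⟨a, b⟩ := pass_Z k o
    rw [c, a, empty_union] at this
    rw [a, b, card_empty]
    omega

namespace IsB

theorem Kc_clq (h : IsB T) (hn : ∀ z v, T.NS z v) (hu : u ∈ T.R) (k : w ∈ Zc T u) :
    IsClq G (Kc T u) := h.clq_sub hu (Zc_nr k) (W_par (Zc_W k)) (hn _ _) fun _ => Zc_W

/-- Below `x` the parent of `x` is a wildcard. -/
theorem xch (h : IsB T) (k : w ∈ Zc T x) (hz : T.Anc x z)
    (hp : ∀ m, T.Anc x m → T.Anc m z → m ≠ z → (G.Adj w m ↔ G.Adj (T.p x) m))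
    (ns : ¬ T.Shw z (T.p x) (T.col (T.p x) w)) (n : ¬ G.Adj z (T.p x)) : w ∉ T.O z := fun o => by
  obtain ⟨a0, hr, a2, a3, a4, -⟩ := mem_W.1 (Zc_W k)
  obtain ⟨hx, zR⟩ := hz.mem
  have hq := T.p_mem x hx hr
  have cw := col_W (Zc_W k) hz
  have cq := col_q hr hz
  have off : ∀ m, m ∉ T.Dm → m ≠ T.p x → ¬ (T.Anc x m ∧ T.Anc m z) →
      m ≠ x ∧ T.col z m = T.col (T.p x) m := fun m md q p =>
    have ne : m ≠ x := fun e => p (e ▸ ⟨.refl _ (e ▸ hx), e ▸ hz⟩)
    ⟨ne, by rw [col_diff hz md p, col_step hx hr md ne q]⟩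
  refine h.swap_tr zR (T.real _ hq) (T.real w (Zc_R k)) (fun e => p_off hr hz
    ⟨e ▸ hz, e ▸ .refl z zR⟩) (T.O_adj z zR w o).ne.symm n (fun m m1 m2 m3 => ?_)
    (fun m m1 m2 m3 => ?_) (T.O_adj _ hq w a2) (h.uq_O zR o)
  · by_cases md : m ∈ T.Dm
    · exact ns ⟨m, md, m1, m3.trans cw⟩
    by_cases p : T.Anc x m ∧ T.Anc m z
    · exact T.prop z zR w m ((hp m p.1 p.2 fun e => n (e ▸ m1.symm)).2 m1) m3.symm
    · exact h.uq_O hq a2 m m1 m2 (by rw [← (off m md m1.ne.symm p).2, m3, cw])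
  · by_cases md : m ∈ T.Dm
    · exact Zc_nq k ((port_of (Zc_R k) (Zc_pr k) m1 md (by rw [m3, cq, a3])).pt zR).hasQ
    by_cases p : T.Anc x m ∧ T.Anc m z
    · by_cases e : m = z
      · have := c_lt hx hr
        rw [e, col_self zR, cq] at m3
        omega
      · exact T.prop z zR _ m ((hp m p.1 p.2 e).1 m1) m3.symm
    · exact (off m md m2 p).1 (a4 m m1 (by rw [← (off m md m2 p).2, m3, cq]))

/-- A child next to the grandparent has no charged `t`. -/
theorem inner_t (_ : IsB T) (k : y ∈ T.ch x) (xr : x ≠ T.r) (a : G.Adj y (T.p x)) :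
    y ∈ T.H (T.p x) ∧ T.tE (MT T) (O0 T) y = ∅ := by
  obtain ⟨hy, yr, rfl⟩ := T.mem_ch.1 k
  have hx := T.p_mem y hy yr
  have := T.d_p y hy yr
  have := T.d_p _ hx xr
  have hH := F2 (T.p_mem _ hx xr) hy a.symm (by omega)
  refine ⟨hH, eq_empty_of_forall_notMem fun e z => ?_⟩
  obtain ⟨⟨z1, z2, -⟩, z4⟩ := mem_tE.1 z
  by_cases q : T.p (T.p y) = e
  · exact (T.mem_H.1 hH).2.2.1 (q ▸ z4)
  · exact T.uniq y hy e (T.mem_NT.1 z1).1 _ a q (by rw [z2.2, col_q xr (anc_ch k)])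

theorem OX (h : IsB T) (hx : x ∈ T.R) (k : w ∈ Zc T x) {S : Finset V} (hS : S ⊆ T.Bd x) :
    S.card + (T.O x).card ≤ D := by
  have a := h.card_O2 hx
  have := h.card_Bd hx
  have b := card_le_card hS
  rw [if_pos ⟨Zc_nr k, W_par (Zc_W k)⟩] at a
  split_ifs at a with l
  · rw [l, card_empty] at b
    omega
  · omega

end IsB

theorem between (k : y ∈ T.ch x) (a : T.Anc x m) (b : T.Anc m y) (n : m ≠ y) : m = x := by
  obtain ⟨-, -, rfl⟩ := T.mem_ch.1 k
  exact ((b.cases'.resolve_left n).2.eq_of_d a.le)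

/-- Almost cliques in `R` have fewer than `D` vertices. -/
def AC (G : SimpleGraph V) (D : ℕ) (R : Finset V) : Prop := ∀ Q ⊆ R, ∀ a ∈ R, ∀ z, IsClq G Q →
  a ∉ Q → (∀ w ∈ Q, w ≠ z → G.Adj a w) → Q.card + 2 ≤ D

theorem AC.clq {R Q : Finset V} (h : AC G D R) (hD : 1 ≤ D) (s : Q ⊆ R) (k : IsClq G Q) :
    Q.card + 1 ≤ D := by
  rcases Q.eq_empty_or_nonempty with rfl | ⟨a, p⟩
  · simpa using hD
  have := h (Q.erase a) ((erase_subset _ _).trans s) a (s p) a (fun x p y q =>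
    k x (mem_of_mem_erase p) y (mem_of_mem_erase q)) (by simp)
    fun w q e => k a p w (mem_of_mem_erase q) e.symm
  have := card_erase_add_one p
  omega

namespace IsA

theorem ev4 (h : IsA T) (hn : ∀ z v, T.NS z v) (hu : u ∈ T.R)
    (c : (PA T u).card + 5 ≤ (Zc T u).card) (k : e ∈ Xc T u) (n : ¬ T.Anc u e) :
    4 ≤ ((Kc T u).filter (G.Adj e)).card := by
  obtain ⟨he, a, b⟩ := Xc_tail k
  have o := (T.mem_NT.1 a).1
  have := h.ev hn hu he o n b
  have s : insert u ((Zc T u).filter (G.Adj e)) ⊆ (Kc T u).filter (G.Adj e) :=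
    insert_subset (mem_filter.2 ⟨by simp [Kc], T.O_adj e he u o⟩)
      (filter_subset_filter _ fun _ z => by simp [Kc, z])
  have := card_le_card s
  rw [card_insert_of_notMem fun z => (mem_W.1 (Zc_W (mem_filter.1 z).1)).1.ne rfl] at this
  omega

theorem cnt_near (h : IsA T) (hn : ∀ z v, T.NS z v) (hS : AT.Stat G D T.Dm) (hA : AC G D T.R)
    (hu : u ∈ T.R) (c : 5 ≤ (Zc T u).card) {N : Finset V} (nR : N ⊆ T.R)
    (hN : ∀ b ∈ N, b ∉ Kc T u ∧ 4 ≤ ((Kc T u).filter (G.Adj b)).card) :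
    (Zc T u).card + N.card + 3 ≤ D := by
  obtain ⟨w, k⟩ := card_pos.1 (by omega : 0 < (Zc T u).card)
  have ur := Zc_nr k
  have e := card_Kc hu ur
  have e2 : (Kc T u ∪ N).card = (Kc T u).card + N.card :=
    card_union_of_disjoint (disjoint_right.2 fun b p => (hN b p).1)
  obtain ⟨Q, q1, -, q3, q4⟩ := near hS T.real (h.hg hn) (h.Kc_clq hn hu k) (by omega)
    (Kc_R hu ur) nR fun b p => (hN b p).2
  have qR := q3.trans (union_subset (Kc_R hu ur) nR)
  rcases q4 with q4 | ⟨a, z, a1, -, a2, a3, -, a4⟩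
  · have := hA.clq (by have := c_lt hu ur; omega) qR q1
    have := card_le_card q4
    omega
  · have := hA Q qR a (nR a2) z q1 a1 a4
    have := (card_le_card a3).trans (card_insert_le _ _)
    omega

end IsA

end Pool.Agent.Lib.MP_12eaff_co.Acc2
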