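import Pool.Agent.Lib.MP_12eaff_co.Acc2.ATX
import Pool.Agent.Lib.MP_12eaff_co.Acc2.A

set_option autoImplicit false
set_option linter.unusedSectionVars false

/-!
Three twins when every colour may be gained by two vertices only.
-/

namespace Pool.Agent.Lib.MP_12eaff_co.Acc2

open Finset BK AT
open scoped Classical

variable {V : Type} [Fintype V] {G : SimpleGraph V} {D : ℕ} {Y : Finset V}

/-- Exact lists for three twins if only fillings with one colour from `Q` on the twins exist. -/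
theorem exact3w {L : V → Finset ℕ} {P A B C : Finset ℕ} {Q : ℕ → Prop} (h4 : 4 ≤ #Y)
    (hP : #P + 4 ≤ 3 * #Y) (sA : A ⊆ P) (sB : B ⊆ P) (sC : C ⊆ P)
    (hY : ∀ y ∈ Y, #Y + 1 ≤ #(L y)) (ha : #Y ≤ #A + 1) (hb : #Y ≤ #B + 1) (hd : #Y ≤ #C + 1)
    (nl : ∀ α ∈ A, ∀ β ∈ B, ∀ δ ∈ C, ∀ φ : V → ℕ, (∀ y ∈ Y, φ y ∈ L y ∧ φ y ≠ α ∧ φ y ≠ β ∧
      φ y ≠ δ) → Set.InjOn φ Y → α = β ∧ β = δ ∧ Q α) :
    ∃ U, #U = #Y + 1 ∧ (∀ y ∈ Y, L y = U) ∧ A ⊆ U ∧ B ⊆ U ∧ C ⊆ U ∧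
      ∀ γ ∈ A, γ ∈ B → γ ∈ C → Q γ := by
  obtain ⟨α0, a0⟩ := card_pos.1 (by omega : 0 < #A)
  obtain ⟨β0, b0⟩ := card_pos.1 (by omega : 0 < #B)
  have oth : ∀ γ, ∃ δ ∈ C, δ ≠ γ := fun γ => exists_mem_ne (by omega) γ
  have fill : ∀ α ∈ A, ∀ β ∈ B, ∀ δ ∈ C, ∀ E : Finset ℕ, (α ∈ Y.biUnion L → α ∈ E) →
      (β ∈ Y.biUnion L → β ∈ E) → (δ ∈ Y.biUnion L → δ ∈ E) → #E ≤ 2 →
      #Y + #E ≤ #(Y.biUnion L) → α = β ∧ β = δ ∧ Q α := fun α p β q δ r E s t w c u => by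
    obtain ⟨φ, f1, f2⟩ := core1 (Y := Y) (L := fun y => L y \ E) (fun y hy => by
      have := sd_card (L y) E
      have := hY y hy
      omega) (by
      have := sd_card (Y.biUnion L) E
      rw [biUnion_sd]
      omega)
    refine nl α p β q δ r φ (fun y hy => ?_) f2
    obtain ⟨k1, k2⟩ := mem_sdiff.1 (f1 y hy)
    have k3 := mem_biUnion.2 ⟨y, hy, k1⟩
    exact ⟨k1, fun e => k2 (e ▸ s (e ▸ k3)), fun e => k2 (e ▸ t (e ▸ k3)),
      fun e => k2 (e ▸ w (e ▸ k3))⟩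
  by_cases u : #Y + 2 ≤ #(Y.biUnion L)
  · have two : ∀ α ∈ A, ∀ β ∈ B, ∀ δ ∈ C, ∀ x y : ℕ, α ∈ ({x, y} : Finset ℕ) →
        β ∈ ({x, y} : Finset ℕ) → δ ∈ ({x, y} : Finset ℕ) → α = β ∧ β = δ ∧ Q α :=
      fun α p β q δ r x y s t w => by
        have : #({x, y} : Finset ℕ) ≤ 2 := card_le_two
        exact fill α p β q δ r _ (fun _ => s) (fun _ => t) (fun _ => w) this (by omega)
    have d1 : Disjoint A B := disjoint_left.2 fun γ p q => by
      obtain ⟨δ, r, k⟩ := oth γ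
      exact k (two γ p γ q δ r γ δ (by simp) (by simp) (by simp)).2.1.symm
    obtain ⟨γ, g1, g2⟩ := meet (union_subset sA sB) sC
      (by rw [card_union_of_disjoint d1]; omega)
    rcases mem_union.1 g1 with g | g
    · exact (disjoint_left.1 d1 g
        ((two γ g β0 b0 γ g2 γ β0 (by simp) (by simp) (by simp)).1 ▸ b0)).elim
    · exact (disjoint_left.1 d1 a0
        ((two α0 a0 γ g γ g2 γ α0 (by simp) (by simp) (by simp)).1 ▸ g)).elim
  · have e : ∀ y ∈ Y, L y = Y.biUnion L := fun y hy =>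
      eq_of_subset_of_card_le (subset_biUnion_of_mem L hy) (by have := hY y hy; omega)
    obtain ⟨y, hy⟩ := card_pos.1 (by omega : 0 < #Y)
    have c : #(Y.biUnion L) = #Y + 1 := le_antisymm (by omega) (e y hy ▸ hY y hy)
    have one : ∀ α ∈ A, ∀ β ∈ B, ∀ δ ∈ C, ∀ x : ℕ, (α ∈ Y.biUnion L → α = x) →
        (β ∈ Y.biUnion L → β = x) → (δ ∈ Y.biUnion L → δ = x) → α = β ∧ β = δ ∧ Q α :=
      fun α p β q δ r x s t w => fill α p β q δ r {x} (by simpa using s) (by simpa using t)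
        (by simpa using w) (by simp) (by simp [c])
    have out : ∀ γ ∈ A, γ ∈ B → γ ∈ C → γ ∈ Y.biUnion L := fun γ p q _ => by
      by_contra k
      obtain ⟨δ, r, n⟩ := oth γ
      exact n (one γ p γ q δ r δ (fun z => (k z).elim) (fun z => (k z).elim) fun _ => rfl).2.1.symm
    have pair : ∀ S T : Finset ℕ, #Y ≤ #S + 1 → #Y ≤ #T + 1 → ∃ x, ∃ σ ∈ S, ∃ τ ∈ T,
        (σ ∈ Y.biUnion L → σ = x) ∧ (τ ∈ Y.biUnion L → τ = x) := fun S T p q => by
      obtain ⟨σ0, s0⟩ := card_pos.1 (by omega : 0 < #S)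
      obtain ⟨τ0, t0⟩ := card_pos.1 (by omega : 0 < #T)
      by_cases x : S ⊆ Y.biUnion L
      · by_cases z : T ⊆ Y.biUnion L
        · obtain ⟨γ, g1, g2⟩ := meet x z (by omega)
          exact ⟨γ, γ, g1, γ, g2, fun _ => rfl, fun _ => rfl⟩
        · obtain ⟨τ, t1, t2⟩ := not_subset.1 z
          exact ⟨σ0, σ0, s0, τ, t1, fun _ => rfl, fun k => (t2 k).elim⟩
      · obtain ⟨σ, s1, s2⟩ := not_subset.1 x
        exact ⟨τ0, σ, s1, τ0, t0, fun k => (s2 k).elim, fun _ => rfl⟩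
    refine ⟨Y.biUnion L, c, e, fun α p => ?_, fun β p => ?_, fun δ p => ?_, fun γ p q r =>
      (one γ p γ q γ r γ (fun _ => rfl) (fun _ => rfl) fun _ => rfl).2.2⟩ <;> by_contra k
    · obtain ⟨x, σ, s, τ, t, k1, k2⟩ := pair B C hb hd
      obtain ⟨rfl, rfl, -⟩ := one α p σ s τ t x (fun z => (k z).elim) k1 k2
      exact k (out _ p s t)
    · obtain ⟨x, σ, s, τ, t, k1, k2⟩ := pair A C ha hd
      obtain ⟨rfl, rfl, -⟩ := one σ s β p τ t x k1 (fun z => (k z).elim) k2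
      exact k (out _ s p t)
    · obtain ⟨x, σ, s, τ, t, k1, k2⟩ := pair A B ha hb
      obtain ⟨rfl, rfl, -⟩ := one σ s τ t δ p x k1 k2 fun z => (k z).elim
      exact k (out _ s t p)

/-- An independent set that misses a twin has at most two vertices. -/
theorem ind_two (hY : IsClq G Y) {a b d : V} (hx : ∀ y ∈ Y, G.Adj y a ∧ G.Adj y b ∧ G.Adj y d)
    {I : Finset V} (s : I ⊆ {a, b, d} ∪ Y) (i : ∀ p ∈ I, ∀ q ∈ I, ¬ G.Adj p q)
    (k : ¬ (a ∈ I ∧ b ∈ I ∧ d ∈ I)) : #I ≤ 2 := by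
  have m : ∀ x ∈ I, x = a ∨ x = b ∨ x = d ∨ x ∈ Y := fun x p => by simpa using s p
  by_cases p : a ∈ I
  · by_cases q : b ∈ I
    · refine Cov.join2 hY (a := a) (b := b) (fun y z => ⟨(hx y z).1, (hx y z).2.1⟩) I
        (fun x w => ?_) i
      have : x ≠ d := fun e => k ⟨p, q, e ▸ w⟩
      simpa [this] using m x w
    · refine Cov.join2 hY (a := a) (b := d) (fun y z => ⟨(hx y z).1, (hx y z).2.2⟩) I
        (fun x w => ?_) i
      have : x ≠ b := fun e => q (e ▸ w)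
      simpa [this] using m x w
  · refine Cov.join2 hY (a := b) (b := d) (fun y z => (hx y z).2) I (fun x w => ?_) i
    have : x ≠ a := fun e => p (e ▸ w)
    simpa [this] using m x w

theorem fr_card' {F : Fm V} {H : Finset V} {v w : V} {f : V → ℕ} (h : HC G D F v f)
    (dg : F.Dg G D w) (T : Finset V) (hT : ∀ t ∈ T, G.Adj w t ∧ t ∈ H ∧ t ∉ F.B) :
    #T ≤ #(Fr G D H f w) + 1 := by
  have a1 : #((range D).filter (Sees G H f w)) ≤ #((nb G w \ F.B) \ H) :=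
    (card_le_card fun γ k => by
      obtain ⟨l, e, e1, e2, rfl⟩ := mem_filter.1 k
      exact mem_image_of_mem f (by simp [e1, e2, h.nB (mem_range.1 l).le])).trans card_image_le
  have a2 := card_le_card (s := T) (t := (nb G w \ F.B) ∩ H) fun e k => by simp [hT e k]
  have := card_sdiff_add_card_inter (nb G w \ F.B) H
  have := card_filter_add_card_filter_not (s := range D) (Sees G H f w)
  rw [card_range] at this
  unfold Fm.Dg at dg
  rw [Fr]
  omega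

/-- State form for three twins in a tree: the core sees exactly `M`, every twin sees all of `M`,
and the present colours of the twins are seen by a twin. -/
theorem IsB.state3 {T : Tr G D} (h : IsB T) (nc : T.NFc 2) {z : V} (hz : z ∈ T.R)
    (hY : IsClq G Y) {a b d : V}
    (hv : z ∈ {a, b, d} ∪ Y) (hr : ∀ x ∈ {a, b, d} ∪ Y, x ∉ T.Dm)
    (ns : ∀ x ∈ {a, b, d} ∪ Y, T.NS z x)
    (hx : ∀ y ∈ Y, G.Adj y a ∧ G.Adj y b ∧ G.Adj y d) (ab : a ≠ b) (ad : a ≠ d) (bd : b ≠ d)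
    (n1 : ¬ G.Adj a b) (n2 : ¬ G.Adj a d) (n3 : ¬ G.Adj b d) (h4 : 4 ≤ #Y)
    (hD : D + 4 ≤ 3 * #Y) :
    ∃ M ⊆ range D, #M + #Y + 1 = D ∧
      (∀ y ∈ Y, ∀ γ < D, Sees G ({a, b, d} ∪ Y) (T.col z) y γ ↔ γ ∈ M) ∧
      (∀ γ ∈ M, Sees G ({a, b, d} ∪ Y) (T.col z) a γ ∧ Sees G ({a, b, d} ∪ Y) (T.col z) b γ ∧
        Sees G ({a, b, d} ∪ Y) (T.col z) d γ) ∧
      ∀ γ < D, T.col z a = γ ∨ T.col z b = γ ∨ T.col z d = γ →
        Sees G ({a, b, d} ∪ Y) (T.col z) a γ ∨ Sees G ({a, b, d} ∪ Y) (T.col z) b γ ∨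
        Sees G ({a, b, d} ∪ Y) (T.col z) d γ := by
  set H : Finset V := {a, b, d} ∪ Y with eH
  have hc := h.hc1 hz
  have mY : ∀ y ∈ Y, y ∈ H := fun y k => mem_union_right _ k
  have ma : a ∈ H := by simp [eH]
  have mb : b ∈ H := by simp [eH]
  have md : d ∈ H := by simp [eH]
  have nB : ∀ x ∈ H, x ∉ (T.fm z {z}).B := fun x k => hc.nB (by
    by_cases e : x = z
    exacts [by rw [e, hc.hole], (T.full z hz x (hr x k) e).le])
  have dg : ∀ x ∈ H, (T.fm z {z}).Dg G D x := fun x k => h.dg (hr x k) (ns x k) _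
  have j2 : ∀ t ∈ H, (∀ y ∈ Y, G.Adj y t) → #Y ≤ #(Fr G D H (T.col z) t) + 1 := fun t p q =>
    fr_card' hc (dg t p) Y fun y k => ⟨(q y k).symm, mY y k, nB y (mY y k)⟩
  have ya : ∀ y ∈ Y, y ≠ a ∧ y ≠ b ∧ y ≠ d := fun y k =>
    ⟨(hx y k).1.ne, (hx y k).2.1.ne, (hx y k).2.2.ne⟩
  have j1 : ∀ y ∈ Y, #Y + 1 ≤ #(Fr G D H (T.col z) y) := fun y hy => by
    have := fr_card' (H := H) hc (dg y (mY y hy)) ({a, b, d} ∪ Y.erase y) fun t ht => by
      have k : t ∈ H := union_subset_union_right (erase_subset _ _) ht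
      refine ⟨?_, k, nB t k⟩
      simp only [mem_union, mem_insert, mem_singleton, mem_erase] at ht
      rcases ht with (rfl | rfl | rfl) | ⟨p, q⟩
      exacts [(hx y hy).1, (hx y hy).2.1, (hx y hy).2.2, hY y hy t q (Ne.symm p)]
    rw [card_union_of_disjoint (disjoint_left.2 fun t p q => by
      have := ya t (mem_of_mem_erase q)
      simp_all), card_eq_three.2 ⟨a, b, d, ab, ad, bd, rfl⟩] at this
    have := card_erase_add_one hy
    omega
  obtain ⟨U, u1, u2, u3, u4, u5, u6⟩ := exact3w (P := range D) (L := Fr G D H (T.col z))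
    (Q := fun γ => T.col z a ≠ γ ∧ T.col z b ≠ γ ∧ T.col z d ≠ γ) h4 (by simpa using hD)
    (filter_subset _ _) (filter_subset _ _) (filter_subset _ _) j1
    (j2 a ma fun y k => (hx y k).1) (j2 b mb fun y k => (hx y k).2.1)
    (j2 d md fun y k => (hx y k).2.2) fun α p β q δ r φ f1 f2 => by
      by_contra k
      obtain ⟨g, ga, gb, gd, gY, g0⟩ : ∃ g : V → ℕ, g a = α ∧ g b = β ∧ g d = δ ∧
          (∀ y ∈ Y, g y = φ y) ∧ ∀ m, m ∉ H → g m = T.col z m :=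
        ⟨fun x => if x = a then α else if x = b then β else if x = d then δ else
          if x ∈ Y then φ x else T.col z x, by simp, by simp [ab.symm], by simp [ad.symm, bd.symm],
          fun y k => by simp [ya y k, k], fun m k => by
            simp only [eH, mem_union, mem_insert, mem_singleton, not_or] at k
            simp [k]⟩
      have cs : ∀ x ∈ H, x = a ∨ x = b ∨ x = d ∨ x ∈ Y := fun x p => by simpa [eH] using p
      have gF : ∀ x ∈ H, g x ∈ Fr G D H (T.col z) x := fun x w => by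
        rcases cs x w with rfl | rfl | rfl | e
        exacts [ga ▸ p, gb ▸ q, gd ▸ r, gY x e ▸ (f1 x e).1]
      have gy : ∀ y ∈ Y, ∀ x ∈ H, G.Adj y x → g y ≠ g x := fun y w x o e => by
        rw [gY y w]
        rcases cs x o with rfl | rfl | rfl | o
        exacts [ga ▸ (f1 y w).2.1, gb ▸ (f1 y w).2.2.1, gd ▸ (f1 y w).2.2.2,
          gY x o ▸ fun s => e.ne (f2 w o s)]
      have gp : ∀ x ∈ H, ∀ y, G.Adj x y → g x ≠ g y := fun x w y e => by
        by_cases o : y ∈ H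
        swap
        · exact g0 y o ▸ fun s => (mem_Fr.1 (gF x w)).2 ⟨y, e, o, s.symm⟩
        by_cases x1 : x ∈ Y
        · exact gy x x1 y o e
        by_cases y1 : y ∈ Y
        · exact (gy y y1 x w e.symm).symm
        have e' := e.symm
        rcases cs x w with rfl | rfl | rfl | s <;> rcases cs y o with rfl | rfl | rfl | t <;>
          first | exact (e.ne rfl).elim | contradiction
      refine nc.fill hz hv hr g g0 (fun m o => (mem_Fr.1 (gF m o)).1) gp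
        (fun κ _ => ind_two hY hx (filter_subset _ _) (fun x s y t e => ?_) fun ⟨s, t, w⟩ => ?_)
        fun κ l => ind_two hY hx (filter_subset _ _) (fun x s y t e => ?_) fun ⟨s, t, w⟩ => ?_
      · exact gp x (mem_filter.1 s).1 y e ((mem_filter.1 s).2.1.trans (mem_filter.1 t).2.1.symm)
      · obtain ⟨-, s1, s2⟩ := mem_filter.1 s
        obtain ⟨-, t1, t2⟩ := mem_filter.1 t
        obtain ⟨-, w1, w2⟩ := mem_filter.1 w
        rw [ga] at s1; rw [gb] at t1; rw [gd] at w1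
        exact k ⟨s1.trans t1.symm, t1.trans w1.symm, s1 ▸ s2, s1 ▸ t2, s1 ▸ w2⟩
      · exact hc.ne e ((mem_filter.1 s).2.1.trans (mem_filter.1 t).2.1.symm)
      · have s1 := (mem_filter.1 s).2.1
        have t1 := (mem_filter.1 t).2.1
        have w1 := (mem_filter.1 w).2.1
        have zY : z ∈ Y := by
          have := hc.hole
          rcases cs z hv with rfl | rfl | rfl | e
          exacts [by omega, by omega, by omega, e]
        obtain ⟨x1, x2, x3⟩ := hx z zY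
        exact hc.double (h.dgo hz _) x1 x2 ab (s1.trans t1.symm) (by omega) x3 (by omega)
          ad.symm bd.symm a x1 ad (s1.trans w1.symm)
  obtain ⟨y, hy⟩ := card_pos.1 (by omega : 0 < #Y)
  have hU : U ⊆ range D := u2 y hy ▸ filter_subset _ _
  have := (compl_spec (G := G) (H := Y) (c := T.col z) (w := y) hU).1
  refine ⟨range D \ U, sdiff_subset, by omega, fun y hy => (compl_spec hU).2.1 (u2 y hy),
    fun γ k => ⟨(compl_spec hU).2.2 u3 γ k, (compl_spec hU).2.2 u4 γ k,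
      (compl_spec hU).2.2 u5 γ k⟩, fun γ l o => ?_⟩
  by_contra! k
  have := u6 γ (mem_Fr.2 ⟨l, k.1⟩) (mem_Fr.2 ⟨l, k.2.1⟩) (mem_Fr.2 ⟨l, k.2.2⟩)
  tauto

/-- State form for two twins in a tree. -/
theorem IsB.state2 {T : Tr G D} (h : IsB T) {z : V} (hz : z ∈ T.R) (hY : IsClq G Y) {a b : V}
    (hv : z ∈ {a, b} ∪ Y) (hr : ∀ x ∈ {a, b} ∪ Y, x ∉ T.Dm) (ns : ∀ x ∈ {a, b} ∪ Y, T.NS z x)
    (hx : ∀ y ∈ Y, G.Adj y a ∧ G.Adj y b) (ab : a ≠ b) (n : ¬ G.Adj a b) (h4 : 4 ≤ #Y)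
    (hD : D + 2 ≤ 2 * #Y) :
    ∃ M ⊆ range D, #M + #Y = D ∧
      (∀ y ∈ Y, ∀ γ < D, Sees G ({a, b} ∪ Y) (T.col z) y γ ↔ γ ∈ M) ∧
      ((∀ γ ∈ M, Sees G ({a, b} ∪ Y) (T.col z) a γ) ∨
        ∀ γ ∈ M, Sees G ({a, b} ∪ Y) (T.col z) b γ) :=
  (h.nf.hc2 hz hY hx hv hr).state2 hY Subset.rfl hv (fun x k => h.dg (hr x k) (ns x k) _) hx ab n
    h4 hD

end Pool.Agent.Lib.MP_12eaff_co.Acc2
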