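import Pool.Agent.Lib.MP_12eaff_co.Acc2.A
import Pool.Agent.Lib.MP_12eaff_co.Acc2.Blk

set_option autoImplicit false
set_option linter.unusedSectionVars false

namespace Pool.Agent.Lib.MP_12eaff_co.Acc2

open Finset Pool.Agent.Lib.MP_12eaff_co.BK
open scoped Classical

variable {V : Type} [Fintype V] {G : SimpleGraph V} {D : ℕ}

/-- A neighbour of the hole that sees all other colours has at most one repeated colour. -/
theorem HC.dbl_nb {F : Fm V} {e u : V} {f : V → ℕ} (h : HC G D F e f) (deg : F.Dg G D u)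
    (a : G.Adj u e) (t : ∀ κ < D, κ ≠ f u → ∃ m, G.Adj u m ∧ f m = κ) {x x' y y' : V}
    (hx : G.Adj u x) (hx' : G.Adj u x') (hy : G.Adj u y) (hy' : G.Adj u y') (e1 : x ≠ x')
    (e2 : y ≠ y') (c1 : f x = f x') (c2 : f y = f y') (lx : f x < D) (ly : f y < D) :
    y = x ∨ y = x' := by
  have m : ∀ {x}, G.Adj u x → f x < D → x ∈ (nb G u \ F.B).erase e := fun p q =>
    mem_erase.2 ⟨h.ne_hole q, mem_sdiff.2 ⟨mem_nb.2 p, h.nB q.le⟩⟩
  refine one_double ?_ (m hx lx) (m hx' (c1 ▸ lx)) e1 c1 (m hy ly) (m hy' (c2 ▸ ly)) e2 c2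
  have := card_le_card (s := (range D).erase (f u)) (t := ((nb G u \ F.B).erase e).image f)
    fun κ k => by
      obtain ⟨k1, k2⟩ := mem_erase.1 k
      obtain ⟨z, m1, rfl⟩ := t κ (mem_range.1 k2) k1
      exact mem_image_of_mem f (m m1 (mem_range.1 k2))
  have := pred_card_le_card_erase (s := range D) (a := f u)
  have := card_erase_add_one (mem_sdiff.2 ⟨mem_nb.2 a, h.nB h.hole.le⟩)
  have : (nb G u \ F.B).card ≤ D + 1 := deg
  rw [card_range] at *
  omega

/-- A vertex that can be swapped with a non-neighbour `q` of the hole is not unique there. -/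
theorem HC.swap_dbl {F : Fm V} {e q w : V} {f : V → ℕ} (h : HC G D F e f) (sq : q ∈ F.S)
    (sw : w ∈ F.S) (hq : q ≠ e) (hw : w ≠ e) (n : ¬ G.Adj e q) (h1 : Uq G f q w)
    (h2 : Uq G f w q) (a : G.Adj q w) : ¬ Uq G f e w := fun k => by
  obtain ⟨m, m1, m2⟩ := (h.swap sq sw hq hw a.ne h1 h2 (h.ne a)).sees (h.lt w sw hw)
  by_cases x : m = w
  · rw [x, Function.update_self] at m2
    exact h.ne a m2
  · rw [Function.update_of_ne x, Function.update_of_ne fun z : m = q => n (z ▸ m1)] at m2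
    exact k m m1 x m2

/-- Colours outside `A` are seen off `s`. -/
theorem cnt_nb {N s : Finset V} {C A : Finset ℕ} {f : V → ℕ} (hs : s ⊆ N)
    (h : ∀ κ ∈ C, κ ∉ A → ∃ x ∈ N, x ∉ s ∧ f x = κ) : C.card + s.card ≤ N.card + A.card := by
  have := (card_le_card (s := C \ A) (t := (N \ s).image f) fun κ k => by
    obtain ⟨x, x1, x2, x3⟩ := h κ (mem_sdiff.1 k).1 (mem_sdiff.1 k).2
    exact mem_image.2 ⟨x, mem_sdiff.2 ⟨x1, x2⟩, x3⟩).trans card_image_le
  have := card_sdiff_add_card_eq_card hs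
  have := le_card_sdiff A C
  omega

/-- The arc `w → u` is the target of no `t`, of no pair and of no port ticket. -/
def NoT (T : Tr G D) (w u : V) : Prop :=
  ¬ T.PayT w u ∧ (∀ x ∈ T.R, x ≠ T.r → w ∈ T.H (T.p x) → T.tc x w ≠ T.col w u) ∧
    ∀ z ∈ T.R, ¬ T.Port z w (T.col w u)

/-- `T0` tails of `u` without a ticket. -/
noncomputable def W1 (T : Tr G D) (u : V) : Finset V :=
  (IsA.W T u).filter fun w => u ∈ T.O w ∧ NoT T w u

/-- Second kind of exception: a vertex hidden by `u` on the path of `e` had the colour of `w`. -/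
def Ex2 (T : Tr G D) (u e w : V) : Prop := ∃ m ∈ T.H u, m ≠ w ∧ T.Anc m e ∧ T.d u ≤ T.d m ∧
  T.c m = T.col e w ∧ (¬ T.Anc w e ∨ T.d w + 3 ≤ T.d m)

/-- Port exception: a port of `u` showed the colour of `w` above `e` and does not in `s(e)`. -/
def ExP (T : Tr G D) (u e w : V) : Prop := ∃ z, T.Anc z e ∧ ∃ m ∈ T.Dm, G.Adj u m ∧
  T.col z m = T.col e w ∧ T.col e m ≠ T.col e w

/-- Port tickets in `s(u)` for the arcs `w → u` and `p u → w`. -/
def ExE (T : Tr G D) (u w : V) : Prop :=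
  T.Port u w (T.col w u) ∨ T.Port u (T.p u) (T.col (T.p u) w)

/-- A port exception is a ticket of `u`, or an own port of `u` that is blank in `s(e)`. -/
theorem ExP.cases {T : Tr G D} {u e w : V} (h : ExP T u e w) :
    (∃ z, T.Anc z e ∧ T.Port z u (T.col e w)) ∨ ∃ m ∈ T.Dm, G.Adj u m ∧ T.col u m = T.col e w ∧
      (D < T.col e m ∨ T.col e m < D ∧ T.Port e u (T.col e m)) := by
  obtain ⟨z, z1, m, m1, m2, m3, m4⟩ := h
  by_cases k : T.col u m = T.col e w
  · have := T.dm_ne e z1.mem.2 m m1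
    refine .inr ⟨m, m1, m2, k, or_iff_not_imp_left.2 fun l => ⟨by omega, m, m1, m2, rfl, ?_⟩⟩
    rw [k]; exact m4.symm
  · exact .inl ⟨z, z1, m, m1, m2, m3, k⟩

namespace IsA

variable {T : Tr G D} {u w e : V}

open Tr

theorem mem_W1 : w ∈ W1 T u ↔ w ∈ W T u ∧ u ∈ T.O w ∧ NoT T w u := mem_filter

theorem O_mem {v : V} (hv : v ∈ T.R) (hu : u ∈ T.O v) : u ∈ T.R ∧ T.d u ≤ T.d v + 1 :=
  T.clo v hv u hu

theorem W_d (hu : u ∈ T.R) (hw : w ∈ W T u) : w ∈ T.R ∧ T.d w ≤ T.d u := by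
  obtain ⟨-, a1, a2, -⟩ := mem_W.1 hw
  have := O_mem (T.p_mem u hu a1) a2
  have := T.d_p u hu a1
  exact ⟨by tauto, by omega⟩

theorem W_base (hu : u ∈ T.R) (hw : w ∈ W T u) (ho : u ∈ T.O w) : ¬ T.Anc w u := fun k => by
  obtain ⟨a0, a1, a2, -⟩ := mem_W.1 hw
  have hq := T.p_mem u hu a1
  have := T.mem_ch.1 (k.ch_of_d a0.ne.symm (O_mem k.mem.1 ho).2)
  exact (T.O_adj _ hq w a2).ne this.2.2

theorem clq_ne {Z : Finset V} (he : e ∈ T.R) (cl : IsClq G Z) {w' : V} (hw : w ∈ Z) (hw' : w' ∈ Z)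
    (hc : T.col e w = T.col e w') : w = w' := by
  by_contra k
  exact T.prop e he w w' (cl w hw w' hw' k) hc

end IsA

namespace IsB

variable {T : Tr G D} {u w e : V}

open Tr IsA

/-- COVER, with the port ticket as last case. -/
theorem cover' (h : IsB T) (hw : w ∈ T.R) (hu : u ∈ T.O w) (n1 : ¬ T.PayT w u)
    (n2 : ∀ x ∈ T.R, x ≠ T.r → w ∈ T.H (T.p x) → T.tc x w ≠ T.col w u) {y m : V}
    (hy : y ∈ T.R) (a : G.Adj w m) (ne : m ≠ u) (hc : T.col y m = T.col w u) :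
    (∃ x ∈ T.ch m, T.Anc x y ∧ T.c x = T.col w u ∧ ¬ T.Anc x w ∧ (w ∈ T.O m ∨ m ∈ T.ch w)) ∨
      T.Port y w (T.col w u) := by
  by_cases md : m ∈ T.Dm
  · exact .inr (port_of hw hu a md hc)
  left
  have uq := h.uq_O hw hu m a ne
  by_cases k : T.Anc m y
  · obtain ⟨x, x1, x2⟩ := k.child fun z => by
      have := T.lt w hw u hu
      rw [← hc, z, col_self hy] at this
      omega
    obtain ⟨p1, p2, p3⟩ := T.mem_ch.1 x1
    rw [col_anc x1 x2] at hc
    have n : ¬ T.Anc x w := fun z => uq (by rw [col_anc x1 z, hc])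
    refine ⟨x, x1, x2, hc, n, (adj_cases k.mem.1 hw a.symm).imp_right fun z =>
      z.resolve_left fun z => n2 x p1 p2 (p3 ▸ z) (by rw [tc, if_neg n, hc])⟩
  · rw [col_base hy md k] at hc
    have k' : T.Anc m w := by
      by_contra z
      exact uq (by rw [col_base hw md z, hc])
    obtain ⟨x, x1, x2⟩ := k'.child a.ne.symm
    obtain ⟨p1, p2, p3⟩ := T.mem_ch.1 x1
    by_cases z : x = w
    · subst z
      exact absurd ⟨⟨p2, p3 ▸ ch_O x1 (.inl a.symm)⟩, by rw [← hc, p3]⟩ n1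
    · exact absurd (by rw [tc, if_pos x2, p3, hc]) (n2 x p1 p2 (p3 ▸ F2' x1 x2 z a.symm))

/-- COVER. -/
theorem cover (h : IsB T) (hw : w ∈ T.R) (hu : u ∈ T.O w) (nt : NoT T w u) {y m : V}
    (hy : y ∈ T.R) (a : G.Adj w m) (ne : m ≠ u) (hc : T.col y m = T.col w u) :
    ∃ x ∈ T.ch m, T.Anc x y ∧ T.c x = T.col w u ∧ ¬ T.Anc x w ∧ (w ∈ T.O m ∨ m ∈ T.ch w) :=
  (h.cover' hw hu nt.1 nt.2.1 hy a ne hc).resolve_right (nt.2.2 y hy)

/-- ENTRY, key step, over a set `P` of states in which no ticket can appear. -/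
theorem entry_gen (h : IsB T) (hu : u ∈ T.R) (w1 : w ∈ W T u) (w2 : u ∈ T.O w)
    (n : ¬ T.Anc u e) (P : V → Prop) (cov : ∀ y m, P y → y ∈ T.R → G.Adj w m → m ≠ u →
      T.col y m = T.col w u → ∃ x ∈ T.ch m, T.Anc x y ∧ T.c x = T.col w u ∧ ¬ T.Anc x w ∧
        (w ∈ T.O m ∨ m ∈ T.ch w))
    (hP : ∀ a x, x ∈ T.ch a → w ∈ T.O a ∨ a ∈ T.ch w → P a) {y : V} (ye : T.Anc y e) (py : P y)
    (s : ¬ Uq G (T.col y) w u) : ¬ Uq G (T.col e) u w ∨ Ex2 T u e w ∨ ExP T u e w := by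
  obtain ⟨a0, a1, a2, a3, -⟩ := mem_W.1 w1
  obtain ⟨wR, wd⟩ := W_d hu w1
  have ud := (O_mem wR w2).2
  have ur := T.real u hu
  have wr := T.real w wR
  have key : ∀ k y, T.d y ≤ k → T.Anc y e → P y → ¬ Uq G (T.col y) w u →
      ¬ Uq G (T.col e) u w ∨ Ex2 T u e w ∨ ExP T u e w := by
    intro k
    induction k using Nat.strong_induction_on with
    | _ k ih =>
    intro y yk ye py s
    have base : ∀ {y}, T.Anc y e → T.col y u = T.c u := fun k =>
      col_base k.mem.1 ur fun z => n (z.trans k)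
    simp only [Uq, not_forall, not_not] at s
    obtain ⟨a, s1, s2, s3⟩ := s
    obtain ⟨x, x1, x2, x3, x4, x5⟩ := cov y a py ye.mem.1 s1 s2 (by rw [s3, base ye, a3])
    have xe := x2.trans ye
    have ae := (anc_ch x1).trans xe
    have aR := ae.mem.1
    have xd := d_ch x1
    have xy := x2.le
    have xc : T.col a x = T.c x := col_base aR x2.real fun z => by have := z.le; omega
    have na : ¬ G.Adj u a := fun z => T.prop y ye.mem.1 u a z s3.symm
    have dw : T.d w ≤ T.d a + 1 := x5.elim (fun z => (O_mem aR z).2) fun z => by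
      have := d_ch z; omega
    have uq : Uq G (T.col a) a w := x5.elim (h.uq_O aR) fun z => by
      obtain ⟨p1, p2, p3⟩ := T.mem_ch.1 z
      exact p3 ▸ h.uq_par p1 p2 (p3 ▸ ch_O z (.inl s1))
    have nw : ¬ (T.Anc a w ∧ T.Anc w e) := fun z => x4 (Anc.under x1 xe z.1 z.2 s1.ne.symm)
    have cw : T.col e w = T.col a w := col_diff ae wr nw
    by_cases q : Uq G (T.col a) w u
    swap
    · exact ih (T.d a) (by omega) a le_rfl ae (hP a x x1 x5) q
    have : ¬ Uq G (T.col a) u w := fun r =>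
      (h.hc aR (S := {a, u, w}) (by simp) (by simpa using ⟨ae.real, ur, wr⟩)
        (Cov.edge1 a0 a)).swap_dbl (by simp) (by simp) (Ne.symm s2) s1.ne (fun z => na z.symm)
        r q a0 uq
    simp only [Uq, not_forall, not_not] at this
    obtain ⟨m, m1, m2, m3⟩ := this
    by_cases md : m ∈ T.Dm
    · by_cases r : T.col e m = T.col e w
      · exact .inl fun t => t m m1 m2 r
      · exact .inr (.inr ⟨a, ae, m, md, m1, m3.trans cw.symm, r⟩)
    by_cases z : T.Anc a m ∧ T.Anc m e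
    swap
    · exact .inl fun r => r m m1 m2 (by rw [col_diff ae md z, m3, cw])
    have an : a ≠ m := fun r => na (r ▸ m1)
    have am := z.1.lt an
    have cm : T.col a m = T.c m := col_base aR md fun r => by have := r.le; omega
    have xm := (Anc.under x1 xe z.1 z.2 an).lt fun r =>
      T.prop a aR u w a0 (by rw [← m3, ← r, base ae, xc, x3, a3])
    by_cases r : T.Anc w a
    · have := r.lt s1.ne
      exact .inr (.inl ⟨m, F2 hu z.2.mem.1 m1 (by omega), m2, z.2, by omega,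
        by rw [cw, ← m3, cm], .inr (by omega)⟩)
    · refine .inr (.inl ⟨m, h.Bd_H hu ((mem_Bd' hu md).2 ⟨m1, fun t => t w a0 (Ne.symm m2) ?_⟩),
        m2, z.2, by omega, by rw [cw, ← m3, cm], .inl fun t => (le_total (T.d w) (T.d a)).elim
          (fun d => r (t.comp ae d)) fun d => nw ⟨ae.comp t d, t⟩⟩)
      rw [col_base hu wr (W_base hu w1 w2),
        col_base hu md fun t => m1.ne (t.eq_of_d (by omega)).symm, ← cm, m3, col_base aR wr r]
  exact key _ y le_rfl ye py s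

/-- ENTRY, key step: a tail without ticket that sees the colour of its head elsewhere. -/
theorem entry_key (h : IsB T) (hu : u ∈ T.R) (hw : w ∈ W1 T u) (he : e ∈ T.R) (n : ¬ T.Anc u e)
    (s : ¬ Uq G (T.col e) w u) : ¬ Uq G (T.col e) u w ∨ Ex2 T u e w ∨ ExP T u e w := by
  obtain ⟨w1, w2, w3⟩ := mem_W1.1 hw
  exact h.entry_gen hu w1 w2 n (fun _ => True)
    (fun _ _ _ a b c d => h.cover (W_d hu w1).1 w2 w3 a b c d) (fun _ _ _ _ => trivial)
    (.refl e he) trivial s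

theorem W_clq' (h : IsB T) (hu : u ∈ T.R) (ns : T.NS (T.p u) u) {Z : Finset V} (hZ : Z ⊆ W T u) :
    IsClq G Z := fun _ a _ b k => h.W_adj hu ns (hZ a) (hZ b) k

theorem W_ne (h : IsB T) (hu : u ∈ T.R) (ns : T.NS (T.p u) u) {w' : V} (hw : w ∈ W T u)
    (hw' : w' ∈ W T u) (he : e ∈ T.R) (hc : T.col e w = T.col e w') : w = w' :=
  clq_ne he (h.W_clq' hu ns subset_rfl) hw hw' hc

/-- At most one tail is doubled at a tight head. -/
theorem W_dbl (h : IsB T) (hu : u ∈ T.R) (ns : T.NS (T.p u) u) {w' : V} (hw : w ∈ W T u)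
    (hw' : w' ∈ W T u) (he : e ∈ T.R) (ne : T.NS e u) (a : G.Adj u e) (t : T.Tight e u)
    (s : ¬ Uq G (T.col e) u w) (s' : ¬ Uq G (T.col e) u w') : w = w' := by
  have l : ∀ w ∈ W T u, ∀ m, m ≠ w → T.col e m = T.col e w → T.col e w < D := fun w k m x y =>
    col_lt he (W_mem hu k) fun z => col_ne_D he (z ▸ x) (by rw [y, z, col_self he])
  simp only [Uq, not_forall, not_not] at s s'
  obtain ⟨m, m1, m2, m3⟩ := s
  obtain ⟨m', n1, n2, n3⟩ := s'
  rcases (h.hc1 he).dbl_nb (h.dg (T.real u hu) ne _) a t (mem_W.1 hw).1 m1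
    (mem_W.1 hw').1 n1 (Ne.symm m2) (Ne.symm n2) m3.symm n3.symm (l w hw m m2 m3)
    (l w' hw' m' n2 n3) with z | z
  exacts [z.symm, h.W_ne hu ns hw hw' he (by rw [z, m3])]

/-- Spare neighbours of a tight neighbour of the hole; `A` holds the ticket colours. -/
theorem exc_nb (h : IsB T) (hu : u ∈ T.R) (he : e ∈ T.R) (a : G.Adj u e) (t : T.Tight e u)
    {A : Finset ℕ} (hA : ∀ κ < D, T.Port e u κ → κ ∈ A) {s : Finset V}
    (hs : ∀ x ∈ s, G.Adj u x ∧ x ≠ e ∧ x ∉ T.S2 ∧ (T.col e x < D → T.col e x ∉ A →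
      ∃ y, G.Adj u y ∧ y ∉ s ∧ T.col e y = T.col e x)) : s.card ≤ 1 + A.card := by
  have k : ∀ y, G.Adj u y → T.col e y < D → T.col e y ∉ A → y ∈ (nb G u \ T.S2).erase e :=
    fun y p l q => mem_erase.2 ⟨(h.hc1 he).ne_hole l, mem_sdiff.2 ⟨mem_nb.2 p, fun z =>
      q (hA _ l ⟨y, T.S2_sub z, p, rfl, by have := h.soft u hu y z p; omega⟩)⟩⟩
  have := cnt_nb (N := (nb G u \ T.S2).erase e) (s := s) (C := (range D).erase (T.col e u))
    (A := A) (f := T.col e) (fun x p => mem_erase.2 ⟨(hs x p).2.1,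
      mem_sdiff.2 ⟨mem_nb.2 (hs x p).1, (hs x p).2.2.1⟩⟩) fun κ p q => by
      have l := mem_range.1 (mem_of_mem_erase p)
      obtain ⟨x, x1, rfl⟩ := t κ l (ne_of_mem_erase p)
      by_cases z : x ∈ s
      · obtain ⟨y, y1, y2, y3⟩ := (hs x z).2.2.2 l q
        exact ⟨y, k y y1 (y3 ▸ l) (y3 ▸ q), y2, y3⟩
      · exact ⟨x, k x x1 l q, z, rfl⟩
  have := card_erase_add_one (mem_sdiff.2 ⟨mem_nb.2 a, fun z => T.real e he (T.S2_sub z)⟩)
  have := h.deg u (T.real u hu)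
  have := card_erase_add_one (mem_range.2 (col_lt he hu a.ne))
  rw [card_range] at this
  omega

/-- Doubled members and port exceptions of a clique at a tight neighbour of the hole, together
with a set `X` of further doubled neighbours. -/
theorem W_exc (h : IsB T) (hu : u ∈ T.R) (he : e ∈ T.R) (a : G.Adj u e) (t : T.Tight e u)
    {A : Finset ℕ} (hA : ∀ z, T.Anc z e → ∀ κ < D, T.Port z u κ → κ ∈ A) {Z X : Finset V}
    (cl : IsClq G Z)
    (hZ : ∀ w ∈ Z, G.Adj u w ∧ w ∉ T.Dm ∧ (¬ Uq G (T.col e) u w ∨ ExP T u e w))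
    (hX : ∀ x ∈ X, G.Adj u x ∧ x ∉ T.Dm ∧ x ≠ e ∧ (∀ w ∈ Z, T.col e w ≠ T.col e x) ∧
      ∃ y, G.Adj u y ∧ y ∉ T.Dm ∧ y ∉ X ∧ T.col e y = T.col e x) :
    Z.card + X.card ≤ 1 + A.card := by
  have ne : ∀ w ∈ Z, w ≠ e := fun w k z => by
    subst z
    rcases (hZ w k).2.2 with p | ⟨y, y1, m, m1, -, m3, -⟩
    · exact p fun m _ q => by rw [col_self he]; exact col_ne_D he q
    · exact T.dm_ne y y1.mem.1 m m1 (m3.trans (col_self he))
  have lw : ∀ w ∈ Z, T.col e w < D := fun w k => T.full e he w (hZ w k).2.1 (ne w k)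
  have : ∀ w, ∃ x, w ∈ Z → x = w ∧ (¬ Uq G (T.col e) u w ∨ T.col e w ∈ A) ∨
      x ∈ T.Dm ∧ G.Adj u x ∧ T.col u x = T.col e w ∧ (T.col e x < D → T.col e x ∈ A) := fun w => by
    by_cases k : w ∈ Z
    swap
    · exact ⟨w, fun z => absurd z k⟩
    rcases (hZ w k).2.2 with p | p
    · exact ⟨w, fun _ => .inl ⟨rfl, .inl p⟩⟩
    rcases p.cases with ⟨z, z1, z2⟩ | ⟨m, m1, m2, m3, m4⟩
    · exact ⟨w, fun _ => .inl ⟨rfl, .inr (hA z z1 _ (lw w k) z2)⟩⟩
    · exact ⟨m, fun _ => .inr ⟨m1, m2, m3, fun l =>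
        hA e (.refl e he) _ l (m4.resolve_left (by omega)).2⟩⟩
  choose g hg using this
  have inj : Set.InjOn g Z := fun x p y q z => by
    rcases hg x p with ⟨x1, -⟩ | ⟨x1, -, x2, -⟩ <;> rcases hg y q with ⟨y1, -⟩ | ⟨y1, -, y2, -⟩
    · rw [← x1, z, y1]
    · exact absurd (x1 ▸ z ▸ y1) (hZ x p).2.1
    · exact absurd (y1 ▸ z ▸ x1) (hZ y q).2.1
    · exact clq_ne he cl p q (by rw [← x2, z, y2])
  have dj : Disjoint (Z.image g) X := disjoint_left.2 fun x p q => by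
    obtain ⟨w, k, rfl⟩ := mem_image.1 p
    rcases hg w k with ⟨x1, -⟩ | ⟨x1, -⟩
    · exact (hX _ q).2.2.2.1 w k (by rw [x1])
    · exact (hX _ q).2.1 x1
  rw [← card_image_of_injOn inj, ← card_union_of_disjoint dj]
  refine h.exc_nb hu he a t (hA e (.refl e he)) fun x p => ?_
  rcases mem_union.1 p with p | p
  · obtain ⟨w, k, rfl⟩ := mem_image.1 p
    rcases hg w k with ⟨x1, x2⟩ | ⟨x1, x2, x3, x4⟩
    · rw [x1]
      refine ⟨(hZ w k).1, ne w k, fun z => (hZ w k).2.1 (T.S2_sub z), fun l q => ?_⟩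
      have := x2.resolve_right q
      simp only [Uq, not_forall, not_not] at this
      obtain ⟨m, m1, m2, m3⟩ := this
      refine ⟨m, m1, fun z => ?_, m3⟩
      rcases mem_union.1 z with z | z
      · obtain ⟨v, r, rfl⟩ := mem_image.1 z
        rcases hg v r with ⟨y1, -⟩ | ⟨-, -, -, y4⟩
        · rw [y1] at m2 m3
          exact m2 (clq_ne he cl r k m3)
        · exact q (m3 ▸ y4 (m3 ▸ l))
      · exact (hX m z).2.2.2.1 w k m3.symm
    · refine ⟨x2, fun z => T.real e he (z ▸ x1), fun z => ?_, fun l q => absurd (x4 l) q⟩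
      have := h.soft u hu _ z x2
      have := lw w k
      omega
  · obtain ⟨x1, x2, x3, x4, y, y1, y2, y3, y4⟩ := hX x p
    refine ⟨x1, x3, fun z => x2 (T.S2_sub z), fun _ _ => ⟨y, y1, fun z => ?_, y4⟩⟩
    obtain ⟨v, r, rfl⟩ := mem_image.1 ((mem_union.1 z).resolve_right y3)
    rcases hg v r with ⟨z1, -⟩ | ⟨z1, -⟩
    · exact x4 v r (by rw [← y4, z1])
    · exact y2 z1

/-- A prober of the head is adjacent to every tail that can be swapped with the head. -/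
theorem probe_adj (h : IsB T) (he : e ∈ T.R) (ho : u ∈ T.O e) (a : G.Adj u w) (ne : w ≠ e)
    (wd : w ∉ T.Dm) (h1 : Uq G (T.col e) w u) (h2 : Uq G (T.col e) u w) : G.Adj e w := by
  by_contra k
  exact (h.hc he (S := {e, u, w}) (by simp) (by simpa using ⟨T.real e he, O_real he ho, wd⟩)
    (Cov.edge1 a e)).swap_dbl (by simp) (by simp) ne (T.O_adj e he u ho).ne.symm k h1 h2 a.symm
    (h.uq_O he ho)

/-- The state after the shift `u → e`, with the test set `u, e, p u, w`. -/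
theorem exit_hc (h : IsB T) (hu : u ∈ T.R) (ho : e ∈ T.O u) (hw : w ∈ W T u) :
    HC G D (T.fm u {u, e, T.p u, w}) e (shift D (T.col u) u e) :=
  have hq := T.p_mem u hu (mem_W.1 hw).2.1
  (h.hc hu (S := {u, e, T.p u, w}) (by simp)
    (by simpa using ⟨T.real u hu, O_real hu ho, T.real _ hq, W_real hu hw⟩)
    (Cov.edges (T.O_adj u hu e ho) (T.O_adj _ hq w (mem_W.1 hw).2.2.1))).shift (by simp)
    (T.O_adj u hu e ho).ne.symm (h.uq_O hu ho)

/-- EXIT, for a tail whose ports do not show `c u` in `s(u)`. -/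
theorem exit_dbl' (h : IsB T) (hu : u ∈ T.R) (ho : e ∈ T.O u) (n : ¬ G.Adj (T.p u) e)
    (hw : w ∈ W T u) (n1 : ∀ m ∈ T.Dm, G.Adj w m → T.col u m ≠ T.c u)
    (n2 : ¬ T.Port u (T.p u) (T.col (T.p u) w)) : ¬ Uq G (shift D (T.col u) u e) e w := by
  obtain ⟨a0, a1, a2, -⟩ := mem_W.1 hw
  have hq := T.p_mem u hu a1
  have a := T.O_adj u hu e ho
  have b := T.O_adj _ hq w a2
  have c := h.adj_par hu a1 (W_par hw)
  have uq := h.uq_O hu ho
  have we : w ≠ e := fun z => n (z ▸ b)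
  have qe : T.p u ≠ e := (O_ne_p hu ho).symm
  have s := h.exit_hc hu ho hw
  have sv : ∀ v, v ≠ e → v ≠ u → shift D (T.col u) u e v = T.col u v := fun v x y => by
    simp [shift, Function.update_of_ne x, Function.update_of_ne y]
  have su : shift D (T.col u) u e u = T.col u e := by simp [shift, Function.update_of_ne a.ne]
  refine s.swap_dbl (by simp) (by simp) qe we (fun z => n z.symm) (fun m x y => ?_)
    (fun m x y => ?_) b
  · rw [sv w we a0.ne.symm]
    by_cases z : m = u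
    · rw [z, su]
      exact (uq w a0 we).symm
    rw [sv m (fun z => n (z ▸ x)) z, W_col hu hw]
    by_cases md : m ∈ T.Dm
    · exact fun k => n2 (port_of hq a2 x md k)
    · rw [col_step hu a1 md z x.ne.symm]
      exact h.uq_O hq a2 m x y
  · by_cases z : m = u
    · exact z ▸ s.ne c.symm
    by_cases z' : m = e
    · rw [z', s.hole]
      exact (s.ne_D qe).symm
    rw [sv m z' z, sv _ qe c.ne, col_par hu a1]
    by_cases md : m ∈ T.Dm
    · exact n1 m md x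
    · rw [col_step hu a1 md z y, ← col_p_self hu a1]
      exact W_uq hu hw m x z

/-- EXIT: a tail adjacent to an exit off the parent is doubled there. -/
theorem exit_dbl (h : IsB T) (hu : u ∈ T.R) (ho : e ∈ T.O u) (n : ¬ G.Adj (T.p u) e)
    (hw : w ∈ W T u) (hp : u ∈ T.O w) (np : ¬ ExE T u w) : ¬ Uq G (shift D (T.col u) u e) e w :=
  h.exit_dbl' hu ho n hw (fun _ md a k => np (.inl (port_of (W_mem hu hw) hp a md
    (k.trans (mem_W.1 hw).2.2.2.1.symm)))) fun k => np (.inr k)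

/-- EXIT bound: an exit off the parent has at most one neighbour among the tails. -/
theorem exit_one (h : IsB T) (hu : u ∈ T.R) (ho : e ∈ T.O u) (n : ¬ G.Adj (T.p u) e)
    (ne : T.NS u e) {w' : V} (hw : w ∈ W T u) (hw' : w' ∈ W T u) (cl : w ≠ w' → G.Adj w w')
    (hp : u ∈ T.O w) (hp' : u ∈ T.O w') (np : ¬ ExE T u w) (np' : ¬ ExE T u w')
    (a : G.Adj e w) (a' : G.Adj e w') : w = w' := by
  have s := h.exit_hc hu ho hw
  have s' := h.exit_hc hu ho hw'
  have s1 := h.exit_dbl hu ho n hw hp np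
  simp only [Uq, not_forall, not_not] at s1
  obtain ⟨m, m1, m2, m3⟩ := s1
  by_contra k
  exact h.exit_dbl hu ho n hw' hp' np' (s.double (h.dg (O_real hu ho) ne _) a m1 (Ne.symm m2)
    m3.symm (s.lt w (by simp) a.ne.symm) a' (s'.lt w' (by simp) a'.ne.symm) (Ne.symm k)
    fun z => s.ne (cl k) (by rw [z, m3]))

/-- The vertex `t(u)` is the grandparent or is not adjacent to the parent. -/
theorem t_nadj (h : IsB T) (hu : u ∈ T.R) (ho : e ∈ T.O u) (ht : T.PayT u e)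
    (n : e ≠ T.p (T.p u)) : ¬ G.Adj (T.p u) e := fun a => by
  have hq := T.p_mem u hu ht.1.1
  have hr : T.p u ≠ T.r := fun z => by
    have := T.lt u hu e ho
    rw [ht.2, z, T.c_r] at this
    omega
  refine h.ne_par hq hr a (O_real hu ho) n ?_
  rw [← ht.2, col_step hu ht.1.1 (O_real hu ho) (T.O_adj u hu e ho).ne.symm a.ne.symm]

end IsB

namespace IsA

variable {T : Tr G D} {u w e : V}

open Tr

theorem hid_col (h : IsA T) (hu : u ∈ T.R) {m m' : V} (hm : m ∈ T.H u) (hm' : m' ∈ T.H u)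
    (md : m ∉ T.Dm) (md' : m' ∉ T.Dm) (d : T.d u ≤ T.d m) (d' : T.d u ≤ T.d m') :
    T.c m = T.c m' := by
  have b : ∀ m ∈ T.H u, m ∉ T.Dm → T.d u ≤ T.d m → T.col u m = T.c m := fun m k r d =>
    col_base hu r fun z => (T.mem_H.1 k).1.ne (z.eq_of_d d).symm
  rw [← b m hm md d, ← b m' hm' md' d', h.H_col hu hm hm' md md']

/-- At most one tail has the hidden colour of the head. -/
theorem W_hid (h : IsA T) (hu : u ∈ T.R) (ns : T.NS (T.p u) u) {w' m m' : V} (hw : w ∈ W T u)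
    (hw' : w' ∈ W T u) (he : e ∈ T.R) (hm : m ∈ T.H u) (hm' : m' ∈ T.H u) (md : m ∉ T.Dm)
    (md' : m' ∉ T.Dm) (d : T.d u ≤ T.d m) (d' : T.d u ≤ T.d m')
    (c : T.c m = T.col e w) (c' : T.c m' = T.col e w') : w = w' :=
  h.W_ne hu ns hw hw' he (by rw [← c, ← c', h.hid_col hu hm hm' md md' d d'])

theorem ex2_one (h : IsA T) (hu : u ∈ T.R) (he : e ∈ T.R) {Z : Finset V} (cl : IsClq G Z) :
    (Z.filter (Ex2 T u e)).card ≤ 1 := card_le_one.2 fun x hx y hy => by
  obtain ⟨x1, m, m1, -, m0, m2, m3, -⟩ := mem_filter.1 hx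
  obtain ⟨y1, m', n1, -, n0, n2, n3, -⟩ := mem_filter.1 hy
  exact clq_ne he cl x1 y1 (by rw [← m3, ← n3, h.hid_col hu m1 n1 m0.real n0.real m2 n2])

theorem entry' (h : IsA T) (hu : u ∈ T.R) (he : e ∈ T.R) (a : G.Adj u e) (t : T.Tight e u)
    (Z : Finset V) (hZ : ∀ w ∈ Z, w ∈ W T u ∧ (¬ Uq G (T.col e) w u →
      ¬ Uq G (T.col e) u w ∨ Ex2 T u e w ∨ ExP T u e w)) (cl : IsClq G Z) {A : Finset ℕ}
    (hA : ∀ z, T.Anc z e → ∀ κ < D, T.Port z u κ → κ ∈ A) :
    (Z.filter fun w => ¬ (Uq G (T.col e) w u ∧ Uq G (T.col e) u w)).card ≤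
      (1 + if ∃ m ∈ T.H u, T.Anc m e ∧ T.d u ≤ T.d m then 1 else 0) + A.card := by
  have h1 := h.W_exc hu he a t hA (Z := Z.filter fun w => ¬ Uq G (T.col e) u w ∨ ExP T u e w)
    (X := ∅) (fun x p y q => cl x (mem_filter.1 p).1 y (mem_filter.1 q).1) (fun w k =>
      have p := (hZ w (mem_filter.1 k).1).1
      ⟨(mem_W.1 p).1, W_real hu p, (mem_filter.1 k).2⟩) (by simp)
  have h2 : (Z.filter (Ex2 T u e)).card ≤
      if ∃ m ∈ T.H u, T.Anc m e ∧ T.d u ≤ T.d m then 1 else 0 := by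
    split_ifs with k
    · exact h.ex2_one hu he cl
    · rw [Nat.le_zero, card_eq_zero, filter_eq_empty_iff]
      exact fun x _ ⟨m, m1, _, m2, m3, _⟩ => k ⟨m, m1, m2, m3⟩
  refine le_trans (card_le_card fun w hw => ?_) ((card_union_le
    (Z.filter fun w => ¬ Uq G (T.col e) u w ∨ ExP T u e w) (Z.filter (Ex2 T u e))).trans
      (by omega))
  obtain ⟨w1, w2⟩ := mem_filter.1 hw
  have := hZ w w1
  simp only [mem_union, mem_filter]
  tauto

/-- ENTRY: all tails without ticket but two can be swapped with the head; all but one if no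
vertex hidden by the head lies on the path at the level of the head or below.  Every colour of a
port ticket of the head above `e` may spoil one more tail. -/
theorem entry (h : IsA T) (hu : u ∈ T.R) (he : e ∈ T.R) (n : ¬ T.Anc u e) (a : G.Adj u e)
    (t : T.Tight e u) (ns : T.NS (T.p u) u) {A : Finset ℕ}
    (hA : ∀ z, T.Anc z e → ∀ κ < D, T.Port z u κ → κ ∈ A) :
    ((W1 T u).filter fun w => ¬ (Uq G (T.col e) w u ∧ Uq G (T.col e) u w)).card ≤
      (1 + if ∃ m ∈ T.H u, T.Anc m e ∧ T.d u ≤ T.d m then 1 else 0) + A.card :=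
  h.entry' hu he a t _ (fun _ k => ⟨(mem_W1.1 k).1, h.entry_key hu k he n⟩)
    (h.W_clq' hu ns (filter_subset _ _)) hA

theorem t_probe' (h : IsA T) (hu : u ∈ T.R) (ho : e ∈ T.NT u) (ht : T.PayT u e)
    (hp : u ∈ T.O e) (Z : Finset V) (hZ : ∀ w ∈ Z, w ∈ W T u ∧ u ∈ T.O w ∧ (¬ G.Adj e w →
      ¬ Uq G (T.col e) w u → ¬ Uq G (T.col e) u w ∨ Ex2 T u e w ∨ ExP T u e w) ∧
      (G.Adj e w → ¬ ExE T u w)) (cl : IsClq G Z) (ne : T.NS u e) {A : Finset ℕ}
    (hA : ∀ z, T.Anc z e → ∀ κ < D, T.Port z u κ → κ ∈ A) : Z.card ≤ 2 + A.card := by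
  obtain ⟨o1, o2⟩ := T.mem_NT.1 ho
  obtain ⟨he, de⟩ := O_mem hu o1
  have du := (O_mem he hp).2
  have hq := T.p_mem u hu ht.1.1
  have dq := T.d_p u hu ht.1.1
  have dq' := (O_mem hq ht.1.2).2
  have a := T.O_adj u hu e o1
  have t := h.probe_tight he hp
  have na := h.t_nadj hu o1 ht fun z => by
    by_cases r : T.p u = T.r
    · exact O_ne_p hu o1 (by rw [z, r, T.p_r])
    · have := T.d_p _ hq r
      rw [← z] at this
      omega
  have aq : ∀ w ∈ Z, G.Adj (T.p u) w := fun w k => T.O_adj _ hq w (mem_W.1 (hZ w k).1).2.2.1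
  have ex : ∀ w ∈ Z, ¬ G.Adj e w → ¬ Ex2 T u e w → ¬ Uq G (T.col e) u w ∨ ExP T u e w :=
    fun w hw k x => by
    by_cases z : Uq G (T.col e) w u
    · exact .inl fun y => k (h.probe_adj he hp (mem_W.1 (hZ w hw).1).1
        (fun x => na (x ▸ aq w hw)) (W_real hu (hZ w hw).1) z y)
    · exact ((hZ w hw).2.2.1 k z).imp_right fun y => y.resolve_left x
  have mix : ∀ w ∈ Z, Ex2 T u e w → ∃ m, G.Adj u m ∧ m ∉ T.Dm ∧ m ≠ e ∧ T.p u ≠ m ∧
      T.col e (T.p u) = T.col e m := by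
    rintro w hw ⟨m, m1, m2, m3, m4, m5, m6⟩
    obtain ⟨w1, w2, -⟩ := hZ w hw
    have me : m ≠ e := fun z => (T.mem_H.1 m1).2.2.1 (z ▸ o1)
    have := m3.lt me
    obtain ⟨-, p2, p3⟩ := T.mem_ch.1 (m3.ch_of_d me (by omega))
    have oc : ∀ x ∈ T.O (T.p u), T.d (T.p u) ≤ T.d x → T.col (T.p u) x = T.c x := fun x k d =>
      col_base hq (O_real hq k) fun z => (T.O_adj _ hq x k).ne (z.eq_of_d d).symm
    have dw := (O_mem (W_d hu w1).1 w2).2
    have mo : m ∉ T.O (T.p u) := fun z => m2 (O_inj hq z (mem_W.1 w1).2.2.1 (by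
      rw [oc m z (by omega), oc w (mem_W.1 w1).2.2.1 (by omega), m5,
        col_base he (W_real hu w1) (m6.resolve_right (by omega))]))
    have gm : T.p u ≠ m := fun z => by rw [← z] at m4; omega
    have ge : ¬ T.Anc (T.p u) e := fun z =>
      mo (ch_O ((z.comp m3 (by omega)).ch_of_d gm (by omega)) (.inr (by omega)))
    refine ⟨m, (T.mem_H.1 m1).1, m3.real, me, gm, ?_⟩
    rw [col_base he (T.real _ hq) ge, ← p3, col_par he p2, ← ht.2,
      col_base hu (T.real e he) fun z => by have := z.le; omega]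
  have c1 : (Z.filter (G.Adj e)).card ≤ 1 := card_le_one.2 fun x hx y hy => by
    obtain ⟨x1, x2⟩ := mem_filter.1 hx
    obtain ⟨y1, y2⟩ := mem_filter.1 hy
    exact h.exit_one hu o1 na ne (hZ x x1).1 (hZ y y1).1 (cl x x1 y y1) (hZ x x1).2.1
      (hZ y y1).2.1 ((hZ x x1).2.2.2 x2) ((hZ y y1).2.2.2 y2) x2 y2
  have c2 := h.ex2_one hu he cl
  have c3 : ∀ X : Finset V, _ → _ := fun X => h.W_exc hu he a t hA
    (Z := Z.filter fun w => ¬ G.Adj e w ∧ ¬ Ex2 T u e w) (X := X)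
    (fun x p y q => cl x (mem_filter.1 p).1 y (mem_filter.1 q).1) fun w k =>
      have p := mem_filter.1 k
      ⟨(mem_W.1 (hZ w p.1).1).1, W_real hu (hZ w p.1).1, ex w p.1 p.2.1 p.2.2⟩
  have c4 : Z.card ≤ (Z.filter (G.Adj e)).card + (Z.filter (Ex2 T u e)).card +
      (Z.filter fun w => ¬ G.Adj e w ∧ ¬ Ex2 T u e w).card :=
    le_trans (card_le_card fun w k => by simp only [mem_union, mem_filter]; tauto)
      ((card_union_le _ _).trans (Nat.add_le_add_right (card_union_le _ _) _))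
  rcases (Z.filter (Ex2 T u e)).eq_empty_or_nonempty with z | ⟨w, k⟩
  · have := c3 ∅ (by simp)
    rw [z, card_empty] at c4
    omega
  obtain ⟨m, m1, m2, m3, m4, m5⟩ := mix w (mem_filter.1 k).1 (mem_filter.1 k).2
  have := c3 {m} fun x p => by
    rw [mem_singleton.1 p]
    exact ⟨m1, m2, m3, fun v r => m5 ▸ (T.prop e he _ v (aq v (mem_filter.1 r).1)).symm,
      T.p u, (h.adj_par hu ht.1.1 ht.1.2).symm, T.real _ hq, by simpa using m4, m5⟩
  rw [card_singleton] at this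
  omega

/-- If `t(u)` probes `u` then `u` has at most two tails without ticket, up to port tickets of
`u` above `e` and of the parent in `s(u)`. -/
theorem t_probe (h : IsA T) (hu : u ∈ T.R) (ho : e ∈ T.NT u) (ht : T.PayT u e)
    (hp : u ∈ T.O e) (ns : T.NS (T.p u) u) (ne : T.NS u e) {A : Finset ℕ}
    (hA : ∀ z, T.Anc z e → ∀ κ < D, T.Port z u κ → κ ∈ A) :
    ((W1 T u).filter fun w => ¬ T.Port u (T.p u) (T.col (T.p u) w)).card ≤ 2 + A.card := by
  refine h.t_probe' hu ho ht hp _ (fun w k => ?_)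
    (h.W_clq' hu ns ((filter_subset _ _).trans (filter_subset _ _))) ne hA
  obtain ⟨k1, k2⟩ := mem_filter.1 k
  have p := mem_W1.1 k1
  exact ⟨p.1, p.2.1, fun _ => h.entry_key hu k1 (O_mem hu (T.mem_NT.1 ho).1).1
    (nanc_of_O hu (T.mem_NT.1 ho).1 (T.mem_NT.1 ho).2), fun _ z => z.elim (p.2.2.2.2 u hu) k2⟩

end IsA

end Pool.Agent.Lib.MP_12eaff_co.Acc2
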