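import Pool.Agent.Lib.MP_12eaff_co.Acc2.Rec

set_option autoImplicit false
set_option linter.unusedSectionVars false

namespace Pool.Agent.Lib.MP_12eaff_co.Acc2

open Finset Pool.Agent.Lib.MP_12eaff_co.BK
open scoped Classical

variable {V : Type} [Fintype V] {G : SimpleGraph V} {D : ℕ} {F : Fm V}

/-- Three shifts `z → y → x → r` with `r` off `N(y)`. -/
theorem HC.path3 {f : V → ℕ} {z y x r : V} (h : HC G D F z f) (hS : {z, y, x, r} ⊆ F.S)
    (zy : G.Adj z y) (yx : G.Adj y x) (xr : G.Adj x r) (u1 : Uq G f z y) (u2 : Uq G f y x)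
    (u3 : Uq G f x r) (n : ¬ G.Adj y r) (xz : x ≠ z) (ry : r ≠ y) {κ : ℕ} (k : κ < D)
    (ne : κ ≠ f r) : (∃ m, G.Adj r m ∧ m ≠ x ∧ f m = κ) ∨ κ = f y ∧ G.Adj r z := by
  by_contra! q
  have rz : r ≠ z := fun e => n (e ▸ zy.symm)
  have := h.ne yx
  have := h.ne xr
  have := u3 y yx.symm ry.symm
  have := zy.ne
  have := yx.ne
  have := xr.ne
  refine h.fill (K := {z, y, x, r}) hS (by simp)
    (fun m => if m = z then f y else if m = y then f x else if m = x then f r else κ)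
    (fun m _ => ?_) (fun m p ⟨e, x1, x2, x3⟩ => ?_) fun a p b p' e => ?_
  · split_ifs
    exacts [h.lt y (hS (by simp)) zy.ne.symm, h.lt x (hS (by simp)) xz,
      h.lt r (hS (by simp)) rz, k]
  · simp only [mem_insert, mem_singleton, not_or] at p x2
    rcases p with rfl | rfl | rfl | rfl
    · exact u1 e x1 x2.2.1 (by simpa using x3)
    · exact u2 e x1 x2.2.2.1 (by simpa [zy.ne.symm] using x3)
    · exact u3 e x1 x2.2.2.2 (by simpa [xz, yx.ne.symm] using x3)
    · exact q.1 e x1 x2.2.2.1 (by simpa [rz, ry, xr.ne.symm] using x3)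
  · have := e.symm
    have := e.ne
    have := q.2
    simp only [mem_insert, mem_singleton] at p p'
    grind

/-- The arc `v → u` has a pair or a port ticket in a tight state above or equal to `y`. -/
def Tk2 (T : Tr G D) (v u y : V) : Prop := ∃ s, T.Anc s y ∧ ¬ T.Anc v s ∧ T.Tight s v ∧
  ((∃ x, T.PayP (T.Vis v s) x v u) ∨ T.PayD (T.Vis v s) v u)

/-- `u` and `w` probe each other, and neither arc is a `t`-arc. -/
structure Mut (T : Tr G D) (u w : V) : Prop where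
  hu : u ∈ T.R
  hw : w ∈ T.R
  uw : w ∈ T.O u
  wu : u ∈ T.O w
  tu : ¬ T.PayT u w
  tw : ¬ T.PayT w u

theorem Mut.symm {T : Tr G D} {u w : V} (p : Mut T u w) : Mut T w u :=
  ⟨p.hw, p.hu, p.wu, p.uw, p.tw, p.tu⟩

theorem Mut.col {T : Tr G D} {u w : V} (p : Mut T u w) : T.col u w = T.c w :=
  Tr.col_base p.hu (T.real w p.hw) fun k => Tr.O_ne_p p.hu p.uw
    (T.mem_ch.1 (k.ch_of_d (T.O_adj w p.hw u p.wu).ne (T.clo w p.hw u p.wu).2)).2.2.symm

namespace IsB

variable {T : Tr G D} {u w x y z r : V}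

open Tr IsA

/-- HANDSHAKE: if `u` is tight and sees the colour of its mutual neighbour `w` twice, one of the
two arcs has a ticket in a tight state. -/
theorem mswap (h : IsB T) (p : Mut T u w) (hy : y ∈ T.R) (nu : ¬ T.Anc u y) (nw : ¬ T.Anc w y)
    (t : T.Tight y u) (d : ¬ Uq G (T.col y) u w) : Tk2 T u w y ∨ Tk2 T w u y := by
  have key : ∀ k z u w, T.d z ≤ k → T.Anc z y → Mut T u w → ¬ T.Anc u y → ¬ T.Anc w y →
      T.Tight z u → ¬ Uq G (T.col z) u w → Tk2 T u w y ∨ Tk2 T w u y := by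
    intro k
    induction k using Nat.strong_induction_on with
    | _ k ih =>
    intro z u w d s p nu nw t q
    simp only [Uq, not_forall, not_not] at q
    obtain ⟨m, m1, m2, m3⟩ := q
    have n : ¬ T.Anc u z := fun e => nu (e.trans s)
    have n' : ¬ T.Anc w z := fun e => nw (e.trans s)
    rcases high p.hu p.uw s.mem.1 n m1 m2 (fun e => absurd e p.tu)
      (by rw [m3, p.col, col_base s.mem.1 (T.real w p.hw) n']) with k | ⟨a, x, o⟩ | k
    · exact .inl ⟨z, s, n, t, .inl k⟩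
    · have o := o.op2 p.tu
      have := o.lt
      obtain ⟨-, -, -, o1, o2⟩ := h.op_tight p.hu p.uw p.col n' o
      exact (ih (T.d a) (by omega) a w u le_rfl (o.anc.trans s) p.symm nw nu
        (fun κ x y => (o2 κ x y).imp fun _ e => ⟨e.1, e.2.2⟩) o1).symm
    · exact .inl ⟨z, s, n, t, .inr k⟩
  exact key _ y u w le_rfl (.refl y hy) p nu nw t d

/-- ENTRY for one member: `z` probes `x`, and `r` is a mutual neighbour of `x` off `N(z)`. -/
theorem ent_m (h : IsB T) (p : Mut T x r) (hz : z ∈ T.R) (pz : x ∈ T.O z) (nx : ¬ T.Anc x z)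
    (nr : ¬ T.Anc r z) (n : ¬ G.Adj z r) : Tk2 T x r z ∨ Tk2 T r x z := by
  by_cases u : Uq G (T.col z) x r
  swap
  · exact h.mswap p hz nx nr (h.probe_tight hz pz) u
  have xr := T.O_adj x p.hu r p.uw
  have s := ((h.hcP hz (T.real x p.hu) (T.real r p.hw) xr).two_shift (by simp) (by simp)
    (T.O_adj z hz x pz).ne.symm (fun e => nr (e ▸ .refl _ (e ▸ hz))) (h.uq_O hz pz) u xr).2
  have s' : ∀ κ < D, κ ≠ T.col z r → ∃ m, G.Adj r m ∧ m ≠ x ∧ T.col z m = κ := fun κ a b =>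
    let ⟨m, m1, m2, m3⟩ := s κ a b
    ⟨m, m1, m2, (m3.resolve_left fun e => n (e.1 ▸ m1.symm)).2⟩
  obtain ⟨m, m1, m2, m3⟩ := s' _ (T.lt z hz x pz) (T.prop z hz _ _ xr)
  exact (h.mswap p.symm hz nr nx (fun κ a b => (s' κ a b).imp fun _ e => ⟨e.1, e.2.2⟩)
    fun k => k m m1 m2 m3).symm

/-- PAIR for one member: the hole runs `z → y → x`, and `r` is a mutual neighbour of `x` off
`N(y)`.  Exception: `z` hides `r` and does not probe `x`, and `r` misses the colour of `y`. -/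
theorem pair_m (h : IsB T) (p : Mut T x r) (hz : z ∈ T.R) (pz : y ∈ T.O z) (a : G.Adj y x)
    (nx : ¬ T.Anc x z) (nr : ¬ T.Anc r z) (uq : Uq G (T.col z) y x) (n : ¬ G.Adj y r)
    (ry : r ≠ y) : Tk2 T x r z ∨ Tk2 T r x z ∨ r ∈ T.H z ∧ x ∉ T.O z ∧ Uq G (T.col z) x r ∧
      ∀ m, G.Adj r m → T.col z m ≠ T.col z y := by
  have zy := T.O_adj z hz y pz
  have xr := T.O_adj x p.hu r p.uw
  have xz : x ≠ z := fun e => nx (e ▸ .refl _ (e ▸ hz))
  have rz : r ≠ z := fun e => nr (e ▸ .refl _ (e ▸ hz))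
  have hc := h.hcE hz (O_real hz pz) (T.real x p.hu) (T.real r p.hw) zy xr
  rw [← or_assoc]
  by_cases u : Uq G (T.col z) x r
  swap
  · refine .inl (h.mswap p hz nx nr (fun κ k e => ?_) u)
    obtain ⟨m, m1, -, m3 | m3⟩ := (hc.two_shift (by simp) (by simp) zy.ne.symm xz (h.uq_O hz pz)
      uq a).2 κ k e
    exacts [⟨y, a.symm, m3.2.symm⟩, ⟨m, m1, m3.2⟩]
  have s := fun κ => hc.path3 (κ := κ) subset_rfl zy a xr (h.uq_O hz pz) uq u n xz ry
  obtain ⟨m, m1, m2, m3⟩ := (s _ (col_lt hz p.hu xz) (T.prop z hz _ _ xr)).resolve_right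
    fun e => T.prop z hz _ _ a e.1.symm
  refine or_iff_not_imp_left.2 fun k => ?_
  have t : ¬ T.Tight z r := fun t => k (h.mswap p.symm hz nr nx t fun k => k m m1 m2 m3).symm
  have t' := t
  simp only [Tr.Tight, not_forall, not_exists, not_and] at t'
  obtain ⟨κ, k1, k2, k3⟩ := t'
  obtain ⟨rfl, e⟩ := (s κ k1 k2).resolve_left fun ⟨m, m1, _, m3⟩ => k3 m m1 m3
  refine ⟨((adj_cases hz p.hw e.symm).resolve_left fun o => t (h.probe_tight hz o)).resolve_right
    fun o => nr (anc_ch o), fun o => ?_, u, k3⟩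
  obtain ⟨m, m1, -, m3 | m3⟩ := (hc.two_shift (by simp) (by simp) xz rz (h.uq_O hz o) u xr).2 _ k1 k2
  exacts [T.prop z hz _ _ a m3.2, k3 m m1 m3.2]

end IsB

end Pool.Agent.Lib.MP_12eaff_co.Acc2
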