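import Pool.Agent.Lib.MP_12eaff_co.Acc2.Cnt4
import Pool.Agent.Lib.MP_12eaff_co.Acc2.Hand

set_option autoImplicit false
set_option linter.unusedSectionVars false

namespace Pool.Agent.Lib.MP_12eaff_co.Acc2

open Finset Pool.Agent.Lib.MP_12eaff_co.BK
open scoped Classical

variable {V : Type} [Fintype V] {G : SimpleGraph V} {D : ℕ}

namespace Tr

variable {T : Tr G D} {Ct Ok Ct' Ok' Use : V → V → Prop} {u v w x e y : V}

/-- The greatest closed set is monotone, tail by tail. -/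
theorem UI.tail (h : T.UI Ct Ok x v) (c : ∀ e, Ct v e → Ct' v e) (o : ∀ x, Ok x v → Ok' x v) :
    T.UI Ct' Ok' x v := by
  obtain ⟨U, a, b⟩ := h
  refine ⟨fun p q => U p q ∧ q = v, ?_, b, rfl⟩
  rintro p q ⟨k, rfl⟩
  exact ⟨o p (a p q k).1, fun n => ((a p q k).2 n).imp (fun t => ⟨t.1, c _ t.2⟩)
    fun t => t.imp_right fun t => t.mono fun _ s => ⟨s, rfl⟩⟩

theorem HasQ.tail (h : T.HasQ (T.UI Ct Ok) v u) (c : ∀ e, Ct v e → Ct' v e)
    (o : ∀ x, Ok x v → Ok' x v) : T.HasQ (T.UI Ct' Ok') v u := h.mono fun _ k => k.tail c o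

theorem Pd.tail (h : T.Pd Ct (T.UI Ct Ok) v u) (c : ∀ e, Ct v e → Ct' v e)
    (o : ∀ x, Ok x v → Ok' x v) : T.Pd Ct' (T.UI Ct' Ok') v u :=
  h.imp (fun t => ⟨t.1, c _ t.2⟩) fun t => t.imp_right fun t => t.tail c o

/-- A charged `t` is refunded by a unit of its column that has no paid target. -/
theorem spare_t (hc : T.Cl Ct Ok Use) (hv : v ∈ T.R) (he : e ∈ T.tE Ct Use v) (hx : x ∈ T.Int v)
    (p : T.p x = e) (n : ∀ u ∈ T.HI Use v, T.Pr x v u → ∃ x' ∈ T.Int v, x' ≠ x ∧ T.Pr x' v u ∧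
      Use x' v) : 1 ≤ T.spare Ct Use v := by
  have := spare_ge hc hv {x} (by simpa using hx) (fun u k => by
    by_cases q : T.Pr x v u
    · simpa using n u k q
    · obtain ⟨x', a, b, c⟩ := (mem_HI.1 k).2.1
      exact ⟨x', a, fun z => q (mem_singleton.1 z ▸ b), b, c⟩) fun u k => by
    obtain ⟨-, a, x', b, c⟩ := mem_NI.1 k
    refine ⟨x', b, fun z => a ?_, c⟩
    rw [← c, mem_singleton.1 z, p]
    exact .inl ⟨(mem_tE.1 he).1.2.1, (mem_tE.1 he).2⟩
  unfold spare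
  rw [card_singleton] at this
  omega

/-- The column `e` of the tail `v` has an accepted head. -/
def Col (T : Tr G D) (Ok : V → V → Prop) (v e : V) : Prop := v ∈ T.H e ∧ ∃ x ∈ T.ch e, Ok x v

/-- CHAIN with charged columns: an accepted unit is admissible unless some moved hider has
declined units only. -/
theorem chain4 {S : V → Prop} (hS : T.IsSig2 v S) (hv : v ∈ T.R)
    (hC : ∀ e, T.Col Ok v e → Ct v e) (k : T.PayP S x v u) (o : Ok x v) :
    T.HasQ (T.UI Ct Ok) v u ∨ ∃ e ∈ T.NT v, (∃ a e', T.p a = e ∧ Ok a v ∧ T.PayP S a v e') ∧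
      ¬ T.PayT v e ∧ ¬ T.PayZ v e ∧ ¬ T.PT v e ∧ (∃ a, T.PayP S a v e) ∧
      ∀ a, T.PayP S a v e → ¬ Ok a v := by
  refine or_iff_not_imp_right.2 fun h => .inl ⟨x, k.pr,
    fun a b => b = v ∧ Ok a v ∧ ∃ e, T.PayP S a v e, ?_, rfl, o, u, k⟩
  rintro a b ⟨rfl, p, e, q⟩
  refine ⟨p, fun n => ?_⟩
  by_cases t : T.PayT b (T.p a)
  · exact .inl ⟨t, hC _ ⟨q.2.2.1, a, T.mem_ch.2 ⟨q.1, q.2.1, rfl⟩, p⟩⟩
  by_cases z : T.PayZ b (T.p a)
  · exact .inr (.inl ⟨z, t⟩)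
  by_cases pt : T.PT b (T.p a)
  · exact .inr (.inr pt.hasQ)
  obtain ⟨s, hs⟩ := exists_minE ((expl_iff hS.mem hv (T.mem_NT.1 n).1).1 q.expl)
  have r := (step2 hS hv (T.mem_NT.1 n).1 hs).resolve_right fun r => r.elim (fun r => z r.1)
    fun r => r.elim (fun r => t r.1) fun r => pt (r.pt hS.mem)
  by_contra c
  exact h ⟨_, n, ⟨a, e, rfl, p, q⟩, t, z, pt, r, fun x' k' o' =>
    c (.inr (.inr (.inl ⟨x', k'.pr, rfl, o', _, k'⟩)))⟩

/-- The column of a pair seen from `y` is moved in `s(y)`. -/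
theorem PayP.vis_mv (k : T.PayP (T.Vis v y) x v e) : T.col y (T.p x) ≠ T.col v (T.p x) := by
  obtain ⟨k1, k2, k3, -, z, z1, z2, z3⟩ := k
  have c := T.mem_ch.2 ⟨k1, k2, rfl⟩
  rcases z1.2 with rfl | p
  · exact z2
  rcases z3 with z3 | z3
  · have ne : x ≠ v := fun e => (T.mem_H.1 k3).2.2.1 (ch_O (e ▸ c) (.inl (T.mem_H.1 k3).1))
    have := z3.1.lt ne
    have := d_ch c
    have := (T.clo z z1.1.mem.1 v p).2
    rwa [col_diff z1.1 (anc_ch c).real fun q => by have := q.1.le; omega]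
  · rwa [col_anc c (z3.2.trans z1.1), ← col_anc c z3.2]

end Tr

/-- `t` is charged also when its column has an accepted head. -/
def CB (T : Tr G D) (Ct Ok : V → V → Prop) (v e : V) : Prop := Ct v e ∨ T.Col Ok v e

/-- The tail `v` sells a unit to a target in its pool `Sb v`. -/
def Sell (T : Tr G D) (Ct Ok Sb : V → V → Prop) (v : V) : Prop :=
  ∃ u ∈ T.O v, Sb v u ∧ T.HasQ (T.UI (CB T Ct Ok) Ok) v u ∧ ¬ T.HasQ (T.UI Ct Ok) v u

/-- `t` is charged through its column only for sellers. -/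
def CS (T : Tr G D) (Ct Ok Sb : V → V → Prop) (v e : V) : Prop :=
  Ct v e ∨ Sell T Ct Ok Sb v ∧ T.Col Ok v e

/-- The pooled set of units. -/
def US (T : Tr G D) (Ct Ok Sb : V → V → Prop) : V → V → Prop := T.UI (CS T Ct Ok Sb) Ok

/-- The leaf `y` declines the unit for `v`, which its parent hides. -/
def Dec (T : Tr G D) (Ok : V → V → Prop) (v y : V) : Prop :=
  T.ch y = ∅ ∧ y ≠ T.r ∧ v ∈ T.H (T.p y) ∧ ¬ Ok y v

/-- The chain of `v` breaks at the leaf state `y`: only `p y` shows the colour of `y` to `v`,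
and this is the colour of a moved hider `e`. -/
def LXB (T : Tr G D) (Ok : V → V → Prop) (v y : V) : Prop :=
  Dec T Ok v y ∧ (∀ m, G.Adj v m → T.col y m = T.c y → m = T.p y) ∧
    ∃ e ∈ T.NT v, T.Col Ok v e ∧ T.col v e = T.c y ∧ T.col y e ≠ T.c y ∧ ¬ T.PayT v e ∧
      ¬ T.PayZ v e ∧ ¬ T.PT v e

namespace IsB

variable {T : Tr G D} {Ct Ok Sb : V → V → Prop} {u v w x e y : V}

open Tr IsA

theorem us_base (k : T.HasQ (T.UI Ct Ok) v u) : T.HasQ (US T Ct Ok Sb) v u :=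
  k.tail (fun _ => .inl) fun _ => id

theorem us_sell (hu : u ∈ T.O v) (s : Sb v u) (k : T.HasQ (T.UI (CB T Ct Ok) Ok) v u) :
    T.HasQ (US T Ct Ok Sb) v u := by
  by_cases b : T.HasQ (T.UI Ct Ok) v u
  exacts [us_base b, k.tail (fun _ p => p.imp_right fun q => ⟨⟨u, hu, s, k, b⟩, q⟩) fun _ => id]

theorem us_pd (k : T.Pd Ct (T.UI Ct Ok) v u) : T.Pd (CS T Ct Ok Sb) (US T Ct Ok Sb) v u :=
  k.tail (fun _ => .inl) fun _ => id

theorem WQ_us : T.WQ (US T Ct Ok Sb) u ⊆ T.WQ (T.UI Ct Ok) u := fun _ k =>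
  let ⟨a, b, c, d, e⟩ := mem_WQ.1 k
  mem_WQ.2 ⟨a, b, c, d, fun p => e (us_base p)⟩

theorem nK_us : T.nK (CS T Ct Ok Sb) (US T Ct Ok Sb) u ⊆ T.nK Ct (T.UI Ct Ok) u := fun _ k =>
  let ⟨a, b, c, d⟩ := mem_nK.1 k
  mem_nK.2 ⟨a, b, fun p => c (us_pd p), d⟩

/-- A charged `t` is charged in the base account, or the tail is a seller (a DEBIT). -/
theorem tE_us (k : e ∈ T.tE (CS T Ct Ok Sb) (US T Ct Ok Sb) v) : e ∈ T.tE Ct (T.UI Ct Ok) v ∨
    ¬ Ct v e ∧ T.Col Ok v e ∧ ∃ u ∈ T.O v, Sb v u ∧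
      T.HasQ (US T Ct Ok Sb) v u ∧ ¬ T.HasQ (T.UI Ct Ok) v u := by
  obtain ⟨⟨a, b, c⟩, d⟩ := mem_tE.1 k
  by_cases q : Ct v e
  · exact .inl (mem_tE.2 ⟨⟨a, b, fun p => c (us_base p)⟩, q⟩)
  obtain ⟨⟨u, u1, u2, u3, u4⟩, z⟩ := d.resolve_left q
  exact .inr ⟨q, z, u, u1, u2, us_sell u1 u2 u3, u4⟩

/-- A declined unit seen from `y` has the leaf head `y`. -/
theorem dec_of (hO : ∀ x, T.ch x ≠ ∅ → Ok x v) (k : T.PayP (T.Vis v y) x v u) (n : ¬ Ok x v) :
    x = y ∧ Dec T Ok v y ∧ T.c y = T.col v u := by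
  have l : T.ch x = ∅ := by_contra fun l => n (hO x l)
  have na := k.pr.leaf_nanc l
  obtain ⟨s, s1, -, s2⟩ := k.2.2.2.2
  obtain rfl : x = y := leaf_anc l ((s2.resolve_left fun r => na r.1).2.trans s1.1)
  exact ⟨rfl, ⟨l, k.2.1, k.2.2.1, n⟩, by rw [← k.2.2.2.1, tc, if_neg na]⟩

/-- A witness other than the parent of the leaf state gives an internal head. -/
theorem high_leaf {m : V} (hv : v ∈ T.R) (hu : u ∈ T.O v) (hy : y ∈ T.R) (yr : y ≠ T.r)
    (l : T.ch y = ∅) (n : ¬ T.Anc v y) (a : G.Adj v m) (ne : m ≠ u) (np : T.PayT v u → m ≠ T.p v)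
    (nq : m ≠ T.p y) (hc : T.col y m = T.col v u) :
    (∃ x, T.ch x ≠ ∅ ∧ T.PayP (T.Vis v y) x v u) ∨ (∃ a x, T.Opn v u (T.p y) a x) ∨ T.PT v u := by
  rw [← or_assoc]
  refine or_iff_not_imp_right.2 fun pt => ?_
  have hq := T.p_mem y hy yr
  have qy := anc_p hy yr
  have lt := T.lt v hv u hu
  have my : m ≠ y := fun z => by
    rw [← hc, z, col_self hy] at lt
    omega
  rcases high hv hu hq (fun p => n (p.trans qy)) a ne np
    (by rw [← col_step hy yr (real_of_npt hv hu pt hy a hc) my nq, hc]) with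
    ⟨x, x1, x2, x3, x4, z, z1, z2, z3⟩ | k | k
  · refine .inl ⟨x, fun l => z3.elim
      (fun r => Pr.leaf_nanc ⟨x1, x2, x3, x4⟩ l r.1) fun r => ?_, x1, x2, x3, x4, ?_⟩
    · have := leaf_anc l ((r.2.trans z1.1).trans qy)
      have := (r.2.trans z1.1).le
      have := T.d_p y hy yr
      subst x
      omega
    rcases z1.2 with rfl | p
    swap
    · exact ⟨z, ⟨z1.1.trans qy, .inr p⟩, z2, z3⟩
    have s : T.col y (T.p x) = T.col (T.p y) (T.p x) := col_step hy yr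
      (T.real _ (T.p_mem x x1 x2)) (fun e => by
        have : x ∈ T.ch y := T.mem_ch.2 ⟨x1, x2, e⟩
        simp [l] at this) fun e => z3.elim (fun r => by
          rw [← x4, tc, if_pos r.1, ← r.2, e, col_self hq] at lt
          omega) fun r => by
          have := r.2.le
          have := T.d_p x x1 x2
          rw [e] at this
          omega
    exact ⟨y, ⟨.refl y hy, .inl rfl⟩, s ▸ z2, z3.imp (fun r => ⟨r.1, s ▸ r.2⟩)
      fun r => ⟨r.1, r.2.trans qy⟩⟩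
  exacts [.inr k, absurd k.vis_pt pt]

/-- An open witness above a state in which the target has moved is the parent of the target. -/
theorem opn_z (h : IsB T) {g s : V} (hv : v ∈ T.R) (he : e ∈ T.O v) (o : T.Opn v e s g x)
    (sy : T.Anc s y) (n : ¬ T.Anc v y) (mv : T.col y e ≠ T.col v e) (t : ¬ T.PayT v e) :
    T.PayZ v e := by
  obtain ⟨k1, k2, -, k4, k5, -, k7⟩ := o
  have gy := ((anc_ch k1).trans k2).trans sy
  have gR := gy.mem.1
  have er := O_real hv he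
  obtain ⟨m, n1, n2⟩ := h.probe_tight gR k5 _ (T.lt v hv _ he) (by
    rw [col_base gR (T.real v hv) fun p => n (p.trans gy)]
    exact h.ne_par hv (fun z => n (z ▸ anc_r sy.mem.2)) (T.O_adj v hv _ he) er (O_ne_p hv he))
  obtain rfl : m = e := by
    by_contra z
    exact k7 m n1 z (fun z => absurd z t) n2
  have pth : T.Anc g m ∧ T.Anc m y := by
    by_contra p
    exact mv (by rw [col_diff gy er p, n2])
  have ge : g ≠ m := fun p => by
    have := T.lt v hv _ he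
    rw [← n2, p, col_self pth.1.mem.2] at this
    omega
  have := pth.1.lt ge
  have ce : T.c m = T.col v m := by
    rw [← n2, col_base gR er fun p => by have := p.le; omega]
  have := (T.clo v hv _ he).2
  have := (T.clo g gR v k5).2
  have := d_ch k1
  obtain ⟨p1, p2, p3⟩ := T.mem_ch.1 k1
  obtain rfl : x = m := by
    by_contra p
    exact c_ch_ne ((Anc.under k1 (k2.trans sy) pth.1 pth.2 ge).ch_of_d p (by omega)) p2
      (by rw [ce, k4])
  subst p3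
  exact ⟨p2, k5, ce.symm, fun m' s r => by_contra fun q =>
    k7 m' s q (fun z => absurd z t) (r.trans ce), ch_O k1 (.inr (by omega))⟩

/-- With columns charged a chain stops only at a leaf state. -/
theorem chainB (h : IsB T) (hO : ∀ x, T.ch x ≠ ∅ → Ok x v) (hv : v ∈ T.R)
    (n : ¬ T.Anc v y) (t : T.Tight y v) (k : T.PayP (T.Vis v y) x v u) (o : Ok x v) :
    T.HasQ (T.UI (CB T Ct Ok) Ok) v u ∨ LXB T Ok v y := by
  refine (chain4 (h.isSig2_vis n t) hv (fun _ => .inr) k o).imp_right ?_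
  rintro ⟨e, e1, ⟨a, e', rfl, a1, a2⟩, e2, e3, e4, ⟨b, b1⟩, e5⟩
  obtain ⟨rfl, d, c⟩ := dec_of hO b1 (e5 b b1)
  have mv := a2.vis_mv
  have eo := (T.mem_NT.1 e1).1
  refine ⟨d, fun m m1 m2 => by_contra fun m3 => ?_, _, e1,
    ⟨a2.2.2.1, a, T.mem_ch.2 ⟨a2.1, a2.2.1, rfl⟩, a1⟩, c.symm, c ▸ mv, e2, e3, e4⟩
  rcases high_leaf hv eo b1.1 d.2.1 d.1 n m1 (fun z => mv (by rw [← z, m2, c, z]))
    (fun z => absurd z e2) m3 (m2.trans c) with ⟨x, x1, x2⟩ | ⟨g, x, k⟩ | k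
  exacts [e5 x x2 (hO x x1), e3 (h.opn_z hv eo k (anc_p b1.1 d.2.1) n mv e2), e4 k]

/-- A ticket found in a tight state is admissible inside the pool, up to the leaf exceptions. -/
theorem tk2_us (h : IsB T) (hO : ∀ x, T.ch x ≠ ∅ → Ok x v) (hv : v ∈ T.R) (hu : u ∈ T.O v)
    (s : Sb v u) (k : Tk2 T v u y) : T.HasQ (US T Ct Ok Sb) v u ∨ LXB T Ok v y ∨
      Dec T Ok v y ∧ T.c y = T.col v u := by
  obtain ⟨z, z1, z2, z3, ⟨x, k⟩ | k⟩ := k
  swap
  · exact .inl k.vis_pt.hasQ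
  by_cases o : Ok x v
  · exact (h.chainB hO hv z2 z3 k o).imp (us_sell hu s)
      fun p : LXB T Ok v z => .inl (leaf_anc p.1.1 z1 ▸ p)
  · obtain ⟨-, a, b⟩ := dec_of hO k o
    exact .inr (.inr (leaf_anc a.1 z1 ▸ ⟨a, b⟩))

/-- HANDSHAKE in the pooled account.  Exception: `y` is a leaf whose parent hides `u`, and `u`
sees the colour of `y` only at `p y` (and at `w`). -/
theorem hand_us (h : IsB T) (hO : ∀ x v, T.ch x ≠ ∅ → Ok x v) (p : Mut T u w) (s1 : Sb u w)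
    (s2 : Sb w u) (hy : y ∈ T.R) (nu : ¬ T.Anc u y) (nw : ¬ T.Anc w y) (t : T.Tight y u)
    (d : ¬ Uq G (T.col y) u w) : T.HasQ (US T Ct Ok Sb) u w ∨ T.HasQ (US T Ct Ok Sb) w u ∨
      LXB T Ok u y ∨ Dec T Ok u y ∧ T.c y = T.c w ∧
        ∀ m, G.Adj u m → T.col y m = T.c y → m = T.p y ∨ m = w := by
  have up : ∀ s a x, T.Anc s y → T.Opn u w s a x →
      T.HasQ (US T Ct Ok Sb) u w ∨ T.HasQ (US T Ct Ok Sb) w u := fun s a x sy o => by
    have o := o.op2 p.tu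
    obtain ⟨-, -, -, o1, o2⟩ := h.op_tight p.hu p.uw p.col (fun e => nw (e.trans sy)) o
    have l : T.ch a ≠ ∅ := ne_empty_of_mem o.1
    have ay := o.anc.trans sy
    exact (h.mswap p.symm ay.mem.1 (fun e => nw (e.trans ay)) (fun e => nu (e.trans ay))
      (fun κ x y => (o2 κ x y).imp fun _ e => ⟨e.1, e.2.2⟩) o1).symm.imp
      (fun k => (h.tk2_us (hO · u) p.hu p.uw s1 k).resolve_right fun k =>
        k.elim (fun k => l k.1.1) fun k => l k.1.1)
      fun k => (h.tk2_us (hO · w) p.hw p.wu s2 k).resolve_right fun k =>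
        k.elim (fun k => l k.1.1) fun k => l k.1.1
  have fin : ∀ x, T.PayP (T.Vis u y) x u w → Ok x u → T.HasQ (US T Ct Ok Sb) u w ∨ LXB T Ok u y :=
    fun x k o => (h.chainB (hO · u) p.hu nu t k o).imp_left (us_sell p.uw s1)
  simp only [Uq, not_forall, not_not] at d
  obtain ⟨m, m1, m2, m3⟩ := d
  rw [col_base hy (T.real w p.hw) nw, ← p.col] at m3
  rcases high p.hu p.uw hy nu m1 m2 (fun e => absurd e p.tu) m3 with ⟨x, k⟩ | ⟨a, x, o⟩ | k
  · by_cases o : Ok x u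
    · exact (fin x k o).imp_right fun k => .inr (.inl k)
    obtain ⟨-, a, b⟩ := dec_of (hO · u) k o
    by_cases q : ∀ m, G.Adj u m → T.col y m = T.c y → m = T.p y ∨ m = w
    · exact .inr (.inr (.inr ⟨a, b.trans p.col, q⟩))
    push Not at q
    obtain ⟨m, q1, q2, q3, q4⟩ := q
    rcases high_leaf p.hu p.uw hy a.2.1 a.1 nu q1 q4 (fun e => absurd e p.tu) q3 (q2.trans b) with
      ⟨x, x1, x2⟩ | ⟨g, x, k⟩ | k
    exacts [(fin x x2 (hO x u x1)).imp_right fun k => .inr (.inl k),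
      (up _ g x (anc_p hy a.2.1) k).imp_right .inl, .inl k.hasQ]
  exacts [(up y a x (.refl y hy) o).imp_right .inl, .inl k.vis_pt.hasQ]

end IsB

end Pool.Agent.Lib.MP_12eaff_co.Acc2
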