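import Pool.Agent.Lib.MP_12eaff_co.Acc2.Cnt4

set_option autoImplicit false
set_option linter.unusedSectionVars false

namespace Pool.Agent.Lib.MP_12eaff_co.Acc2

open Finset Pool.Agent.Lib.MP_12eaff_co.BK
open scoped Classical

variable {V : Type} [Fintype V] {G : SimpleGraph V} {D : ℕ}

/-- Units of an internal head that belong to no column of a tree vertex (ports, vertices outside
the tree, rich parents). -/
noncomputable def Tr.free (T : Tr G D) (x : V) : ℕ :=
  if x ≠ T.r ∧ T.ch x ≠ ∅ then 2 - (T.R.filter fun v => v ∈ T.Bd (T.p x)).card else 0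

namespace IsB

variable {T : Tr G D} {Ct Ok Use : V → V → Prop} {x : V}

open Tr

theorem free_rich (hr : x ≠ T.r) (hc : T.ch x ≠ ∅) (k : T.Bd (T.p x) = ∅) : T.free x = 2 := by
  simp [Tr.free, hr, hc, k]

theorem free_port (h : IsB T) (hx : x ∈ T.R) (hr : x ≠ T.r) (hc : T.ch x ≠ ∅) {m : V}
    (k : m ∈ T.Bd (T.p x)) (md : m ∉ T.R) : 1 ≤ T.free x := by
  have a := h.card_Bd (T.p_mem x hx hr)
  have b : (T.R.filter fun v => v ∈ T.Bd (T.p x)).card ≤ ((T.Bd (T.p x)).erase m).card :=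
    card_le_card fun v p => mem_erase.2 ⟨fun e => md (e ▸ (mem_filter.1 p).1), (mem_filter.1 p).2⟩
  have := card_erase_add_one k
  rw [Tr.free, if_pos ⟨hr, hc⟩]
  omega

theorem sum_Int2 (h : IsB T) : ∑ v ∈ T.R, (T.Int v).card + ∑ x ∈ T.R, T.free x +
    ∑ x ∈ T.R, (if x ≠ T.r ∧ T.ch x = ∅ then 2 else 0) ≤ ∑ w ∈ T.R, 2 * (T.ch w).card := by
  have h1 : ∑ v ∈ T.R, (T.Int v).card = ∑ x ∈ T.R, (T.R.filter fun v =>
      x ≠ T.r ∧ T.ch x ≠ ∅ ∧ v ∈ T.Bd (T.p x)).card := by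
    simp only [Tr.Int, card_filter]
    exact sum_comm
  have h2 : ∑ w ∈ T.R, 2 * (T.ch w).card = ∑ x ∈ T.R, if x = T.r then 0 else 2 := by
    rw [← T.sum_sum_ch fun _ => 2]
    exact sum_congr rfl fun w _ => by rw [sum_const, smul_eq_mul, mul_comm]
  rw [h1, h2, ← sum_add_distrib, ← sum_add_distrib]
  refine sum_le_sum fun x hx => ?_
  by_cases e : x = T.r
  · simp [e, Tr.free]
  by_cases e2 : T.ch x = ∅
  · simp [e, e2, Tr.free]
  · have a : (T.R.filter fun v => v ∈ T.Bd (T.p x)).card ≤ 2 :=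
      (card_le_card fun v hv => (mem_filter.1 hv).2).trans (h.card_Bd (T.p_mem x hx e))
    have b : (T.R.filter fun v => x ≠ T.r ∧ T.ch x ≠ ∅ ∧ v ∈ T.Bd (T.p x)) =
        T.R.filter fun v => v ∈ T.Bd (T.p x) := filter_congr fun v _ => by simp [e, e2]
    rw [if_neg e, if_neg (fun k => e2 k.2), add_zero, b, Tr.free, if_pos ⟨e, e2⟩]
    omega

/-- The account in supply form with the free units. -/
theorem final_sup2 (h : IsB T) (hD : 5 ≤ D) (ext give : V → ℕ)
    (k : ∀ v ∈ T.R, (T.NT v).card + give v ≤ (T.Int v).card + ext v) :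
    ∑ v ∈ T.R, (D - 5 + (if v ≠ T.r ∧ T.ch v = ∅ then 2 else 0) + (if T.Bd v = ∅ then 1 else 0) +
      2 * (T.CX v).card + give v + T.free v) + 4 ≤ ∑ v ∈ T.R, (ext v + (T.Dr v).card) := by
  have h1 := h.budget2 hD
  have h2 := h.sum_Int2
  have h3 := sum_le_sum k
  simp only [sum_add_distrib] at h1 h3 ⊢
  omega

/-- The account with fungible units and free units. -/
theorem final5 (h : IsB T) (hD : 5 ≤ D) (hc : T.Cl Ct Ok Use) :
    ∑ v ∈ T.R, (D - 5 + (if v ≠ T.r ∧ T.ch v = ∅ then 2 else 0) + (if T.Bd v = ∅ then 1 else 0) +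
      2 * (T.CX v).card + T.spare Ct Use v + T.free v) + 4 ≤
      ∑ v ∈ T.R, (T.load4 Ct Use v + (T.Dr v).card + (T.ptN v).card) := by
  have k := h.final_sup2 hD (fun v => (T.tE Ct Use v).card +
    ((T.NT v).filter fun u => T.PayZ v u ∧ ¬ T.PayT v u ∧ ¬ T.HasQ Use v u).card +
    ((T.NT v).filter fun u => T.HasQ Use v u ∧ ¬ T.HasI Use v u ∧ ¬ T.PT v u).card +
    ((T.NT v).filter fun u => ¬ T.Pd Ct Use v u ∧ ¬ ∃ x ∈ T.Int v, T.p x = u).card +
    (T.ptN v).card)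
    (T.spare Ct Use) fun v hv => by
      have a := idle_le hc hv
      have b : (T.NT v).card ≤ (T.HI Use v).card + (T.NI Ct Use v).card + (T.tE Ct Use v).card +
          ((T.NT v).filter fun u => T.PayZ v u ∧ ¬ T.PayT v u ∧ ¬ T.HasQ Use v u).card +
          ((T.NT v).filter fun u => T.HasQ Use v u ∧ ¬ T.HasI Use v u ∧ ¬ T.PT v u).card +
          ((T.NT v).filter fun u => ¬ T.Pd Ct Use v u ∧ ¬ ∃ x ∈ T.Int v, T.p x = u).card +
          (T.ptN v).card := by
        simp only [HI, NI, tE, tQ, ptN, filter_filter, card_filter, ← sum_add_distrib]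
        rw [card_eq_sum_ones]
        refine sum_le_sum fun u _ => ?_
        by_cases g : T.PT v u
        · simp [g]
        by_cases a : T.PayT v u <;> by_cases b : T.PayZ v u <;> by_cases c : T.HasQ Use v u <;>
          by_cases d : Ct v u <;> by_cases e : T.HasI Use v u <;>
          by_cases f : ∃ x ∈ T.Int v, T.p x = u <;> simp [a, b, c, d, e, f, g, Pd]
      unfold spare
      omega
  have h1 : ∑ v ∈ T.R, ((T.NT v).filter
      fun u => T.PayZ v u ∧ ¬ T.PayT v u ∧ ¬ T.HasQ Use v u).card = ∑ v ∈ T.R, (T.WQ Use v).card := by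
    unfold WQ
    convert T.sum_head fun v u => T.PayZ v u ∧ ¬ T.PayT v u ∧ ¬ T.HasQ Use v u
  have h2 : ∑ v ∈ T.R, ((T.NT v).filter
      fun u => ¬ T.Pd Ct Use v u ∧ ¬ ∃ x ∈ T.Int v, T.p x = u).card =
      ∑ v ∈ T.R, (T.nK Ct Use v).card := by
    unfold nK
    convert T.sum_head fun v u => ¬ T.Pd Ct Use v u ∧ ¬ ∃ x ∈ T.Int v, T.p x = u
  have h3 := sum_pE (T := T) (Use := Use)
  simp only [load4, sum_add_distrib] at k ⊢
  omega

end IsB

end Pool.Agent.Lib.MP_12eaff_co.Acc2
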