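import Pool.Agent.Lib.MP_12eaff_co.Acc2.Dir2
import Pool.Agent.Lib.MP_12eaff_co.Acc2.Sup2

set_option autoImplicit false
set_option linter.unusedSectionVars false

namespace Pool.Agent.Lib.MP_12eaff_co.Acc2

open Finset Pool.Agent.Lib.MP_12eaff_co.BK
open scoped Classical

variable {V : Type} [Fintype V] {G : SimpleGraph V} {D : ℕ}

namespace Tr

variable (T : Tr G D) (Ex Ok Use : V → V → Prop)

/-- The arc `v → u` is paid from outside (`Ex`) or by a used pair. -/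
def Pe (v u : V) : Prop := Ex v u ∨ T.HasQ Use v u

/-- A closed set of units: allowed, and no column of an unpaid arc. -/
def C6 : Prop := ∀ x v, Use x v → Ok x v ∧ (T.p x ∈ T.NT v → T.Pe Ex Use v (T.p x))

/-- The greatest closed set of units. -/
def U6 (x v : V) : Prop := ∃ U, T.C6 Ex Ok U ∧ U x v

/-- Unpaid arcs that are passed to an internal child of the head. -/
noncomputable def N6 (v : V) : Finset V :=
  (T.NT v).filter fun u => ¬ T.Pe Ex Use v u ∧ ∃ x ∈ T.Int v, T.p x = u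

/-- Unused supply of the tail `v`. -/
noncomputable def sp6 (v : V) : ℕ := (T.Int v).card - ((T.HI Use v).card + (T.N6 Ex Use v).card)

/-- Tails of the unpaid arcs that stay at the head `u`. -/
noncomputable def K6 (u : V) : Finset V := T.R.filter fun v =>
  u ∈ T.NT v ∧ (¬ T.Pe Ex Use v u ∧ ¬ ∃ x ∈ T.Int v, T.p x = u)

/-- Arcs out of `v` that are paid from outside. -/
noncomputable def X6 (v : V) : Finset V := (T.NT v).filter fun u => Ex v u ∧ ¬ T.HasQ Use v u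

variable {T Ex Ok Use} {Ex' Ok' : V → V → Prop} {u v w x e y z : V}

theorem mem_N6 : u ∈ T.N6 Ex Use v ↔ u ∈ T.NT v ∧ ¬ T.Pe Ex Use v u ∧ ∃ x ∈ T.Int v, T.p x = u :=
  mem_filter

theorem mem_K6 : v ∈ T.K6 Ex Use u ↔
    v ∈ T.R ∧ u ∈ T.NT v ∧ ¬ T.Pe Ex Use v u ∧ ¬ ∃ x ∈ T.Int v, T.p x = u := mem_filter

theorem mem_X6 : u ∈ T.X6 Ex Use v ↔ u ∈ T.NT v ∧ Ex v u ∧ ¬ T.HasQ Use v u := mem_filter

theorem U6.ok (h : T.U6 Ex Ok x v) : Ok x v := let ⟨_, a, b⟩ := h; (a x v b).1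

theorem U6.pe (h : T.U6 Ex Ok x v) (k : T.p x ∈ T.NT v) : T.Pe Ex (T.U6 Ex Ok) v (T.p x) :=
  let ⟨U, a, b⟩ := h; ((a x v b).2 k).imp_right fun p => p.mono fun _ p => ⟨U, a, p⟩

theorem c6_U6 : T.C6 Ex Ok (T.U6 Ex Ok) := fun _ _ h => ⟨h.ok, h.pe⟩

/-- An allowed unit whose column is free. -/
theorem U6.of (o : Ok x v) (k : T.p x ∈ T.NT v → T.Pe Ex (T.U6 Ex Ok) v (T.p x)) :
    T.U6 Ex Ok x v :=
  ⟨fun a b => T.U6 Ex Ok a b ∨ a = x ∧ b = v, fun a b h => h.elim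
    (fun p => ⟨p.ok, fun q => (p.pe q).imp_right fun p => p.mono fun _ => .inl⟩)
    (by
      rintro ⟨rfl, rfl⟩
      exact ⟨o, fun q => (k q).imp_right fun p => p.mono fun _ => Or.inl⟩), .inr ⟨rfl, rfl⟩⟩

/-- The greatest closed set is monotone, tail by tail. -/
theorem U6.tail (h : T.U6 Ex Ok x v) (c : ∀ e ∈ T.NT v, v ∈ T.H e → Ex v e → Ex' v e)
    (o : ∀ x, Ok x v → Ok' x v) (hx : v ∈ T.H (T.p x)) : T.U6 Ex' Ok' x v := by
  obtain ⟨U, a, b⟩ := h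
  refine ⟨fun p q => U p q ∧ q = v ∧ v ∈ T.H (T.p p), ?_, b, rfl, hx⟩
  rintro p q ⟨k, rfl, l⟩
  exact ⟨o p (a p q k).1, fun n => ((a p q k).2 n).imp (c _ n l)
    fun t => t.imp_left fun ⟨y, t1, t2⟩ => ⟨y, t1, t2, rfl, t1.2.2.1⟩⟩

theorem HasQ.tail6 (h : T.HasQ (T.U6 Ex Ok) v u) (c : ∀ e ∈ T.NT v, v ∈ T.H e → Ex v e → Ex' v e)
    (o : ∀ x, Ok x v → Ok' x v) : T.HasQ (T.U6 Ex' Ok') v u :=
  h.imp_left fun ⟨x, a, b⟩ => ⟨x, a, b.tail c o a.2.2.1⟩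

/-- A set of units that can be avoided is spare. -/
theorem sp6_ge (hc : T.C6 Ex Ok Use) (hv : v ∈ T.R) (F : Finset V) (hF : F ⊆ T.Int v)
    (h1 : ∀ u ∈ T.HI Use v, ∃ x ∈ T.Int v, x ∉ F ∧ T.Pr x v u ∧ Use x v)
    (h2 : ∀ u ∈ T.N6 Ex Use v, ∃ x ∈ T.Int v, x ∉ F ∧ T.p x = u) :
    F.card + ((T.HI Use v).card + (T.N6 Ex Use v).card) ≤ (T.Int v).card := by
  choose! σ s1 s2 s3 s4 using h1
  choose! τ t1 t2 t3 using h2
  have c1 : ((T.HI Use v).image σ).card = (T.HI Use v).card :=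
    card_image_of_injOn fun a ha b hb e => O_inj hv (T.mem_NT.1 (mem_HI.1 ha).1).1
      (T.mem_NT.1 (mem_HI.1 hb).1).1 (by rw [← (s3 a ha).2.2.2, e, (s3 b hb).2.2.2])
  have c2 : ((T.N6 Ex Use v).image τ).card = (T.N6 Ex Use v).card :=
    card_image_of_injOn fun a ha b hb e => by rw [← t3 a ha, e, t3 b hb]
  rw [← c1, ← c2, ← card_union_of_disjoint, ← card_union_of_disjoint]
  · refine card_le_card (union_subset hF (union_subset ?_ ?_)) <;> intro x hx <;>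
      obtain ⟨a, ha, rfl⟩ := mem_image.1 hx
    exacts [s1 a ha, t1 a ha]
  · refine disjoint_left.2 fun x h3 h4 => ?_
    rcases mem_union.1 h4 with h4 | h4 <;> obtain ⟨a, ha, rfl⟩ := mem_image.1 h4
    exacts [s2 a ha h3, t2 a ha h3]
  · refine disjoint_left.2 fun x h3 h4 => ?_
    obtain ⟨a, ha, rfl⟩ := mem_image.1 h3
    obtain ⟨b, hb, e⟩ := mem_image.1 h4
    obtain ⟨b1, b2, -⟩ := mem_N6.1 hb
    have := (hc _ v (s4 a ha)).2
    rw [← e, t3 b hb] at this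
    exact b2 (this b1)

theorem idle_le6 (hc : T.C6 Ex Ok Use) (hv : v ∈ T.R) :
    (T.idle Use v).card + ((T.HI Use v).card + (T.N6 Ex Use v).card) ≤ (T.Int v).card :=
  sp6_ge hc hv _ (filter_subset _ _)
    (fun u k => let ⟨a, ⟨x, b, c, d⟩, e⟩ := mem_HI.1 k
      ⟨x, b, fun p => e ((mem_idle.1 p).2.2 u a c), c, d⟩)
    fun _ k => let ⟨a, b, x, c, d⟩ := mem_N6.1 k
      ⟨x, c, fun p => b (d ▸ (hc x v (mem_idle.1 p).2.1).2 (d ▸ a)), d⟩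

theorem idle_sp6 (hc : T.C6 Ex Ok Use) (hv : v ∈ T.R) :
    (T.idle Use v).card ≤ T.sp6 Ex Use v := by
  have := idle_le6 hc hv
  unfold sp6
  omega

/-- CHAIN for sets closed under open witnesses. -/
theorem chain6 {S : V → Prop} (hS : T.IsSig2 v S) (hv : v ∈ T.R) (k : T.PayP S x v u)
    (o : Ok x v) : T.HasQ (T.U6 Ex Ok) v u ∨ ∃ e ∈ T.NT v, ¬ Ex v e ∧ ¬ T.PT v e ∧
      (∃ a e', T.p a = e ∧ Ok a v ∧ T.PayP S a v e') ∧ (∀ a, T.PayP S a v e → ¬ Ok a v) ∧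
      (T.PayT v e ∨ T.PayZ v e ∨ ∃ a, T.PayP S a v e) := by
  refine or_iff_not_imp_right.2 fun h => .inl ⟨x, k.pr,
    fun a b => b = v ∧ Ok a v ∧ ∃ e, T.PayP S a v e, ?_, rfl, o, u, k⟩
  rintro a b ⟨rfl, p, e, q⟩
  refine ⟨p, fun n => by_contra fun c => ?_⟩
  obtain ⟨s, hs⟩ := exists_minE ((expl_iff hS.mem hv (T.mem_NT.1 n).1).1 q.expl)
  have pt : ¬ T.PT b (T.p a) := fun r => c (.inr r.hasQ)
  refine h ⟨_, n, fun r => c (.inl r), pt, ⟨a, e, rfl, p, q⟩,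
    fun x' k' o' => c (.inr (.inl ⟨x', k'.pr, rfl, o', _, k'⟩)), ?_⟩
  rcases step2 hS hv (T.mem_NT.1 n).1 hs with r | r | r | r
  exacts [.inr (.inr r), .inr (.inl r.1), .inl r.1, absurd (r.pt hS.mem) pt]

end Tr

/-- `t` is charged by the rule `Ct`, a `T0` arc by the rule `Cz`. -/
def EX (T : Tr G D) (Ct Cz : V → V → Prop) (v u : V) : Prop :=
  T.PayT v u ∧ Ct v u ∨ T.PayZ v u ∧ ¬ T.PayT v u ∧ Cz v u

/-- Charged `T0` tails. -/
noncomputable def Tr.WZ (T : Tr G D) (Cz Use : V → V → Prop) (u : V) : Finset V :=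
  (T.WQ Use u).filter fun v => Cz v u

noncomputable def Tr.load6 (T : Tr G D) (Ct Cz Use : V → V → Prop) (y : V) : ℕ :=
  (T.tE Ct Use y).card + (T.WZ Cz Use y).card + (T.pE Use y).card + (T.K6 (EX T Ct Cz) Use y).card

/-- The chain of `v` in `s(y)` ends at an unpaid `t` or `T0` arc to a hider that has moved. -/
def XX (T : Tr G D) (Ex Ok : V → V → Prop) (v y e : V) : Prop :=
  e ∈ T.NT v ∧ (T.PayT v e ∨ T.PayZ v e) ∧ ¬ Ex v e ∧ T.Col Ok v e ∧ T.col y e ≠ T.col v e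

/-- Arcs that are explained by mutual probers are paid from outside if they can. -/
def Base (T : Tr G D) (Ex : V → V → Prop) (v : V) : Prop :=
  ∀ e, CM T v e → T.PayT v e ∨ T.PayZ v e → Ex v e

theorem base_EX {T : Tr G D} {Ct Cz : V → V → Prop} {v : V} (a : ∀ e, CM T v e → Ct v e)
    (b : ∀ e, CM T v e → Cz v e) : Base T (EX T Ct Cz) v := fun e k p => by
  by_cases t : T.PayT v e
  exacts [.inl ⟨t, a e k⟩, .inr ⟨p.resolve_left t, t, b e k⟩]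

namespace IsB

variable {T : Tr G D} {Ex Ct Cz Ok Use : V → V → Prop} {u v w x e y z r : V}

open Tr IsA

theorem mem_WZ : v ∈ T.WZ Cz Use u ↔ v ∈ T.WQ Use u ∧ Cz v u := mem_filter

/-- The account for any rule `Ex`. -/
theorem final6' (h : IsB T) (hD : 5 ≤ D) (hc : T.C6 Ex Ok Use) :
    ∑ v ∈ T.R, (D - 5 + (if v ≠ T.r ∧ T.ch v = ∅ then 2 else 0) + (if T.Bd v = ∅ then 1 else 0) +
      2 * (T.CX v).card + T.sp6 Ex Use v + T.free v) + 4 ≤ ∑ v ∈ T.R, ((T.X6 Ex Use v).card +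
      (T.pE Use v).card + (T.K6 Ex Use v).card + (T.Dr v).card + (T.ptN v).card) := by
  have k := h.final_sup2 hD (fun v => (T.X6 Ex Use v).card +
    ((T.NT v).filter fun u => T.HasQ Use v u ∧ ¬ T.HasI Use v u ∧ ¬ T.PT v u).card +
    ((T.NT v).filter fun u => ¬ T.Pe Ex Use v u ∧ ¬ ∃ x ∈ T.Int v, T.p x = u).card +
    (T.ptN v).card)
    (T.sp6 Ex Use) fun v hv => by
      have a := idle_le6 hc hv
      have b : (T.NT v).card ≤ (T.HI Use v).card + (T.N6 Ex Use v).card + (T.X6 Ex Use v).card +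
          ((T.NT v).filter fun u => T.HasQ Use v u ∧ ¬ T.HasI Use v u ∧ ¬ T.PT v u).card +
          ((T.NT v).filter fun u => ¬ T.Pe Ex Use v u ∧ ¬ ∃ x ∈ T.Int v, T.p x = u).card +
          (T.ptN v).card := by
        simp only [HI, N6, X6, ptN, card_filter, ← sum_add_distrib]
        rw [card_eq_sum_ones]
        refine sum_le_sum fun u _ => ?_
        by_cases g : T.PT v u
        · simp [g]
        by_cases a : Ex v u <;> by_cases c : T.HasQ Use v u <;> by_cases e : T.HasI Use v u <;>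
          by_cases f : ∃ x ∈ T.Int v, T.p x = u <;> simp [a, c, e, f, g, Pe]
      unfold sp6
      omega
  have h2 : ∑ v ∈ T.R, ((T.NT v).filter
      fun u => ¬ T.Pe Ex Use v u ∧ ¬ ∃ x ∈ T.Int v, T.p x = u).card =
      ∑ v ∈ T.R, (T.K6 Ex Use v).card := by
    unfold K6
    convert T.sum_head fun v u => ¬ T.Pe Ex Use v u ∧ ¬ ∃ x ∈ T.Int v, T.p x = u
  have h3 := sum_pE (T := T) (Use := Use)
  simp only [sum_add_distrib] at k ⊢
  omega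

/-- The account with charging rules for `t` and for `T0`. -/
theorem final6 (h : IsB T) (hD : 5 ≤ D) (hc : T.C6 (EX T Ct Cz) Ok Use) :
    ∑ v ∈ T.R, (D - 5 + (if v ≠ T.r ∧ T.ch v = ∅ then 2 else 0) + (if T.Bd v = ∅ then 1 else 0) +
      2 * (T.CX v).card + T.sp6 (EX T Ct Cz) Use v + T.free v) + 4 ≤
      ∑ v ∈ T.R, (T.load6 Ct Cz Use v + (T.Dr v).card + (T.ptN v).card) := by
  have k := h.final6' hD hc
  have h1 : ∑ v ∈ T.R, ((T.NT v).filter fun u =>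
      (T.PayZ v u ∧ ¬ T.PayT v u ∧ ¬ T.HasQ Use v u) ∧ Cz v u).card =
      ∑ v ∈ T.R, (T.WZ Cz Use v).card := by
    simp only [WZ, WQ, filter_filter, and_assoc]
    convert T.sum_head fun v u => T.PayZ v u ∧ ¬ T.PayT v u ∧ ¬ T.HasQ Use v u ∧ Cz v u
  have h2 : ∑ v ∈ T.R, (T.X6 (EX T Ct Cz) Use v).card ≤ ∑ v ∈ T.R, ((T.tE Ct Use v).card +
      ((T.NT v).filter fun u => (T.PayZ v u ∧ ¬ T.PayT v u ∧ ¬ T.HasQ Use v u) ∧ Cz v u).card) :=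
    sum_le_sum fun v _ => (card_le_card fun u p => by
      obtain ⟨a, b, c⟩ := mem_X6.1 p
      exact mem_union.2 (b.imp (fun b => mem_tE.2 ⟨⟨a, b.1, c⟩, b.2⟩)
        fun b => mem_filter.2 ⟨a, ⟨b.1, b.2.1, c⟩, b.2.2⟩)).trans (card_union_le _ _)
  simp only [load6, sum_add_distrib] at k h2 ⊢
  omega

/-- Pairs seen in `SM` are admissible. -/
theorem good6 (h : IsB T) (hv : v ∈ T.R) (b : Base T Ex v) (o : ∀ x, O0 T x v → Ok x v)
    (k : T.PayP (SM T v) x v u) : T.HasQ (T.U6 Ex Ok) v u := by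
  have ok : ∀ x e, T.PayP (SM T v) x v e → Ok x v := fun x e p =>
    o x (h.ok_SP (p.mono fun _ => sm_sp hv))
  refine (chain6 (h.isSig2_SM hv) hv k (ok x u k)).resolve_right ?_
  rintro ⟨e, -, e2, -, ⟨a, e', rfl, -, a2⟩, e5, e6⟩
  rcases e6 with t | t | ⟨a', t⟩
  exacts [e2 (b _ a2.expl (.inl t)), e2 (b _ a2.expl (.inr t)), e5 a' t (ok a' _ t)]

/-- Explained arcs are paid. -/
theorem pe_SM (h : IsB T) (hv : v ∈ T.R) (b : Base T Ex v) (o : ∀ x, O0 T x v → Ok x v)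
    (hu : u ∈ T.O v) (k : CM T v u) : T.Pe Ex (T.U6 Ex Ok) v u := by
  have hS := h.isSig2_SM hv
  obtain ⟨z, hz⟩ := exists_minE ((expl_iff hS.mem hv hu).1 k)
  rcases step2 hS hv hu hz with ⟨x, p⟩ | p | p | p
  exacts [.inr (h.good6 hv b o p), .inl (b u k (.inr p.1)), .inl (b u k (.inl p.1)),
    .inr (p.pt hS.mem).hasQ]

/-- Unpaid arcs are hidden and not explained in `SM`. -/
theorem npe (h : IsB T) (hv : v ∈ T.R) (b : Base T Ex v) (o : ∀ x, O0 T x v → Ok x v)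
    (a : u ∈ T.NT v) (k : ¬ T.Pe Ex (T.U6 Ex Ok) v u) : ¬ CM T v u ∧ v ∈ T.H u := by
  obtain ⟨a1, a2⟩ := T.mem_NT.1 a
  have n : ¬ CM T v u := fun p => k (h.pe_SM hv b o a1 p)
  rcases adj_cases (O_mem hv a1).1 hv (T.O_adj v hv u a1).symm with p | p | p
  exacts [absurd ⟨u, sm_self hv a p, .inl rfl⟩ n, ⟨n, p⟩, absurd p a2]

/-- Kept arcs sit at leaves and bottom vertices. -/
theorem K6_bot (_ : IsB T) (k : v ∈ T.K6 Ex Use u) (hb : v ∈ T.Bd u) (hx : x ∈ T.ch u) :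
    T.ch x = ∅ := by
  obtain ⟨p1, p2, p3⟩ := T.mem_ch.1 hx
  exact by_contra fun q => (mem_K6.1 k).2.2.2 ⟨x, mem_Int.2 ⟨p1, p2, q, p3 ▸ hb⟩, p3⟩

/-- A leaf pays triangle pairs only. -/
theorem pE_tri6 (_ : IsB T) (hl : T.ch x = ∅) (k : v ∈ T.pE (T.U6 Ex (O0 T)) x) :
    v ∈ T.R ∧ x ∈ T.NT v ∧ v ∈ T.H (T.p x) ∧ T.HasQ (T.U6 Ex (O0 T)) v x := by
  obtain ⟨hv, a, u, b, p, -⟩ := mem_pE.1 k
  obtain rfl := pr_tri hv (T.mem_NT.1 b).1 p (a.ok hl) (p.leaf_nanc hl)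
  exact ⟨hv, b, p.2.2.1, p.hasQ a⟩

/-- CHAIN in a tight state. -/
theorem chainY6 (h : IsB T) (hO : ∀ x, T.ch x ≠ ∅ → Ok x v) (hv : v ∈ T.R)
    (n : ¬ T.Anc v y) (t : T.Tight y v) (k : T.PayP (T.Vis v y) x v u) (o : Ok x v) :
    T.HasQ (T.U6 Ex Ok) v u ∨ LXB T Ok v y ∨ ∃ e, XX T Ex Ok v y e := by
  refine (chain6 (h.isSig2_vis n t) hv k o).imp_right ?_
  rintro ⟨e, nt, e1, e4, ⟨a, e', rfl, p, q⟩, e5, e6⟩
  have cl : T.Col Ok v (T.p a) := ⟨q.2.2.1, a, T.mem_ch.2 ⟨q.1, q.2.1, rfl⟩, p⟩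
  have mv := q.vis_mv
  have eo := (T.mem_NT.1 nt).1
  by_cases e2 : T.PayT v (T.p a) ∨ T.PayZ v (T.p a)
  · exact .inr ⟨_, nt, e2, e1, cl, mv⟩
  obtain ⟨e2, e3⟩ := not_or.1 e2
  obtain ⟨x', b1⟩ := (e6.resolve_left e2).resolve_left e3
  obtain ⟨rfl, d, c⟩ := dec_of hO b1 (e5 _ b1)
  refine .inl ⟨d, fun m m1 m2 => by_contra fun m3 => ?_, _, nt, cl, c.symm, c ▸ mv, e2, e3, e4⟩
  rcases high_leaf hv eo b1.1 d.2.1 d.1 n m1 (fun z => mv (by rw [← z, m2, c, z]))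
    (fun z => absurd z e2) m3 (m2.trans c) with ⟨x, x1, x2⟩ | ⟨g, x, k⟩ | k
  exacts [e5 x x2 (hO x x1), e3 (h.opn_z hv eo k (anc_p b1.1 d.2.1) n mv e2), e4 k]

/-- A second witness in a tight state: ticket, open witness, or one of the ends. -/
theorem wit6 (h : IsB T) (hO : ∀ x, T.ch x ≠ ∅ → Ok x u) (hu : u ∈ T.R) (uw : w ∈ T.O u)
    (hy : y ∈ T.R) (nu : ¬ T.Anc u y) (t : T.Tight y u) {m : V} (m1 : G.Adj u m) (m2 : m ≠ w)
    (np : T.PayT u w → ∀ m, G.Adj u m → T.col y m = T.col u w → m ≠ T.p u)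
    (m3 : T.col y m = T.col u w) :
    T.HasQ (T.U6 Ex Ok) u w ∨ (∃ a x, T.Opn u w y a x) ∨ LXB T Ok u y ∨
      (Dec T Ok u y ∧ T.c y = T.col u w ∧
        ∀ m, G.Adj u m → T.col y m = T.c y → m = T.p y ∨ m = w) ∨ ∃ e, XX T Ex Ok u y e := by
  have fin : ∀ x, T.PayP (T.Vis u y) x u w → Ok x u → _ := fun x k o =>
    h.chainY6 (Ex := Ex) hO hu nu t k o
  rcases high hu uw hy nu m1 m2 (fun e => np e m m1 m3) m3 with ⟨x, k⟩ | k | k
  rotate_left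
  · exact .inr (.inl k)
  · exact .inl k.vis_pt.hasQ
  by_cases o : Ok x u
  · exact (fin x k o).imp_right fun k => .inr (k.imp_right .inr)
  obtain ⟨-, a, b⟩ := dec_of hO k o
  by_cases q : ∀ m, G.Adj u m → T.col y m = T.c y → m = T.p y ∨ m = w
  · exact .inr (.inr (.inr (.inl ⟨a, b, q⟩)))
  push Not at q
  obtain ⟨m, q1, q2, q3, q4⟩ := q
  rcases high_leaf hu uw hy a.2.1 a.1 nu q1 q4 (fun e => np e m q1 (q2.trans b)) q3 (q2.trans b)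
    with ⟨x, x1, x2⟩ | ⟨g, x, k⟩ | k
  exacts [(fin x x2 (hO x x1)).imp_right fun k => .inr (k.imp_right .inr),
    .inr (.inl ⟨g, x, k.1, k.2.1.trans (anc_p hy a.2.1), k.2.2⟩), .inl k.hasQ]

/-- DIRECTED HANDSHAKE. -/
theorem dir6 (h : IsB T) (hO : ∀ x, T.ch x ≠ ∅ → Ok x u) (hu : u ∈ T.R) (uw : w ∈ T.O u)
    (wu : u ∈ T.O w) (tu : ¬ T.PayT u w) (hy : y ∈ T.R) (nu : ¬ T.Anc u y) (nw : ¬ T.Anc w y)
    (t : T.Tight y u) (d : ¬ Uq G (T.col y) u w) (uq : Uq G (T.col y) w u) :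
    T.HasQ (T.U6 Ex Ok) u w ∨ T.PT w u ∨ LXB T Ok u y ∨ LX1 T Ok u w y ∨
      ∃ e, XX T Ex Ok u y e := by
  have hw := (T.clo u hu w uw).1
  have cl := mut_col hu hw uw wu
  simp only [Uq, not_forall, not_not] at d
  obtain ⟨m, m1, m2, m3⟩ := d
  rw [col_base hy (T.real w hw) nw, ← cl] at m3
  exact (h.wit6 hO hu uw hy nu t m1 m2 (fun e => absurd e tu) m3).imp_right fun k => k.imp
    (fun ⟨_, _, o⟩ => h.no_opn hu uw wu nu nw (o.op2 tu) uq) fun k => k.imp_right fun k =>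
      k.imp_left fun k => ⟨k.1, k.2.1.trans cl, k.2.2⟩

/-- ENTRY, directed. -/
theorem ent6 (h : IsB T) (hO : ∀ a, T.ch a ≠ ∅ → Ok a r) (hr : r ∈ T.R) (rx : x ∈ T.O r)
    (xr : r ∈ T.O x) (tr : ¬ T.PayT r x) (hz : z ∈ T.R) (pz : x ∈ T.O z) (nx : ¬ T.Anc x z)
    (nr : ¬ T.Anc r z) (n : ¬ G.Adj z r) (u : Uq G (T.col z) x r) :
    T.HasQ (T.U6 Ex Ok) r x ∨ T.PT x r ∨ LXB T Ok r z ∨ ∃ e, XX T Ex Ok r z e := by
  obtain ⟨t, d⟩ := h.ent_tight hz pz (T.real r hr) (T.O_adj r hr x rx).symm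
    (fun e => nr (e ▸ .refl _ (e ▸ hz))) n u
  refine (h.dir6 hO hr rx xr tr hz nr nx t d u).imp_right fun k => k.imp_right fun k =>
    k.imp_right fun k => k.resolve_left fun k => ?_
  exact absurd (T.col_r ▸ k.2.1) (T.prop T.r T.r_mem _ _ (T.O_adj z hz x pz))

/-- PAIR, directed. -/
theorem pair6 (h : IsB T) (hO : ∀ a, T.ch a ≠ ∅ → Ok a r) (hr : r ∈ T.R) (rx : x ∈ T.O r)
    (xr : r ∈ T.O x) (tr : ¬ T.PayT r x) (hz : z ∈ T.R) (pz : y ∈ T.O z) (a : G.Adj y x)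
    (nx : ¬ T.Anc x z) (nr : ¬ T.Anc r z) (uq : Uq G (T.col z) y x) (n : ¬ G.Adj y r)
    (ry : r ≠ y) (u : Uq G (T.col z) x r) :
    T.HasQ (T.U6 Ex Ok) r x ∨ T.PT x r ∨ LXB T Ok r z ∨ LX1 T Ok r x z ∨
      (∃ e, XX T Ex Ok r z e) ∨
      r ∈ T.H z ∧ x ∉ T.O z ∧ ∀ m, G.Adj r m → T.col z m ≠ T.col z y := by
  obtain ⟨d, t | t⟩ := h.pair_tight hz pz a (T.clo r hr x rx).1 hr (T.O_adj r hr x rx).symm
    (fun e => nx (e ▸ .refl _ (e ▸ hz))) nr uq n ry u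
  · exact (h.dir6 hO hr rx xr tr hz nr nx t d u).imp_right fun k => k.imp_right fun k =>
      k.imp_right fun k => k.imp_right .inl
  · exact .inr (.inr (.inr (.inr (.inr t))))

/-- The two kinds of ends. -/
theorem xx_cases (k : XX T (EX T Ct Cz) Ok v y e) : TX T Ct Ok v y e ∨
    e ∈ T.NT v ∧ T.PayZ v e ∧ ¬ T.PayT v e ∧ ¬ Cz v e ∧ T.Col Ok v e ∧ T.col y e ≠ T.c e := by
  obtain ⟨a, b, c, d, f⟩ := k
  by_cases t : T.PayT v e
  · exact .inl ⟨a, t, fun p => c (.inl ⟨t, p⟩), d, f⟩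
  · have z := b.resolve_left t
    exact .inr ⟨a, z, t, fun p => c (.inr ⟨z, t, p⟩), d, z.2.2.1 ▸ f⟩

end IsB

end Pool.Agent.Lib.MP_12eaff_co.Acc2
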