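import Pool.Agent.Lib.MP_12eaff_co.Acc2.Cnt6

set_option autoImplicit false
set_option linter.unusedSectionVars false

namespace Pool.Agent.Lib.MP_12eaff_co.Acc2

open Finset Pool.Agent.Lib.MP_12eaff_co.BK
open scoped Classical

variable {V : Type} [Fintype V] {G : SimpleGraph V} {D : ℕ}

namespace Tr

variable {T : Tr G D} {Ex Ok : V → V → Prop} {u v x y : V}

/-- CHAIN, with the named first unit. -/
theorem chain7 {S : V → Prop} (hS : T.IsSig2 v S) (hv : v ∈ T.R) (k : T.PayP S x v u)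
    (o : Ok x v) : T.U6 Ex Ok x v ∨ ∃ e ∈ T.NT v, ¬ Ex v e ∧ ¬ T.PT v e ∧
      (∃ a e', T.p a = e ∧ Ok a v ∧ T.PayP S a v e') ∧ (∀ a, T.PayP S a v e → ¬ Ok a v) ∧
      (T.PayT v e ∨ T.PayZ v e ∨ ∃ a, T.PayP S a v e) := by
  refine or_iff_not_imp_right.2 fun h =>
    ⟨fun a b => b = v ∧ Ok a v ∧ ∃ e, T.PayP S a v e, ?_, rfl, o, u, k⟩
  rintro a b ⟨rfl, p, e, q⟩
  refine ⟨p, fun n => by_contra fun c => ?_⟩
  obtain ⟨s, hs⟩ := exists_minE ((expl_iff hS.mem hv (T.mem_NT.1 n).1).1 q.expl)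
  have pt : ¬ T.PT b (T.p a) := fun r => c (.inr r.hasQ)
  refine h ⟨_, n, fun r => c (.inl r), pt, ⟨a, e, rfl, p, q⟩,
    fun x' k' o' => c (.inr (.inl ⟨x', k'.pr, rfl, o', _, k'⟩)), ?_⟩
  rcases step2 hS hv (T.mem_NT.1 n).1 hs with r | r | r | r
  exacts [.inr (.inr r), .inr (.inl r.1), .inl r.1, absurd (r.pt hS.mem) pt]

/-- The column of a pair seen from `y` is not `y`, unless the tail is below `y`. -/
theorem PayP.col_ne (k : T.PayP (T.Vis v y) x v u) : T.Anc y v ∨ T.p x ≠ y := by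
  obtain ⟨k1, k2, -, -, z, z1, -, z3 | z3⟩ := k
  · exact or_iff_not_imp_right.2 fun e => not_not.1 e ▸ (anc_p k1 k2).trans z3.1
  · refine .inr fun e => ?_
    have := T.d_p x k1 k2
    have := (z3.2.trans z1.1).le
    rw [e] at *
    omega

/-- The head of a pair seen from an internal state is internal. -/
theorem PayP.inner (k : T.PayP (T.Vis v y) x v u) (n : T.ch y ≠ ∅) : T.ch x ≠ ∅ := fun l => by
  obtain ⟨z, z1, -, z3 | z3⟩ := k.2.2.2.2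
  exacts [k.pr.leaf_nanc l z3.1, n (leaf_anc l (z3.2.trans z1.1) ▸ l)]

end Tr

/-- Internal heads and triangles are accepted, except triangles at a leaf that are paid from
outside. -/
def OkT (T : Tr G D) (Ex Ok : V → V → Prop) (v : V) : Prop :=
  ∀ x, O0 T x v → Ok x v ∨ T.ch x = ∅ ∧ Ex v x

namespace IsB

variable {T : Tr G D} {Ex Ok : V → V → Prop} {u v w x e y z r a b m : V}

open Tr IsA

theorem okT_in (o : OkT T Ex Ok v) : ∀ x, T.ch x ≠ ∅ → Ok x v := fun x l =>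
  (o x fun k => absurd k l).resolve_right fun k => l k.1

theorem ok7 (h : IsB T) (hv : v ∈ T.R) (o : OkT T Ex Ok v) (hu : u ∈ T.O v)
    (k : T.PayP (SM T v) x v u) : Ok x v ∨ x = u ∧ T.ch u = ∅ ∧ Ex v u := by
  have p := h.ok_SP (k.mono fun _ => sm_sp hv)
  refine (o x p).imp_right fun q => ?_
  obtain rfl := pr_tri hv hu k.pr (p q.1) (k.pr.leaf_nanc q.1)
  exact ⟨rfl, q⟩

/-- Pairs seen in `SM` are admissible. -/
theorem good7 (h : IsB T) (hv : v ∈ T.R) (b : Base T Ex v) (o : OkT T Ex Ok v) (hu : u ∈ T.O v)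
    (k : T.PayP (SM T v) x v u) : T.U6 Ex Ok x v ∨ x = u ∧ T.ch u = ∅ ∧ Ex v u := by
  refine (h.ok7 hv o hu k).imp_left fun p => (chain7 (h.isSig2_SM hv) hv k p).resolve_right ?_
  rintro ⟨e, e1, e2, -, ⟨a, e', rfl, -, a2⟩, e5, e6⟩
  rcases e6 with t | t | ⟨a', t⟩
  exacts [e2 (b _ a2.expl (.inl t)), e2 (b _ a2.expl (.inr t)),
    (h.ok7 hv o (T.mem_NT.1 e1).1 t).elim (e5 a' t) fun k => e2 k.2.2]

/-- Explained arcs are paid. -/
theorem pe7 (h : IsB T) (hv : v ∈ T.R) (b : Base T Ex v) (o : OkT T Ex Ok v)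
    (hu : u ∈ T.O v) (k : CM T v u) : T.Pe Ex (T.U6 Ex Ok) v u := by
  have hS := h.isSig2_SM hv
  obtain ⟨z, hz⟩ := exists_minE ((expl_iff hS.mem hv hu).1 k)
  rcases step2 hS hv hu hz with ⟨x, p⟩ | p | p | p
  exacts [(h.good7 hv b o hu p).symm.imp (·.2.2) p.pr.hasQ, .inl (b u k (.inr p.1)),
    .inl (b u k (.inl p.1)), .inr (p.pt hS.mem).hasQ]

/-- Unpaid arcs are hidden and not explained in `SM`. -/
theorem npe7 (h : IsB T) (hv : v ∈ T.R) (b : Base T Ex v) (o : OkT T Ex Ok v)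
    (a : u ∈ T.NT v) (k : ¬ T.Pe Ex (T.U6 Ex Ok) v u) : ¬ CM T v u ∧ v ∈ T.H u := by
  obtain ⟨a1, a2⟩ := T.mem_NT.1 a
  have n : ¬ CM T v u := fun p => k (h.pe7 hv b o a1 p)
  rcases adj_cases (O_mem hv a1).1 hv (T.O_adj v hv u a1).symm with p | p | p
  exacts [absurd ⟨u, sm_self hv a p, .inl rfl⟩ n, ⟨n, p⟩, absurd p a2]

/-- CHAIN in a tight state, with the named first unit. -/
theorem chainY7 (h : IsB T) (hO : ∀ x, T.ch x ≠ ∅ → Ok x v) (hv : v ∈ T.R)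
    (n : ¬ T.Anc v y) (t : T.Tight y v) (k : T.PayP (T.Vis v y) x v u) (o : Ok x v) :
    T.U6 Ex Ok x v ∨ LXB T Ok v y ∨ ∃ e, XX T Ex Ok v y e ∧ (T.Anc y v ∨ e ≠ y) := by
  refine (chain7 (h.isSig2_vis n t) hv k o).imp_right ?_
  rintro ⟨e, nt, e1, e4, ⟨a, e', rfl, p, q⟩, e5, e6⟩
  have cl : T.Col Ok v (T.p a) := ⟨q.2.2.1, a, T.mem_ch.2 ⟨q.1, q.2.1, rfl⟩, p⟩
  have mv := q.vis_mv
  have eo := (T.mem_NT.1 nt).1
  by_cases e2 : T.PayT v (T.p a) ∨ T.PayZ v (T.p a)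
  · exact .inr ⟨_, ⟨nt, e2, e1, cl, mv⟩, q.col_ne⟩
  obtain ⟨e2, e3⟩ := not_or.1 e2
  obtain ⟨x', b1⟩ := (e6.resolve_left e2).resolve_left e3
  obtain ⟨rfl, d, c⟩ := dec_of hO b1 (e5 _ b1)
  refine .inl ⟨d, fun m m1 m2 => by_contra fun m3 => ?_, _, nt, cl, c.symm, c ▸ mv, e2, e3, e4⟩
  rcases high_leaf hv eo b1.1 d.2.1 d.1 n m1 (fun z => mv (by rw [← z, m2, c, z]))
    (fun z => absurd z e2) m3 (m2.trans c) with ⟨x, x1, x2⟩ | ⟨g, x, k⟩ | k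
  exacts [e5 x x2 (hO x x1), e3 (h.opn_z hv eo k (anc_p b1.1 d.2.1) n mv e2), e4 k]

/-- A second witness in an internal tight state: a unit of the supply, an open witness or an end. -/
theorem wit7 (h : IsB T) (hO : ∀ x, T.ch x ≠ ∅ → Ok x u) (hu : u ∈ T.R) (uw : w ∈ T.O u)
    (hy : y ∈ T.R) (l : T.ch y ≠ ∅) (nu : ¬ T.Anc u y) (t : T.Tight y u) (m1 : G.Adj u m)
    (m2 : m ≠ w) (np : T.PayT u w → m ≠ T.p u) (m3 : T.col y m = T.col u w) :
    T.HasI (T.U6 Ex Ok) u w ∨ T.PT u w ∨ (∃ a ∈ T.R, u ∈ T.Dr a) ∨ (∃ a x, T.Opn u w y a x) ∨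
      ∃ e, XX T Ex Ok u y e ∧ (T.Anc y u ∨ e ≠ y) := by
  rcases high hu uw hy nu m1 m2 np m3 with ⟨x, k⟩ | k | k
  · have i := k.inner l
    have hp := T.p_mem x k.1 k.2.1
    rcases h.chainY7 (Ex := Ex) hO hu nu t k (hO x i) with p | p | p
    · exact ((h.mem_H2 hp).1 k.2.2.1).elim (fun q => .inl ⟨x, mem_Int.2 ⟨k.1, k.2.1, i, q⟩, k.pr, p⟩)
        fun q => .inr (.inr (.inl ⟨_, hp, q⟩))
    exacts [absurd p.1.1 l, .inr (.inr (.inr (.inr p)))]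
  exacts [.inr (.inr (.inr (.inl k))), .inr (.inl k.vis_pt)]

/-- An end that is not above the level of the tail lies on the path of the state. -/
theorem xx_low (k : XX T Ex Ok v y e) (hv : v ∈ T.R) (hy : y ∈ T.R) :
    T.PayT v e ∧ T.d e < T.d v ∨ T.Anc e y ∧ T.d v ≤ T.d e := by
  obtain ⟨k1, k2, -, -, k4⟩ := k
  have eo := (T.mem_NT.1 k1).1
  by_cases d : T.d v ≤ T.d e
  · refine .inr ⟨by_contra fun p => k4 ?_, d⟩
    rw [col_base hy (O_real hv eo) p,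
      col_base hv (O_real hv eo) fun p => (T.O_adj v hv e eo).ne (p.eq_of_d d).symm]
  · refine .inl ⟨k2.resolve_right fun z => d ?_, by omega⟩
    have eR := (T.clo v hv e eo).1
    have := T.d_p e eR z.1
    have := (T.clo _ (T.p_mem e eR z.1) v z.2.1).2
    omega

/-- TC: a mutual neighbour `v` of `x` that is hidden by the parent of `x` and misses a tail of
`x` has a unit of its own supply for `v → x`. -/
theorem tc7 (h : IsB T) (b : Base T Ex v) (o : OkT T Ex Ok v) (hx : x ∈ T.R) (hw : w ∈ W T x)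
    (hv : v ∈ T.R) (qv : v ∈ T.H (T.p x)) (vx : x ∈ T.O v) (xv : v ∈ T.O x) (n : ¬ G.Adj v w) :
    T.PayT v x ∨ T.HasI (T.U6 Ex Ok) v x ∨ T.PT v x ∨ T.PT x v ∨ ∃ a ∈ T.R, v ∈ T.Dr a := by
  obtain ⟨xw, xr, wq, -, -, xq⟩ := mem_W.1 hw
  have hq := T.p_mem x hx xr
  have xc := T.mem_ch.2 ⟨hx, xr, rfl⟩
  obtain ⟨a, -, vq, -⟩ := T.mem_H.1 qv
  have dx := d_chO xc xq
  have nv : ¬ T.Anc v (T.p x) := fun k => by
    have := k.lt a.ne.symm
    have := (T.clo v hv x vx).2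
    omega
  have nx : ¬ T.Anc x (T.p x) := fun k => by
    have := k.le
    omega
  have vd := T.real v hv
  have xa := T.O_adj x hx v xv
  have cv := col_step hx xr vd xa.ne.symm a.ne.symm
  by_contra! k
  obtain ⟨k1, k2, k3, k4, k5⟩ := k
  have u : Uq G (T.col (T.p x)) x v := fun m p q e => by
    by_cases md : m ∈ T.Dm
    · exact k4 ⟨_, hq, port_of hx xv p md (e.trans cv.symm)⟩
    by_cases z : m = T.p x
    · have := col_lt hq hv a.ne.symm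
      rw [← e, z, col_self hq] at this
      omega
    exact T.uniq x hx v xv m p q (by rw [col_step hx xr md p.ne.symm z, e, cv])
  obtain ⟨d, t⟩ := h.pair_tight hq wq xw.symm hx hv xa (p_ne hx xr).symm nv (W_uq hx hw)
    (fun e => n e.symm) (fun e => vq (e ▸ wq)) u
  have t := t.resolve_right fun t => t.2.1 xq
  have cl := mut_col hv hx vx xv
  simp only [Uq, not_forall, not_not] at d
  obtain ⟨m, m1, m2, m3⟩ := d
  rw [col_p_self hx xr, ← cl] at m3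
  rcases h.wit7 (Ex := Ex) (okT_in o) hv vx hq (ne_empty_of_mem xc) nv t m1 m2
    (fun e => absurd e k1) m3 with p | p | ⟨s, p⟩ | ⟨s, s', p⟩ | ⟨e, ⟨e1, e2, e3, -, e4⟩, -⟩
  exacts [k2 p, k3 p, k5 s p.1 p.2, k4 (h.no_opn hv vx xv nv nx (p.op2 k1) u), by
    have nt : x ∈ T.NT v := T.mem_NT.2 ⟨vx, fun z => a.ne (T.mem_ch.1 z).2.2⟩
    have eo := (T.mem_NT.1 e1).1
    refine e3 (b e ⟨x, sm_self hv nt xv, or_iff_not_imp_left.2 fun z => ?_⟩ e2)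
    by_cases z' : e = T.p x
    · rw [z', col_par hx xr, ← cl]
      exact (T.uniq v hv x vx _ a.symm (p_ne hx xr)).symm
    · rwa [col_step hx xr (O_real hv eo) z z']]

/-- NN: both members of the real double of `x` probe `x`, miss its parent and are unpaid.  Then
a high `t` is not charged, or `x = t(v)` and the parent of `v` has a token for `v` up to ends. -/
theorem nn7 (h : IsB T) (nz : T.NFz) (hO : ∀ x v, T.ch x ≠ ∅ → Ok x v) (hx : x ∈ T.R) (ab : a ≠ b)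
    (hB : ∀ v, v = a ∨ v = b → v ∈ T.R ∧ v ∈ T.Bd x ∧ x ∈ T.O v ∧ ¬ T.Anc x v ∧
      ¬ G.Adj v (T.p x) ∧ ¬ T.HasQ (T.U6 Ex Ok) v x ∧ (T.PayT v x → T.d v ≤ T.d x)) :
    ∃ v, (v = a ∨ v = b) ∧ T.Tight x v ∧
      ((∃ e, XX T Ex Ok v x e ∧ T.PayT v e ∧ T.d e < T.d v) ∨
      Deb T v x ∧ ¬ T.Anc (T.p v) x ∧ T.Tight x (T.p v) ∧ (T.HasQ (T.U6 Ex Ok) (T.p v) v ∨
        (T.PayT (T.p v) v ∧ T.col x (T.p (T.p v)) = T.c v ∧ ∀ m, G.Adj (T.p v) m → m ≠ v →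
          m ≠ T.p (T.p v) → T.col x m ≠ T.c v) ∨
        (∃ m s, T.Opn (T.p v) v x m s ∧ s ≠ x) ∨ ∃ e, XX T Ex Ok (T.p v) x e)) := by
  obtain ⟨v, w, vw, t, k⟩ := h.rec2 nz hx ab fun v k =>
    let ⟨p1, p2, p3, p4, p5, _⟩ := hB v k; ⟨p1, p2, p3, p4, p5⟩
  have v1 : v = a ∨ v = b := vw.imp (·.1) (·.1)
  have w1 : w = a ∨ w = b := (vw.imp (·.2) (·.2)).symm
  have ne : w ≠ v := by rcases vw with ⟨rfl, rfl⟩ | ⟨rfl, rfl⟩ <;> [exact ab.symm; exact ab]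
  obtain ⟨p1, p2, p3, p4, p5, p6, p7⟩ := hB v v1
  obtain ⟨q1, q2, q3, q4, -⟩ := hB w w1
  have xr : x ≠ T.r := fun e => p4 (e ▸ anc_r p1)
  have dx := (T.clo v p1 x p3).2
  have cx := col_base p1 (T.real x hx) p4
  refine ⟨v, v1, t, ?_⟩
  rcases k with ⟨n, -, ⟨s, k⟩ | k⟩ | ⟨d, n, ⟨m, m1, m2, m3⟩, k⟩
  · have nd : ¬ Dec T Ok v x := fun d => p5 (T.mem_H.1 d.2.2.1).1.symm
    rcases h.chainY7 (Ex := Ex) (hO · v) p1 n t k
      (by_contra fun o => nd (dec_of (hO · v) k o).2.1) with r | r | ⟨e, r, s⟩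
    · exact absurd (k.pr.hasQ r) p6
    · exact absurd r.1 nd
    refine .inl ⟨e, r, (xx_low r p1 hx).resolve_right fun z => p5 ?_⟩
    have := (T.mem_ch.1 (z.1.ch_of_d (s.resolve_left p4) (by omega))).2.2
    exact this ▸ T.O_adj v p1 e (T.mem_NT.1 r.1).1
  · exact absurd k.vis_pt.hasQ p6
  obtain ⟨vr, vo⟩ := d.1.1
  have hg := T.p_mem v p1 vr
  have dv := p7 d.1
  have dg := T.d_p v p1 vr
  have cv := col_p_self p1 vr
  have nb : ∀ {u}, u ∈ T.R → u ∈ T.Bd x → x ∈ T.O u → T.col x u = T.c u := fun {u} a b c =>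
    col_base hx (T.real u a) fun k => (T.mem_H.1 (h.Bd_H hx b)).2.2.2 (T.mem_ch.1
      (k.ch_of_d (T.O_adj u a x c).ne (T.clo u a x c).2)).2.2.symm
  have tg : T.Tight x (T.p v) := k.resolve_right fun k => T.uniq _ hg v vo w k.2 ne (by
    rw [cv, ← nb p1 p2 p3, h.Bd_col hx p2 q2, nb q1 q2 q3]
    refine col_base hg (T.real w q1) fun z => ?_
    have := z.lt k.2.ne.symm
    have := (T.clo w q1 x q3).2
    omega)
  refine .inr ⟨d, n, tg, ?_⟩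
  have cc : T.c x ≠ T.c v := by
    have := T.prop T.r T.r_mem _ _ (T.O_adj v p1 x p3)
    rw [T.col_r] at this
    exact this.symm
  rcases tok_of p1 vr vo hx n m1 m2 m3 with k | ⟨s, k⟩ | ⟨m, s, k⟩ | k
  · exact .inr (.inl k)
  · rcases h.chainY7 (Ex := Ex) (hO · _) hg n tg k
      (by_contra fun o => cc ((dec_of (hO · _) k o).2.2.trans cv)) with r | r | ⟨e, r, -⟩
    · exact .inl (k.pr.hasQ r)
    · obtain ⟨-, -, e, e1, -, e2, -⟩ := r
      exact absurd (by rw [e2, col_par hg (t_nr p1 p3 d.1), ← d.1.2, cx])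
        (T.ne_p _ hg e (T.mem_NT.1 e1).1)
    · exact .inr (.inr (.inr ⟨e, r⟩))
  · exact .inr (.inr (.inl ⟨m, s, k, fun e => cc (by rw [← e, k.2.2.2.1, cv])⟩))
  · exact .inl k.vis_pt.hasQ

end IsB

end Pool.Agent.Lib.MP_12eaff_co.Acc2
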