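import Pool.Agent.Lib.MP_12eaff_co.Acc2.Cnt6

set_option autoImplicit false
set_option linter.unusedSectionVars false

namespace Pool.Agent.Lib.MP_12eaff_co.Acc2

open Finset Pool.Agent.Lib.MP_12eaff_co.BK
open scoped Classical

variable {V : Type} [Fintype V] {G : SimpleGraph V} {D : ℕ}

/-- Inclusion of relations. -/
def Sub (U U' : V → V → Prop) : Prop := ∀ x v, U x v → U' x v

/-- Monotone charging rules. -/
def Mon (Φ : (V → V → Prop) → V → V → Prop) : Prop := ∀ U U', Sub U U' → Sub (Φ U) (Φ U')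

theorem Mon.const (B : V → V → Prop) : Mon fun _ : V → V → Prop => B := fun _ _ _ _ _ k => k

theorem EX.mono {T : Tr G D} {Ct Cz Ct' Cz' : V → V → Prop} (a : Sub Ct Ct') (b : Sub Cz Cz') :
    Sub (EX T Ct Cz) (EX T Ct' Cz') := fun v u k =>
  k.imp (fun p => ⟨p.1, a v u p.2⟩) fun p => ⟨p.1, p.2.1, b v u p.2.2⟩

namespace Tr

variable {T : Tr G D} {Ex Ex' Ok Ok' Ct Cz Use U U' : V → V → Prop} {u v w x : V}

theorem U6.mono (a : Sub Ex Ex') (b : Sub Ok Ok') : Sub (T.U6 Ex Ok) (T.U6 Ex' Ok') :=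
  fun _ _ ⟨U, c, k⟩ => ⟨U, fun x v p => ⟨b x v (c x v p).1,
    fun q => ((c x v p).2 q).imp_left (a _ _)⟩, k⟩

/-- DYNAMIC RULES: the least set of units that is the greatest closed set for the rules which it
induces. -/
theorem exists_fix (T : Tr G D) (Ok : V → V → Prop) {Φ Ψ : (V → V → Prop) → V → V → Prop}
    (h1 : Mon Φ) (h2 : Mon Ψ) : ∃ U, U = T.U6 (EX T (Φ U) (Ψ U)) Ok ∧
      ∀ U', Sub (T.U6 (EX T (Φ U') (Ψ U')) Ok) U' → Sub U U' := by
  let F : (V → V → Prop) →o (V → V → Prop) := ⟨fun U => T.U6 (EX T (Φ U) (Ψ U)) Ok,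
    fun U U' k => U6.mono (EX.mono (h1 U U' k) (h2 U U' k)) fun _ _ p => p⟩
  exact ⟨F.lfp, F.map_lfp.symm, fun U' k => F.lfp_le k⟩

theorem HasI.mono (h : T.HasI U v u) (k : Sub U U') : T.HasI U' v u :=
  let ⟨x, a, b, c⟩ := h; ⟨x, a, b, k x v c⟩

theorem WQ_anti (k : Sub U U') : T.WQ U' u ⊆ T.WQ U u := fun w p => by
  obtain ⟨a, b, c, d, e⟩ := mem_WQ.1 p
  exact mem_WQ.2 ⟨a, b, c, d, fun q => e (q.mono fun x => k x w)⟩

theorem WZ_anti (k : Sub U U') : T.WZ Cz U' u ⊆ T.WZ Cz U u :=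
  filter_subset_filter _ (WQ_anti k)

variable (T Use) in
/-- The vertex holds a token: a unit of the supply of its parent, or a port ticket. -/
def Tok (u : V) : Prop := u ≠ T.r ∧ u ∈ T.O (T.p u) ∧ (T.HasI Use (T.p u) u ∨ T.PT (T.p u) u)

theorem Tok.mono (h : T.Tok U u) (k : Sub U U') : T.Tok U' u :=
  ⟨h.1, h.2.1, h.2.2.imp_left fun p => p.mono k⟩

variable (T Cz Use) in
/-- Room for a charge of `t`: at most two charged tails, three with a token, any number with a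
token at the vertices of `N`. -/
def Room (N : V → Prop) (v : V) : Prop :=
  (T.WZ Cz Use v).card ≤ 2 ∨ T.Tok Use v ∧ ((T.WZ Cz Use v).card ≤ 3 ∨ N v)

theorem Room.mono {N : V → Prop} (h : T.Room Cz U N v) (k : Sub U U') : T.Room Cz U' N v :=
  have := card_le_card (WZ_anti (T := T) (Cz := Cz) (u := v) k)
  h.imp this.trans fun p => ⟨p.1.mono k, p.2.imp_left this.trans⟩

theorem not_room {N : V → Prop} (h : ¬ T.Room Cz U N v) :
    3 ≤ (T.WZ Cz U v).card ∧ (T.Tok U v → 4 ≤ (T.WZ Cz U v).card ∧ ¬ N v) := by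
  simp only [Room, not_or, not_and, not_le] at h
  exact h

/-- The rule `B`, or the rule `A` together with room; `Cz` is static. -/
theorem exists_room (T : Tr G D) (Ok B A Cz : V → V → Prop) (N : V → Prop) :
    ∃ Ct : V → V → Prop,
      ∀ v e, Ct v e ↔ B v e ∨ A v e ∧ T.Room Cz (T.U6 (EX T Ct Cz) Ok) N v := by
  obtain ⟨U, a, -⟩ := T.exists_fix Ok (Φ := fun U v e => B v e ∨ A v e ∧ T.Room Cz U N v)
    (fun _ _ k _ _ p => p.imp_right fun q => ⟨q.1, q.2.mono k⟩) (Mon.const Cz)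
  exact ⟨_, fun _ _ => by rw [← a]⟩

/-- The same; static charges `S` and charges by room need room at the parent. -/
theorem exists_room2 (T : Tr G D) (Ok B S Cz : V → V → Prop) (N : V → Prop) :
    ∃ Ct : V → V → Prop, ∀ v e, Ct v e ↔ B v e ∨ T.Room Cz (T.U6 (EX T Ct Cz) Ok) N (T.p v) ∧
      (S v e ∨ T.Room Cz (T.U6 (EX T Ct Cz) Ok) N v) := by
  obtain ⟨U, a, -⟩ := T.exists_fix Ok
    (Φ := fun U v e => B v e ∨ T.Room Cz U N (T.p v) ∧ (S v e ∨ T.Room Cz U N v))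
    (fun _ _ k _ _ p => p.imp_right fun q => ⟨q.1.mono k, q.2.imp_right fun r => r.mono k⟩)
    (Mon.const Cz)
  exact ⟨_, fun _ _ => by rw [← a]⟩

variable (T Ct) in
/-- `t v` is charged for the arc to the leaf `x`. -/
def TL (v x : V) : Prop := T.ch x = ∅ ∧ T.PayT v x ∧ Ct v x

variable (T Ct Use) in
/-- A leaf declines the unit of a tail whose `t` is charged for the arc to the leaf. -/
def UT (x v : V) : Prop := Use x v ∧ v ∈ T.R ∧ ¬ T.TL Ct v x

theorem UT_sub : Sub (T.UT Ct Use) Use := fun _ _ k => k.1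

theorem hasI_UT (hv : v ∈ T.R) : T.HasI (T.UT Ct Use) v u ↔ T.HasI Use v u :=
  ⟨fun k => k.mono UT_sub, fun ⟨x, a, b, c⟩ =>
    ⟨x, a, b, c, hv, fun q => (mem_Int.1 a).2.2.1 q.1⟩⟩

theorem hasQ_UT (o : Sub Use (O0 T)) (hv : v ∈ T.R) (hu : u ∈ T.O v) (h : T.HasQ Use v u) :
    T.HasQ (T.UT Ct Use) v u ∨ T.TL Ct v u := by
  rcases h with ⟨x, a, b⟩ | h
  · by_cases k : T.TL Ct v x
    · exact .inr (pr_tri hv hu a (o x v b k.1) (a.leaf_nanc k.1) ▸ k)
    · exact .inl (.inl ⟨x, a, b, hv, k⟩)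
  · exact .inl (.inr h)

theorem pe_UT (o : Sub Use (O0 T)) (hv : v ∈ T.R) (hu : u ∈ T.O v) :
    T.Pe (EX T Ct Cz) (T.UT Ct Use) v u ↔ T.Pe (EX T Ct Cz) Use v u :=
  ⟨fun k => k.imp_right fun p => p.mono fun _ q => q.1, fun k => k.elim .inl fun p =>
    (hasQ_UT o hv hu p).elim .inr fun q => .inl (.inl q.2)⟩

theorem c6_UT (o : Sub Use (O0 T)) (h : T.C6 (EX T Ct Cz) Ok Use) :
    T.C6 (EX T Ct Cz) Ok (T.UT Ct Use) := fun x v k =>
  ⟨(h x v k.1).1, fun q => (pe_UT o k.2.1 (T.mem_NT.1 q).1).2 ((h x v k.1).2 q)⟩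

theorem WQ_UT (o : Sub Use (O0 T)) : T.WQ (T.UT Ct Use) u = T.WQ Use u :=
  Subset.antisymm (fun w p => by
    obtain ⟨a, b, c, d, e⟩ := mem_WQ.1 p
    exact mem_WQ.2 ⟨a, b, c, d, fun q =>
      (hasQ_UT o a (T.mem_NT.1 b).1 q).elim e fun r => d r.2.1⟩) (WQ_anti UT_sub)

theorem K6_UT (o : Sub Use (O0 T)) :
    T.K6 (EX T Ct Cz) (T.UT Ct Use) u = T.K6 (EX T Ct Cz) Use u :=
  filter_congr fun _ p => and_congr_right fun q => by rw [pe_UT o p (T.mem_NT.1 q).1]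

theorem sp6_UT (o : Sub Use (O0 T)) (hv : v ∈ T.R) :
    T.sp6 (EX T Ct Cz) (T.UT Ct Use) v = T.sp6 (EX T Ct Cz) Use v := by
  have a : T.HI (T.UT Ct Use) v = T.HI Use v := filter_congr fun _ _ => by rw [hasI_UT hv]
  have b : T.N6 (EX T Ct Cz) (T.UT Ct Use) v = T.N6 (EX T Ct Cz) Use v :=
    filter_congr fun _ q => by rw [pe_UT o hv (T.mem_NT.1 q).1]
  rw [sp6, sp6, a, b]

variable (T Ct Use) in
/-- Charged `t` when leaves decline. -/
noncomputable def t7 (y : V) : Finset V :=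
  (T.NT y).filter fun e => T.PayT y e ∧ Ct y e ∧ (T.ch e = ∅ ∨ ¬ T.HasQ Use y e)

variable (T Ct Use) in
/-- Pairs charged to `y` when leaves decline. -/
noncomputable def p7 (y : V) : Finset V := (T.pE Use y).filter fun v => ¬ T.TL Ct v y

theorem mem_t7 : u ∈ T.t7 Ct Use v ↔
    u ∈ T.NT v ∧ T.PayT v u ∧ Ct v u ∧ (T.ch u = ∅ ∨ ¬ T.HasQ Use v u) := mem_filter

theorem mem_p7 : v ∈ T.p7 Ct Use x ↔ v ∈ T.pE Use x ∧ ¬ T.TL Ct v x := mem_filter

theorem card_t7 (hv : v ∈ T.R) : (T.t7 Ct Use v).card ≤ 1 := card_le_one.2 fun _ a _ b =>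
  O_inj hv (T.mem_NT.1 (mem_t7.1 a).1).1 (T.mem_NT.1 (mem_t7.1 b).1).1
    ((mem_t7.1 a).2.1.2.trans (mem_t7.1 b).2.1.2.symm)

variable (T Ct Cz Use) in
/-- The load when leaves decline the triangle units of charged tails. -/
noncomputable def load7 (y : V) : ℕ := (T.t7 Ct Use y).card + (T.WZ Cz Use y).card +
  (T.p7 Ct Use y).card + (T.K6 (EX T Ct Cz) Use y).card

theorem load_UT (o : Sub Use (O0 T)) (hv : v ∈ T.R) :
    T.load6 Ct Cz (T.UT Ct Use) v ≤ T.load7 Ct Cz Use v := by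
  have a : (T.tE Ct (T.UT Ct Use) v).card ≤ (T.t7 Ct Use v).card := card_le_card fun e p => by
    obtain ⟨⟨p1, p2, p3⟩, p4⟩ := mem_tE.1 p
    exact mem_t7.2 ⟨p1, p2, p4, or_iff_not_imp_right.2 fun q =>
      ((hasQ_UT o hv (T.mem_NT.1 p1).1 (not_not.1 q)).resolve_left p3).1⟩
  have b : (T.pE (T.UT Ct Use) v).card ≤ (T.p7 Ct Use v).card := card_le_card fun w p => by
    obtain ⟨p1, p2, u, p3, p4, p5, p6⟩ := mem_pE.1 p
    exact mem_p7.2 ⟨mem_pE.2 ⟨p1, p2.1, u, p3, p4, fun q => p5 ((hasI_UT p1).2 q), p6⟩, p2.2.2⟩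
  rw [load6, load7, K6_UT o, WZ, WZ, WQ_UT o]
  omega

variable (T Ex Use) in
/-- Unused supply after the tokens are given away. -/
noncomputable def sp7 (v : V) : ℕ := T.sp6 Ex Use v - (T.TK4 Use v).card

end Tr

namespace IsB

variable {T : Tr G D} {Ex Ct Cz Ok Use : V → V → Prop}

open Tr

theorem sum_Tok (h : IsB T) (hc : T.C6 Ex Ok Use) :
    ∑ v ∈ T.R, ((if T.Tok Use v then 1 else 0) + T.sp7 Ex Use v) ≤
      ∑ v ∈ T.R, (T.sp6 Ex Use v + (T.ptC v).card) := by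
  have a : ∑ v ∈ T.R, (if T.Tok Use v then 1 else 0) =
      ∑ v ∈ T.R, ∑ u ∈ T.ch v, if T.Tok Use u then 1 else 0 := by
    rw [T.sum_sum_ch]
    exact sum_congr rfl fun v _ => by by_cases e : v = T.r <;> simp [e, Tok]
  rw [sum_add_distrib, a, ← sum_add_distrib]
  refine sum_le_sum fun v hv => ?_
  have b := (h.tk_idle (Use := Use) hv).trans (idle_sp6 hc hv)
  have c : (∑ u ∈ T.ch v, if T.Tok Use u then 1 else 0) ≤ (T.TK4 Use v ∪ T.ptC v).card := by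
    rw [← card_filter]
    exact card_le_card fun u p => by
      obtain ⟨p1, -, p2, p3⟩ := mem_filter.1 p
      rw [(T.mem_ch.1 p1).2.2] at p2 p3
      exact mem_union.2 (p3.imp (fun q => mem_TK4.2 ⟨p1, p2, q⟩) fun q => mem_ptC.2 ⟨p1, p2, q⟩)
  have d := card_union_le (T.TK4 Use v) (T.ptC v)
  rw [sp7]
  omega

/-- The account with tokens given to the children. -/
theorem final7 (h : IsB T) (hD : 5 ≤ D) (hc : T.C6 (EX T Ct Cz) Ok Use) :
    ∑ v ∈ T.R, (D - 5 + (if v ≠ T.r ∧ T.ch v = ∅ then 2 else 0) + (if T.Bd v = ∅ then 1 else 0) +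
      2 * (T.CX v).card + (if T.Tok Use v then 1 else 0) + T.sp7 (EX T Ct Cz) Use v + T.free v) +
      4 ≤ ∑ v ∈ T.R, (T.load6 Ct Cz Use v + (T.Dr v).card + (T.ptQ v).card) := by
  have a := h.final6 hD hc
  have b := h.sum_Tok hc
  simp only [card_ptQ, sum_add_distrib] at a b ⊢
  omega

/-- The same when leaves decline the triangle units of charged tails. -/
theorem final8 (h : IsB T) (hD : 5 ≤ D) (o : Sub Use (O0 T)) (hc : T.C6 (EX T Ct Cz) Ok Use) :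
    ∑ v ∈ T.R, (D - 5 + (if v ≠ T.r ∧ T.ch v = ∅ then 2 else 0) + (if T.Bd v = ∅ then 1 else 0) +
      2 * (T.CX v).card + (if T.Tok Use v then 1 else 0) + T.sp7 (EX T Ct Cz) Use v + T.free v) +
      4 ≤ ∑ v ∈ T.R, (T.load7 Ct Cz Use v + (T.Dr v).card + (T.ptQ v).card) := by
  have a := h.final6 hD (c6_UT o hc)
  have b := h.sum_Tok hc
  have c := sum_le_sum fun v (hv : v ∈ T.R) => load_UT (Ct := Ct) (Cz := Cz) o hv
  have d := sum_congr rfl fun v (hv : v ∈ T.R) => sp6_UT (Ct := Ct) (Cz := Cz) o hv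
  simp only [card_ptQ, sum_add_distrib] at a b ⊢
  omega

end IsB

end Pool.Agent.Lib.MP_12eaff_co.Acc2
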