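import Pool.Agent.Lib.MP_12eaff_co.Acc2.Cnt7
import Pool.Agent.Lib.MP_12eaff_co.Acc2.Lfp

set_option autoImplicit false
set_option linter.unusedSectionVars false

namespace Pool.Agent.Lib.MP_12eaff_co.Acc2

open Finset Pool.Agent.Lib.MP_12eaff_co.BK
open scoped Classical

variable {V : Type} [Fintype V] {G : SimpleGraph V} {D : ℕ}

/-- Gifts from children to parents: `φ v` is what `v` hands to its parent. -/
theorem Tr.gift (T : Tr G D) (cost cap φ : V → ℕ)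
    (h : ∀ v ∈ T.R, cost v + φ v ≤ cap v + ∑ y ∈ T.ch v, φ y) :
    ∑ v ∈ T.R, cost v + φ T.r ≤ ∑ v ∈ T.R, cap v := by
  have a := sum_le_sum h
  have b : ∑ v ∈ T.R, φ v = ∑ v ∈ T.R, ((if v = T.r then 0 else φ v) + if v = T.r then φ v else 0) :=
    sum_congr rfl fun v _ => by split_ifs <;> simp
  rw [sum_add_distrib, sum_ite_eq', if_pos T.r_mem, ← T.sum_sum_ch] at b
  simp only [sum_add_distrib] at a
  omega

/-- Every vertex is paid by the surplus of its children; the vertices of `S` need nothing and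
hand the surplus of their children up. -/
theorem Tr.gift2 (T : Tr G D) (cost cap : V → ℕ) (S : V → Prop)
    (h1 : ∀ v ∈ T.R, S v → cost v ≤ cap v)
    (h2 : ∀ v ∈ T.R, ¬ S v → cost v ≤ cap v + ∑ y ∈ T.ch v,
      (cap y - cost y + if S y then ∑ z ∈ T.ch y, (cap z - cost z) else 0)) :
    ∑ v ∈ T.R, cost v ≤ ∑ v ∈ T.R, cap v := by
  refine le_of_add_le_left (T.gift cost cap (fun y => cap y - cost y +
    if S y then ∑ z ∈ T.ch y, (cap z - cost z) else 0) fun v hv => ?_)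
  by_cases s : S v
  · have := h1 v hv s
    have : ∑ z ∈ T.ch v, (cap z - cost z) ≤ ∑ y ∈ T.ch v,
        (cap y - cost y + if S y then ∑ z ∈ T.ch y, (cap z - cost z) else 0) :=
      sum_le_sum fun _ _ => Nat.le_add_right _ _
    simp only [if_pos s]
    omega
  · have := h2 v hv s
    simp only [if_neg s]
    omega

/-- Pools: the vertices with the same key share their account. -/
theorem pools {ι : Type} (R : Finset V) (cost cap : V → ℕ) (key : V → ι)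
    (h : ∀ v ∈ R, ∑ y ∈ R.filter (key · = key v), cost y ≤ ∑ y ∈ R.filter (key · = key v), cap y) :
    ∑ v ∈ R, cost v ≤ ∑ v ∈ R, cap v := by
  rw [← sum_fiberwise_of_maps_to (fun v => mem_image_of_mem key) cost,
    ← sum_fiberwise_of_maps_to (fun v => mem_image_of_mem key) cap]
  refine sum_le_sum fun i p => ?_
  obtain ⟨v, hv, rfl⟩ := mem_image.1 p
  exact h v hv

namespace IsB

variable {T : Tr G D} {Ex Ok : V → V → Prop} {u v w x e y z : V}

open Tr IsA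

theorem okT_O0 : OkT T Ex (O0 T) v := fun _ => .inl

/-- T1: when `t(u)` is explained in `SM` and has no ticket. -/
theorem t8 (h : IsB T) (hu : u ∈ T.R) (b : Base T Ex u) (o : OkT T Ex Ok u) (e1 : e ∈ T.NT u)
    (ht : T.PayT u e) (nq : ¬ T.HasQ (T.U6 Ex Ok) u e) (cm : CM T u e) : T.PayT (T.p u) u ∨
    (∃ z, SM T u z ∧ ¬ T.Anc (T.p u) z ∧ T.Tight z (T.p u) ∧
      ∃ x, T.PayP (T.Vis (T.p u) z) x (T.p u) u) ∨
    (∃ z, T.MinE (SM T u) u e z ∧ G.Adj z (T.p u) ∧ ¬ T.Anc (T.p u) z ∧ Uq G (T.col z) u (T.p u) ∧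
      u ∈ T.H e ∧ (T.Anc e z ∧ e ≠ z ∨ T.Anc e u)) ∨
    (∃ z m x, Ev T u z ∧ ¬ T.Anc (T.p u) z ∧ Uq G (T.col z) u (T.p u) ∧ T.Opn (T.p u) u z m x ∧
      T.Anc x e ∧ x ≠ e ∧ T.Anc e z) ∨
    (T.CaseA u e ∧ u ∈ T.H e ∧ ∃ z ∈ T.ch e, z ∈ T.NT u ∧ u ∈ T.O z) ∨
    Ev T u e ∧ (T.PayZ u e ∨ T.CaseA u e) ∨ u ∈ T.ptC (T.p u) ∨
    T.ch e = ∅ ∧ T.PayP (SM T u) e u e ∧ ¬ T.U6 Ex Ok e u := by
  obtain ⟨eo, ec⟩ := T.mem_NT.1 e1
  obtain ⟨ur, po⟩ := ht.1
  have hS := h.isSig2_SM hu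
  obtain ⟨z, hz⟩ := exists_minE ((expl_iff hS.mem hu eo).1 cm)
  have ⟨z1, z2, mn⟩ := hz
  have sp := sm_sp hu z1
  have dz := sm_d hu z1
  have hq := T.p_mem u hu ur
  have pc : u ∈ T.ch (T.p u) := T.mem_ch.2 ⟨hu, ur, rfl⟩
  have dq := d_chO pc po
  have qr := t_nr hu eo ht
  obtain ⟨eR, de⟩ := O_mem hu eo
  have er := T.real e eR
  have l := T.lt u hu e eo
  have ev : u ∈ T.O e → Ev T u e := fun p => ⟨hu, ur, e1, p, h.t_nadj2 hu eo ht p⟩
  have hid : (u ∈ T.O e → T.d e < T.d z) → u ∈ T.H e := fun k => by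
    rcases adj_cases eR hu (T.O_adj u hu e eo).symm with p | p | p
    · have := mn e (sm_self hu e1 p) (k p)
      rw [col_self eR] at this
      omega
    exacts [p, absurd p ec]
  have mu : T.d z = T.d u + 1 → z ∈ T.NT u := fun d => by
    obtain ⟨y, y1, -, y2, -⟩ := z1
    have := (O_mem hu (T.mem_NT.1 y1).1).2
    exact y2.eq_of_d (by omega) ▸ y1
  rcases step2 hS hu eo hz with ⟨x, p⟩ | ⟨p, ez⟩ | ⟨-, ⟨p, ez⟩ | ⟨n, uq⟩⟩ | p
  rotate_right
  · exact absurd (p.pt hS.mem).hasQ nq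
  · have n : ¬ T.U6 Ex Ok x u := fun k => nq (p.pr.hasQ k)
    obtain ⟨rfl, k, -⟩ := (h.good7 hu b o eo p).resolve_left n
    exact .inr (.inr (.inr (.inr (.inr (.inr (.inr ⟨k, p, n⟩))))))
  · have pe := anc_p eR p.1
    have g : T.Anc (T.p u) (T.p e) := by
      by_contra g
      exact O_ne_p hu eo (p.2.2.2.1 _ (h.adj_par hu ur po).symm
        (by rw [col_base pe.mem.1 (T.real _ hq) g, ← ht.2, p.2.2.1])).symm
    have := g.lt fun g => c_ch_ne (T.mem_ch.2 ⟨eR, p.1, g.symm⟩) qr (by rw [← ht.2, p.2.2.1])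
    have := T.d_p e eR p.1
    obtain rfl := ez.eq_of_d (by omega)
    exact .inr (.inr (.inr (.inr (.inr (.inl ⟨ev sp.2.1, .inl p⟩)))))
  · by_cases g : e = z
    · exact .inr (.inr (.inr (.inr (.inr (.inl ⟨ev (g ▸ sp.2.1), .inr p⟩)))))
    have := ez.lt g
    have := (O_mem (T.p_mem e eR p.2.1) p.2.2.1).2
    have ce : e ∈ T.ch (T.p e) := T.mem_ch.2 ⟨eR, p.2.1, rfl⟩
    have := d_ch ce
    exact .inr (.inr (.inr (.inr (.inl ⟨p, hid fun _ => by omega, z, ez.ch_of_d g (by omega),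
      mu (by omega), sp.2.1⟩))))
  by_cases a : G.Adj z (T.p u)
  · have pos : T.Anc e z ∨ T.Anc e u := by
      by_contra g
      push Not at g
      exact z2 (by rw [col_base sp.1 er g.1, col_base hu er g.2])
    have hh := hid fun p => pos.elim (fun g => g.lt fun r => (ev p).nq (r ▸ a.symm)) fun g =>
      absurd (T.mem_ch.1 (g.ch_of_d (T.O_adj u hu e eo).ne.symm (O_mem eR p).2)).2.2.symm
        (O_ne_p hu eo)
    exact .inr (.inr (.inl ⟨z, hz, a, n, uq, hh, pos.imp_left fun g =>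
      ⟨g, fun r => (T.mem_H.1 hh).2.2.1 (r ▸ sp.2.1)⟩⟩))
  by_cases tq : T.PayT (T.p u) u
  · exact .inl tq
  obtain ⟨tt, m, m1, m2, m3⟩ := h.visit hu ur po sp a n uq
  have cu := col_p_self hu ur
  rcases high hq po sp.1 n m1 m2 (fun k => absurd k tq) (m3.trans cu.symm) with k | ⟨g, x, o'⟩ | k
  · exact .inr (.inl ⟨z, z1, n, tt, k⟩)
  swap
  · exact .inr (.inr (.inr (.inr (.inr (.inr (.inl (mem_ptC.2 ⟨pc, po, k.vis_pt⟩)))))))
  have ⟨o1, o2, o3, o4, o5, o6, o7⟩ := o'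
  obtain ⟨b1, b2, b3, b4⟩ := h.opn_tight hq po cu sp.2.2 tq o'
  have gz := (anc_ch o1).trans o2
  have gR := gz.mem.1
  have ng : ¬ T.Anc u g := fun k => sp.2.2 (k.trans gz)
  have := d_ch o1
  have := (O_mem gR o5).2
  have xz := o2.lt fun r => T.prop T.r T.r_mem u z (T.O_adj z sp.1 u sp.2.1).symm
    (by rw [T.col_r, ← r, o4, cu])
  obtain ⟨k, k1, k2, k3⟩ := b4 _ l (by rw [b3, ← col_par hu ur]; exact T.ne_p u hu e eo)
  by_cases ke : k = e
  · subst ke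
    have pth : T.Anc g k ∧ T.Anc k z := by
      by_contra r
      exact z2 (by rw [col_diff gz er r, k3])
    have xk := Anc.under o1 o2 pth.1 pth.2 fun r => b1 (r ▸ k1)
    have ne : x ≠ k := fun r => b2 (r ▸ k1)
    have := xk.lt ne
    have zo : z ∈ T.NT u := by
      by_cases r : k = z
      · exact r ▸ e1
      · have := pth.2.lt r
        exact mu (by omega)
    exact .inr (.inr (.inr (.inl ⟨z, g, x, ⟨hu, ur, zo, sp.2.1, fun r => a r.symm⟩, n, uq, o', xk,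
      ne, pth.2⟩)))
  exfalso
  rcases high hu eo gR ng k1 ke (fun _ => k2) k3 with ⟨y, r⟩ | ⟨b, y, r1, r2, -, -, r3, -⟩ | r
  · have i := ne_empty_of_mem o1
    rcases h.chainY7 (Ex := Ex) (okT_in o) hu ng (fun κ p q => let ⟨m, s, _, t⟩ := b4 κ p q
      ⟨m, s, t⟩) r (okT_in o y (r.inner i)) with s | s | ⟨e', s, -⟩
    exacts [nq (r.pr.hasQ s), i s.1.1, (xx_low s hu gR).elim
      (fun t => s.2.2.1 (O_inj hu (T.mem_NT.1 s.1).1 eo (t.1.2.trans ht.2.symm) ▸ b e cm (.inl ht)))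
      fun t => by have := t.1.le; omega]
  · have := d_ch r1
    have := r2.le
    have := (O_mem (anc_ch r1).mem.1 r3).2
    omega
  · exact nq r.vis_pt.hasQ

end IsB

end Pool.Agent.Lib.MP_12eaff_co.Acc2
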