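import Pool.Agent.Lib.MP_12eaff_co.Acc2.A

set_option autoImplicit false
set_option linter.unusedSectionVars false

namespace Pool.Agent.Lib.MP_12eaff_co.Acc2

open Finset Pool.Agent.Lib.MP_12eaff_co.BK
open scoped Classical

variable {V : Type} [Fintype V] {G : SimpleGraph V} {D : ℕ}

namespace Tr

variable (T : Tr G D) (S Use : V → V → Prop)

/-- Used pairs with head `x`. -/
noncomputable def pi (x : V) : Finset V :=
  (T.H (T.p x)).filter (fun v => (x, v) ∈ T.UP S Use (T.p x))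

theorem mem_pi {x v : V} : v ∈ T.pi S Use x ↔ (x, v) ∈ T.UP S Use (T.p x) := by
  simp only [pi, mem_filter]
  exact ⟨fun h => h.2, fun h => ⟨((T.mem_UP S Use).1 h).2.1, h⟩⟩

theorem card_UP (w : V) : (T.UP S Use w).card = ∑ x ∈ T.ch w, (T.pi S Use x).card := by
  rw [card_eq_sum_card_fiberwise (f := Prod.fst) (t := T.ch w)
    (fun q hq => ((T.mem_UP S Use).1 (show (q.1, q.2) ∈ _ from hq)).1)]
  refine sum_congr rfl (fun x hx => ?_)
  have hp := (T.mem_ch.1 hx).2.2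
  refine card_bij (fun q _ => q.2) ?_ ?_ ?_
  · rintro ⟨a, b⟩ hq
    obtain ⟨h1, h2⟩ := mem_filter.1 hq
    simp only at h2
    subst h2
    rw [T.mem_pi, hp]; exact h1
  · rintro ⟨a, b⟩ ha ⟨a', b'⟩ hb e
    have h1 := (mem_filter.1 ha).2
    have h2 := (mem_filter.1 hb).2
    simp only at h1 h2 e
    rw [h1, h2, e]
  · intro v hv
    rw [T.mem_pi, hp] at hv
    exact ⟨(x, v), mem_filter.2 ⟨hv, rfl⟩, rfl⟩

/-- Sums over children are sums over non-root vertices. -/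
theorem sum_sum_ch (g : V → ℕ) :
    ∑ w ∈ T.R, ∑ x ∈ T.ch w, g x = ∑ x ∈ T.R, if x = T.r then 0 else g x := by
  have h2 : ∀ w, (T.R.erase T.r).filter (fun x => T.p x = w) = T.ch w := by
    intro w; ext x; simp [ch]; tauto
  rw [← add_sum_erase _ (fun x => if x = T.r then 0 else g x) T.r_mem, if_pos rfl, zero_add,
    sum_congr rfl (fun x hx => if_neg (ne_of_mem_erase hx)),
    ← sum_fiberwise_of_maps_to (g := T.p) (t := T.R)
      (fun x hx => T.p_mem x (mem_of_mem_erase hx) (ne_of_mem_erase hx))]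
  simp only [h2]

/-- Cost of a vertex; `ν` of an internal vertex `w` is passed to its child `al w`. -/
noncomputable def cost (al : V → V) (y : V) : ℕ :=
  (T.tS S Use y).card + (T.W0 S Use y).card + (T.VE S Use y).card +
    (if T.ch y = ∅ then (T.nuS S y).card else 0) +
    (if y = T.r then 0 else (T.pi S Use y).card +
      (if al (T.p y) = y then (T.nuS S (T.p y)).card else 0))

theorem sum_cost (al : V → V) (hal : ∀ w ∈ T.R, T.ch w ≠ ∅ → al w ∈ T.ch w) :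
    ∑ v ∈ T.R, (T.NT v).card ≤ ∑ y ∈ T.R, T.cost S Use al y := by
  have h1 := T.account S Use
  have h2 : ∀ w ∈ T.R, (T.nuS S w).card + (T.UP S Use w).card =
      (if T.ch w = ∅ then (T.nuS S w).card else 0) + ∑ x ∈ T.ch w, ((T.pi S Use x).card +
        (if al (T.p x) = x then (T.nuS S (T.p x)).card else 0)) := by
    intro w hw
    rw [sum_add_distrib, ← T.card_UP]
    split_ifs with e
    · simp [e]
    · rw [sum_congr rfl (g := fun x => if al w = x then (T.nuS S w).card else 0)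
        (fun x hx => by rw [(T.mem_ch.1 hx).2.2]), sum_ite_eq, if_pos (hal w hw e)]
      omega
  have h3 := sum_congr rfl h2
  rw [sum_add_distrib, sum_add_distrib, T.sum_sum_ch] at h3
  simp only [cost, sum_add_distrib] at h1 ⊢
  omega

variable {T}

theorem eq_r_of_d {v : V} (hv : v ∈ T.R) (h : T.d v = 0) : v = T.r := by
  by_contra e
  have := T.d_p v hv e
  omega

theorem NT_r : T.NT T.r = ∅ := by
  refine eq_empty_of_forall_notMem (fun u hu => ?_)
  obtain ⟨h1, h2⟩ := T.mem_NT.1 hu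
  exact nanc_of_O T.r_mem h1 h2 (anc_r (T.clo _ T.r_mem u h1).1)

theorem leaf_anc {x z : V} (hx : T.ch x = ∅) (h : T.Anc x z) : x = z := by
  by_contra e
  obtain ⟨y, hy, _⟩ := h.child e
  simp [hx] at hy

end Tr

namespace IsA

variable {T : Tr G D}

open Tr

/-- Explaining states adjacent to `v`. -/
def S1 (T : Tr G D) (v z : V) : Prop :=
  z ∈ T.R ∧ ¬ T.Anc v z ∧ G.Adj v z ∧ T.Tight z v

theorem isSig_S1 (h : IsA T) (v : V) : T.IsSig v (S1 T v) :=
  ⟨fun _ hz => hz.1, fun _ hz => hz.2.1, fun _ hz => hz.2.2.2,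
    fun m hm hv hn => ⟨hm, hn, (T.O_adj m hm v hv).symm, h.probe_tight hm hv⟩⟩

/-- A tail charged to `ν(w)` is hidden by `w` and not tight there. -/
theorem nu_S1_spec (h : IsA T) {w v : V} (hv : v ∈ T.nuS (S1 T) w) :
    w ∈ T.R ∧ v ∈ T.H w ∧ ¬ T.Tight w v := by
  obtain ⟨h1, h2, h3⟩ := (T.mem_nuS _).1 hv
  obtain ⟨h4, h5⟩ := T.mem_NT.1 h2
  obtain ⟨h6, h7⟩ := unexpl (h.isSig_S1 v) h1 h4 h5 h3
  have hw := (T.clo v h1 w h4).1
  exact ⟨hw, h7, fun h8 => h6 ⟨hw, nanc_of_O h1 h4 h5, T.O_adj v h1 w h4, h8⟩⟩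

theorem nu_S1 (h : IsA T) (w : V) : (T.nuS (S1 T) w).card ≤ 1 := by
  refine card_le_one.2 (fun a ha b hb => ?_)
  by_contra hab
  obtain ⟨hw, a1, a2⟩ := h.nu_S1_spec ha
  obtain ⟨_, b1, b2⟩ := h.nu_S1_spec hb
  exact b2 (h.H_tight hw a1 b1 (T.real a ((T.mem_nuS _).1 ha).1) (T.real b ((T.mem_nuS _).1 hb).1)
    hab a2)

variable {Use : V → V → Prop}

theorem pi_sub {S : V → V → Prop} {x : V} : T.pi S Use x ⊆ T.H (T.p x) := filter_subset _ _

theorem pi_R {S : V → V → Prop} {x v : V} (hv : v ∈ T.pi S Use x) : v ∈ T.R :=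
  ((T.mem_UP S Use).1 ((T.mem_pi S Use).1 hv)).2.2.1

/-- A pair used by a leaf is a triangle pair. -/
theorem pi_leaf (h : IsA T) {S : V → V → Prop} (hS : ∀ v z, S v z → G.Adj v z) {x v : V}
    (hx : T.ch x = ∅) (hv : v ∈ T.pi S Use x) :
    v ∈ T.R ∧ x ∈ T.NT v ∧ S v x ∧ ¬ T.Anc x v := by
  obtain ⟨h1, h2, h3, _, u, hu, _, _, _, h4, z, hz, _, h5⟩ :=
    (T.mem_UP S Use).1 ((T.mem_pi S Use).1 hv)
  rcases h5 with ⟨h5, _⟩ | ⟨h5, h6⟩
  · have e := leaf_anc hx h5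
    subst e
    exact absurd (ch_O h1 (.inl (T.mem_H.1 h2).1)) (T.mem_H.1 h2).2.2.1
  · have e := leaf_anc hx h6
    subst e
    have : x = u := by
      by_contra e
      rw [tc, if_neg h5, ← col_base h3 (T.real x (anc_ch h1).mem.2) h5] at h4
      exact h.uq_O h3 (T.mem_NT.1 hu).1 x (hS v x hz) e h4
    exact ⟨h3, this ▸ hu, hz, h5⟩

/-- Two common real neighbours hidden by the parent are hidden by the child. -/
theorem H_ch (h : IsA T) {x a b : V} (hx : x ∈ T.R) (hr : x ≠ T.r) (ha : a ∈ T.H (T.p x))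
    (hb : b ∈ T.H (T.p x)) (ad : a ∉ T.Dm) (bd : b ∉ T.Dm) (hab : a ≠ b) (h1 : G.Adj x a)
    (h2 : G.Adj x b) : T.Bd x = {a, b} := by
  have hq := T.p_mem x hx hr
  have e : T.col x a = T.col x b := by
    rw [col_step hx hr ad h1.ne.symm (T.mem_H.1 ha).1.ne.symm,
      col_step hx hr bd h2.ne.symm (T.mem_H.1 hb).1.ne.symm]
    exact h.H_col hq ha hb ad bd
  have a1 : a ∈ T.Bd x := (IsB.mem_Bd' hx ad).2 ⟨h1, fun hc => hc b h2 hab.symm e.symm⟩
  have b1 : b ∈ T.Bd x := (IsB.mem_Bd' hx bd).2 ⟨h2, fun hc => hc a h1 hab e⟩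
  refine (eq_of_subset_of_card_le (fun y hy => ?_) ?_).symm
  · rcases mem_insert.1 hy with rfl | hy
    · exact a1
    · exact mem_singleton.1 hy ▸ b1
  · rw [card_pair hab]; exact h.card_Bd hx

/-- Leaf bound. -/
theorem leaf_bound (h : IsA T) {x : V} (hx : x ∈ T.R) (hr : x ≠ T.r) (hl : T.ch x = ∅) :
    (T.pi (S1 T) Use x).card + (T.nuS (S1 T) x).card ≤ 2 := by
  have h1 := h.nu_S1 x
  have h2 : (T.pi (S1 T) Use x).card ≤ 2 :=
    h.card_H (T.p_mem x hx hr) pi_sub fun m k => T.real m (pi_R k)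
  by_contra hc
  obtain ⟨a, ha, b, hb, hab⟩ := one_lt_card.1 (show 1 < (T.pi (S1 T) Use x).card by omega)
  obtain ⟨v, hv⟩ := card_pos.1 (show 0 < (T.nuS (S1 T) x).card by omega)
  have a1 := (h.pi_leaf (fun _ _ hz => hz.2.2.1) hl ha).2.2.1
  have b1 := (h.pi_leaf (fun _ _ hz => hz.2.2.1) hl hb).2.2.1
  obtain ⟨_, v1, v2⟩ := h.nu_S1_spec hv
  rw [h.H_Bd hx (T.real v ((T.mem_nuS _).1 hv).1), h.H_ch hx hr (pi_sub ha) (pi_sub hb)
    (T.real a (pi_R ha)) (T.real b (pi_R hb)) hab a1.2.2.1.symm b1.2.2.1.symm] at v1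
  rcases mem_insert.1 v1 with rfl | v1
  · exact v2 a1.2.2.2
  · exact v2 (mem_singleton.1 v1 ▸ b1.2.2.2)

/-- Column bound. -/
theorem pi_nu (h : IsA T) {S : V → V → Prop}
    (hS : ∀ v ∈ T.R, T.IsSig v (S v)) {x : V} (hx : x ∈ T.R) (hr : x ≠ T.r) :
    (T.pi S Use x).card + (T.nuS S (T.p x)).card ≤ 2 := by
  rw [← card_union_of_disjoint]
  · exact h.card_H (T.p_mem x hx hr) (union_subset pi_sub (nuS_sub hS)) fun m k =>
      T.real m ((mem_union.1 k).elim pi_R fun k => ((T.mem_nuS _).1 k).1)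
  · refine disjoint_left.2 (fun v hv => ?_)
    obtain ⟨h1, _, _, _, u, _, h2⟩ := (T.mem_UP S Use).1 ((T.mem_pi S Use).1 hv)
    exact nu_col h1 h2

end IsA

end Pool.Agent.Lib.MP_12eaff_co.Acc2
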