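import Pool.Agent.Lib.MP_12eaff_co.Acc2.Hand2

set_option autoImplicit false
set_option linter.unusedSectionVars false

namespace Pool.Agent.Lib.MP_12eaff_co.Acc2

open Finset Pool.Agent.Lib.MP_12eaff_co.BK
open scoped Classical

variable {V : Type} [Fintype V] {G : SimpleGraph V} {D : ℕ}

/-- The chain of `v` in `s(y)` ends at the uncharged `e = t(v)`, which hides `v` and has moved. -/
def TX (T : Tr G D) (Ct Ok : V → V → Prop) (v y e : V) : Prop :=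
  e ∈ T.NT v ∧ T.PayT v e ∧ ¬ Ct v e ∧ T.Col Ok v e ∧ T.col y e ≠ T.col v e

/-- The first unit has the leaf head `y`, which declines. -/
def LX1 (T : Tr G D) (Ok : V → V → Prop) (v u y : V) : Prop :=
  Dec T Ok v y ∧ T.c y = T.c u ∧ ∀ m, G.Adj v m → T.col y m = T.c y → m = T.p y ∨ m = u

namespace IsB

variable {T : Tr G D} {Ct Ok Sb : V → V → Prop} {u v w x e y z r a : V}

open Tr IsA

/-- CHAIN in a tight state for any charging rule. -/
theorem chainX (h : IsB T) (hO : ∀ x, T.ch x ≠ ∅ → Ok x v) (hv : v ∈ T.R)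
    (n : ¬ T.Anc v y) (t : T.Tight y v) (k : T.PayP (T.Vis v y) x v u) (o : Ok x v) :
    T.HasQ (T.UI Ct Ok) v u ∨ LXB T Ok v y ∨ ∃ e, TX T Ct Ok v y e := by
  by_contra! q
  obtain ⟨q1, q2, q3⟩ := q
  have hS := h.isSig2_vis n t
  refine q1 (.inl ⟨x, k.pr, fun a b => b = v ∧ Ok a v ∧ ∃ e, T.PayP (T.Vis v y) a v e, ?_, rfl, o,
    u, k⟩)
  rintro a b ⟨rfl, p, e, q⟩
  refine ⟨p, fun nt => ?_⟩
  have cl : T.Col Ok b (T.p a) := ⟨q.2.2.1, a, T.mem_ch.2 ⟨q.1, q.2.1, rfl⟩, p⟩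
  have mv := q.vis_mv
  have eo := (T.mem_NT.1 nt).1
  by_cases e2 : T.PayT b (T.p a)
  · exact .inl ⟨e2, by_contra fun c => q3 _ ⟨nt, e2, c, cl, mv⟩⟩
  by_cases e3 : T.PayZ b (T.p a)
  · exact .inr (.inl ⟨e3, e2⟩)
  by_cases e4 : T.PT b (T.p a)
  · exact .inr (.inr e4.hasQ)
  obtain ⟨s, hs⟩ := exists_minE ((expl_iff hS.mem hv eo).1 q.expl)
  obtain ⟨x', b1⟩ := (step2 hS hv eo hs).resolve_right fun r => r.elim (fun r => e3 r.1)
    fun r => r.elim (fun r => e2 r.1) fun r => e4 (r.pt hS.mem)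
  by_contra c
  have e5 : ∀ x', T.PayP (T.Vis b y) x' b (T.p a) → ¬ Ok x' b := fun x' k' o' =>
    c (.inr (.inr (.inl ⟨x', k'.pr, rfl, o', _, k'⟩)))
  obtain ⟨rfl, d, c⟩ := dec_of hO b1 (e5 _ b1)
  refine q2 ⟨d, fun m m1 m2 => by_contra fun m3 => ?_, _, nt, cl, c.symm, c ▸ mv, e2, e3, e4⟩
  rcases high_leaf hv eo b1.1 d.2.1 d.1 n m1 (fun z => mv (by rw [← z, m2, c, z]))
    (fun z => absurd z e2) m3 (m2.trans c) with ⟨x, x1, x2⟩ | ⟨g, x, k⟩ | k
  exacts [e5 x x2 (hO x x1), e3 (h.opn_z hv eo k (anc_p b1.1 d.2.1) n mv e2), e4 k]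

theorem mut_col (hu : u ∈ T.R) (hw : w ∈ T.R) (uw : w ∈ T.O u) (wu : u ∈ T.O w) :
    T.col u w = T.c w := col_base hu (T.real w hw) fun k => O_ne_p hu uw
  (T.mem_ch.1 (k.ch_of_d (T.O_adj w hw u wu).ne (T.clo w hw u wu).2)).2.2.symm

/-- No open witness for `u → w` above a state in which `u` is unique at `w`. -/
theorem no_opn (h : IsB T) (hu : u ∈ T.R) (uw : w ∈ T.O u) (wu : u ∈ T.O w)
    (nu : ¬ T.Anc u y) (nw : ¬ T.Anc w y) (o : T.Op2 u w y a x) (uq : Uq G (T.col y) w u) :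
    T.PT w u := by
  obtain ⟨hw, dw⟩ := T.clo u hu w uw
  have aR := o.anc.mem.1
  have c1 := mut_col hw hu wu uw
  have c2 : T.col a u = T.c u := col_base aR (T.real u hu) fun k => nu (k.trans o.anc)
  rcases h.op_slot hu uw (mut_col hu hw uw wu) nw o uq with ⟨m, m1, m2, m3, m4, m5⟩ | k
  swap
  · exact ⟨a, aR, c1 ▸ c2 ▸ k.port hw wu (c1.trans c2.symm)⟩
  have ne : m ≠ u := fun e => nu (e ▸ m3)
  have := o.dep
  have := d_ch o.1
  have := m1.lt m2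
  exact absurd (by rw [col_base hw m3.real fun k => by have := k.lt m4.ne.symm; omega,
    m5.resolve_left ne, c1, c2]) (T.uniq w hw u wu m m4 ne)

/-- DIRECTED HANDSHAKE: if `u` is tight, sees the colour of `w` twice and is unique at `w`, the
ticket goes from `u` to `w`. -/
theorem dir (h : IsB T) (hO : ∀ x, T.ch x ≠ ∅ → Ok x u) (hu : u ∈ T.R) (uw : w ∈ T.O u)
    (wu : u ∈ T.O w) (tu : ¬ T.PayT u w) (hy : y ∈ T.R) (nu : ¬ T.Anc u y) (nw : ¬ T.Anc w y)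
    (t : T.Tight y u) (d : ¬ Uq G (T.col y) u w) (uq : Uq G (T.col y) w u) :
    T.HasQ (T.UI Ct Ok) u w ∨ T.PT w u ∨ LXB T Ok u y ∨ LX1 T Ok u w y ∨
      ∃ e, TX T Ct Ok u y e := by
  have hw := (T.clo u hu w uw).1
  have cl := mut_col hu hw uw wu
  have up : ∀ s a x, T.Anc s y → T.Opn u w s a x → T.PT w u := fun s a x sy o =>
    have o := o.op2 tu
    h.no_opn hu uw wu nu nw ⟨o.1, o.2.1.trans sy, o.2.2⟩ uq
  have fin : ∀ x, T.PayP (T.Vis u y) x u w → Ok x u → T.HasQ (T.UI Ct Ok) u w ∨ T.PT w u ∨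
      LXB T Ok u y ∨ LX1 T Ok u w y ∨ ∃ e, TX T Ct Ok u y e := fun x k o =>
    (h.chainX hO hu nu t k o).imp_right fun k => .inr (k.imp_right .inr)
  simp only [Uq, not_forall, not_not] at d
  obtain ⟨m, m1, m2, m3⟩ := d
  rw [col_base hy (T.real w hw) nw, ← cl] at m3
  rcases high hu uw hy nu m1 m2 (fun e => absurd e tu) m3 with ⟨x, k⟩ | ⟨a, x, o⟩ | k
  · by_cases o : Ok x u
    · exact fin x k o
    obtain ⟨-, a, b⟩ := dec_of hO k o
    by_cases q : ∀ m, G.Adj u m → T.col y m = T.c y → m = T.p y ∨ m = w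
    · exact .inr (.inr (.inr (.inl ⟨a, b.trans cl, q⟩)))
    push Not at q
    obtain ⟨m, q1, q2, q3, q4⟩ := q
    rcases high_leaf hu uw hy a.2.1 a.1 nu q1 q4 (fun e => absurd e tu) q3 (q2.trans b) with
      ⟨x, x1, x2⟩ | ⟨g, x, k⟩ | k
    exacts [fin x x2 (hO x x1), .inr (.inl (up _ g x (anc_p hy a.2.1) k)), .inl k.hasQ]
  exacts [.inr (.inl (up y a x (.refl y hy) o)), .inl k.vis_pt.hasQ]

/-- After `z → x → r` with `r` off `N(z)`: `r` is tight and sees the colour of `x` again. -/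
theorem ent_tight (h : IsB T) (hz : z ∈ T.R) (pz : x ∈ T.O z) (rd : r ∉ T.Dm) (xr : G.Adj x r)
    (rz : r ≠ z) (n : ¬ G.Adj z r) (u : Uq G (T.col z) x r) :
    T.Tight z r ∧ ¬ Uq G (T.col z) r x := by
  have s := ((h.hcP hz (O_real hz pz) rd xr).two_shift (by simp) (by simp)
    (T.O_adj z hz x pz).ne.symm rz (h.uq_O hz pz) u xr).2
  have s' : ∀ κ < D, κ ≠ T.col z r → ∃ m, G.Adj r m ∧ m ≠ x ∧ T.col z m = κ := fun κ a b =>
    let ⟨m, m1, m2, m3⟩ := s κ a b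
    ⟨m, m1, m2, (m3.resolve_left fun e => n (e.1 ▸ m1.symm)).2⟩
  obtain ⟨m, m1, m2, m3⟩ := s' _ (T.lt z hz x pz) (T.prop z hz _ _ xr)
  exact ⟨fun κ a b => (s' κ a b).imp fun _ e => ⟨e.1, e.2.2⟩, fun k => k m m1 m2 m3⟩

/-- ENTRY, directed: `z` probes `x`, and `r` off `N(z)` is unique at `x`. -/
theorem ent_dir (h : IsB T) (hO : ∀ a, T.ch a ≠ ∅ → Ok a r) (hr : r ∈ T.R) (rx : x ∈ T.O r)
    (xr : r ∈ T.O x) (tr : ¬ T.PayT r x) (hz : z ∈ T.R) (pz : x ∈ T.O z) (nx : ¬ T.Anc x z)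
    (nr : ¬ T.Anc r z) (n : ¬ G.Adj z r) (u : Uq G (T.col z) x r) :
    T.HasQ (T.UI Ct Ok) r x ∨ T.PT x r ∨ LXB T Ok r z ∨ ∃ e, TX T Ct Ok r z e := by
  obtain ⟨t, d⟩ := h.ent_tight hz pz (T.real r hr) (T.O_adj r hr x rx).symm
    (fun e => nr (e ▸ .refl _ (e ▸ hz))) n u
  refine (h.dir hO hr rx xr tr hz nr nx t d u).imp_right fun k => k.imp_right fun k =>
    k.imp_right fun k => k.resolve_left fun k => ?_
  exact absurd (T.col_r ▸ k.2.1) (T.prop T.r T.r_mem _ _ (T.O_adj z hz x pz))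

/-- After `z → y → x → r`: `r` sees the colour of `x` again and is tight, or `z` hides `r`. -/
theorem pair_tight (h : IsB T) (hz : z ∈ T.R) (pz : y ∈ T.O z) (a : G.Adj y x) (hx : x ∈ T.R)
    (hr : r ∈ T.R) (xr : G.Adj x r) (xz : x ≠ z) (nr : ¬ T.Anc r z) (uq : Uq G (T.col z) y x)
    (n : ¬ G.Adj y r) (ry : r ≠ y) (u : Uq G (T.col z) x r) : ¬ Uq G (T.col z) r x ∧
    (T.Tight z r ∨ r ∈ T.H z ∧ x ∉ T.O z ∧ ∀ m, G.Adj r m → T.col z m ≠ T.col z y) := by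
  have zy := T.O_adj z hz y pz
  have rz : r ≠ z := fun e => nr (e ▸ .refl _ (e ▸ hz))
  have hc := h.hcE hz (O_real hz pz) (T.real x hx) (T.real r hr) zy xr
  have s := fun κ => hc.path3 (κ := κ) subset_rfl zy a xr (h.uq_O hz pz) uq u n xz ry
  obtain ⟨m, m1, m2, m3⟩ := (s _ (col_lt hz hx xz) (T.prop z hz _ _ xr)).resolve_right
    fun e => T.prop z hz _ _ a e.1.symm
  refine ⟨fun k => k m m1 m2 m3, or_iff_not_imp_left.2 fun t => ?_⟩
  have t' := t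
  simp only [Tr.Tight, not_forall, not_exists, not_and] at t'
  obtain ⟨κ, k1, k2, k3⟩ := t'
  obtain ⟨rfl, e⟩ := (s κ k1 k2).resolve_left fun ⟨m, m1, _, m3⟩ => k3 m m1 m3
  refine ⟨((adj_cases hz hr e.symm).resolve_left fun o => t (h.probe_tight hz o)).resolve_right
    fun o => nr (anc_ch o), fun o => ?_, k3⟩
  obtain ⟨m, m1, -, m3 | m3⟩ := (hc.two_shift (by simp) (by simp) xz rz (h.uq_O hz o) u xr).2 _ k1 k2
  exacts [T.prop z hz _ _ a m3.2, k3 m m1 m3.2]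

/-- PAIR, directed: the hole runs `z → y → x`, and `r` off `N(y)` is unique at `x`. -/
theorem pair_dir (h : IsB T) (hO : ∀ a, T.ch a ≠ ∅ → Ok a r) (hr : r ∈ T.R) (rx : x ∈ T.O r)
    (xr : r ∈ T.O x) (tr : ¬ T.PayT r x) (hz : z ∈ T.R) (pz : y ∈ T.O z) (a : G.Adj y x)
    (nx : ¬ T.Anc x z) (nr : ¬ T.Anc r z) (uq : Uq G (T.col z) y x) (n : ¬ G.Adj y r)
    (ry : r ≠ y) (u : Uq G (T.col z) x r) :
    T.HasQ (T.UI Ct Ok) r x ∨ T.PT x r ∨ LXB T Ok r z ∨ LX1 T Ok r x z ∨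
      (∃ e, TX T Ct Ok r z e) ∨
      r ∈ T.H z ∧ x ∉ T.O z ∧ ∀ m, G.Adj r m → T.col z m ≠ T.col z y := by
  obtain ⟨d, t | t⟩ := h.pair_tight hz pz a (T.clo r hr x rx).1 hr (T.O_adj r hr x rx).symm
    (fun e => nx (e ▸ .refl _ (e ▸ hz))) nr uq n ry u
  · exact (h.dir hO hr rx xr tr hz nr nx t d u).imp_right fun k => k.imp_right fun k =>
      k.imp_right fun k => k.imp_right .inl
  · exact .inr (.inr (.inr (.inr (.inr t))))

/-- After `z → y` at most one colour is doubled at a unique neighbour `x` of `y`. -/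
theorem pair_one {r' : V} (h : IsB T) (hz : z ∈ T.R) (pz : y ∈ T.O z) (a : G.Adj y x)
    (xd : x ∉ T.Dm) (xz : x ≠ z) (ns : T.NS z x) (uq : Uq G (T.col z) y x) (xr : G.Adj x r)
    (xr' : G.Adj x r') (k : G.Adj r r') (l : T.col z r < D) (l' : T.col z r' < D)
    (c : T.col z y ≠ T.col z r) (c' : T.col z y ≠ T.col z r') (d : ¬ Uq G (T.col z) x r) :
    Uq G (T.col z) x r' := fun m' n1 n2 n3 => by
  simp only [Uq, not_forall, not_not] at d
  obtain ⟨m, m1, m2, m3⟩ := d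
  have zy := T.O_adj z hz y pz
  have hc := h.hcP hz (O_real hz pz) xd a
  have s := hc.shift (by simp) zy.ne.symm (h.uq_O hz pz)
  have o : ∀ {b}, T.col z b < D → T.col z y ≠ T.col z b →
      shift D (T.col z) z y b = T.col z b := fun {b} p q =>
    shift_o (fun e => q (by rw [e])) fun e => by rw [e, col_self hz] at p; omega
  have t := (hc.two_shift (by simp) (by simp) zy.ne.symm xz (h.uq_O hz pz) uq a).2
  have lx := hc.lt x (by simp) xz
  have cx := o lx (T.prop z hz _ _ a)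
  have sw : ∀ κ < D, κ ≠ shift D (T.col z) z y x →
      ∃ m, G.Adj x m ∧ shift D (T.col z) z y m = κ := fun κ p q => by
    obtain ⟨b, b1, b2, b3 | b3⟩ := t κ p (cx ▸ q)
    exacts [⟨b, b1, by rw [b3.1, b3.2, shift_l zy.ne]⟩, ⟨b, b1, by rw [shift_o b2 b3.1, b3.2]⟩]
  rcases s.dbl_nb (h.dg xd ns _) a.symm sw xr m1 xr' n1 (Ne.symm m2) (Ne.symm n2)
    (by rw [o l c, o (m3 ▸ l) (m3 ▸ c), m3]) (by rw [o l' c', o (n3 ▸ l') (n3 ▸ c'), n3])
    (by rwa [o l c]) (by rwa [o l' c']) with e | e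
  exacts [k.ne e.symm, T.prop z hz _ _ k (by rw [e, m3])]

/-- A low `t` has its base colour at the tail and lies on the path of the state. -/
theorem tx_low (k : TX T Ct Ok v y e) (hv : v ∈ T.R) (hy : y ∈ T.R) (d : T.d v ≤ T.d e) :
    T.Anc e y ∧ T.c e = T.c (T.p v) ∧ T.d e ≤ T.d v + 1 := by
  obtain ⟨k1, k2, -, k3, k4⟩ := k
  have eo := (T.mem_NT.1 k1).1
  have c := col_base hv (O_real hv eo) fun p => (T.O_adj v hv e eo).ne (p.eq_of_d d).symm
  exact ⟨by_contra fun p => k4 (by rw [col_base hy (O_real hv eo) p, c]), c ▸ k2.2,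
    (T.clo v hv e eo).2⟩

/-- In one state at most one member of a clique of siblings is blocked by a low `t`. -/
theorem low_one {v' e' : V} (h : IsB T) (hv : v ∈ T.R) (hv' : v' ∈ T.R) (hy : y ∈ T.R)
    (a : G.Adj v v') (c : T.c (T.p v) = T.c (T.p v')) (dv : T.d v = T.d v')
    (k : TX T Ct Ok v y e) (k' : TX T Ct Ok v' y e') (d : T.d v ≤ T.d e)
    (d' : T.d v' ≤ T.d e') : e = e' ∧ (v ∈ T.Dr e ∨ v' ∈ T.Dr e) := by
  obtain ⟨p1, p2, p3⟩ := tx_low k hv hy d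
  obtain ⟨q1, q2, q3⟩ := tx_low k' hv' hy d'
  have key : ∀ {a b}, T.Anc a y → T.Anc b y → T.c a = T.c b → T.d a ≤ T.d b →
      T.d b ≤ T.d a + 1 → T.c a < D → a = b := fun {a b} p q r s t l => by_contra fun n =>
    c_ch_ne ((p.comp q s).ch_of_d n t) (fun z => by rw [z, T.c_r] at l; omega) r.symm
  have er : ∀ {v e}, v ∈ T.R → TX T Ct Ok v y e → T.d v ≤ T.d e → T.c e < D :=
    fun {v e} hv k d => c_lt (T.clo v hv e (T.mem_NT.1 k.1).1).1 fun z => by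
      have := T.d_p v hv k.2.1.1.1
      rw [z, T.d_r] at d
      omega
  obtain rfl : e = e' := by
    rcases le_total (T.d e) (T.d e') with s | s
    exacts [key p1 q1 (by rw [p2, q2, c]) s (by omega) (er hv k d),
      (key q1 p1 (by rw [p2, q2, c]) s (by omega) (er hv' k' d')).symm]
  refine ⟨rfl, by_contra fun n => ?_⟩
  push Not at n
  exact h.Bd_nadj p1.mem.1 (((h.mem_H2 p1.mem.1).1 k.2.2.2.1.1).resolve_right n.1)
    (((h.mem_H2 p1.mem.1).1 k'.2.2.2.1.1).resolve_right n.2) a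

/-- One vertex hides at most one member of a clique. -/
theorem hid_one {v' : V} (h : IsB T) (he : e ∈ T.R) (a : G.Adj v v') (k : v ∈ T.H e)
    (k' : v' ∈ T.H e) : v ∈ T.Dr e ∨ v' ∈ T.Dr e := by_contra fun n => by
  push Not at n
  exact h.Bd_nadj he (((h.mem_H2 he).1 k).resolve_right n.1)
    (((h.mem_H2 he).1 k').resolve_right n.2) a

end IsB

end Pool.Agent.Lib.MP_12eaff_co.Acc2
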