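import Pool.Agent.Lib.MP_12eaff_co.Acc2.Dir

set_option autoImplicit false
set_option linter.unusedSectionVars false

namespace Pool.Agent.Lib.MP_12eaff_co.Acc2

open Finset Pool.Agent.Lib.MP_12eaff_co.BK
open scoped Classical

variable {V : Type} [Fintype V] {G : SimpleGraph V} {D : ℕ}

namespace IsB

variable {T : Tr G D} {w x y z r : V} {S : Finset V}

open Tr IsA

/-- ENTRY at a state `z` whose parent alone shows `c z` to `r`: all tails of `z` are adjacent
to `r`. -/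
theorem lx_ent (h : IsB T) (hz : z ∈ T.R) (pz : x ∈ T.O z) (rd : r ∉ T.Dm) (xr : G.Adj x r)
    (rz : r ≠ z) (n : ¬ G.Adj z r) (u : Uq G (T.col z) x r) (qr : G.Adj (T.p z) r)
    (only : ∀ m, G.Adj r m → T.col z m = T.c z → m = T.p z) (hw : w ∈ W T z) :
    G.Adj r w ∨ T.PW z z w := by
  refine or_iff_not_imp_right.2 fun np => by_contra fun a => ?_
  obtain ⟨u1, u2⟩ := h.own_swap hz hw np
  obtain ⟨zw, zr, b, -⟩ := mem_W.1 hw
  have zx := T.O_adj z hz x pz
  have qR := T.p_mem z hz zr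
  have qw := T.O_adj _ qR w b
  have qz := h.adj_par hz zr (W_par hw)
  have xq := O_ne_p hz pz
  have xw : x ≠ w := fun e => a (e ▸ xr.symm)
  have rw' : r ≠ w := fun e => n (e ▸ zw)
  have c := (h.hc hz (S := {z, T.p z, w} ∪ {x, r}) (by simp) (by
      simp [T.real z hz, T.real _ qR, W_real hz hw, O_real hz pz, rd])
    ((Cov.clq (fun a p b q e => by
      have := qz.symm
      have := qw.symm
      have := zw.symm
      simp only [mem_insert, mem_singleton] at p q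
      grind)).union (Cov.pair xr))).swap' (by simp) (by simp) qz.ne zw.ne.symm u2 u1
  have cq := T.prop z hz _ _ qr
  obtain ⟨m, m1, -, m3 | m3⟩ := (c.two_shift (by simp) (by simp) zx.ne.symm rz
    (uq_swap (fun m a b _ _ => h.uq_O hz pz m a b) xq xw (fun _ => h.uq_O hz pz w zw xw.symm)
      fun _ => h.uq_O hz pz _ qz.symm xq.symm)
    (uq_swap (fun m a b _ _ => u m a b) qr.ne.symm rw' (fun _ => (u2 r qr rw').symm) fun _ => cq)
    xr).2 (T.col z (T.p z)) (col_lt hz qR qz.ne) (by rw [sw_o qr.ne.symm rw']; exact cq)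
  · exact n (m3.1 ▸ m1.symm)
  rcases sw_see m1 m3.2 with k | k | k
  exacts [T.prop z hz _ _ qw k.2.symm, a k.1,
    k.1 (only m m1 (k.2.2.trans (col_par hz zr)))]

/-- PAIR at a state `z` whose parent alone (or `x`) shows `c z` to `r`; the frame is given. -/
theorem lx_pair (h : IsB T) (hz : z ∈ T.R) (hc : HC G D (T.fm z S) z (T.col z))
    (hS : {z, y, x, r} ⊆ S) (sq : T.p z ∈ S) (sw : w ∈ S) (pz : y ∈ T.O z) (a : G.Adj y x)
    (xr : G.Adj x r) (xz : x ≠ z) (xq : x ≠ T.p z) (uq : Uq G (T.col z) y x) (n : ¬ G.Adj y r)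
    (ry : r ≠ y) (u : Uq G (T.col z) x r) (nz : ¬ G.Adj r z) (qr : G.Adj (T.p z) r)
    (only : ∀ m, G.Adj r m → T.col z m = T.c z → m = T.p z ∨ m = x) (hw : w ∈ W T z) :
    G.Adj r w ∨ w = y ∨ G.Adj y w ∧ T.c z = T.col z x ∨
      G.Adj y (T.p z) ∧ T.col z w = T.col z x ∨ T.PW z z w := by
  by_contra! k
  obtain ⟨k1, k2, k3, k4, np⟩ := k
  obtain ⟨u3, u2⟩ := h.own_swap hz hw np
  obtain ⟨zw, zr, b, -⟩ := mem_W.1 hw
  have zy := T.O_adj z hz y pz
  have qR := T.p_mem z hz zr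
  have qw := T.O_adj _ qR w b
  have qz := h.adj_par hz zr (W_par hw)
  have cq := col_par hz zr
  have yq := O_ne_p hz pz
  have u1 := h.uq_O hz pz
  have xw : x ≠ w := fun e => k1 (e ▸ xr.symm)
  have rw' : r ≠ w := fun e => nz (e ▸ zw.symm)
  have c := T.prop z hz _ _ qr
  obtain ⟨m, m1, m2, m3⟩ := ((hc.swap' sq sw qz.ne zw.ne.symm u2 u3).path3 hS zy a xr
    (uq_swap (fun m a b _ _ => u1 m a b) yq (Ne.symm k2) (fun _ => u1 w zw k2)
      fun _ => u1 _ qz.symm yq.symm)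
    (uq_swap (fun m a b _ _ => uq m a b) xq xw k4 fun e => cq ▸ k3 e)
    (uq_swap (fun m a b _ _ => u m a b) qr.ne.symm rw' (fun _ => (u2 r qr rw').symm)
      fun _ => c) n xz ry (col_lt hz qR qz.ne)
    (by rw [sw_o qr.ne.symm rw']; exact c)).resolve_right fun e => nz e.2
  rcases sw_see m1 m3 with k | k | k
  exacts [T.prop z hz _ _ qw k.2.symm, k1 k.1, (only m m1 (k.2.2.trans cq)).elim k.1 m2]

end IsB

end Pool.Agent.Lib.MP_12eaff_co.Acc2
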