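import Pool.Agent.Lib.MP_12eaff_co.Acc2.Defs

set_option autoImplicit false
set_option linter.unusedSectionVars false

namespace Pool.Agent.Lib.MP_12eaff_co.Acc2

open Finset Pool.Agent.Lib.MP_12eaff_co.BK
open scoped Classical

variable {V : Type} [Fintype V]

namespace Tr

variable {G : SimpleGraph V} {D : ℕ} (T : Tr G D)

/-- In the state `s(z)` the vertex `v` sees every colour other than its own. -/
def Tight (z v : V) : Prop :=
  ∀ κ < D, κ ≠ T.col z v → ∃ m, G.Adj v m ∧ T.col z m = κ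

/-- Admissible sets of explaining states for `v`. -/
structure IsSig (v : V) (S : V → Prop) : Prop where
  mem : ∀ z, S z → z ∈ T.R
  nanc : ∀ z, S z → ¬ T.Anc v z
  tight : ∀ z, S z → T.Tight z v
  probe : ∀ m ∈ T.R, v ∈ T.O m → ¬ T.Anc v m → S m

/-- The arc `v → u` is explained by a state of `S`. -/
def Expl (S : V → Prop) (v u : V) : Prop := ∃ z, S z ∧ (u = z ∨ T.col z u ≠ T.col v u)

/-- Colour (in `s(v)`) of the target of the pair `(x, v)`. -/
noncomputable def tc (x v : V) : ℕ := if T.Anc x v then T.c (T.p x) else T.c x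

/-- Payer `t(v)`. -/
def PayT (v u : V) : Prop := (v ≠ T.r ∧ v ∈ T.O (T.p v)) ∧ T.col v u = T.c (T.p v)

/-- Payer `T0`: the parent of `u` probes `v`, and `u` is the only neighbour of `v` with the
colour of `u` in the state of that parent. -/
def PayZ (v u : V) : Prop :=
  u ≠ T.r ∧ v ∈ T.O (T.p u) ∧ T.col v u = T.c u ∧
    (∀ m, G.Adj v m → T.col (T.p u) m = T.c u → m = u) ∧ u ∈ T.O (T.p u)

/-- Payer pair `(x, v)` with target `u`; the hider `p x` changes colour in a state of `S`. -/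
def PayP (S : V → Prop) (x v u : V) : Prop :=
  x ∈ T.R ∧ x ≠ T.r ∧ v ∈ T.H (T.p x) ∧ T.tc x v = T.col v u ∧
    ∃ z, S z ∧ T.col z (T.p x) ≠ T.col v (T.p x) ∧
      ((T.Anc x v ∧ T.col z (T.p x) = T.c (T.p x)) ∨ (¬ T.Anc x v ∧ T.Anc x z))

variable {T}

/-- One witness: payer, or the open case. -/
theorem wit {S : V → Prop} {v u z m : V} (hS : T.IsSig v S)
    (hv : v ∈ T.R) (hu : u ∈ T.O v) (hz : S z) (hm : G.Adj v m) (hmu : m ≠ u)
    (hc : T.col z m = T.col v u) :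
    T.PayT v u ∨ (∃ x, T.PayP S x v u) ∨
      (∃ x, x ∈ T.ch m ∧ T.Anc x z ∧ T.c x = T.col v u ∧ v ∈ T.O m ∧ S m) ∨
      T.Port z v (T.col v u) := by
  by_cases md : m ∈ T.Dm
  · exact .inr (.inr (.inr (port_of hv hu hm md hc)))
  have hzR := hS.mem z hz
  have hna := hS.nanc z hz
  have hvr : v ≠ T.r := fun e => hna (e ▸ anc_r hzR)
  have hne : T.col v m ≠ T.col v u := T.uniq v hv u hu m hm hmu
  have hlt : T.col v u < D := T.lt v hv u hu
  by_cases hmz : T.Anc m z ∧ m ≠ z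
  · -- `m` is a proper ancestor of `z`
    obtain ⟨x, hx, hxz⟩ := hmz.1.child hmz.2
    have hcx : T.c x = T.col v u := by rw [← col_anc hx hxz, hc]
    obtain ⟨hx1, hx2, hx3⟩ := T.mem_ch.1 hx
    have hxv : ¬ T.Anc x v := fun h => hne (by rw [col_anc hx h, hcx])
    have hmR : m ∈ T.R := hmz.1.mem.1
    rcases adj_cases hmR hv hm.symm with h | h | h
    · exact Or.inr (Or.inr (.inl ⟨x, hx, hxz, hcx, h,
        hS.probe m hmR h (fun h1 => hna (h1.trans hmz.1))⟩))
    · refine Or.inr (Or.inl ⟨x, hx1, hx2, hx3 ▸ h, ?_, z, hz, ?_, Or.inr ⟨hxv, hxz⟩⟩)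
      · rw [tc, if_neg hxv, hcx]
      · rw [hx3, hc]; exact hne.symm
    · exact absurd ((anc_ch h).trans hmz.1) hna
  · -- `m` has its base colour in `s(z)`
    have hmz1 : m ≠ z := by
      rintro rfl
      rw [col_self hzR] at hc; omega
    have hmz2 : ¬ T.Anc m z := fun h => hmz ⟨h, hmz1⟩
    have hcm : T.c m = T.col v u := by rw [← col_base hzR md hmz2, hc]
    have hmv : T.Anc m v := by
      by_contra h
      exact hne (by rw [col_base hv md h, hcm])
    by_cases hp : m = T.p v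
    · exact Or.inl ⟨⟨hvr, ch_O (T.mem_ch.2 ⟨hv, hvr, rfl⟩) (.inl (hp ▸ hm.symm))⟩,
        by rw [← hp, hcm]⟩
    · obtain ⟨x, hx, hxv⟩ := hmv.child hm.ne.symm
      obtain ⟨hx1, hx2, hx3⟩ := T.mem_ch.1 hx
      have hxne : x ≠ v := fun e => hp (by rw [← hx3, e])
      have h1 := hxv.lt hxne
      have h2 := d_ch hx
      refine Or.inr (Or.inl ⟨x, hx1, hx2, hx3 ▸ F2 hmv.mem.1 hv hm.symm (by omega), ?_, z, hz,
        ?_, Or.inl ⟨hxv, ?_⟩⟩)
      · rw [tc, if_pos hxv, hx3, hcm]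
      · rw [hx3, hc]; exact hne.symm
      · rw [hx3, hc, hcm]

/-- LEMMA E. -/
theorem lemE {S : V → Prop} {v u : V} (hS : T.IsSig v S)
    (hv : v ∈ T.R) (hu : u ∈ T.O v) (he : T.Expl S v u) :
    T.PayT v u ∨ T.PayZ v u ∨ (∃ x, T.PayP S x v u) ∨ ∃ z, S z ∧ T.Port z v (T.col v u) := by
  have hex : ∃ n, ∃ z, T.d z = n ∧ S z ∧ (u = z ∨ T.col z u ≠ T.col v u) := by
    obtain ⟨z, hz⟩ := he
    exact ⟨_, z, rfl, hz⟩
  obtain ⟨z, hzd, hz, hzu⟩ := Nat.find_spec hex
  have hmin : ∀ y, T.d y < T.d z → S y → u ≠ y ∧ T.col y u = T.col v u := by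
    intro y hy hy2
    have := Nat.find_min hex (hzd ▸ hy)
    by_contra hc
    refine this ⟨y, rfl, hy2, ?_⟩
    by_cases h : u = y
    · exact Or.inl h
    · exact Or.inr (fun h1 => hc ⟨h, h1⟩)
  have hzR := hS.mem z hz
  have hna := hS.nanc z hz
  have hvr : v ≠ T.r := fun e => hna (e ▸ anc_r hzR)
  have hlt : T.col v u < D := T.lt v hv u hu
  have hzu' : T.col z u ≠ T.col v u := by
    rcases hzu with h | h
    · rw [h, col_self hzR, ← h]; omega
    · exact h
  have hκ : T.col v u ≠ T.col z v := by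
    rw [col_base hzR (T.real v hv) hna, ← col_par hv hvr]
    exact T.ne_p v hv u hu
  obtain ⟨m, hm, hc⟩ := hS.tight z hz _ hlt hκ
  have hmu : m ≠ u := fun e => hzu' (e ▸ hc)
  rcases wit hS hv hu hz hm hmu hc with h | h | ⟨x, hx, hxz, hcx, hvm, hSm⟩ | h
  · exact Or.inl h
  · exact Or.inr (Or.inr (Or.inl h))
  swap
  · exact Or.inr (Or.inr (Or.inr ⟨z, hz, h⟩))
  have ur := O_real hv hu
  have hdx := d_ch hx
  have hmz : T.Anc m z := (anc_ch hx).trans hxz
  have hmR := hmz.mem.1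
  have hdm : T.d m < T.d z := by have := hxz.le; omega
  obtain ⟨hum, hcm⟩ := hmin m hdm hSm
  -- `u` lies on the path below `m`
  have hpath : T.Anc m u ∧ T.Anc u z := by
    by_contra h
    exact hzu' (by rw [col_diff hmz ur h, hcm])
  have hd1 := (T.clo m hmR v hvm).2
  have hd2 := (T.clo v hv u hu).2
  have hdu := hpath.1.lt hum.symm
  have hxu : T.Anc x u := Anc.under hx hxz hpath.1 hpath.2 hum.symm
  have hcu : T.c u = T.col v u := by
    rw [← hcm]
    exact (col_base hmR ur (fun h => by have := h.le; omega)).symm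
  have hux : x = u := by
    by_contra h
    have h1 := hxu.ch_of_d h (by omega)
    exact c_ch_ne h1 (T.mem_ch.1 hx).2.1 (by rw [hcu, hcx])
  subst hux
  obtain ⟨hx1, hx2, hx3⟩ := T.mem_ch.1 hx
  by_cases hz0 : ∀ m', G.Adj v m' → T.col m m' = T.c x → m' = x
  · exact Or.inr (Or.inl ⟨hx2, hx3 ▸ hvm, hcu.symm, hx3 ▸ hz0, hx3 ▸ ch_O hx (.inr (by omega))⟩)
  push Not at hz0
  obtain ⟨m', hm', hc', hne'⟩ := hz0
  rcases wit hS hv hu hSm hm' hne' (hc'.trans hcu) with h | h | ⟨y, hy, hym, hcy, hvm', hSm'⟩ | h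
  · exact Or.inl h
  · exact Or.inr (Or.inr (Or.inl h))
  swap
  · exact Or.inr (Or.inr (Or.inr ⟨m, hSm, h⟩))
  -- a second open case is impossible
  exfalso
  have h1 := d_ch hy
  have h2 := hym.le
  have h3 := (T.clo m' (anc_ch hy).mem.1 v hvm').2
  have h4 : y = m := hym.eq_of_d (by omega)
  subst h4
  exact c_ch_ne hx (T.mem_ch.1 hy).2.1 (by rw [hcy, hcu])

/-- A non-child in `O v` is not below `v`. -/
theorem nanc_of_O {v u : V} (hv : v ∈ T.R) (hu : u ∈ T.O v) (hn : u ∉ T.ch v) : ¬ T.Anc v u :=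
  fun h => hn (h.ch_of_d (T.O_adj v hv u hu).ne (T.clo v hv u hu).2)

/-- An unexplained non-tree arc `v → u`: `u` is not in `S` and hides `v`. -/
theorem unexpl {S : V → Prop} {v u : V} (hS : T.IsSig v S)
    (hv : v ∈ T.R) (hu : u ∈ T.O v) (hn : u ∉ T.ch v) (he : ¬ T.Expl S v u) :
    ¬ S u ∧ v ∈ T.H u := by
  have h1 : ¬ S u := fun h => he ⟨u, h, Or.inl rfl⟩
  have huR := (T.clo v hv u hu).1
  refine ⟨h1, ?_⟩
  rcases adj_cases huR hv (T.O_adj v hv u hu).symm with h | h | h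
  · exact absurd (hS.probe u huR h (nanc_of_O hv hu hn)) h1
  · exact h
  · exact absurd h hn

/-- A paying pair explains the arc from `v` to the hider. -/
theorem PayP.expl {S : V → Prop} {x v u : V} (h : T.PayP S x v u) : T.Expl S v (T.p x) := by
  obtain ⟨_, _, _, _, z, hz, hc, _⟩ := h
  exact ⟨z, hz, Or.inr hc⟩

/-- A colour names at most one member of `O v`. -/
theorem O_inj {v u u' : V} (hv : v ∈ T.R) (hu : u ∈ T.O v) (hu' : u' ∈ T.O v)
    (h : T.col v u = T.col v u') : u = u' := by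
  by_contra hne
  exact T.uniq v hv u' hu' u (T.O_adj v hv u hu) hne h

end Tr

end Pool.Agent.Lib.MP_12eaff_co.Acc2
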