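import Pool.Agent.Lib.MP_12eaff_co.Acc2.Replay

set_option autoImplicit false
set_option linter.unusedSectionVars false

namespace Pool.Agent.Lib.MP_12eaff_co.Acc2

open Finset Pool.Agent.Lib.MP_12eaff_co.BK
open scoped Classical

variable {V : Type} [Fintype V] {G : SimpleGraph V} {D : ℕ}

/-- The state `s(z)` with the colours of `a` and `b` exchanged. -/
noncomputable def Tr.sw (T : Tr G D) (z a b : V) : V → ℕ :=
  fun m => if m = a then T.col z b else if m = b then T.col z a else T.col z m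

/-- A ticket below `y`: a vertex of the path from `y` to `z` hides `w` and takes the colour
of `y`. -/
def Tr.Tk (T : Tr G D) (y z w : V) : Prop :=
  ∃ a x, x ∈ T.ch a ∧ T.Anc y a ∧ T.Anc x z ∧ w ∈ T.H a ∧ T.c x = T.c y

/-- A neighbour of the parent of `y` on the path from `y` to `z` takes the colour `γ`. -/
def Tr.Bl (T : Tr G D) (y z : V) (γ : ℕ) : Prop :=
  ∃ a x, x ∈ T.ch a ∧ T.Anc y a ∧ a ≠ y ∧ T.Anc x z ∧ a ∈ T.H (T.p y) ∧ T.c x = γ

/-- A port of `v` shows `κ` in the state `s(z)`. -/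
def Tr.Shw (T : Tr G D) (z v : V) (κ : ℕ) : Prop := ∃ m ∈ T.Dm, G.Adj v m ∧ T.col z m = κ

theorem Tr.Shw.port {T : Tr G D} {z v u : V} {κ : ℕ} (h : T.Shw z v κ) (hv : v ∈ T.R)
    (hu : u ∈ T.O v) (hc : T.col v u = κ) : T.Port z v κ := by
  obtain ⟨m, a, b, c⟩ := h
  exact hc ▸ Tr.port_of hv hu b a (c.trans hc.symm)

theorem Tr.Port.shw {T : Tr G D} {z v : V} {κ : ℕ} (h : T.Port z v κ) : T.Shw z v κ := by
  obtain ⟨m, a, b, c, _⟩ := h
  exact ⟨m, a, b, c⟩

/-- In a state between `y` and `z` a port blocks the exchange of the parent of `y` with `w`. -/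
def Tr.PW (T : Tr G D) (y z w : V) : Prop :=
  ∃ a, T.Anc y a ∧ T.Anc a z ∧ (T.Port a (T.p y) (T.col (T.p y) w) ∨ T.Shw a w (T.c y))

namespace IsB

variable {T : Tr G D} {y z w : V}

open Tr IsA

theorem W_dep (hy : y ∈ T.R) (hw : w ∈ W T y) : w ∈ T.R ∧ T.d w ≤ T.d y := by
  obtain ⟨-, a1, a2, -⟩ := mem_W.1 hw
  have := T.clo _ (T.p_mem y hy a1) w a2
  have := T.d_p y hy a1
  exact ⟨by tauto, by omega⟩

theorem W_off (hw : w ∈ W T y) (hz : T.Anc y z) : ¬ (T.Anc y w ∧ T.Anc w z) := fun k =>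
  (mem_W.1 hw).1.ne (k.1.eq_of_d (W_dep hz.mem.1 hw).2)

theorem p_off (hr : y ≠ T.r) (hz : T.Anc y z) : ¬ (T.Anc y (T.p y) ∧ T.Anc (T.p y) z) := fun k => by
  have := k.1.le
  have := T.d_p y hz.mem.1 hr
  omega

theorem col_W (hw : w ∈ W T y) (hz : T.Anc y z) : T.col z w = T.col (T.p y) w := by
  obtain ⟨a0, a1, a2, -⟩ := mem_W.1 hw
  have wd := W_real hz.mem.1 hw
  rw [col_diff hz wd (W_off hw hz), col_step hz.mem.1 a1 wd a0.ne.symm
    (T.O_adj _ (T.p_mem y hz.mem.1 a1) w a2).ne.symm]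

theorem col_q (hr : y ≠ T.r) (hz : T.Anc y z) : T.col z (T.p y) = T.c y :=
  col_anc (T.mem_ch.2 ⟨hz.mem.1, hr, rfl⟩) hz

/-- If the tail probes `y`, both cases are port tickets. -/
theorem PW_port (hw : w ∈ W T y) (ho : y ∈ T.O w) (k : T.PW y z w) : ∃ a, T.Anc y a ∧ T.Anc a z ∧
    (T.Port a (T.p y) (T.col (T.p y) w) ∨ T.Port a w (T.c y)) := by
  obtain ⟨a, a1, a2, a3⟩ := k
  exact ⟨a, a1, a2, a3.imp_right fun k => k.port (W_mem a1.mem.1 hw) ho (mem_W.1 hw).2.2.2.1⟩

/-- WILDCARD: below `y` the parent of `y` can exchange colours with any `T0` tail of `y`,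
unless there is a ticket or a neighbour of the parent took the colour of the tail. -/
theorem wild (h : IsB T) (hw : w ∈ W T y) (hz : T.Anc y z) {F : Fm V}
    (hF : HC G D F z (T.col z)) (sq : T.p y ∈ F.S) (sw : w ∈ F.S) :
    HC G D F z (T.sw z (T.p y) w) ∨ T.Tk y z w ∨ T.Bl y z (T.col (T.p y) w) ∨ T.PW y z w := by
  obtain ⟨a0, hr, a2, -, a4, -⟩ := mem_W.1 hw
  have hy := hz.mem.1
  have hq := T.p_mem y hy hr
  have aq := T.O_adj _ hq w a2
  have key : ∀ n z, T.d z = n → T.Anc y z → ∀ F : Fm V, HC G D F z (T.col z) → T.p y ∈ F.S →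
      w ∈ F.S → HC G D F z (T.sw z (T.p y) w) ∨ T.Tk y z w ∨ T.Bl y z (T.col (T.p y) w) ∨
        T.PW y z w := by
    intro n
    induction n using Nat.strong_induction_on with
    | _ n ih =>
    intro z e hz F hF sq sw
    have hzR := hz.mem.2
    have zq : T.p y ≠ z := fun k => p_off hr hz ⟨k ▸ hz, k ▸ Anc.refl z hzR⟩
    have zw : w ≠ z := fun k => W_off hw hz ⟨k ▸ hz, k ▸ Anc.refl z hzR⟩
    by_cases k1 : Uq G (T.col z) (T.p y) w
    swap
    · -- the parent sees the colour of `w` at a moved vertex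
      simp only [Uq, not_forall, not_not] at k1
      obtain ⟨m, m1, m2, m3⟩ := k1
      have ne : m ≠ y := fun k => T.prop z hzR y w a0 (k ▸ m3)
      rw [col_W hw hz] at m3
      by_cases md : m ∈ T.Dm
      · exact .inr (.inr (.inr ⟨z, hz, Anc.refl z hzR, .inl (port_of hq a2 m1 md m3)⟩))
      have my : T.Anc y m ∧ T.Anc m z := by
        by_contra k
        exact h.uq_O hq a2 m m1 m2
          (by rw [← m3, col_diff hz md k, col_step hy hr md ne m1.ne.symm])
      obtain ⟨x, x1, x2⟩ := my.2.child fun k => by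
        have := T.lt _ hq w a2
        rw [← m3, k, col_self hzR] at this
        omega
      rw [col_anc x1 x2] at m3
      have := my.1.lt ne.symm
      have := T.d_p y hy hr
      exact .inr (.inr (.inl ⟨m, x, x1, my.1, ne, x2, F2 hq my.1.mem.2 m1 (by omega), m3⟩))
    by_cases k2 : Uq G (T.col z) w (T.p y)
    · refine .inl ?_
      have k3 := hF.swap sq sw zq zw aq.ne k1 k2 (hF.ne aq)
      refine (congrArg (HC G D F z) ?_).mp k3
      funext m
      simp only [Tr.sw, Function.update_apply]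
      split_ifs with e1 e2
      · exact absurd (e2.symm.trans e1) aq.ne
      all_goals rfl
    -- `w` sees the colour of `y` at a moved vertex
    simp only [Uq, not_forall, not_not] at k2
    obtain ⟨m, m1, m2, m3⟩ := k2
    have nq : ¬ G.Adj m (T.p y) := fun k => T.prop z hzR _ _ k m3
    rw [col_q hr hz] at m3
    by_cases md : m ∈ T.Dm
    · exact .inr (.inr (.inr ⟨z, hz, Anc.refl z hzR, .inr ⟨m, md, m1, m3⟩⟩))
    have my : T.Anc y m ∧ T.Anc m z := by
      by_contra k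
      have e' : m ≠ y := fun e' => k ⟨e' ▸ Anc.refl y hy, e' ▸ hz⟩
      exact e' (a4 m m1 (by rw [← m3, col_diff hz md k, col_step hy hr md e' m2]))
    obtain ⟨x, x1, x2⟩ := my.2.child fun k => by
      have := c_lt hy hr
      rw [← m3, k, col_self hzR] at this
      omega
    rw [col_anc x1 x2] at m3
    have mR := my.1.mem.2
    by_cases k3 : w ∈ T.H m
    · exact .inr (.inl ⟨m, x, x1, my.1, x2, k3, m3⟩)
    have dx := d_ch x1
    have dz := x2.le
    have hm := h.hc mR (S := {m, T.p y, w}) (mem_insert_self _ _)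
      (by simpa using ⟨T.real m mR, T.real _ hq, W_real hy hw⟩) (Cov.edge1 aq m)
    rcases ih (T.d m) (by omega) m rfl my.1 _ hm (by simp) (by simp) with k |
      ⟨a, x', b1, b2, b3, b4⟩ | ⟨a, x', b1, b2, b3, b4, b5⟩ | ⟨a, b1, b2, b3⟩
    · exfalso
      have wo : w ∈ T.O m := by
        rcases adj_cases mR (W_dep hy hw).1 m1.symm with k | k | k
        · exact k
        · exact absurd k k3
        · have p3 := (T.mem_ch.1 k).2.2
          rcases my.1.cases' with e' | ⟨_, e'⟩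
          · exact absurd (p3.symm.trans (by rw [e'])) aq.ne.symm
          · exact absurd ⟨p3 ▸ e', (anc_ch k).trans my.2⟩ (W_off hw hz)
      obtain ⟨b, b1, b2⟩ := k.sees (T.lt m mR w wo)
      simp only [Tr.sw] at b2
      split_ifs at b2 with e1 e2
      · exact nq (e1 ▸ b1)
      · exact hm.ne aq b2
      · exact h.uq_O mR wo b b1 e2 b2
    · exact .inr (.inl ⟨a, x', b1, b2, b3.trans my.2, b4⟩)
    · exact .inr (.inr (.inl ⟨a, x', b1, b2, b3, b4.trans my.2, b5⟩))
    · exact .inr (.inr (.inr ⟨a, b1, b2.trans my.2, b3⟩))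
  exact key _ z rfl hz F hF sq sw

/-- Type ii with a probing tail: `z` below `y` probes `v`, a neighbour of the parent of `y`. -/
theorem wild_probe (h : IsB T) (hw : w ∈ W T y) (hz : T.Anc y z) {v : V} (vd : v ∉ T.Dm)
    (az : G.Adj z v) (uz : Uq G (T.col z) z v) (aq : G.Adj v (T.p y)) (n : ¬ G.Adj v w)
    (vw : v ≠ w) : (∃ m, G.Adj v m ∧ m ≠ T.p y ∧ T.col z m = T.c y) ∨ T.Tk y z w ∨
      T.Bl y z (T.col (T.p y) w) ∨ T.PW y z w := by
  obtain ⟨a0, hr, a2, -, -⟩ := mem_W.1 hw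
  have hq := T.p_mem y hz.mem.1 hr
  have a := T.O_adj _ hq w a2
  have hz' := h.hc hz.mem.2 (S := {z, v, T.p y, w}) (mem_insert_self _ _)
    (by simpa using ⟨T.real z hz.mem.2, vd, T.real _ hq, W_real hz.mem.1 hw⟩) (Cov.edges az a)
  refine (h.wild hw hz hz' (by simp) (by simp)).imp_left fun k => ?_
  have e : T.sw z (T.p y) w v = T.col z v := by simp [Tr.sw, aq.ne, vw]
  have c1 : T.col z v ≠ T.c y := by rw [← col_q hr hz]; exact hz'.ne aq
  by_cases c2 : T.col z v = T.col z w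
  · -- the parent cannot take the colour of its neighbour `v`
    exact absurd (by rw [e, c2]; simp [Tr.sw]) (k.ne aq)
  obtain ⟨m, m1, m2⟩ := k.uq_sees (by simp) az.ne.symm (fun m m1 m2 => by
    rw [e]
    simp only [Tr.sw]
    split_ifs
    exacts [Ne.symm c2, by rw [col_q hr hz]; exact c1.symm, uz m m1 m2]) (c_lt hz.mem.1 hr)
    (by rw [e]; exact c1.symm)
  simp only [Tr.sw] at m2
  split_ifs at m2 with e1 e2
  · exact absurd (m2.trans (col_q hr hz).symm) (hz'.ne a).symm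
  · exact absurd (e2 ▸ m1) n
  · exact ⟨m, m1, e1, m2⟩

/-- Type iii: `v` is below `y` and adjacent to the parent of `y`. -/
theorem wild_down (h : IsB T) (hw : w ∈ W T y) {v : V} (hv : T.Anc y v) (n : ¬ G.Adj v w) :
    (∃ m, G.Adj v m ∧ m ≠ T.p y ∧ T.col v m = T.c y) ∨ T.Tk y v w ∨
      T.Bl y v (T.col (T.p y) w) ∨ T.PW y v w := by
  obtain ⟨a0, hr, a2, -, -⟩ := mem_W.1 hw
  have hq := T.p_mem y hv.mem.1 hr
  have a := T.O_adj _ hq w a2
  have hv' := h.hc hv.mem.2 (S := {v, T.p y, w}) (mem_insert_self _ _)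
    (by simpa using ⟨T.real v hv.mem.2, T.real _ hq, W_real hv.mem.1 hw⟩) (Cov.edge1 a v)
  refine (h.wild hw hv hv' (by simp) (by simp)).imp_left fun k => ?_
  obtain ⟨m, m1, m2⟩ := k.sees (c_lt hv.mem.1 hr)
  simp only [Tr.sw] at m2
  split_ifs at m2 with e1 e2
  · exact absurd (m2.trans (col_q hr hv).symm) (hv'.ne a).symm
  · exact absurd (e2 ▸ m1) n
  · exact ⟨m, m1, e1, m2⟩

/-- At most one tail is blocked by a neighbour of the parent, if only ports of the parent are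
dropped and `v` is a doubled vertex off the path. -/
theorem Bl_one' (h : IsB T) (hy : y ∈ T.R) (hr : y ≠ T.r) (hd : ∀ a ∈ T.Dr (T.p y), a ∈ T.Dm)
    {v : V} (hv : v ∈ T.Bd (T.p y)) (n : ∀ x, x ∈ T.ch v → ¬ T.Anc x z) {γ δ : ℕ}
    (k1 : T.Bl y z γ) (k2 : T.Bl y z δ) : γ = δ := by
  have hq := T.p_mem y hy hr
  have b : ∀ a ∈ T.H (T.p y), a ∉ T.Dm → a ∈ T.Bd (T.p y) := fun a ha ad =>
    ((h.mem_H2 hq).1 ha).resolve_right fun k => ad (hd a k)
  obtain ⟨a, x, a1, _, _, a4, a5, a6⟩ := k1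
  obtain ⟨a', x', b1, _, _, b4, b5, b6⟩ := k2
  have e : a = a' := by
    rcases h.Bd_cases hq with e | ⟨s, t, _, _, e⟩
    · simp [e] at hv
    · have h2 := b a a5 (anc_ch a1).real
      have h3 := b a' b5 (anc_ch b1).real
      have h4 : a ≠ v := fun k => n x (k ▸ a1) a4
      have h5 : a' ≠ v := fun k => n x' (k ▸ b1) b4
      simp only [e, mem_insert, mem_singleton] at hv h2 h3
      grind
  subst e
  have d1 := d_ch a1
  have d2 := d_ch b1
  have u1 := Anc.under a1 a4 (anc_ch b1) b4 fun k => by rw [← k] at d2; omega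
  have u2 := Anc.under b1 b4 (anc_ch a1) a4 fun k => by rw [← k] at d1; omega
  rw [← a6, ← b6, u1.eq_of_d u2.le]

/-- The same if no arc of the parent is dropped and `v` is hidden. -/
theorem Bl_one (h : IsB T) (hy : y ∈ T.R) (hr : y ≠ T.r) (hd : T.Dr (T.p y) = ∅) {v : V}
    (hv : v ∈ T.H (T.p y)) (n : ∀ x, x ∈ T.ch v → ¬ T.Anc x z) {γ δ : ℕ} (k1 : T.Bl y z γ)
    (k2 : T.Bl y z δ) : γ = δ :=
  h.Bl_one' hy hr (by simp [hd])
    (((h.mem_H2 (T.p_mem y hy hr)).1 hv).resolve_right (by simp [hd])) n k1 k2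

/-- Triangle with a probing head: a vertex `v` hidden by the parent, probed by `y` and seeing
the colour of `y` only at `y` is adjacent to every tail of `y`. -/
theorem tri_probe (h : IsB T) (hy : y ∈ T.R) (hw : w ∈ W T y) {v : V} (vd : v ∉ T.Dm)
    (hv : G.Adj (T.p y) v) (ay : G.Adj y v) (uy : Uq G (T.col y) y v)
    (cl : Uq G (T.col (T.p y)) v y) (vw : v ≠ w) :
    G.Adj v w ∨ T.Shw y v (T.c y) ∨ T.PW y y w := by
  by_cases n : G.Adj v w
  · exact .inl n
  have hr := (mem_W.1 hw).2.1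
  have hq := T.p_mem y hy hr
  rcases h.wild_probe hw (Anc.refl y hy) vd ay uy hv.symm n vw with ⟨m, m1, m2, m3⟩ |
    ⟨a, x, a1, a2, a3, _⟩ | ⟨a, x, a1, a2, _, a3, _⟩ | k
  · by_cases md : m ∈ T.Dm
    · exact .inr (.inl ⟨m, md, m1, m3⟩)
    have e : m ≠ y := fun e => by
      have := c_lt hy hr
      rw [← m3, e, col_self hy] at this
      omega
    exact absurd (by rw [← col_step hy hr md e m2, m3, col_p_self hy hr]) (cl m m1 e)
  rotate_left 2
  · exact .inr (.inr k)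
  all_goals
    have := d_ch a1
    have := a2.le
    have := a3.le
    omega

end IsB

end Pool.Agent.Lib.MP_12eaff_co.Acc2
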