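import Pool.Agent.Lib.MP_12eaff_co.Acc2.Cnt3
import Pool.Agent.Lib.MP_12eaff_co.Acc2.Pair
import Pool.Agent.Lib.MP_12eaff_co.Acc2.Ent

set_option autoImplicit false
set_option linter.unusedSectionVars false

namespace Pool.Agent.Lib.MP_12eaff_co.Acc2

open Finset Pool.Agent.Lib.MP_12eaff_co.BK
open scoped Classical

variable {V : Type} [Fintype V] {G : SimpleGraph V} {D : ℕ}

/-- Three shifts `a → v → u → w` through a triangle. -/
theorem HC.tri3 {F : Fm V} {a v u w : V} {f : V → ℕ} (h : HC G D F a f) (sv : v ∈ F.S)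
    (su : u ∈ F.S) (sw : w ∈ F.S) (va : v ≠ a)
    (ua : u ≠ a) (wa : w ≠ a) (h1 : Uq G f a v) (h2 : Uq G f v u) (h3 : Uq G f u w)
    (e1 : G.Adj v u) (e2 : G.Adj u w) (e3 : G.Adj v w) {κ : ℕ} (k : κ < D) (n1 : κ ≠ f u)
    (n2 : κ ≠ f w) : ∃ m, G.Adj w m ∧ m ≠ v ∧ m ≠ u ∧ (m = a ∧ κ = f v ∨ m ≠ a ∧ f m = κ) := by
  have s := h.shift sv va h1
  have q : ∀ m, m ≠ v → m ≠ a → Acc2.shift D f a v m = f m := fun m => shift_o
  have r : Acc2.shift D f a v a = f v := shift_l va.symm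
  obtain ⟨m, m1, m2, m3⟩ := (s.two_shift su sw e1.ne.symm e3.ne.symm (fun m p p' => by
    rw [q u e1.ne.symm ua]
    by_cases z : m = a
    · rw [z, r]
      exact h.ne e1
    · rw [q m p.ne.symm z]
      exact h2 m p p') (fun m p p' => by
    rw [q w e3.ne.symm wa]
    by_cases z : m = a
    · rw [z, r]
      exact h.ne e3
    by_cases z' : m = v
    · rw [z', s.hole]
      exact (h.lt w sw wa).ne'
    · rw [q m z' z]
      exact h3 m p p') e2).2 κ k (by rwa [q w e3.ne.symm wa])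
  obtain ⟨m3, m4⟩ := m3.resolve_left fun z => n1 (by rw [z.2, q u e1.ne.symm ua])
  by_cases z : m = a
  · exact ⟨m, m1, m3, m2, .inl ⟨z, by rw [← m4, z, r]⟩⟩
  · exact ⟨m, m1, m3, m2, .inr ⟨z, by rw [← m4, q m m3 z]⟩⟩

/-- The exit `z` of `u` probes `u` and is not adjacent to the parent of `u`. -/
structure Ev (T : Tr G D) (u z : V) : Prop where
  hu : u ∈ T.R
  ur : u ≠ T.r
  zo : z ∈ T.NT u
  pz : u ∈ T.O z
  nq : ¬ G.Adj (T.p u) z

/-- No admissible ticket for the arc `w → u`. -/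
def Nt (T : Tr G D) (w u : V) : Prop := ¬ T.PayT w u ∧ (∀ y x, y ∈ T.R → ¬ T.Anc w y →
  T.Tight y w → T.PayP (SY T w y) x w u → LX T w y u ∨ ∃ e, TE T w y e) ∧ ¬ T.PT w u

/-- A clean member of `W0(u)`. -/
structure Mem (T : Tr G D) (u w : V) : Prop where
  hW : w ∈ IsA.W T u
  uo : u ∈ T.O w
  wo : w ∈ T.O u
  nt : Nt T w u

variable {T : Tr G D} {u w z y a x m e : V}

open Tr IsA

theorem IsB.nt_WQ (h : IsB T) (k : w ∈ T.WQ (T.UI (C0 T) (O0 T)) u) : Nt T w u := by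
  obtain ⟨a, b, -, c, d⟩ := mem_WQ.1 k
  exact ⟨c, fun y x p q r s => ((h.chainY a (T.mem_NT.1 b).1 p q r s).resolve_left d).imp_right
    fun ⟨e, t⟩ => ⟨e, t.2⟩, fun t => d t.hasQ⟩

/-- Without port ticket every witness for the colour of the target is real. -/
theorem Tr.real_of_npt {v : V} (hv : v ∈ T.R) (hu : u ∈ T.O v) (n : ¬ T.PT v u) (hy : y ∈ T.R)
    (a : G.Adj v m) (c : T.col y m = T.col v u) : m ∉ T.Dm :=
  fun d => n ((port_of hv hu a d c).pt hy)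

namespace Ev

theorem oz (v : Ev T u z) : z ∈ T.O u := (T.mem_NT.1 v.zo).1

theorem hz (v : Ev T u z) : z ∈ T.R := (T.clo _ v.hu _ v.oz).1

theorem dz (v : Ev T u z) : T.d z ≤ T.d u + 1 := (T.clo _ v.hu _ v.oz).2

theorem adj (v : Ev T u z) : G.Adj u z := T.O_adj u v.hu z v.oz

theorem nu (v : Ev T u z) : ¬ T.Anc u z := nanc_of_O v.hu v.oz (T.mem_NT.1 v.zo).2

theorem ru (v : Ev T u z) : u ∉ T.Dm := T.real u v.hu

theorem base (v : Ev T u z) (k : T.Anc y z) : T.col y u = T.c u :=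
  col_base k.mem.1 v.ru fun p => v.nu (p.trans k)

theorem cz (v : Ev T u z) : T.col u z = T.c z :=
  col_base v.hu (T.real z v.hz) fun k => O_ne_p v.hu v.oz
    (T.mem_ch.1 (k.ch_of_d v.adj.ne.symm (T.clo _ v.hz _ v.pz).2)).2.2.symm

theorem ne (v : Ev T u z) : T.c z ≠ T.c u := by
  have := T.prop T.r T.r_mem u z v.adj
  rw [T.col_r] at this
  exact this.symm

theorem hq (v : Ev T u z) : T.p u ∈ T.R := T.p_mem u v.hu v.ur

theorem ch (v : Ev T u z) : u ∈ T.ch (T.p u) := T.mem_ch.2 ⟨v.hu, v.ur, rfl⟩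

theorem dq (v : Ev T u z) (o : u ∈ T.O (T.p u)) : T.d u = T.d (T.p u) + 1 := d_chO v.ch o

/-- A real neighbour whose colour changes to `c(u)` between two states. -/
theorem btw (v : Ev T u z) (k : T.Anc y z) (md : m ∉ T.Dm) (c : T.col z m = T.c u)
    (n : T.col y m ≠ T.c u) :
    T.Anc y m ∧ ∃ x ∈ T.ch m, T.Anc x z ∧ T.c x = T.c u ∧ T.d x < T.d z := by
  have p : T.Anc y m ∧ T.Anc m z := by
    by_contra p
    exact n (by rw [← col_diff k md p, c])
  obtain ⟨x, x1, x2⟩ := p.2.child fun e => by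
    have := c_lt v.hu v.ur
    rw [← c, e, col_self v.hz] at this
    omega
  rw [col_anc x1 x2] at c
  exact ⟨p.1, x, x1, x2, c, x2.lt fun e => v.ne (e ▸ c)⟩

end Ev

namespace Mem

theorem hw (p : Mem T u w) (hu : u ∈ T.R) : w ∈ T.R := W_mem hu p.hW

theorem rw' (p : Mem T u w) (hu : u ∈ T.R) : w ∉ T.Dm := W_real hu p.hW

theorem po (p : Mem T u w) : u ∈ T.O (T.p u) := W_par p.hW

theorem adj (p : Mem T u w) : G.Adj u w := (mem_W.1 p.hW).1

theorem oq (p : Mem T u w) : w ∈ T.O (T.p u) := (mem_W.1 p.hW).2.2.1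

theorem cu (p : Mem T u w) : T.col w u = T.c u := (mem_W.1 p.hW).2.2.2.1

theorem cw (p : Mem T u w) (hu : u ∈ T.R) : T.col u w = T.c w :=
  col_base hu (p.rw' hu) (W_base hu p.hW p.uo)

theorem du (p : Mem T u w) (hu : u ∈ T.R) : T.d u ≤ T.d w + 1 := (T.clo _ (p.hw hu) _ p.uo).2

theorem aq (p : Mem T u w) (v : Ev T u z) : G.Adj (T.p u) w := T.O_adj _ v.hq w p.oq

theorem ne (p : Mem T u w) (v : Ev T u z) : w ≠ z := fun e => v.nq (e ▸ p.aq v)

theorem cz (p : Mem T u w) (v : Ev T u z) : T.c w ≠ T.c z := by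
  rw [← p.cw v.hu, ← v.cz]
  exact T.uniq u v.hu z v.oz w p.adj (p.ne v)

/-- A witness for the colour of the head is real. -/
theorem wit_real (p : Mem T u w) (hu : u ∈ T.R) (hy : y ∈ T.R) (a : G.Adj w m)
    (c : T.col y m = T.c u) : m ∉ T.Dm :=
  real_of_npt (p.hw hu) p.uo p.nt.2.2 hy a (c.trans p.cu.symm)

end Mem

namespace IsB

/-- A colour that is unique at `u` in `s(z)` is unique in a higher state. -/
theorem uq_up (_ : IsB T) (v : Ev T u z) (p : Mem T u w) (np : ¬ T.PT u w)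
    (uq : Uq G (T.col z) u w)
    (nw : ¬ T.Anc w z) (hx : x ∈ T.ch a) (xz : T.Anc x z) (d : T.d u ≤ T.d a + 2)
    (n1 : ¬ G.Adj u a) (n2 : ¬ G.Adj u x) : Uq G (T.col a) u w := fun m m1 m2 m3 => by
  have az := (anc_ch hx).trans xz
  have wa : T.col a w = T.c w := col_base az.mem.1 (p.rw' v.hu) fun k => nw (k.trans az)
  have md := real_of_npt v.hu p.wo np az.mem.1 m1 (by rw [m3, wa, p.cw v.hu])
  by_cases k : T.Anc a m ∧ T.Anc m z
  · have am : a ≠ m := fun e => n1 (e ▸ m1)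
    have := k.1.lt am
    have := d_ch hx
    have := (Anc.under hx xz k.1 k.2 am).lt fun e => n2 (e ▸ m1)
    refine T.uniq u v.hu w p.wo m m1 m2 ?_
    rw [p.cw v.hu, ← wa, ← m3, col_base v.hu md fun r => m1.ne (r.eq_of_d (by omega)).symm,
      col_base az.mem.1 md fun r => by have := r.le; omega]
  · exact uq m m1 m2 (by rw [col_diff az md k, m3, wa, col_base v.hz (p.rw' v.hu) nw])

theorem key_open (h : IsB T) (v : Ev T u z) (p : Mem T u w) (np : ¬ T.PT u w)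
    (uq : Uq G (T.col z) u w)
    (nw : ¬ T.Anc w z) (hx : x ∈ T.ch a) (xz : T.Anc x z) (cx : T.c x = T.c u) (wa : w ∈ T.O a)
    (n : ∀ m, G.Adj w m → m ≠ u → T.col a m ≠ T.c u) : False := by
  have hw := p.hw v.hu
  have az := (anc_ch hx).trans xz
  obtain ⟨o1, o2, -, o3, -⟩ := h.op_tight hw p.uo p.cu v.nu (a := a) (x := x) ⟨hx, xz, fun k =>
    T.uniq w hw u p.uo a (T.O_adj a az.mem.1 w wa).symm (fun e => v.nu (e ▸ az))
      (by rw [col_anc hx k, cx, p.cu]), cx.trans p.cu.symm, .inl wa, p.cu ▸ n⟩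
  have := (T.clo _ az.mem.1 _ wa).2
  have := p.du v.hu
  exact o3 (h.uq_up v p np uq nw hx xz (by omega) o1 o2)

theorem key (h : IsB T) (v : Ev T u z) (p : Mem T u w) (np : ¬ T.PT u w) (uq : Uq G (T.col z) u w)
    (nw : ¬ T.Anc w z) (yz : T.Anc y z) (t : T.Tight y w) (a : G.Adj w m)
    (ne : m ≠ u) (c : T.col y m = T.c u) : LX T w y u ∨ ∃ e, TE T w y e := by
  have n : ¬ T.Anc w y := fun k => nw (k.trans yz)
  rcases high (p.hw v.hu) p.uo yz.mem.1 n a ne (fun k => absurd k p.nt.1) (c.trans p.cu.symm) with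
    ⟨x, k⟩ | ⟨b, x, k1, k2, -, k3, k4, -, k5⟩ | k
  · exact p.nt.2.1 y x yz.mem.1 n t (k.mono ((h.isSig_SY yz.mem.1 n t).vis (.inr rfl)))
  · exact (h.key_open v p np uq nw k1 (k2.trans yz) (k3.trans p.cu) k4 fun m q r =>
      p.cu ▸ k5 m q r fun k => absurd k p.nt.1).elim
  · exact absurd k.vis_pt p.nt.2.2

theorem key_probe (h : IsB T) (v : Ev T u z) (p : Mem T u w) (np : ¬ T.PT u w)
    (uq : Uq G (T.col z) u w)
    (nw : ¬ T.Anc w z) (az : T.Anc a z) (wa : w ∈ T.O a) (k : G.Adj w m) (ne : m ≠ u) :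
    T.col a m ≠ T.c u := fun c =>
  (h.key v p np uq nw az (h.probe_tight az.mem.1 wa) k ne c).elim
    (fun l => l.2.2.2.1 (T.O_adj a az.mem.1 w wa).symm) fun ⟨_, t⟩ =>
      t.2.2.2.1 ⟨a, ⟨az.mem.1, wa, fun r => nw (r.trans az)⟩, .inr t.2.2.2.2.1⟩

theorem probe_adj2 (h : IsB T) (he : e ∈ T.R) (ho : u ∈ T.O e) (wd : w ∉ T.Dm) (a : G.Adj u w)
    (ne : w ≠ e) (h1 : Uq G (T.col e) w u) (h2 : Uq G (T.col e) u w) : G.Adj e w := by
  by_contra k
  exact h.swap_tr he wd (O_real he ho) ne (T.O_adj e he u ho).ne.symm k h1 h2 a.symm (h.uq_O he ho)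

theorem probe_tail2 (h : IsB T) (he : e ∈ T.R) (hp : u ∈ T.O e) (wd : w ∉ T.Dm) (a : G.Adj u w)
    (n : ¬ G.Adj e w) (ne : w ≠ e) (k : Uq G (T.col e) u w) : T.Tight e w := fun κ x y => by
  by_contra z
  have s := (h.hcP he (O_real he hp) wd a).recol (by simp) ne x fun m p q => z ⟨m, p, q⟩
  obtain ⟨m, m1, m2⟩ := s.uq_sees (by simp) (T.O_adj e he u hp).ne.symm (fun m p q => by
    rw [Function.update_of_ne a.ne, Function.update_of_ne fun r : m = w => n (r ▸ p)]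
    exact h.uq_O he hp m p q) (T.full e he w wd ne)
    (by rw [Function.update_of_ne a.ne]; exact (T.prop e he _ _ a).symm)
  by_cases r : m = w
  · rw [r, Function.update_self] at m2
    exact y m2
  · rw [Function.update_of_ne r] at m2
    exact k m m1 r m2

theorem dbl_one (h : IsB T) (he : e ∈ T.R) (ho : u ∈ T.O e) (ns : T.NS e u) {w' : V}
    (l : T.col e w < D) (l' : T.col e w' < D) (a : G.Adj u w)
    (a' : G.Adj u w') (k : G.Adj w w') (s : ¬ Uq G (T.col e) u w) : Uq G (T.col e) u w' := by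
  by_contra s'
  simp only [Uq, not_forall, not_not] at s s'
  obtain ⟨m, m1, m2, m3⟩ := s
  obtain ⟨m', n1, n2, n3⟩ := s'
  rcases (h.hc1 he).dbl_nb (h.dg (O_real he ho) ns _)
    (T.O_adj e he u ho).symm (h.probe_tight he ho) a m1 a' n1 (Ne.symm m2)
    (Ne.symm n2) m3.symm n3.symm l l' with z | z
  exacts [k.ne z.symm, T.prop e he _ _ k (by rw [z, m3])]

/-- A member off the prober that is not doubled has a ticket in the state of the prober. -/
theorem mem_te (h : IsB T) (v : Ev T u z) (p : Mem T u w) (np : ¬ T.PT u w) (n : ¬ G.Adj z w)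
    (uq : Uq G (T.col z) u w) : ¬ T.Anc w z ∧ T.Tight z w ∧
      (∃ m, G.Adj w m ∧ m ≠ u ∧ T.col z m = T.c u) ∧ (LX T w z u ∨ ∃ e, TE T w z e) := by
  have s : ¬ Uq G (T.col z) w u := fun k =>
    n (h.probe_adj2 v.hz v.pz (p.rw' v.hu) p.adj (p.ne v) k uq)
  simp only [Uq, not_forall, not_not] at s
  obtain ⟨m, m1, m2, m3⟩ := s
  rw [v.base (.refl z v.hz)] at m3
  have nw : ¬ T.Anc w z := fun k => by
    obtain ⟨a, x, x1, -, -, x2⟩ := v.btw k (p.wit_real v.hu v.hz m1 m3) m3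
      (p.cu ▸ T.uniq w (p.hw v.hu) u p.uo m m1 m2)
    have := a.lt m1.ne
    have := d_ch x1
    have := v.dz
    have := p.du v.hu
    omega
  have t := h.probe_tail2 v.hz v.pz (p.rw' v.hu) p.adj n (p.ne v) uq
  exact ⟨nw, t, ⟨m, m1, m2, m3⟩, h.key v p np uq nw (.refl z v.hz) t m1 m2 m3⟩

/-- For a sibling the chain ends at the parent itself. -/
theorem te_sib (h : IsB T) (v : Ev T u z) (p : Mem T u w) (np : ¬ T.PT u w) (n : ¬ G.Adj z w)
    (uq : Uq G (T.col z) u w) (s : T.p w = T.p u) (t : TE T w z e) :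
    ¬ T.Anc (T.p u) z ∧ Uq G (T.col z) w (T.p u) := by
  obtain ⟨nw, -, ⟨m, m1, m2, m3⟩, -⟩ := h.mem_te v p np n uq
  obtain ⟨t1, t2, t3, -, t4, -, t5, -⟩ := t
  have hw := p.hw v.hu
  have eo := (T.mem_NT.1 t1).1
  have : e ≠ T.r → w ∈ T.O (T.p e) → T.col w e = T.c e → False := fun r o c => by
    have ez : T.Anc e z := by
      by_contra k
      exact t4 (by rw [col_base v.hz (O_real hw eo) k, c])
    have pe := anc_p ez.mem.1 r
    obtain ⟨a, x, x1, x2, x3, x4⟩ := v.btw (pe.trans ez) (p.wit_real v.hu v.hz m1 m3) m3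
      (h.key_probe v p np uq nw (pe.trans ez) o m1 m2)
    have := (T.clo _ pe.mem.1 _ o).2
    have := (T.clo _ hw _ eo).2
    have ec : e ∈ T.ch (T.p e) := T.mem_ch.2 ⟨ez.mem.1, r, rfl⟩
    have := d_chO ec (ch_O ec (.inr (by omega)))
    have := d_chO (T.mem_ch.2 ⟨hw, t3.1.1, rfl⟩) t3.1.2
    have := d_ch x1
    have := a.le
    have := v.dz
    have := v.dq p.po
    rw [s] at *
    obtain rfl : e = x := (ez.comp x2 (by omega)).eq_of_d (by omega)
    exact p.nt.1 ⟨t3.1, by rw [p.cu, ← x3, ← c, t3.2]⟩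
  rcases t5 with k | k | k
  exacts [(this k.1 k.2.1 k.2.2.1).elim,
    (this k.2.1 k.2.2.1 (t3.2.trans k.2.2.2.2.2.1.symm)).elim, s ▸ k]

/-- After `z → u → w → q` the parent sees the colour of `u` elsewhere. -/
theorem tok_state (h : IsB T) (v : Ev T u z) (p : Mem T u w) (uq : Uq G (T.col z) u w)
    (k : Uq G (T.col z) w (T.p u)) : T.Tight z (T.p u) ∧
      ∃ m, G.Adj (T.p u) m ∧ m ≠ u ∧ T.col z m = T.c u := by
  have a := h.adj_par v.hu v.ur p.po
  have c := h.hcE v.hz v.ru (p.rw' v.hu) (T.real _ v.hq) v.adj.symm (p.aq v).symm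
  have s := fun κ => c.tri3 (κ := κ) (by simp) (by simp) (by simp) v.adj.ne (p.ne v)
    (O_ne_p v.hu v.oz).symm (h.uq_O v.hz v.pz) uq k p.adj (p.aq v).symm a.symm
  have b := v.base (.refl z v.hz)
  refine ⟨fun κ l n => ?_, ?_⟩
  · by_cases e : κ = T.col z w
    · exact ⟨w, p.aq v, e.symm⟩
    obtain ⟨m, m1, -, -, m2⟩ := s κ l e n
    exact ⟨m, m1, (m2.resolve_left fun r => v.nq (r.1 ▸ m1)).2⟩
  · obtain ⟨m, m1, m2, -, m3⟩ := s _ (c_lt v.hu v.ur) (b ▸ c.ne p.adj) (b ▸ c.ne a.symm)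
    exact ⟨m, m1, m2, (m3.resolve_left fun r => v.nq (r.1 ▸ m1)).2⟩

theorem opn_nadj (_ : IsB T) (v : Ev T u z) (hx : x ∈ T.ch a) (xz : T.Anc x z)
    (cx : T.c x = T.c u) : ¬ G.Adj u a ∧ ¬ G.Adj u x ∧ T.d x < T.d z := by
  have az := (anc_ch hx).trans xz
  have := d_ch hx
  have xc : T.col a x = T.c x := col_base az.mem.1 xz.real fun k => by have := k.le; omega
  exact ⟨fun k => ch_uq hx v.ru k.symm (fun e => v.nu (e ▸ xz))
    (by rw [v.base az, xc, cx]), fun k => T.prop a az.mem.1 _ _ k (by rw [v.base az, xc, cx]),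
    xz.lt fun e => v.ne (e ▸ cx)⟩

/-- An open witness at the parent hides the member. -/
theorem open_mem (h : IsB T) (v : Ev T u z) (p : Mem T u w) (np : ¬ T.PT u w) (n : ¬ G.Adj z w)
    (uq : Uq G (T.col z) u w) (s : T.p w = T.p u) (t : TE T w z e) (hx : x ∈ T.ch a)
    (xz : T.Anc x z) (cx : T.c x = T.c u) (qa : T.p u ∈ T.O a)
    (un : ∀ m, G.Adj (T.p u) m → m ≠ u → T.col a m ≠ T.c u) : w ∈ T.H a := by
  obtain ⟨nw, -, ⟨m0, l1, l2, l3⟩, -⟩ := h.mem_te v p np n uq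
  obtain ⟨nq, k⟩ := h.te_sib v p np n uq s t
  obtain ⟨n1, n2, dx⟩ := h.opn_nadj v hx xz cx
  have az := (anc_ch hx).trans xz
  have aR := az.mem.1
  have hw := p.hw v.hu
  have rq := T.real _ v.hq
  have aq := T.O_adj a aR _ qa
  have c := h.hcE aR rq v.ru (p.rw' v.hu) aq p.adj
  have := (T.clo _ aR _ qa).2
  have := v.dq p.po
  have := v.dz
  have := d_ch hx
  have dw := d_chO (T.mem_ch.2 ⟨hw, t.2.2.1.1.1, rfl⟩) t.2.2.1.1.2
  rw [s] at dw
  have u1 := h.uq_up v p np uq nw hx xz (by omega) n1 n2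
  have bu := v.base az
  have bq : T.col a (T.p u) = T.c (T.p u) := col_base aR rq fun r => nq (r.trans az)
  have qu := h.adj_par v.hu v.ur p.po
  have ua : u ≠ a := fun r => v.nu (r ▸ az)
  have wa : w ≠ a := fun r => nw (r ▸ az)
  have uqq : Uq G (T.col a) (T.p u) u := fun m p q => bu ▸ un m p q
  by_cases j : G.Adj w a
  · rcases adj_cases aR hw j.symm with r | r | r
    exacts [(h.key_open v p np uq nw hx xz cx r fun m => h.key_probe v p np uq nw az r).elim, r,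
      absurd ((anc_ch r).trans az) nw]
  exfalso
  obtain ⟨m, m1, m2, m3, m4⟩ := c.tri3 (by simp) (by simp) (by simp) aq.ne.symm ua wa
    (h.uq_O aR qa) uqq u1 qu p.adj (p.aq v) (T.lt a aR _ qa) (c.ne qu) (c.ne (p.aq v))
  obtain ⟨-, m4⟩ := m4.resolve_left fun r => j (r.1 ▸ m1)
  have md := real_of_npt hw (T.mem_NT.1 t.1).1 t.2.2.2.2.2.2.2 aR m1
    (by rw [m4, bq, t.2.2.1.2, s])
  have b : T.Anc a m ∧ T.Anc m z := by
    by_contra r
    exact k m m1 m2 (by rw [col_diff az md r, m4, bq, col_base v.hz rq nq])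
  have am : a ≠ m := fun r => j (r ▸ m1)
  have := b.1.lt am
  have cm : T.col a m = T.c m := col_base aR md fun r => by have := r.le; omega
  have := (Anc.under hx xz b.1 b.2 am).lt fun r => c.ne qu (by rw [← m4, cm, ← r, cx, bu])
  have wm : T.col w m = T.c (T.p w) := by
    rw [col_base hw md fun r => m1.ne (r.eq_of_d (by omega)).symm, ← cm, m4, bq, s]
  have l4 : T.col a m0 = T.c u := by
    by_contra r
    obtain ⟨r1, y, y1, y2, y3, y4⟩ := v.btw az (p.wit_real v.hu v.hz l1 l3) l3 r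
    have := d_ch y1
    have := (Anc.under hx xz r1 ((anc_ch y1).trans y2) fun r => j (r ▸ l1)).lt fun r =>
      c_ch_ne (r ▸ y1) (T.mem_ch.1 hx).2.1 (y3.trans cx.symm)
    omega
  by_cases tt : T.Tight a w
  · rcases h.key v p np uq nw az tt l1 l2 l4 with r | ⟨e', r1, -, r2, -, r3, -⟩
    · exact ne_empty_of_mem hx r.1
    · obtain rfl : m = e' := by
        by_contra r
        exact T.uniq w hw e' (T.mem_NT.1 r1).1 m m1 r (wm.trans r2.2.symm)
      exact r3 (by rw [wm, m4, bq, s])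
  simp only [Tr.Tight, not_forall, not_exists, not_and] at tt
  obtain ⟨κ, k1, k2, k3⟩ := tt
  have g := c.recol (by simp) wa k1 k3
  have o : ∀ m, m ≠ w → Function.update (T.col a) w κ m = T.col a m := fun m r =>
    Function.update_of_ne r _ _
  obtain ⟨m', r1, -, r2⟩ := (g.two_shift (by simp) (by simp) aq.ne.symm ua (fun m r r' => by
    rw [o m fun e => j (e ▸ r.symm), o _ (p.aq v).ne]
    exact h.uq_O aR qa m r r') (fun m r r' => by
    rw [o u p.adj.ne]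
    by_cases e : m = w
    · rw [e, Function.update_self]
      exact Ne.symm (k3 u p.adj.symm)
    · rw [o m e]
      exact uqq m r r') qu).2 _ (col_lt aR hw wa) (by rw [o u p.adj.ne]; exact c.ne p.adj.symm)
  obtain ⟨-, r2⟩ := r2.resolve_left fun r => n1 (r.1 ▸ r1)
  by_cases e : m' = w
  · rw [e, Function.update_self] at r2
    exact k2 r2
  · exact u1 m' r1 e (o m' e ▸ r2)

theorem nt_mem (p : Mem T u w) (hu : u ∈ T.R) : ¬ T.PayT u w := fun k => by
  have hq := T.p_mem u hu k.1.1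
  refine T.ne_p _ hq w p.oq ?_
  rw [col_par hq (t_nr hu p.wo k), ← k.2, W_col hu p.hW]

/-- With an open witness at the parent a doubled member is the target of a good pair. -/
theorem dbl_pair (h : IsB T) (v : Ev T u z) (p : Mem T u w) (np : ¬ T.PT u w) (n : ¬ G.Adj z w)
    (s : ¬ Uq G (T.col z) u w) (hx : x ∈ T.ch a) (xz : T.Anc x z) (cx : T.c x = T.c u)
    (qa : T.p u ∈ T.O a) : ∃ x, T.PayP (T.SP u) x u w := by
  obtain ⟨n1, n2, dx⟩ := h.opn_nadj v hx xz cx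
  have az := (anc_ch hx).trans xz
  have := (T.clo _ az.mem.1 _ qa).2
  have := v.dq p.po
  have := v.dz
  have := d_ch hx
  have lvl : ∀ b y, y ∈ T.ch b → T.Anc y z → y ≠ z → T.d u ≤ T.d b + 1 → ¬ G.Adj u b :=
    fun b y y1 y2 y3 d => by
      have := d_ch y1
      have := y2.lt y3
      have bz := (anc_ch y1).trans y2
      have ab := az.comp bz (by omega)
      by_cases r : a = b
      · exact r ▸ n1
      · exact (Anc.under hx xz ab bz r).eq_of_d (by omega) ▸ n2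
  have nw : ¬ T.Anc w z := fun k => by
    obtain ⟨y, y1, y2⟩ := k.child (p.ne v)
    have := p.du v.hu
    exact lvl w y y1 y2 (fun e => n (T.O_adj w k.mem.1 z (ch_O (e ▸ y1) (.inr (by omega)))).symm)
      this p.adj
  simp only [Uq, not_forall, not_not] at s
  obtain ⟨m, m1, m2, m3⟩ := s
  rcases high v.hu p.wo v.hz v.nu m1 m2 (fun k => absurd k (nt_mem p v.hu))
    (by rw [m3, col_base v.hz (p.rw' v.hu) nw, p.cw v.hu]) with
    ⟨y, k⟩ | ⟨b, y, k1, k2, -, k3, k4, -⟩ | k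
  · exact ⟨y, k.mono ((h.isSig_SP u).vis ⟨v.hz, v.pz, v.nu⟩)⟩
  · have bR := (anc_ch k1).mem.1
    exact absurd (T.O_adj b bR u k4).symm (lvl b y k1 k2
      (fun e => p.cz v (by rw [← e, k3, p.cw v.hu])) (T.clo _ bR _ k4).2)
  · exact absurd k.vis_pt np

/-- E2. -/
theorem e2 (h : IsB T) (v : Ev T u z) (n1 : T.NS (T.p u) u) (n2 : T.NS z u) (n3 : T.NS u z)
    {Z : Finset V} (hZ : ∀ w ∈ Z, Mem T u w)
    (nd : ∀ w ∈ Z, ∀ a ∈ T.R, w ∉ T.Dr a) (c3 : 3 ≤ Z.card) : T.PayT (T.p u) u ∨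
      (¬ T.Anc (T.p u) z ∧ T.Tight z (T.p u) ∧
        ∃ x, T.PayP (SY T (T.p u) z) x (T.p u) u) ∨ (∃ w ∈ Z, LX T w z u) ∨
      (∃ w ∈ Z, ¬ G.Adj z w ∧ ∃ x, T.PayP (T.SP u) x u w) ∨
      (∃ w ∈ Z, T.p w ≠ T.p u ∧ ¬ G.Adj z w ∧ Uq G (T.col z) u w ∧ ∃ e, TE T w z e) ∨
      T.PT (T.p u) u ∨ ∃ w ∈ Z, T.PT u w ∨ T.Port u (T.p u) (T.col (T.p u) w) := by
  by_contra k
  simp only [not_or] at k
  obtain ⟨k1, k2, k3, k4, k5, k6, k7⟩ := k
  have np : ∀ w ∈ Z, ¬ T.PT u w := fun w a b => k7 ⟨w, a, .inl b⟩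
  have ne : ∀ w ∈ Z, ¬ ExE T u w := fun w a b => b.elim (fun b => (hZ w a).nt.2.2 (b.pt v.hu))
    fun b => k7 ⟨w, a, .inr b⟩
  have sib : ∀ w ∈ Z, ¬ G.Adj z w → Uq G (T.col z) u w → T.p w = T.p u ∧ ∃ e, TE T w z e :=
    fun w a b c => by
      have := (h.mem_te v (hZ w a) (np w a) b c).2.2.2.resolve_left fun l => k3 ⟨w, a, l⟩
      exact ⟨by_contra fun d => k5 ⟨w, a, d, b, c, this⟩, this⟩
  have main : ∀ w ∈ Z, ∀ w' ∈ Z, w ≠ w' → ¬ G.Adj z w → ¬ G.Adj z w' → ¬ Uq G (T.col z) u w :=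
    fun w a w' a' ne b b' c => by
      obtain ⟨s, e, t⟩ := sib w a b c
      obtain ⟨nq, q⟩ := h.te_sib v (hZ w a) (np w a) b c s t
      obtain ⟨tt, m, m1, m2, m3⟩ := h.tok_state v (hZ w a) c q
      have cu := col_p_self v.hu v.ur
      rcases high v.hq (hZ w a).po v.hz nq m1 m2 (fun k => absurd k k1)
        (m3.trans cu.symm) with ⟨x, r⟩ | ⟨g, x, r1, r2, -, r3, r4, -, r5⟩ | r
      · exact k2 ⟨nq, tt, x, r.mono ((h.isSig_SY v.hz nq tt).vis (.inr rfl))⟩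
      swap
      · exact k6 r.vis_pt
      rw [cu] at r3 r5
      have un := fun m p q => r5 m p q fun k => absurd k k1
      have gR := (anc_ch r1).mem.1
      by_cases c' : Uq G (T.col z) u w'
      · obtain ⟨s', e', t'⟩ := sib w' a' b' c'
        exact h.Bd_nadj gR
          (((h.mem_H2 gR).1 (h.open_mem v (hZ w a) (np w a) b c s t r1 r2 r3 r4 un)).resolve_right
            (nd w a g gR))
          (((h.mem_H2 gR).1 (h.open_mem v (hZ w' a') (np w' a') b' c' s' t' r1 r2 r3 r4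
            un)).resolve_right (nd w' a' g gR)) (h.W_adj v.hu n1 (hZ w a).hW (hZ w' a').hW ne)
      · exact k4 ⟨w', a', b', h.dbl_pair v (hZ w' a') (np w' a') b' c' r1 r2 r3 r4⟩
  have c1 : (Z.filter (G.Adj z)).card ≤ 1 := card_le_one.2 fun x hx y hy => by
    obtain ⟨a, b⟩ := mem_filter.1 hx
    obtain ⟨a', b'⟩ := mem_filter.1 hy
    exact h.exit_one v.hu v.oz v.nq n3 (hZ x a).hW (hZ y a').hW
      (h.W_adj v.hu n1 (hZ x a).hW (hZ y a').hW) (hZ x a).uo (hZ y a').uo (ne x a) (ne y a') b b'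
  have := card_filter_add_card_filter_not (s := Z) (G.Adj z)
  obtain ⟨w, a, w', a', ne⟩ := one_lt_card.1 (show 1 < (Z.filter fun w => ¬ G.Adj z w).card by omega)
  obtain ⟨a, b⟩ := mem_filter.1 a
  obtain ⟨a', b'⟩ := mem_filter.1 a'
  exact main w' a' w a ne.symm b' b (h.dbl_one v.hz v.pz n2
    (col_lt v.hz ((hZ w a).hw v.hu) ((hZ w a).ne v))
    (col_lt v.hz ((hZ w' a').hw v.hu) ((hZ w' a').ne v)) (hZ w a).adj (hZ w' a').adj
    (h.W_adj v.hu n1 (hZ w a).hW (hZ w' a').hW ne) (main w a w' a' ne b b'))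

end IsB

end Pool.Agent.Lib.MP_12eaff_co.Acc2
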