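import Pool.Agent.Lib.MP_12eaff_co.Acc2.Cnt8

set_option autoImplicit false
set_option linter.unusedSectionVars false

namespace Pool.Agent.Lib.MP_12eaff_co.Acc2

open Finset Pool.Agent.Lib.MP_12eaff_co.BK
open scoped Classical

variable {V : Type} [Fintype V] {G : SimpleGraph V} {D : ℕ}

namespace IsB

variable {T : Tr G D} {Ex Ct Cz Ok Use : V → V → Prop} {u v w x e y z : V}

open Tr IsA

/-- An arc to a deeper head that does not probe the tail is not explained in `SM`. -/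
theorem ncm_low (hv : v ∈ T.R) (hu : u ∈ T.O v) (n : v ∉ T.O u) (d : T.d v < T.d u) :
    ¬ CM T v u := by
  rintro ⟨z, a, b⟩
  have s := sm_sp hv a
  have := sm_d hv a
  have ne : u ≠ z := fun e => n (e ▸ s.2.1)
  refine b.resolve_left ne ?_
  rw [col_base s.1 (O_real hv hu) fun k => by have := k.lt ne; omega,
    col_base hv (O_real hv hu) fun k => by have := k.le; omega]

/-- A tail of `x` is doubled at a child of `x` that misses the parent of `x`. -/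
theorem star_Bd (h : IsB T) (hy : y ∈ T.ch x) (hw : w ∈ W T x) (a : G.Adj y w)
    (n : ¬ G.Adj y (T.p x)) : w ∈ T.Bd y ∨ T.PW x y w := by
  refine or_iff_not_imp_right.2 fun np => ?_
  obtain ⟨p1, p2, p3⟩ := T.mem_ch.1 hy
  have xy := anc_ch hy
  have hx := xy.mem.1
  obtain ⟨a0, xr, a2, -⟩ := mem_W.1 hw
  have hq := T.p_mem x hx xr
  have xc := T.mem_ch.2 ⟨hx, xr, rfl⟩
  have wd := W_real hx hw
  have qy : T.p x ≠ y := fun e => by
    have := d_ch xc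
    have := d_ch hy
    rw [e] at *
    omega
  obtain ⟨u1, u2⟩ := h.W_exch hx hw (T.prop y p1) y
    (fun m md p q r => by rw [col_step p1 p2 md q (p3 ▸ p), p3, col_step hx xr md p r])
    (col_anc xc xy) (by rw [col_step p1 p2 wd a.ne.symm (p3 ▸ a0.ne.symm), p3, W_col hx hw])
    (by rw [col_self p1]; exact (c_lt hx xr).ne')
    (by rw [col_self p1]; exact (col_ne_D p1 a.ne.symm).symm)
    (fun m md a e => np ⟨y, xy, .refl y p1, .inr ⟨m, md, a, e⟩⟩)
    fun m md a e => np ⟨y, xy, .refl y p1, .inl (port_of hq a2 a md e)⟩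
  exact (mem_Bd' p1 wd).2 ⟨a, h.swap_tr p1 (T.real _ hq) wd qy a.ne.symm n u2 u1
    (T.O_adj _ hq w a2)⟩

theorem WZ_W (k : v ∈ T.WZ Cz Use u) : v ∈ T.R ∧ u ∈ T.O v ∧ v ∈ W T u ∧ Cz v u :=
  let ⟨a, b⟩ := mem_WZ.1 k
  let ⟨c, d, e, _⟩ := mem_WQ.1 a
  ⟨c, (T.mem_NT.1 d).1, mem_W.2 ⟨(T.O_adj v c u (T.mem_NT.1 d).1).symm, e⟩, b⟩

/-- Z-PASS: a child off the grandparent is not charged by the tails of its parent. -/
theorem star_pass (h : IsB T) (hy : y ∈ T.ch x) (hw : w ∈ W T x) (n : ¬ G.Adj y (T.p x))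
    (zp : Cz w y → w ∈ T.O y ∨ CM T w y) (np : ¬ T.PW x y w) : w ∉ T.WZ Cz Use y := fun k => by
  obtain ⟨k1, k2, -, k3⟩ := WZ_W k
  have p1 := (T.mem_ch.1 hy).1
  have b := (T.mem_H.1 (h.Bd_H p1 ((h.star_Bd hy hw (T.O_adj w k1 y k2).symm n).resolve_right
    np))).2.2.1
  have := (W_dep (anc_ch hy).mem.1 hw).2
  have := d_ch hy
  exact (zp k3).elim b (ncm_low k1 k2 b (by omega))

/-- The charged tails of a child are other exits of the parent. -/
theorem WZ_exit (hy : y ∈ T.ch x) : T.WZ Cz Use y ⊆ (T.O x).erase y := fun v k => by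
  obtain ⟨a, -, b, -⟩ := mem_W.1 (WZ_W k).2.2.1
  exact mem_erase.2 ⟨a.ne.symm, (T.mem_ch.1 hy).2.2 ▸ b⟩

/-- GIVER: a child `y` of `x` that misses a vertex of the clique of `x` has load at most one
beyond the exits of `x` outside the clean tails `Z` and the silent exits `E`. -/
theorem giver (h : IsB T) (hy : y ∈ T.ch x) (yo : y ∈ T.O x) (ns : T.NS (T.p x) x)
    (ny : T.NS x y) {Z E : Finset V} (hZ : Z ⊆ W T x) (oZ : Z ⊆ T.O x) (oE : E ⊆ T.O x)
    (dj : Disjoint Z E) (yE : y ∉ E) (sE : ∀ e ∈ E, e ∉ T.WZ Cz Use y)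
    (zp : ∀ w ∈ Z, Cz w y → w ∈ T.O y ∨ CM T w y) (np : ∀ w ∈ W T x, ¬ T.PW x y w)
    (n : ¬ G.Adj y (T.p x) ∨ ∃ w ∈ W T x, ¬ G.Adj y w ∧ T.NS x w) :
    (T.t7 Ct Use y).card + (T.WZ Cz Use y).card + Z.card + E.card ≤ (T.O x).card := by
  have p1 := (T.mem_ch.1 hy).1
  have hx := (anc_ch hy).mem.1
  have yW : ∀ w ∈ W T x, w ≠ y := fun w k e => by
    have := (W_dep hx k).2
    have := d_ch hy
    rw [e] at *
    omega
  have np' : ∀ w ∈ W T x, ¬ T.PW x x w := fun w k ⟨a, a1, a2, a3⟩ =>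
    np w k ⟨a, a1, a2.trans (anc_ch hy), a3⟩
  have a : ((T.WZ Cz Use y \ Z) ∪ (Z ∪ E)).card ≤ ((T.O x).erase y).card :=
    card_le_card (union_subset (sdiff_subset.trans (WZ_exit hy)) (union_subset
      (fun w k => mem_erase.2 ⟨yW w (hZ k), oZ k⟩) fun e k => mem_erase.2 ⟨fun z => yE (z ▸ k), oE k⟩))
  rw [card_union_of_disjoint (disjoint_left.2 fun v p q => (mem_union.1 q).elim
    (mem_sdiff.1 p).2 fun q => sE v q (mem_sdiff.1 p).1), card_union_of_disjoint dj] at a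
  have b := card_erase_add_one yo
  have c := card_sdiff_add_card_inter (T.WZ Cz Use y) Z
  have d := card_t7 (Ct := Ct) (Use := Use) p1
  by_cases g : G.Adj y (T.p x)
  · obtain ⟨w0, w1, w2, w3⟩ := n.resolve_left (not_not.2 g)
    have t : T.t7 Ct Use y = ∅ := eq_empty_of_forall_notMem fun e k =>
      ((h.g0_t hy w1 w2 g).resolve_right (np w0 w1)).2 e (T.mem_NT.1 (mem_t7.1 k).1).1
        (mem_t7.1 k).2.1
    have ad : ∀ v ∈ T.WZ Cz Use y ∩ Z, v ∈ W T x ∧ G.Adj y v := fun v k =>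
      ⟨hZ (mem_inter.1 k).2, (mem_W.1 (WZ_W (mem_inter.1 k).1).2.2.1).1⟩
    have : (T.WZ Cz Use y ∩ Z).card ≤ 1 := card_le_one.2 fun v p v' q =>
      (h.exit_one3 hx yo ns ny (.inr ⟨w0, w1, (yW w0 w1).symm, w2, w3, np' w0 w1⟩) (ad v p).1
        (ad v' q).1 (ad v p).2 (ad v' q).2).resolve_right fun k =>
          k.elim (np' v (ad v p).1) (np' v' (ad v' q).1)
    rw [t, card_empty]
    omega
  · have : T.WZ Cz Use y ∩ Z = ∅ := eq_empty_of_forall_notMem fun v k =>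
      let ⟨k1, k2⟩ := mem_inter.1 k
      h.star_pass hy (hZ k2) g (zp v k2) (np v (hZ k2)) k1
    rw [this, card_empty] at c
    omega

/-- A high exit of `x` is no tail of a child of `x`. -/
theorem high_silent (hy : y ∈ T.ch x) (d : T.d e < T.d x) : e ∉ T.WZ Cz Use y := fun k => by
  have := (T.clo e (WZ_W k).1 y (WZ_W k).2.1).2
  have := d_ch hy
  omega

/-- A vertex with an internal child is charged by `t` and by tails only. -/
theorem load_inner (h : IsB T) (hz : z ∈ T.ch y) (i : T.ch z ≠ ∅)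
    (b : ∀ v ∈ T.R, Base T (EX T Ct Cz) v) (o : ∀ v ∈ T.R, OkT T (EX T Ct Cz) Ok v)
    (nd : ∀ v ∈ T.R, v ∉ T.Dr y ∧ v ∉ T.Dr (T.p y)) :
    T.load7 Ct Cz (T.U6 (EX T Ct Cz) Ok) y = (T.t7 Ct (T.U6 (EX T Ct Cz) Ok) y).card +
      (T.WZ Cz (T.U6 (EX T Ct Cz) Ok) y).card := by
  have hy := (anc_ch hz).mem.1
  have a : T.p7 Ct (T.U6 (EX T Ct Cz) Ok) y = ∅ := eq_empty_of_forall_notMem fun v k =>
    (h.pE_leaf (mem_p7.1 k).1).elim (ne_empty_of_mem hz) (nd v (mem_pE.1 (mem_p7.1 k).1).1).2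
  have c : T.K6 (EX T Ct Cz) (T.U6 (EX T Ct Cz) Ok) y = ∅ := eq_empty_of_forall_notMem fun v k =>
    let ⟨k1, k2, k3, _⟩ := mem_K6.1 k
    i (h.K6_bot k (((h.mem_H2 hy).1 (h.npe7 k1 (b v k1) (o v k1) k2 k3).2).resolve_right
      (nd v k1).1) hz)
  rw [load7, a, c, card_empty]
  rfl

end IsB

end Pool.Agent.Lib.MP_12eaff_co.Acc2
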