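import Pool.Agent.Lib.MP_12eaff_co.Acc2.Cnt5

set_option autoImplicit false
set_option linter.unusedSectionVars false

namespace Pool.Agent.Lib.MP_12eaff_co.Acc2

open Finset Pool.Agent.Lib.MP_12eaff_co.BK
open scoped Classical

variable {V : Type} [Fintype V] {G : SimpleGraph V} {D : ℕ} {F : Fm V}

theorem sw_o {f : V → ℕ} {q w b : V} (h1 : b ≠ q) (h2 : b ≠ w) : (f ∘ Equiv.swap q w) b = f b := by
  rw [Function.comp, Equiv.swap_apply_of_ne_of_ne h1 h2]

/-- The colours seen by `a` after the exchange of `q` and `w`. -/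
theorem sw_see {f : V → ℕ} {q w a m : V} {κ : ℕ} (k : G.Adj a m) (c : (f ∘ Equiv.swap q w) m = κ) :
    G.Adj a q ∧ f w = κ ∨ G.Adj a w ∧ f q = κ ∨ m ≠ q ∧ m ≠ w ∧ f m = κ := by
  by_cases e : m = q
  · exact .inl ⟨e ▸ k, by simpa [e] using c⟩
  by_cases e' : m = w
  exacts [.inr (.inl ⟨e' ▸ k, by simpa [e'] using c⟩), .inr (.inr ⟨e, e', (sw_o e e').symm.trans c⟩)]

theorem uq_swap {f : V → ℕ} {q w a b : V} (h : ∀ m, G.Adj a m → m ≠ b → m ≠ q → m ≠ w → f m ≠ f b)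
    (h1 : b ≠ q) (h2 : b ≠ w) (k1 : G.Adj a q → f w ≠ f b) (k2 : G.Adj a w → f q ≠ f b) :
    Uq G (f ∘ Equiv.swap q w) a b := fun m p n e => by
  rw [sw_o h1 h2] at e
  rcases sw_see p e with k | k | k
  exacts [k1 k.1 k.2, k2 k.1 k.2, h m p n k.1 k.2.1 k.2.2]

namespace IsB

variable {T : Tr G D} {Ct Ok Sb : V → V → Prop} {u w x y z r : V}

open Tr IsA

/-- The parent of `z` and a tail of `z` can be exchanged in `s(z)`. -/
theorem own_swap (h : IsB T) (hz : z ∈ T.R) (hw : w ∈ W T z) (np : ¬ T.PW z z w) :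
    Uq G (T.col z) w (T.p z) ∧ Uq G (T.col z) (T.p z) w :=
  have xr := (mem_W.1 hw).2.1
  h.W_exch hz hw (T.prop z hz) z (fun _ md p _ q => col_step hz xr md p q) (col_par hz xr)
    (W_col hz hw) (by rw [col_self hz]; exact (c_lt hz xr).ne') (T.prop z hz _ _ (mem_W.1 hw).1)
    (fun m md a e => np ⟨z, .refl z hz, .refl z hz, .inr ⟨m, md, a, e⟩⟩)
    fun _ md a e => np ⟨z, .refl z hz, .refl z hz,
      .inl (port_of (T.p_mem z hz xr) (mem_W.1 hw).2.2.1 a md e)⟩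

/-- ENTRY for one member in the pooled account. -/
theorem ent_us (h : IsB T) (hO : ∀ x v, T.ch x ≠ ∅ → Ok x v) (hA : ∀ x v, G.Adj v x → Ok x v)
    (p : Mut T x r) (s1 : Sb x r) (s2 : Sb r x) (hz : z ∈ T.R) (pz : x ∈ T.O z) (nx : ¬ T.Anc x z)
    (nr : ¬ T.Anc r z) (n : ¬ G.Adj z r) :
    T.HasQ (US T Ct Ok Sb) x r ∨ T.HasQ (US T Ct Ok Sb) r x ∨
      LXB T Ok r z ∧ Uq G (T.col z) x r ∧ ∀ w ∈ W T z, G.Adj r w ∨ T.PW z z w := by
  have zx := T.O_adj z hz x pz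
  by_cases u : Uq G (T.col z) x r
  swap
  · exact (h.hand_us hO p s1 s2 hz nx nr (h.probe_tight hz pz) u).imp_right fun k =>
      .inl (k.resolve_right fun k => k.elim (fun k => k.1.2.2.2 (hA _ _ zx.symm))
        fun k => k.1.2.2.2 (hA _ _ zx.symm))
  have xr := T.O_adj x p.hu r p.uw
  have xd := T.real x p.hu
  have rd := T.real r p.hw
  have rz : r ≠ z := fun e => nr (e ▸ .refl _ (e ▸ hz))
  have s := ((h.hcP hz xd rd xr).two_shift (by simp) (by simp) zx.ne.symm rz (h.uq_O hz pz) u xr).2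
  have s' : ∀ κ < D, κ ≠ T.col z r → ∃ m, G.Adj r m ∧ m ≠ x ∧ T.col z m = κ := fun κ a b =>
    let ⟨m, m1, m2, m3⟩ := s κ a b
    ⟨m, m1, m2, (m3.resolve_left fun e => n (e.1 ▸ m1.symm)).2⟩
  obtain ⟨m, m1, m2, m3⟩ := s' _ (T.lt z hz x pz) (T.prop z hz _ _ xr)
  rcases h.hand_us (Ct := Ct) hO p.symm s2 s1 hz nr nx
    (fun κ a b => (s' κ a b).imp fun _ e => ⟨e.1, e.2.2⟩) fun k => k m m1 m2 m3 with k | k | k | k
  · exact .inr (.inl k)
  · exact .inl k
  swap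
  · exact absurd (T.col_r ▸ k.2.1) (T.prop T.r T.r_mem _ _ zx)
  refine .inr (.inr ⟨k, u, fun w hw => or_iff_not_imp_right.2 fun np => by_contra fun a => ?_⟩)
  obtain ⟨⟨-, zr, hq, -⟩, only, -⟩ := k
  obtain ⟨u1, u2⟩ := h.own_swap hz hw np
  have qR := T.p_mem z hz zr
  have zw := (mem_W.1 hw).1
  have qw := T.O_adj _ qR w (mem_W.1 hw).2.2.1
  have qz := h.adj_par hz zr (W_par hw)
  have qr := (T.mem_H.1 hq).1
  have xq := O_ne_p hz pz
  have xw : x ≠ w := fun e => a (e ▸ xr.symm)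
  have rw' : r ≠ w := fun e => n (e ▸ zw)
  have c := (h.hc hz (S := {z, T.p z, w} ∪ {x, r}) (by simp) (by
      simp [T.real z hz, T.real _ qR, W_real hz hw, xd, rd])
    ((Cov.clq (fun a p b q e => by
      have := qz.symm
      have := qw.symm
      have := zw.symm
      simp only [mem_insert, mem_singleton] at p q
      grind)).union (Cov.pair xr))).swap' (by simp) (by simp) qz.ne zw.ne.symm u2 u1
  have cq := T.prop z hz _ _ qr
  obtain ⟨m, m1, -, m3 | m3⟩ := (c.two_shift (by simp) (by simp) zx.ne.symm rz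
    (uq_swap (fun m a b _ _ => h.uq_O hz pz m a b) xq xw (fun _ => h.uq_O hz pz w zw xw.symm)
      fun _ => h.uq_O hz pz _ qz.symm xq.symm)
    (uq_swap (fun m a b _ _ => u m a b) qr.ne.symm rw' (fun _ => (u2 r qr rw').symm) fun _ => cq)
    xr).2 (T.col z (T.p z)) (col_lt hz qR qz.ne) (by rw [sw_o qr.ne.symm rw']; exact cq)
  · exact n (m3.1 ▸ m1.symm)
  rcases sw_see m1 m3.2 with k | k | k
  exacts [T.prop z hz _ _ qw k.2.symm, a k.1,
    k.1 (only m m1 (k.2.2.trans (col_par hz zr)))]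

/-- The test on `z`, its parent, a tail of `z` and a path `y, x, r`, after the exchange. -/
theorem wild_hc (h : IsB T) (h3 : T.NF 3) (hz : z ∈ T.R) (hw : w ∈ W T z) (np : ¬ T.PW z z w)
    (yd : y ∉ T.Dm) (xd : x ∉ T.Dm) (rd : r ∉ T.Dm) (xr : G.Adj x r) :
    HC G D (T.fm z (insert y ({z, T.p z, w} ∪ {x, r}))) z (T.col z ∘ Equiv.swap (T.p z) w) := by
  obtain ⟨u1, u2⟩ := h.own_swap hz hw np
  obtain ⟨zw, zr, a, -⟩ := mem_W.1 hw
  have qR := T.p_mem z hz zr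
  have qw := T.O_adj _ qR w a
  have qz := h.adj_par hz zr (W_par hw)
  exact (h3.hc hz (by simp) (by simp [T.real z hz, T.real _ qR, W_real hz hw, xd, rd, yd])
    (((Cov.clq (fun a p b q e => by
      have := qz.symm
      have := qw.symm
      have := zw.symm
      simp only [mem_insert, mem_singleton] at p q
      grind)).union (Cov.pair xr)).ins y)).swap' (by simp) (by simp) qz.ne zw.ne.symm u2 u1

/-- PAIR for one member in the pooled account. -/
theorem pair_us (h : IsB T) (h3 : T.NF 3) (hO : ∀ x v, T.ch x ≠ ∅ → Ok x v)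
    (hA : ∀ x v, G.Adj v x → Ok x v) (p : Mut T x r) (s1 : Sb x r) (s2 : Sb r x) (hz : z ∈ T.R)
    (pz : y ∈ T.O z) (a : G.Adj y x) (nx : ¬ T.Anc x z) (nr : ¬ T.Anc r z)
    (uq : Uq G (T.col z) y x) (n : ¬ G.Adj y r) (ry : r ≠ y) :
    T.HasQ (US T Ct Ok Sb) x r ∨ T.HasQ (US T Ct Ok Sb) r x ∨
      (r ∈ T.H z ∧ x ∉ T.O z ∧ ∀ m, G.Adj r m → T.col z m ≠ T.col z y) ∨
      (Dec T Ok r z ∧ Uq G (T.col z) x r ∧ (LXB T Ok r z ∨ T.c z = T.c x) ∧ ∀ w ∈ W T z,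
        G.Adj r w ∨ w = y ∨ G.Adj y w ∧ T.c z = T.c x ∨ G.Adj y (T.p z) ∧ T.col z w = T.c x ∨
          T.PW z z w) ∨
      Dec T Ok x z ∧ (LXB T Ok x z ∨ T.c z = T.c r) ∧
        ∀ w ∈ W T z, G.Adj x w ∨ w = y ∨ T.PW z z w := by
  have zy := T.O_adj z hz y pz
  have xr := T.O_adj x p.hu r p.uw
  have xz : x ≠ z := fun e => nx (e ▸ .refl _ (e ▸ hz))
  have rz : r ≠ z := fun e => nr (e ▸ .refl _ (e ▸ hz))
  have yd := O_real hz pz
  have xd := T.real x p.hu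
  have rd := T.real r p.hw
  have cx := col_base hz xd nx
  have cr := col_base hz rd nr
  have lx := col_lt hz p.hu xz
  have yq := O_ne_p hz pz
  have u1 := h.uq_O hz pz
  have hc := h.hcE hz yd xd rd zy xr
  -- the second round: `r` is tight up to the colour of `y` and sees the colour of `x` again
  have two : (∀ κ < D, κ ≠ T.col z r → (∃ m, G.Adj r m ∧ m ≠ x ∧ T.col z m = κ) ∨
      κ = T.col z y ∧ G.Adj r z) → (Uq G (T.col z) x r ∨ ¬ G.Adj z x) →
      T.HasQ (US T Ct Ok Sb) x r ∨ T.HasQ (US T Ct Ok Sb) r x ∨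
      (r ∈ T.H z ∧ x ∉ T.O z ∧ ∀ m, G.Adj r m → T.col z m ≠ T.col z y) ∨
      LXB T Ok r z ∨ Dec T Ok r z ∧ T.c z = T.c x ∧
        ∀ m, G.Adj r m → T.col z m = T.c z → m = T.p z ∨ m = x := fun s u => by
    obtain ⟨m, m1, m2, m3⟩ := (s _ lx (T.prop z hz _ _ xr)).resolve_right
      fun e => T.prop z hz _ _ a e.1.symm
    by_cases t : T.Tight z r
    · rcases h.hand_us (Ct := Ct) hO p.symm s2 s1 hz nr nx t fun k => k m m1 m2 m3 with k | k | k
      exacts [.inr (.inl k), .inl k, .inr (.inr (.inr k))]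
    have t' := t
    simp only [Tr.Tight, not_forall, not_exists, not_and] at t'
    obtain ⟨κ, k1, k2, k3⟩ := t'
    obtain ⟨rfl, e⟩ := (s κ k1 k2).resolve_left fun ⟨m, m1, _, m3⟩ => k3 m m1 m3
    refine .inr (.inr (.inl ⟨((adj_cases hz p.hw e.symm).resolve_left fun o =>
      t (h.probe_tight hz o)).resolve_right fun o => nr (anc_ch o), fun o => ?_, k3⟩))
    obtain ⟨m, m1, -, m3 | m3⟩ := (hc.two_shift (by simp) (by simp) xz rz (h.uq_O hz o)
      (u.resolve_right fun k => k (T.O_adj z hz x o)) xr).2 _ k1 k2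
    exacts [T.prop z hz _ _ a m3.2, k3 m m1 m3.2]
  by_cases u : Uq G (T.col z) x r
  · have key : Dec T Ok r z → (∀ m, G.Adj r m → T.col z m = T.c z → m = T.p z ∨ m = x) →
        ∀ w ∈ W T z, G.Adj r w ∨ w = y ∨ G.Adj y w ∧ T.c z = T.c x ∨
          G.Adj y (T.p z) ∧ T.col z w = T.c x ∨ T.PW z z w := fun d only w hw => by
      by_contra! k
      obtain ⟨k1, k2, k3, k4, np⟩ := k
      obtain ⟨-, u2⟩ := h.own_swap hz hw np
      obtain ⟨zw, zr, b, -⟩ := mem_W.1 hw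
      have qR := T.p_mem z hz zr
      have qw := T.O_adj _ qR w b
      have qz := h.adj_par hz zr (W_par hw)
      have qr := (T.mem_H.1 d.2.2.1).1
      have cq := col_par hz zr
      have nz : ¬ G.Adj r z := fun e => d.2.2.2 (hA _ _ e)
      have xq : x ≠ T.p z := fun e => nx (e ▸ anc_p hz zr)
      have xw : x ≠ w := fun e => k1 (e ▸ xr.symm)
      have rw' : r ≠ w := fun e => nz (e ▸ zw.symm)
      have c := T.prop z hz _ _ qr
      obtain ⟨m, m1, m2, m3⟩ := ((h.wild_hc h3 hz hw np yd xd rd xr).path3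
        (by simp [insert_subset_iff]) zy a xr
        (uq_swap (fun m a b _ _ => u1 m a b) yq (Ne.symm k2) (fun _ => u1 w zw k2)
          fun _ => u1 _ qz.symm yq.symm)
        (uq_swap (fun m a b _ _ => uq m a b) xq xw (fun e => cx ▸ k4 e) fun e => cx ▸ cq ▸ k3 e)
        (uq_swap (fun m a b _ _ => u m a b) qr.ne.symm rw' (fun _ => (u2 r qr rw').symm)
          fun _ => c) n xz ry (col_lt hz qR qz.ne)
        (by rw [sw_o qr.ne.symm rw']; exact c)).resolve_right fun e => nz e.2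
      rcases sw_see m1 m3 with k | k | k
      exacts [T.prop z hz _ _ qw k.2.symm, k1 k.1, (only m m1 (k.2.2.trans cq)).elim k.1 m2]
    rcases two (fun κ => hc.path3 subset_rfl zy a xr u1 uq u n xz ry) (.inl u) with k | k | k | k | k
    exacts [.inl k, .inr (.inl k), .inr (.inr (.inl k)), .inr (.inr (.inr (.inl ⟨k.1, u, .inl k,
      key k.1 fun m a b => .inl (k.2.1 m a b)⟩))),
      .inr (.inr (.inr (.inl ⟨k.1, u, .inr k.2.1, key k.1 k.2.2⟩)))]
  have tx : T.Tight z x := fun κ k e => by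
    obtain ⟨m, m1, -, m3 | m3⟩ := (hc.two_shift (by simp) (by simp) zy.ne.symm xz u1 uq a).2 κ k e
    exacts [⟨y, a.symm, m3.2.symm⟩, ⟨m, m1, m3.2⟩]
  have pre : Dec T Ok x z → ∀ w ∈ W T z, ¬ T.PW z z w → w ≠ y →
      Uq G (T.col z ∘ Equiv.swap (T.p z) w) z y ∧ Uq G (T.col z ∘ Equiv.swap (T.p z) w) y x ∧
      x ≠ w ∧ G.Adj (T.p z) w ∧ G.Adj (T.p z) x ∧ T.col z (T.p z) < D := fun d w hw np k2 => by
    obtain ⟨-, u2⟩ := h.own_swap hz hw np
    obtain ⟨zw, zr, b, -⟩ := mem_W.1 hw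
    have qR := T.p_mem z hz zr
    have qz := h.adj_par hz zr (W_par hw)
    have qx := (T.mem_H.1 d.2.2.1).1
    have xw : x ≠ w := fun e => d.2.2.2 (hA _ _ (e ▸ zw.symm))
    exact ⟨uq_swap (fun m a b _ _ => u1 m a b) yq (Ne.symm k2) (fun _ => u1 w zw k2)
      fun _ => u1 _ qz.symm yq.symm, uq_swap (fun m a b _ _ => uq m a b) qx.ne.symm xw
      (fun _ => (u2 x qx xw).symm) fun _ => T.prop z hz _ _ qx, xw, T.O_adj _ qR w b, qx,
      col_lt hz qR qz.ne⟩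
  rcases h.hand_us (Ct := Ct) hO p s1 s2 hz nx nr tx u with k | k | k | ⟨d, c, only⟩
  · exact .inl k
  · exact .inr (.inl k)
  · refine .inr (.inr (.inr (.inr ⟨k.1, .inl k, fun w hw => ?_⟩)))
    by_contra! e
    obtain ⟨v1, v2, xw, qw, qx, l⟩ := pre k.1 w hw e.2.2 e.2.1
    obtain ⟨m, m1, -, m3 | m3⟩ := ((h.wild_hc h3 hz hw e.2.2 yd xd rd xr).two_shift (by simp)
      (by simp) zy.ne.symm xz v1 v2 a).2 _ l
      (by rw [sw_o qx.ne.symm xw]; exact T.prop z hz _ _ qx)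
    · exact k.1.2.2.2 (hA _ _ (m3.1 ▸ m1))
    rcases sw_see m1 m3.2 with j | j | j
    exacts [T.prop z hz _ _ qw j.2.symm, e.1 j.1,
      j.1 (k.2.1 m m1 (j.2.2.trans (col_par hz k.1.2.1)))]
  by_cases e : ∀ w ∈ W T z, G.Adj x w ∨ w = y ∨ T.PW z z w
  · exact .inr (.inr (.inr (.inr ⟨d, .inr c, e⟩)))
  push Not at e
  obtain ⟨w, hw, e⟩ := e
  obtain ⟨v1, v2, xw, qw, qx, l⟩ := pre d w hw e.2.2 e.2.1
  obtain ⟨u3, u2⟩ := h.own_swap hz hw e.2.2
  have cq := (col_par hz d.2.1).trans (c.trans cr.symm)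
  have nq : ¬ G.Adj r (T.p z) := fun k => T.prop z hz _ _ k cq.symm
  have rq : r ≠ T.p z := fun k => nr (k ▸ anc_p hz d.2.1)
  have nw : ¬ G.Adj r w := fun k => u3 r k.symm rq cq.symm
  have rw' : r ≠ w := fun k => nq (k ▸ qw.symm)
  have same : ∀ m, G.Adj r m → (T.col z ∘ Equiv.swap (T.p z) w) m = T.col z m := fun m k =>
    sw_o (fun z => nq (z ▸ k)) fun z => nw (z ▸ k)
  rcases two (fun κ k1 k2 => ((h.wild_hc h3 hz hw e.2.2 yd xd rd xr).path3
      (by simp [insert_subset_iff]) zy a xr v1 v2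
      (uq_swap (fun m a b j _ k => (only m a (by rw [k, cr, c])).elim j b) rq rw'
        (fun _ k => T.prop z hz _ _ qw (cq.trans k.symm)) fun k => absurd k e.1) n xz ry k1
      (by rwa [sw_o rq rw'])).imp (fun ⟨m, m1, m2, m3⟩ => ⟨m, m1, m2, same m m1 ▸ m3⟩)
      fun k => ⟨by rw [k.1, sw_o yq e.2.1.symm], k.2⟩)
    (.inr fun k => d.2.2.2 (hA _ _ k.symm)) with k | k | k | k | k
  exacts [.inl k, .inr (.inl k), .inr (.inr (.inl k)), absurd (T.mem_H.1 k.1.2.2.1).1.symm nq,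
    absurd (T.mem_H.1 k.1.2.2.1).1.symm nq]

end IsB

end Pool.Agent.Lib.MP_12eaff_co.Acc2
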