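import Pool.Agent.Lib.MP_12eaff_co.Acc2.Cnt2
import Pool.Agent.Lib.MP_12eaff_co.Acc2.Blk

set_option autoImplicit false
set_option linter.unusedSectionVars false

namespace Pool.Agent.Lib.MP_12eaff_co.Acc2

open Finset Pool.Agent.Lib.MP_12eaff_co.BK
open scoped Classical

variable {V : Type} [Fintype V] {G : SimpleGraph V} {D : ℕ}

theorem shift_l {f : V → ℕ} {v u : V} (h : v ≠ u) : shift D f v u v = f u := by
  simp [shift, Function.update_of_ne h]

theorem shift_o {f : V → ℕ} {v u m : V} (h : m ≠ u) (h' : m ≠ v) : shift D f v u m = f m := by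
  simp [shift, Function.update_of_ne h, Function.update_of_ne h']

namespace Tr

variable (T : Tr G D)

/-- The state `y` and the probers of `v` above it. -/
def Vis (v y z : V) : Prop := T.Anc z y ∧ (z = y ∨ v ∈ T.O z)

/-- A highest open witness `a` for the arc `v → u` above the state `y`. -/
def Opn (v u y a x : V) : Prop := x ∈ T.ch a ∧ T.Anc x y ∧ ¬ T.Anc x v ∧ T.c x = T.col v u ∧
  v ∈ T.O a ∧ ¬ T.Anc v a ∧
  ∀ m, G.Adj v m → m ≠ u → (T.PayT v u → m ≠ T.p v) → T.col a m ≠ T.col v u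

/-- The parent of `e = t(u)` probes `u` and is not below the parent of `u`. -/
def CaseA (u e : V) : Prop := e ∈ T.R ∧ e ≠ T.r ∧ u ∈ T.O (T.p e) ∧ ¬ T.Anc u (T.p e) ∧
  ¬ T.Anc (T.p u) (T.p e) ∧ T.c e = T.c (T.p u) ∧
  ∀ m, G.Adj u m → m ≠ e → m ≠ T.p u → T.col (T.p e) m ≠ T.c e

/-- A port ticket for the arc `v → u` in a state of `S`. -/
def PayD (S : V → Prop) (v u : V) : Prop := ∃ z, S z ∧ T.Port z v (T.col v u)

variable {T} {u v e x y z m : V}

theorem PayP.mono {S S' : V → Prop} (h : T.PayP S x v u) (k : ∀ z, S z → S' z) :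
    T.PayP S' x v u := by
  obtain ⟨a, b, c, d, z, p, q⟩ := h
  exact ⟨a, b, c, d, z, k z p, q⟩

theorem PayD.mono {S S' : V → Prop} (h : T.PayD S v u) (k : ∀ z, S z → S' z) :
    T.PayD S' v u := h.imp fun z p => ⟨k z p.1, p.2⟩

theorem PayD.pt {S : V → Prop} (h : T.PayD S v u) (k : ∀ z, S z → z ∈ T.R) : T.PT v u :=
  let ⟨z, a, b⟩ := h; ⟨z, k z a, b⟩

theorem PayD.vis_pt (h : T.PayD (T.Vis x y) v u) : T.PT v u := h.pt fun _ k => k.1.mem.1

theorem IsSig.vis {S : V → Prop} (hS : T.IsSig v S) (hy : S y) :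
    ∀ z, T.Vis v y z → S z := fun z k => k.2.elim (fun e => e ▸ hy)
  fun p => hS.probe z k.1.mem.1 p fun q => hS.nanc y hy (q.trans k.1)

/-- A child, also a passage child, is unique at its parent among the real vertices. -/
theorem ch_uq (hx : x ∈ T.ch v) (hm : m ∉ T.Dm) (a : G.Adj v m) (ne : m ≠ x) :
    T.col v m ≠ T.col v x := by
  obtain ⟨h1, h2, rfl⟩ := T.mem_ch.1 hx
  rw [← col_step h1 h2 hm ne a.ne.symm, col_p_self h1 h2, ← col_par h1 h2]
  exact T.prop x h1 _ _ a.symm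

/-- A neighbour that has a colour in `s(z)` which it has not in `s(v)`. -/
theorem wit0 (hv : v ∈ T.R) (hz : z ∈ T.R) (n : ¬ T.Anc v z) (a : G.Adj v m) {κ : ℕ} (l : κ < D)
    (h1 : T.col z m = κ) (h2 : T.col v m ≠ κ) : (v ≠ T.r ∧ m = T.p v ∧ T.c m = κ) ∨
      (∃ x ∈ T.ch m, v ∈ T.H m ∧ T.tc x v = κ ∧ (T.Anc x v ∧ ¬ T.Anc m z ∨ ¬ T.Anc x v ∧ T.Anc x z)) ∨
      (∃ x ∈ T.ch m, T.Anc x z ∧ ¬ T.Anc x v ∧ T.c x = κ ∧ v ∈ T.O m) ∨ T.Port z v κ := by
  by_cases dm : m ∈ T.Dm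
  · exact .inr (.inr (.inr ⟨m, dm, a, h1, h2⟩))
  by_cases k : T.Anc m z
  · obtain ⟨x, x1, x2⟩ := k.child fun e => by rw [e, col_self hz] at h1; omega
    rw [col_anc x1 x2] at h1
    have q : ¬ T.Anc x v := fun p => h2 (by rw [col_anc x1 p, h1])
    rcases adj_cases k.mem.1 hv a.symm with p | p | p
    exacts [.inr (.inr (.inl ⟨x, x1, x2, q, h1, p⟩)),
      .inr (.inl ⟨x, x1, p, by rw [tc, if_neg q, h1], .inr ⟨q, x2⟩⟩),
      absurd ((anc_ch p).trans k) n]
  · rw [col_base hz dm k] at h1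
    have k' : T.Anc m v := by
      by_contra p
      exact h2 (by rw [col_base hv dm p, h1])
    obtain ⟨x, x1, x2⟩ := k'.child a.ne.symm
    obtain ⟨-, p2, p3⟩ := T.mem_ch.1 x1
    by_cases p : x = v
    · exact .inl ⟨p ▸ p2, by rw [← p3, p], h1⟩
    · exact .inr (.inl ⟨x, x1, F2' x1 x2 p a.symm, by rw [tc, if_pos x2, p3, h1], .inl ⟨x2, k⟩⟩)

/-- A second witness gives a pair, a highest open witness or a port ticket. -/
theorem high (hv : v ∈ T.R) (hu : u ∈ T.O v) (hy : y ∈ T.R) (n : ¬ T.Anc v y) (a : G.Adj v m)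
    (ne : m ≠ u) (np : T.PayT v u → m ≠ T.p v) (hc : T.col y m = T.col v u) :
    (∃ x, T.PayP (T.Vis v y) x v u) ∨ (∃ a x, T.Opn v u y a x) ∨ T.PayD (T.Vis v y) v u := by
  have key : ∀ k z m, T.d z ≤ k → T.Vis v y z → G.Adj v m → m ≠ u → (T.PayT v u → m ≠ T.p v) →
      T.col z m = T.col v u →
      (∃ x, T.PayP (T.Vis v y) x v u) ∨ (∃ a x, T.Opn v u y a x) ∨ T.PayD (T.Vis v y) v u := by
    intro k
    induction k using Nat.strong_induction_on with
    | _ k ih =>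
    intro z m d s a ne np hc
    rcases wit2 hv hu s.1.mem.1 (fun p => n (p.trans s.1)) a ne hc with
      p | ⟨x, k1, k2, k3, k4⟩ | ⟨x, k1, k2, k3, k4, k5, k6⟩ | p
    · exact absurd p.1 (np p.2)
    · exact .inl ⟨x, payP_of hv hu s.1.mem.1 s a ne hc k1 k2 k3 k4⟩
    swap
    · exact .inr (.inr ⟨z, s, p.2⟩)
    by_cases q : ∀ m', G.Adj v m' → m' ≠ u → (T.PayT v u → m' ≠ T.p v) → T.col m m' ≠ T.col v u
    · exact .inr (.inl ⟨m, x, k1, k2.trans s.1, k3, k4, k5, k6, q⟩)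
    push Not at q
    obtain ⟨m', q1, q2, q3, q4⟩ := q
    have := d_ch k1
    have := k2.le
    exact ih (T.d m) (by omega) m m' le_rfl ⟨((anc_ch k1).trans k2).trans s.1, .inr k5⟩ q1 q2 q3 q4
  exact key _ y m le_rfl ⟨.refl y hy, .inl rfl⟩ a ne np hc

theorem t_nr (hu : u ∈ T.R) (he : e ∈ T.O u) (ht : T.PayT u e) : T.p u ≠ T.r := fun z => by
  have := T.lt u hu e he
  rw [ht.2, z, T.c_r] at this
  omega

/-- The parent has its base colour exactly off its subtree. -/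
theorem col_ne_base (hv : v ≠ T.r) (k : T.Anc v y) : T.col y v ≠ T.c v := by
  by_cases e : v = y
  · rw [← e, col_self k.mem.1]
    exact (c_lt k.mem.1 hv).ne'
  · obtain ⟨x, x1, x2⟩ := k.child e
    rw [col_anc x1 x2]
    exact c_ch_ne x1 hv

/-- A third vertex with the colour of the parent. -/
theorem t_alt (hu : u ∈ T.R) (he : e ∈ T.O u) (ht : T.PayT u e) (n : ¬ T.Anc u z)
    (mv : T.col z e ≠ T.col u e)
    (mn : ∀ a ∈ T.R, u ∈ T.O a → ¬ T.Anc u a → T.d a < T.d z → T.col a e = T.col u e)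
    (yz : T.Anc y z) (a : G.Adj u m) (ne : m ≠ e) (np : m ≠ T.p u) (hc : T.col y m = T.col u e) :
    (∃ x, T.PayP (T.Vis u y) x u e) ∨ T.PayZ u e ∨ T.CaseA u e ∨ T.PayD (T.Vis u y) u e := by
  refine (high hu he yz.mem.1 (fun p => n (p.trans yz)) a ne (fun _ => np) hc).imp_right fun q => ?_
  rcases q with ⟨b, x, k1, k2, k3, k4, k5, k6, k7⟩ | q
  swap
  · exact .inr (.inr q)
  have xz := k2.trans yz
  have bz := (anc_ch k1).trans xz
  have bR := bz.mem.1
  have := d_ch k1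
  have := xz.le
  have cb := mn b bR k5 k6 (by omega)
  have er := O_real hu he
  have pth : T.Anc b e ∧ T.Anc e z := by
    by_contra p
    exact mv (by rw [col_diff bz er p, cb])
  have be : b ≠ e := fun p => by
    have := T.lt u hu e he
    rw [← cb, p, col_self pth.1.mem.2] at this
    omega
  have := pth.1.lt be
  have ce : T.c e = T.col u e := by rw [← cb, col_base bR er fun p => by have := p.le; omega]
  have := (T.clo _ hu _ he).2
  have := (T.clo _ bR _ k5).2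
  obtain ⟨p1, p2, p3⟩ := T.mem_ch.1 k1
  obtain rfl : x = e := by
    by_contra p
    exact c_ch_ne ((Anc.under k1 xz pth.1 pth.2 be).ch_of_d p (by omega)) p2 (by rw [ce, k4])
  subst p3
  by_cases q : T.Anc (T.p u) (T.p x)
  · refine .inl ⟨p2, k5, ce.symm, fun m' s t => by_contra fun r => k7 m' s r (fun _ w => ?_)
      (t.trans ce), ch_O k1 (.inr (by omega))⟩
    exact col_ne_base (t_nr hu he ht) q (by rw [← w, t, ce, ht.2, w])
  · exact .inr (.inl ⟨p1, p2, k5, k6, q, ce.trans ht.2, fun m' s t r => ce ▸ k7 m' s t fun _ => r⟩)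

/-- When `t(u)` has to pay an explained arc. -/
theorem t_step {S : V → Prop} (hS : T.IsSig u S) (hu : u ∈ T.R)
    (he : e ∈ T.O u) (ht : T.PayT u e) (ex : T.Expl S u e) :
    (∃ x, T.PayP S x u e) ∨ T.PayZ u e ∨ T.CaseA u e ∨ (∃ z, S z ∧ T.col z e ≠ T.col u e ∧
      (∀ y, S y → T.d y < T.d z → T.col y e = T.col u e) ∧ ¬ T.Anc (T.p u) z ∧
      Uq G (T.col z) u (T.p u)) ∨ T.PayD S u e := by
  have l := T.lt u hu e he
  have : ∃ n z, T.d z = n ∧ S z ∧ T.col z e ≠ T.col u e := by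
    obtain ⟨z, z1, z2⟩ := ex
    exact ⟨_, z, rfl, z1, z2.elim (fun p => by rw [p, col_self (hS.mem z z1), ← p]; omega) id⟩
  obtain ⟨z, z0, z1, z2⟩ := Nat.find_spec this
  have mn : ∀ y, S y → T.d y < T.d z → T.col y e = T.col u e := fun y p q => by
    by_contra r
    exact Nat.find_min this (z0 ▸ q) ⟨y, rfl, p, r⟩
  have zR := hS.mem z z1
  have n := hS.nanc z z1
  by_cases k : ∃ m, G.Adj u m ∧ m ≠ T.p u ∧ T.col z m = T.col u e
  · obtain ⟨m, m1, m2, m3⟩ := k
    exact (t_alt hu he ht n z2 (fun a p q r => mn a (hS.probe a p q r)) (.refl z zR) m1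
      (fun p => z2 (p ▸ m3)) m2 m3).imp (fun ⟨x, p⟩ => ⟨x, p.mono (hS.vis z1)⟩)
      fun p => p.imp_right fun p => p.imp_right fun p => .inr (p.mono (hS.vis z1))
  push Not at k
  obtain ⟨m, m1, m2⟩ := hS.tight z z1 _ l (by
    rw [col_base zR (T.real u hu) n, ← col_par hu ht.1.1]
    exact T.ne_p u hu e he)
  obtain rfl : m = T.p u := by
    by_contra p
    exact k m m1 p m2
  exact .inr (.inr (.inr (.inl ⟨z, z1, z2, mn,
    fun p => col_ne_base (t_nr hu he ht) p (m2.trans ht.2), fun m p q => m2 ▸ k m p q⟩)))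

end Tr

namespace IsB

variable {T : Tr G D} {u v w e y z a b : V}

open Tr IsA

/-- The test on the hole and an edge of real vertices. -/
theorem hcP (h : IsB T) (ha : a ∈ T.R) (hb : b ∉ T.Dm) (hu : u ∉ T.Dm) (k : G.Adj b u) :
    HC G D (T.fm a {a, b, u}) a (T.col a) :=
  h.hc ha (by simp) (by simp [hb, hu, T.real a ha]) (Cov.edge1 k a)

/-- The test on two edges of real vertices. -/
theorem hcE (h : IsB T) (ha : a ∈ T.R) (hb : b ∉ T.Dm) (hu : u ∉ T.Dm) (he : e ∉ T.Dm)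
    (k : G.Adj a b) (k' : G.Adj u e) : HC G D (T.fm a {a, b, u, e}) a (T.col a) :=
  h.hc ha (by simp) (by simp [hb, hu, he, T.real a ha]) (Cov.edges k k')

/-- A vertex that can be swapped with a non-neighbour `q` of the hole is not unique there. -/
theorem swap_tr (h : IsB T) (he : e ∈ T.R) {q : V} (rq : q ∉ T.Dm) (rw' : w ∉ T.Dm) (hq : q ≠ e)
    (hw : w ≠ e) (n : ¬ G.Adj e q) (h1 : Uq G (T.col e) q w) (h2 : Uq G (T.col e) w q)
    (a : G.Adj q w) : ¬ Uq G (T.col e) e w := fun k => by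
  obtain ⟨m, m1, m2⟩ := ((h.hcP he rq rw' a).swap' (u := q) (w := w) (by simp) (by simp) hq hw
    h1 h2).sees (T.full e he w rw' hw)
  by_cases x : m = w
  · rw [x, Function.comp, Equiv.swap_apply_right] at m2
    exact T.prop e he _ _ a m2
  · rw [Function.comp, Equiv.swap_apply_of_ne_of_ne (fun z : m = q => n (z ▸ m1)) x] at m2
    exact k m m1 x m2

/-- The visit `z → u → p u`. -/
theorem t_tok (h : IsB T) (hu : u ∈ T.R) (he : e ∈ T.O u) (ht : T.PayT u e) (hz : z ∈ T.R)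
    (hp : u ∈ T.O z) (n : ¬ T.Anc u z) (n' : ¬ T.Anc (T.p u) z) (uq : Uq G (T.col z) u (T.p u))
    (mv : T.col z e ≠ T.col u e)
    (mn : ∀ a ∈ T.R, u ∈ T.O a → ¬ T.Anc u a → T.d a < T.d z → T.col a e = T.col u e) :
    G.Adj z (T.p u) ∨ T.PayT (T.p u) u ∨ (∃ x, T.PayP (T.Vis (T.p u) z) x (T.p u) u) ∨
      (∃ x m, T.Anc m z ∧ T.p u ∈ T.O m ∧ T.PayP (T.Vis u m) x u e) ∨ T.PayZ u e ∨ T.CaseA u e ∨
      (∃ m x, T.Opn (T.p u) u z m x ∧ ¬ G.Adj m u ∧ T.Anc x e ∧ x ≠ e ∧ T.Anc e z ∧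
        (e = z → G.Adj e x ∨ T.Port m e (T.col e u))) ∨
      T.PayD (T.Vis (T.p u) z) (T.p u) u ∨
      ∃ m, T.Anc m z ∧ T.p u ∈ T.O m ∧ T.PayD (T.Vis u m) u e := by
  obtain ⟨ur, po⟩ := ht.1
  have hq := T.p_mem u hu ur
  have pc : u ∈ T.ch (T.p u) := T.mem_ch.2 ⟨hu, ur, rfl⟩
  have qu := h.adj_par hu ur po
  have cu := col_p_self hu ur
  have qr := t_nr hu he ht
  have ru := T.real u hu
  have rq := T.real _ hq
  have re := O_real hu he
  by_cases k1 : G.Adj z (T.p u)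
  · exact .inl k1
  by_cases k2 : T.PayT (T.p u) u
  · exact .inr (.inl k2)
  have s : ¬ Uq G (T.col z) (T.p u) u := fun p => h.swap_tr hz rq ru
    (fun r => n' (r ▸ .refl _ hq)) (T.O_adj z hz u hp).ne.symm k1 p uq qu (h.uq_O hz hp)
  simp only [Uq, not_forall, not_not] at s
  obtain ⟨m, m1, m2, m3⟩ := s
  rcases high hq po hz n' m1 m2 (fun p => absurd p k2)
    (by rw [m3, cu, col_base hz ru n]) with p | ⟨m, x, o⟩ | p
  · exact .inr (.inr (.inl p))
  swap
  · simp [p]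
  obtain ⟨o1, o2, o3, o4, o5, o6, o7⟩ := id o
  have mz := (anc_ch o1).trans o2
  have mR := mz.mem.1
  have dx := d_ch o1
  have c1 : T.col m u = T.c u := col_base mR ru fun p => n (p.trans mz)
  have c2 : T.col m (T.p u) = T.col u e := by rw [col_base mR rq o6, ht.2]
  have c3 : T.col m x = T.c u := by
    rw [col_base mR o2.real fun p => by have := p.le; omega, o4, cu]
  have na : ¬ G.Adj m u := fun p => ch_uq o1 ru p (fun r => n (r ▸ o2)) (by rw [c1, c3])
  have um : u ≠ m := fun p => n (p ▸ mz)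
  have mq := T.O_adj m mR _ o5
  have qm := mq.ne.symm
  have u1 : Uq G (T.col m) (T.p u) u := fun m' p q => by
    rw [c1, ← cu]
    exact o7 m' p q fun r => absurd r k2
  by_cases k3 : ∃ m', G.Adj u m' ∧ m' ≠ e ∧ m' ≠ T.p u ∧ T.col m m' = T.col u e
  · obtain ⟨m', p1, p2, p3, p4⟩ := k3
    rcases t_alt hu he ht n mv mn mz p1 p2 p3 p4 with ⟨y, p⟩ | p | p | p
    exacts [.inr (.inr (.inr (.inl ⟨y, m, mz, o5, p⟩))), by simp [p], by simp [p],
      .inr (.inr (.inr (.inr (.inr (.inr (.inr (.inr ⟨m, mz, o5, p⟩)))))))]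
  push Not at k3
  have ce : T.col m e = T.col u e := by
    by_contra p
    refine h.swap_tr mR ru rq um qm na (fun m' r t => ?_) u1 qu.symm (h.uq_O mR o5)
    by_cases w : m' = e
    exacts [w ▸ c2 ▸ p, c2 ▸ k3 m' r w t]
  have pth : T.Anc m e ∧ T.Anc e z := by
    by_contra p
    exact mv (by rw [col_diff mz re p, ce])
  have l := T.lt u hu e he
  have me : m ≠ e := fun p => by rw [← ce, p, col_self pth.1.mem.2] at l; omega
  have := pth.1.lt me
  have xe := Anc.under o1 o2 pth.1 pth.2 me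
  have ku : T.c u ≠ T.col u e := ht.2 ▸ c_ch_ne pc qr
  refine .inr (.inr (.inr (.inr (.inr (.inr (.inl
    ⟨m, x, o, na, xe, fun p => ku (by rw [← c3, p, ce]), pth.2, fun ez => ?_⟩))))))
  subst ez
  have ue := T.O_adj u hu e he
  have eq : e ≠ T.p u := O_ne_p hu he
  have s1 := (h.hcE mR rq ru re mq ue).shift (by simp) qm (h.uq_O mR o5)
  have s2 := s1.shift (u := u) (by simp) qu.ne.symm fun m' p q => by
    rw [shift_o qu.ne.symm um]
    by_cases r : m' = m
    · rw [r, shift_l qm.symm, c1, c2]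
      exact ku.symm
    · rw [shift_o p.ne.symm r]
      exact u1 m' p q
  have v1 : ∀ {v}, v ≠ u → v ≠ T.p u → v ≠ m →
      shift D (shift D (T.col m) m (T.p u)) (T.p u) u v = T.col m v := fun p q r => by
    rw [shift_o p q, shift_o q r]
  obtain ⟨m', p1, p2⟩ := s2.uq_sees (by simp) ue.ne.symm (fun m' p q => by
    rw [v1 ue.ne.symm eq me.symm, ce]
    by_cases r : m' = T.p u
    · rw [r, shift_l qu.ne, shift_o qu.ne.symm um, c1]
      exact ku
    · rw [v1 p.ne.symm r fun t => na (t ▸ p.symm)]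
      exact k3 m' p q r) (c_lt hu ur) (by rw [v1 ue.ne.symm eq me.symm, ce]; exact ku)
  have q1 : m' ≠ u := s2.ne_hole (p2 ▸ c_lt hu ur)
  have q2 : m' ≠ T.p u := fun r => T.prop m mR _ _ p1 (by rw [r, ce, c2])
  have q3 : m' ≠ m := fun r => ku (by rw [← p2, r, shift_o um.symm qm.symm, shift_l qm.symm, c2])
  rw [v1 q1 q2 q3] at p2
  by_cases dm : m' ∈ T.Dm
  · exact .inr (port_of hz hp p1 dm (by rw [p2, col_base hz ru n]))
  have pt : T.Anc m m' ∧ T.Anc m' e := by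
    by_contra r
    exact h.uq_O hz hp m' p1 q1 (by rw [col_diff mz dm r, p2, col_base hz ru n])
  have := pt.1.lt q3.symm
  have := pt.2.lt p1.ne.symm
  have := (T.clo _ hu _ he).2
  have := (T.clo _ mR _ o5).2
  have := d_chO pc po
  refine .inl (by_contra fun r => ?_)
  exact c_ch_ne ((Anc.under o1 o2 pt.1 pt.2 q3.symm).ch_of_d (fun t => r (t ▸ p1)) (by omega))
    (T.mem_ch.1 o1).2.1 (by rw [o4, cu, ← p2, col_base mR dm fun t => by have := t.le; omega])

/-- SIB: a sibling `w` of `q` is doubled at every common neighbour in `O q` off the parent, or a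
port changes between the states of `q` and of its parent. -/
theorem sib (h : IsB T) {q : V} (hq : q ∈ T.R) (hr : q ≠ T.r) (hw : w ∈ T.O (T.p q))
    (ns : T.NS (T.p q) w) (hy : y ∈ T.O q) (a1 : G.Adj q w) (a2 : G.Adj y w)
    (n : ¬ G.Adj y (T.p q)) : ¬ Uq G (T.col q) y w ∨
      (∃ m ∈ T.Dm, G.Adj y m ∧ T.col (T.p q) m = T.col q w ∧ T.col q m ≠ T.col q w) ∨
      T.Port (T.p q) q (T.col q y) := by
  by_contra! k
  obtain ⟨k, k1, k2⟩ := k
  have hf := T.p_mem q hq hr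
  have a3 := T.O_adj q hq y hy
  have a4 := T.O_adj _ hf w hw
  have yf := O_ne_p hq hy
  have rw' := O_real hf hw
  have ry := O_real hq hy
  have cl : IsClq G {q, y, w} := fun p hp r hr z => by
    have := a1.symm
    have := a2.symm
    have := a3.symm
    simp only [mem_insert, mem_singleton] at hp hr
    grind
  have cw := col_step hq hr rw' a1.ne.symm a4.ne.symm
  have cy := col_step hq hr ry a3.ne.symm yf
  have no : ¬ (G.Adj y (T.p q) ∨ Sees G {q, y, w} (T.col (T.p q)) y (T.col (T.p q) w)) :=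
    fun p => p.elim n fun ⟨m, m1, m2, m3⟩ => by
      simp only [mem_insert, mem_singleton, not_or] at m2
      refine k m m1 m2.2.2 ?_
      by_cases dm : m ∈ T.Dm
      · exact k1 m dm m1 (m3.trans cw.symm)
      · rw [col_step hq hr dm m2.1 fun z => n (z ▸ m1), cw, m3]
  have h0 := h.hc hf (S := {T.p q, q, y, w}) (by simp)
    (by simp [T.real _ hf, T.real _ hq, ry, rw']) (Cov.clq1 cl _)
  rcases h0.entry (h.dg rw' ns _) (subset_insert _ _) cl
    (by simp [p_ne hq hr, yf.symm, a4.ne]) (by simp) (h.uq_O hf hw) with p | ⟨x, -, -, p⟩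
  · exact no (p y (by simp)).1
  by_cases z : y = x
  · obtain ⟨m, m1, m2, m3⟩ := (p q (by simp) (z ▸ a3.ne)).1
    simp only [mem_insert, mem_singleton, not_or] at m2
    rw [← z, ← cy] at m3
    by_cases dm : m ∈ T.Dm
    · exact k2 (port_of hq hy m1 dm m3)
    refine h.uq_O hq hy m m1 m2.2.1 ?_
    rw [col_step hq hr dm m2.1 (h0.ne_hole (m3 ▸ T.lt q hq y hy)), m3]
  · exact no (p y (by simp) z).2.1

/-- An arc between two vertices of `O q` whose head is a child of `q` has a payer. -/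
theorem n_sib (_ : IsB T) {S : V → Prop} (hS : T.IsSig a S) (ha : a ∈ T.R)
    (hy : y ∈ T.O a) (hr : y ≠ T.r) (hq : a ∈ T.O (T.p y)) (n : ¬ T.Anc y a) :
    T.PayZ a y ∨ T.PayT a y ∨ (∃ x, T.PayP S x a y) ∨ T.PayD S a y := by
  obtain ⟨yR, d1⟩ := T.clo _ ha _ hy
  have qR := T.p_mem y yR hr
  have d2 := T.d_p y yR hr
  have d3 := (T.clo _ qR _ hq).2
  have na : ¬ T.Anc a (T.p y) := fun p => (T.O_adj _ qR a hq).ne (p.eq_of_d (by omega)).symm
  have cy := col_base ha (T.real y yR) n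
  have yc : y ∈ T.ch (T.p y) := T.mem_ch.2 ⟨yR, hr, rfl⟩
  have vis := hS.vis (hS.probe _ qR hq na)
  by_contra! k
  refine k.1 ⟨hr, hq, cy, fun m p q => by_contra fun r => ?_, ch_O yc (.inr (by omega))⟩
  rcases high ha hy qR na p r (fun t => absurd t k.2.1) (q.trans cy.symm) with
    ⟨x, t⟩ | ⟨m, x, o1, o2, -, o4, o5, -⟩ | t
  · exact k.2.2.1 x (t.mono vis)
  · have := o2.lt fun t => c_ch_ne yc (t ▸ (T.mem_ch.1 o1).2.1) (by rw [← t, o4, cy])
    have := d_ch o1
    have := (T.clo _ (anc_ch o1).mem.1 _ o5).2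
    have := d_chO yc (ch_O yc (.inr (by omega)))
    omega
  · exact k.2.2.2 (t.mono vis)

/-- Both doubled neighbours of `u` probe `u`. -/
theorem n_two (h : IsB T) (hu : u ∈ T.R) (ha : a ∈ T.R) (hb : b ∈ T.R) (pa : u ∈ T.O a)
    (pb : u ∈ T.O b) (ab : a ≠ b) (hc : T.col u a = T.col u b) (na : ¬ T.Anc u a)
    (nb : ¬ T.Anc u b) (ba : ¬ T.Anc b a) : T.PayT b u ∨ T.PayT a u ∨
      (∃ x, T.PayP (T.Vis b a) x b u) ∨ (∃ x m, T.Anc m a ∧ b ∈ T.O m ∧ T.PayP (T.Vis a m) x a u) ∨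
      (∃ y s, T.Anc s a ∧ G.Adj u y ∧ y ≠ a ∧ y ≠ b ∧ T.col s y = T.col u a) ∨
      T.PayD (T.Vis b a) b u ∨ ∃ m, T.Anc m a ∧ b ∈ T.O m ∧ T.PayD (T.Vis a m) a u := by
  have au := T.O_adj a ha u pa
  have bu := T.O_adj b hb u pb
  have ur : u ≠ T.r := fun p => na (p ▸ anc_r ha)
  have ru := T.real u hu
  have ra := T.real a ha
  have rb := T.real b hb
  have base : ∀ {a b}, a ∈ T.R → b ∈ T.R → u ∈ T.O a → G.Adj b u → a ≠ b → T.col u a = T.col u b →
      T.col u a = T.c a := fun {a b} p p' q r s t => col_base hu (T.real a p) fun k => by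
    have := T.mem_ch.1 (k.ch_of_d (T.O_adj a p u q).ne (T.clo _ p _ q).2)
    exact h.ne_par hu ur r.symm (T.real b p') (this.2.2 ▸ s.symm)
      (by rw [← t, ← this.2.2, col_par hu ur])
  have ca := base ha hb pa bu ab hc
  have cb := base hb ha pb au ab.symm hc.symm
  have nab : ¬ G.Adj a b := fun p => T.prop u hu _ _ p hc
  by_contra! k
  obtain ⟨k1, k2, k3, k4, k5, k6, k7⟩ := k
  have s : ¬ Uq G (T.col a) b u := fun p => h.swap_tr ha rb ru ab.symm au.ne.symm nab p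
    (fun m q r => by
      rw [col_base ha rb ba, ← cb, ← hc]
      by_cases t : m = a
      · rw [t, col_self ha]
        exact (col_lt hu ha au.ne).ne'
      · exact k5 m a (.refl a ha) q t r) bu (h.uq_O ha pa)
  simp only [Uq, not_forall, not_not] at s
  obtain ⟨m, m1, m2, m3⟩ := s
  rcases high hb pb ha ba m1 m2 (fun p => absurd p k1)
    (by rw [m3, col_base ha ru na, col_base hb ru nb]) with
    ⟨x, p⟩ | ⟨m, x, o1, o2, -, o4, o5, o6, o7⟩ | p
  · exact k3 x p
  swap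
  · exact k6 p
  rw [col_base hb ru nb] at o4 o7
  have ma := (anc_ch o1).trans o2
  have mR := ma.mem.1
  have dx := d_ch o1
  have ku : T.c u ≠ T.col u a := col_base ha ru na ▸ fun p => by
    have := T.prop T.r T.r_mem _ _ au
    rw [T.col_r, ← ca, ← p, col_base ha ru na] at this
    exact this rfl
  have xa := o2.lt fun p => ku (by rw [ca, ← p, o4])
  have c1 : T.col m u = T.c u := col_base mR ru fun p => na (p.trans ma)
  have c2 : T.col m b = T.col u a := by rw [col_base mR rb o6, hc, cb]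
  have am : ¬ T.Anc a m := fun p => by have := p.le; omega
  have c3 : T.col m a = T.col u a := by rw [col_base mR ra am, ca]
  have mu : ¬ G.Adj m u := fun p => ch_uq o1 ru p (fun r => na (r ▸ o2))
    (by rw [c1, col_base mR o2.real fun p => by have := p.le; omega, o4])
  have um : u ≠ m := fun p => na (p ▸ ma)
  have mb := T.O_adj m mR b o5
  have bm := mb.ne.symm
  have ne : a ≠ m := fun p => am (p ▸ .refl _ ha)
  have s1 := (h.hcE mR rb ru ra mb au.symm).shift (by simp) bm (h.uq_O mR o5)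
  have s2 := s1.shift (u := u) (by simp) bu.ne.symm fun m' p q => by
    rw [shift_o bu.ne.symm um, c1]
    by_cases r : m' = m
    · rw [r, shift_l bm.symm, c2]
      exact ku.symm
    · rw [shift_o p.ne.symm r]
      exact o7 m' p q fun t => absurd t k1
  have v1 : ∀ {v}, v ≠ u → v ≠ b → v ≠ m → shift D (shift D (T.col m) m b) b u v = T.col m v :=
    fun p q r => by rw [shift_o p q, shift_o q r]
  obtain ⟨m', p1, p2⟩ := s2.uq_sees (by simp) au.ne (fun m' p q => by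
    rw [v1 au.ne ab ne, c3]
    by_cases r : m' = b
    · rw [r, shift_l bu.ne, shift_o bu.ne.symm um, c1]
      exact ku
    · rw [v1 p.ne.symm r fun t => mu (t ▸ p.symm)]
      exact k5 m' m ma p q r) (c_lt hu ur) (by rw [v1 au.ne ab ne, c3]; exact ku)
  have q1 : m' ≠ u := s2.ne_hole (p2 ▸ c_lt hu ur)
  rw [v1 q1 (fun r => nab (r ▸ p1))
    fun r => ku (by rw [← p2, r, shift_o um.symm bm.symm, shift_l bm.symm, c2])] at p2
  rcases high ha pa mR am p1 q1 (fun p => absurd p k2) (by rw [p2, col_base ha ru na]) with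
    ⟨y, p⟩ | ⟨m2, y, t1, t2, -, -, t5, -⟩ | p
  · exact k4 y m ma o5 p
  · have := d_ch t1
    have := t2.le
    have := (T.clo _ (anc_ch t1).mem.1 _ t5).2
    omega
  · exact k7 m ma o5 p

end IsB

end Pool.Agent.Lib.MP_12eaff_co.Acc2
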