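import Pool.Agent.Lib.MP_12eaff_co.Acc2.PG2

set_option autoImplicit false
set_option linter.unusedSectionVars false

namespace Pool.Agent.Lib.MP_12eaff_co.Acc2

open Finset Pool.Agent.Lib.MP_12eaff_co.BK PV Function
open scoped Classical

variable {V : Type} [Fintype V] {G : SimpleGraph V} {D : ℕ} {U P : Finset V}

/-- A system of counted sets inside `U` with a validity rule `ok F W f` for colourings `f` of the
vertices off `W` (values `≥ D` are holes). -/
structure VS (G : SimpleGraph V) (D : ℕ) (U : Finset V) where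
  fam : Finset (Finset V)
  ok : Finset V → Finset V → (V → ℕ) → Prop
  sub : ∀ F ∈ fam, F ⊆ U
  dj : ∀ F ∈ fam, ∀ F' ∈ fam, ∀ v ∈ F, v ∈ F' → F = F'
  mono : ∀ F ∈ fam, ∀ W W' f f', (∀ m ∈ F, ∀ z, z ∉ W' → G.Adj m z → f' z < D →
    z ∉ W ∧ f z = f' z) → ok F W f → ok F W' f'
  top : ∀ F ∈ fam, ∀ f, ok F univ f
  uniq : ∀ F ∈ fam, ∀ W f z γ δ, U ⊆ W → z ∉ W → f z = D → ok F W f → γ < D → δ < D →
    ¬ ok F W (update f z γ) → ¬ ok F W (update f z δ) → γ = δ

namespace VS

variable (M : VS G D U)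

/-- Valid colourings. -/
def Val (W : Finset V) (f : V → ℕ) : Prop := ∀ F ∈ M.fam, M.ok F W f

/-- No valid colouring of all vertices off `W`. -/
def NoFill (W : Finset V) : Prop := ∀ g : V → ℕ, (∀ a, a ∉ W → g a < D) →
  (∀ a b, a ∉ W → b ∉ W → G.Adj a b → g a ≠ g b) → ¬ M.Val W g

/-- States: hole `z`, parent `q`, valid colouring `f`. -/
structure RS (P : Finset V) where
  z : V
  q : V
  f : V → ℕ
  hz : z ∉ U ∪ P
  hq : q ∉ U ∪ P
  f_z : f z = D
  pr : ∀ a b, a ∉ U ∪ P → b ∉ U ∪ P → G.Adj a b → f a ≠ f b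
  full : ∀ m, m ∉ U ∪ P → m ≠ z → f m < D
  val : M.Val (U ∪ P) f
  pne : ∀ u, u ∉ U ∪ P → G.Adj z u → u ≠ q → f u ≠ f q

/-- The base: a valid colouring with the fewest holes. -/
theorem base (h : M.NoFill U) : ∃ P : Finset V, M.NoFill (U ∪ P) ∧ ∃ s : M.RS P, s.q = s.z := by
  have ex : ∃ n, ∃ Q : Finset V, Q.card = n ∧ ¬ M.NoFill (U ∪ Q) :=
    ⟨_, univ, rfl, fun k => k (fun _ => 0) (fun a p => absurd (by simp) p)
      (fun a _ p => absurd (by simp) p) fun F p => by
        rw [union_eq_right.2 (subset_univ U)]; exact M.top F p _⟩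
  obtain ⟨Q, q1, q2⟩ := Nat.find_spec ex
  have mn : ∀ Q' : Finset V, Q'.card < Q.card → M.NoFill (U ∪ Q') := fun Q' l => by
    by_contra k
    exact Nat.find_min ex (q1 ▸ l) ⟨Q', rfl, k⟩
  obtain ⟨r, r1, r2⟩ : ∃ r ∈ Q, r ∉ U := by
    by_contra! k
    exact q2 (by rwa [union_eq_left.2 k])
  unfold NoFill at q2
  push Not at q2
  obtain ⟨g, g1, g2, g3⟩ := q2
  have e : ∀ a, a ∉ U ∪ Q.erase r → a ≠ r → a ∉ U ∪ Q := fun a p q => by
    simp only [mem_union, mem_erase] at p ⊢; tauto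
  have hr : r ∉ U ∪ Q.erase r := by simp [r2]
  refine ⟨Q.erase r, mn _ (card_erase_lt_of_mem r1), ⟨r, r, update g r D, hr, hr, update_self _ _ _,
    fun a b p q k => ?_, fun m p q => by rw [update_of_ne q]; exact g1 m (e m p q),
    fun F p => M.mono F p _ _ _ _ (fun m _ z a _ c => ?_) (g3 F p), fun u p k q => ?_⟩, rfl⟩
  · by_cases x : a = r
    · have y : b ≠ r := fun y => k.ne (x.trans y.symm)
      have := g1 b (e b q y)
      rw [x, update_self, update_of_ne y]; omega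
    by_cases y : b = r
    · have := g1 a (e a p x)
      rw [y, update_self, update_of_ne x]; omega
    · rw [update_of_ne x, update_of_ne y]; exact g2 a b (e a p x) (e b q y) k
  · have x : z ≠ r := fun x => by rw [x, update_self] at c; omega
    exact ⟨e z a x, (update_of_ne x _ _).symm⟩
  · have := g1 u (e u p q)
    rw [update_self, update_of_ne q]; omega

variable {M}

namespace RS

variable (s : M.RS P)

/-- The colour `γ` is forced at the port from the hole to `m`. -/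
def Fo (m : V) (γ : ℕ) : Prop :=
  γ < D ∧ ∃ F ∈ M.fam, m ∈ F ∧ ¬ M.ok F (U ∪ P) (update s.f s.z γ)

/-- `γ` is the colour of the adjacent parent. -/
def Pa (γ : ℕ) : Prop := G.Adj s.z s.q ∧ γ = s.f s.q

/-- Own ports: the forced colour, otherwise the colour `κ` of the policy. -/
noncomputable def own (κ : ℕ) (m : V) : ℕ :=
  if h : ∃ γ, s.Fo m γ ∧ ¬ s.Pa γ then h.choose else if s.Pa κ then D + 1 else κ

variable {s} {m : V} {γ δ κ : ℕ}

theorem Fo.uniq (a : s.Fo m γ) (b : s.Fo m δ) : γ = δ := by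
  obtain ⟨a1, F, a2, a3, a4⟩ := a
  obtain ⟨b1, F', b2, b3, b4⟩ := b
  obtain rfl := M.dj F a2 F' b2 m a3 b3
  exact M.uniq F a2 _ _ _ _ _ subset_union_left s.hz s.f_z (s.val F a2) a1 b1 a4 b4

theorem own_fo (a : s.Fo m γ) (b : ¬ s.Pa γ) (κ : ℕ) : s.own κ m = γ := by
  have h : ∃ γ, s.Fo m γ ∧ ¬ s.Pa γ := ⟨γ, a, b⟩
  rw [own, dif_pos h]
  exact h.choose_spec.1.uniq a

theorem own_pol (a : ∀ γ, s.Fo m γ → s.Pa γ) (b : ¬ s.Pa κ) : s.own κ m = κ := by
  rw [own, dif_neg (fun ⟨γ, p, q⟩ => q (a γ p)), if_neg b]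

theorem own_cases (s : M.RS P) (κ : ℕ) (m : V) : s.Fo m (s.own κ m) ∧ ¬ s.Pa (s.own κ m) ∨
    (∀ γ, s.Fo m γ → s.Pa γ) ∧ (¬ s.Pa κ ∧ s.own κ m = κ ∨ s.Pa κ ∧ s.own κ m = D + 1) := by
  unfold own
  split_ifs with h k
  · exact .inl h.choose_spec
  · exact .inr ⟨fun γ p => by_contra fun q => h ⟨γ, p, q⟩, .inr ⟨k, rfl⟩⟩
  · exact .inr ⟨fun γ p => by_contra fun q => h ⟨γ, p, q⟩, .inl ⟨k, rfl⟩⟩

theorem own_ne (h : κ ≠ D) (m : V) : s.own κ m ≠ D := by
  rcases s.own_cases κ m with p | ⟨_, p | p⟩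
  exacts [p.1.1.ne, p.2.trans_ne h, by omega]

theorem own_pa (κ : ℕ) (m : V) : ¬ s.Pa (s.own κ m) := by
  rcases s.own_cases κ m with p | ⟨_, p | p⟩
  · exact p.2
  · rw [p.2]; exact p.1
  · intro k
    have := s.full _ s.hq k.1.ne.symm
    have := k.2
    omega

/-- A colour that is forced at no port of the hole keeps the colouring valid. -/
theorem val_update (l : γ < D) (h : ∀ m ∈ U, G.Adj s.z m → ¬ s.Fo m γ) :
    M.Val (U ∪ P) (update s.f s.z γ) := fun F p => by
  by_cases k : ∃ m ∈ F, G.Adj s.z m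
  · obtain ⟨m, a, b⟩ := k
    by_contra c
    exact h m (M.sub F p a) b ⟨l, F, p, a, c⟩
  · exact M.mono F p _ _ _ _ (fun m a z b c _ =>
      ⟨b, (update_of_ne (fun e : z = s.z => k ⟨m, a, e ▸ c.symm⟩) _ _).symm⟩) (s.val F p)

theorem val_shift {u : V} (h : M.Val (U ∪ P) (update s.f s.z (s.f u))) :
    M.Val (U ∪ P) (shift D s.f s.z u) := fun F p =>
  M.mono F p _ _ _ _ (fun m _ z b _ c => ⟨b, by
    have x : z ≠ u := fun x => by rw [x, shift, update_self] at c; omega
    rw [shift, update_of_ne x]⟩) (h F p)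

/-- A colour that no real neighbour of the hole has is forced at one of its ports. -/
theorem fo_of_nofill (h : M.NoFill (U ∪ P)) (l : γ < D)
    (k : ∀ u, u ∉ U ∪ P → G.Adj s.z u → s.f u ≠ γ) : ∃ m ∈ U, G.Adj s.z m ∧ s.Fo m γ := by
  by_contra! c
  refine h _ (fun a p => ?_) (fun a b p q e => ?_) (val_update l c)
  · by_cases x : a = s.z
    · rwa [x, update_self]
    · rw [update_of_ne x]; exact s.full a p x
  · by_cases x : a = s.z
    · rw [x, update_self, update_of_ne (x ▸ e).ne.symm]; exact (k b q (x ▸ e)).symm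
    by_cases y : b = s.z
    · rw [y, update_self, update_of_ne x]; exact k a p (y ▸ e.symm)
    · rw [update_of_ne x, update_of_ne y]; exact s.pr a b p q e

variable (s)

/-- The hole can take the colour of `u`, and `u` becomes the hole. -/
def Mv (u : V) : Prop := u ∉ U ∪ P ∧ u ≠ s.z ∧
  (∀ m, m ∉ U ∪ P → G.Adj s.z m → m ≠ u → s.f m ≠ s.f u) ∧ M.Val (U ∪ P) (shift D s.f s.z u)

/-- The next state. -/
noncomputable def nx (u : V) : M.RS P :=
  if h : s.Mv u then
    { z := u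
      q := s.z
      f := shift D s.f s.z u
      hz := h.1
      hq := s.hz
      f_z := update_self _ _ _
      pr := fun a b p q e => by
        have := s.full u h.1 h.2.1
        have k1 : ∀ a, a ∉ U ∪ P → a ≠ u → update s.f s.z (s.f u) a < D := fun a p _ => by
          by_cases x : a = s.z
          · rwa [x, update_self]
          · rw [update_of_ne x]; exact s.full a p x
        unfold shift
        by_cases x : a = u
        · have y : b ≠ u := (x ▸ e).ne.symm
          rw [x, update_self, update_of_ne y]; exact (k1 b q y).ne'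
        by_cases y : b = u
        · rw [y, update_self, update_of_ne x]; exact (k1 a p x).ne
        rw [update_of_ne x, update_of_ne y]
        by_cases x' : a = s.z
        · rw [x', update_self, update_of_ne (x' ▸ e).ne.symm]
          exact (h.2.2.1 b q (x' ▸ e) y).symm
        by_cases y' : b = s.z
        · rw [y', update_self, update_of_ne x']; exact h.2.2.1 a p (y' ▸ e.symm) x
        · rw [update_of_ne x', update_of_ne y']; exact s.pr a b p q e
      full := fun m p q => by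
        rw [shift, update_of_ne q]
        by_cases x : m = s.z
        · rw [x, update_self]; exact s.full u h.1 h.2.1
        · rw [update_of_ne x]; exact s.full m p x
      val := h.2.2.2
      pne := fun m p e q => by
        rw [shift, update_of_ne e.ne.symm, update_of_ne q, update_of_ne h.2.1.symm, update_self]
        exact (s.pr u m h.1 p e).symm }
  else s

/-- Exits: passages of the hole. -/
def Ex (e : V) : Prop := s.Mv e ∧ ¬ G.Adj s.z e ∧ s.f e ≠ s.f s.q

variable {s}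

theorem nx_eq {u : V} (h : s.Mv u) :
    (s.nx u).z = u ∧ (s.nx u).q = s.z ∧ (s.nx u).f = shift D s.f s.z u := by
  rw [nx, dif_pos h]; exact ⟨rfl, rfl, rfl⟩

theorem mv_arc {u : V} {pol : V → ℕ} (h1 : u ∉ U ∪ P) (h2 : G.Adj s.z u) (h3 : u ≠ s.q)
    (h4 : ∀ m, m ∉ U ∪ P → G.Adj s.z m → m ≠ u → s.f m ≠ s.f u)
    (h5 : ∀ m ∈ U, G.Adj s.z m → s.own (pol m) m ≠ s.f u) : s.Mv u :=
  ⟨h1, h2.ne.symm, h4, val_shift (val_update (s.full u h1 h2.ne.symm) fun m a b c =>
    h5 m a b (own_fo c (fun k => s.pne u h1 h2 h3 k.2) _))⟩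

end RS

variable (M P)

/-- The rules of the robust design: own ports show the forced colour or the colour of the policy
`pol`, test ports are blank (they are chosen after the tree), passages are the exits allowed by
`Xp`. -/
noncomputable def rules (pol : M.RS P → V → ℕ) (hp : ∀ s m, pol s m ≠ D)
    (Xp : M.RS P → V → Prop) : PRules G D U P (M.RS P) where
  hole s := s.z
  par s := s.q
  f s := s.f
  port s z m := if z = s.z then s.own (pol s m) m else D + 1
  X s := univ.filter fun e => s.Ex e ∧ Xp s e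
  wt _ _ := 3
  nx s u := s.nx u
  real s := s.hz
  rpar s := s.hq
  f_hole s := s.f_z
  prop s := s.pr
  full s := s.full
  port_ne s z m := by
    split_ifs
    exacts [RS.own_ne (hp s m) m, by omega]
  port_ok s z m p _ _ := by
    split_ifs with e
    · rw [e, s.f_z]; exact RS.own_ne (hp s m) m
    · have := s.full z p e; omega
  wt3 _ _ := le_rfl
  X_real s u k := let a := (mem_filter.1 k).2.1; ⟨a.1.1, a.2⟩
  par_ne s := s.pne
  own_par s m _ _ a := by
    rw [if_pos rfl]; exact fun e => RS.own_pa _ m ⟨a, e⟩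
  nx_ok s u k := by
    have h : s.Mv u := k.elim (fun k => (mem_filter.1 k).2.1.1) fun ⟨a, b, c, d, e⟩ =>
      RS.mv_arc (pol := pol s) a b c d fun m p q => by simpa using e m p q
    obtain ⟨a, b, c⟩ := RS.nx_eq h
    exact ⟨a, b, fun m _ => congrFun c m⟩

variable {M P}

/-- The tree of the robust design. -/
theorem tree (hd : ∀ v, (nb G v).card ≤ D + 1) (pol : M.RS P → V → ℕ) (hp : ∀ s m, pol s m ≠ D)
    (Xp : M.RS P → V → Prop) {ι : Type} (mb : ι → PV V → Prop) (cl : PV V → ι)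
    (hcl : ∀ u, mb (cl u) u)
    (E : (PV V) × (PV V) × (PV V → ℕ) → ℕ → (PV V) × (PV V) × (PV V → ℕ) → ℕ → PV V → Prop)
    (pf : PV V → PV V → ℕ) (s0 : M.RS P) (h0 : s0.q = s0.z) :
    ∃ (T : Tr (PG G U P) D) (st : V → M.RS P) (q : ι → PV V), PreB T ∧
      T.Dm = PD U P ∧ T.S2 = ∅ ∧ T.r = inl s0.z ∧ st s0.z = s0 ∧
      Own T mb cl q (fun a v u => E (a, T.p a, T.col a) (T.d a) (v, T.p v, T.col v) (T.d v) u)
        pf ∧
      (∀ v ∈ T.R, ∀ a ∈ U ∪ P, D < T.rc v a) ∧
      (∀ z, inl z ∈ T.R → (st z).z = z ∧ T.p (inl z) = inl (st z).q ∧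
        (∀ a, a ∉ U ∪ P → T.rc (inl z) a = (st z).f a) ∧
        ∀ m, T.pc (inl z) z m = (st z).own (pol (st z) m) m) ∧
      (∀ a, inl a ∈ T.R → inl a ≠ T.r → st a = (st (st a).q).nx a ∧
        (inl a ∈ T.O (T.p (inl a)) ∨ (st (st a).q).Ex a ∧ Xp (st (st a).q) a ∧
          T.d (inl a) = T.d (T.p (inl a)) + 3)) ∧
      ∀ z, inl z ∈ T.R → ∀ a, (st z).Ex a → Xp (st z) a → q (cl (inl a)) ∈ T.R ∧
        mb (cl (inl a)) (q (cl (inl a))) ∧ T.d (q (cl (inl a))) ≤ T.d (inl z) + 3 ∧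
        (E (q (cl (inl a)), T.p (q (cl (inl a))), T.col (q (cl (inl a)))) (T.d (q (cl (inl a))))
          (inl z, T.p (inl z), T.col (inl z)) (T.d (inl z)) (inl a) →
          inl a ∈ T.R ∧ T.d (inl a) ≤ T.d (inl z) + 3) := by
  obtain ⟨T, st, q, a, b, c, d, e, f, g, k, l⟩ :=
    (M.rules P pol hp Xp).exists_tr0 hd mb cl hcl E pf s0 h0
  have hz : ∀ z, inl z ∈ T.R → (st (inl z)).z = z := fun z p => (inl_injective (g _ p).1).symm
  refine ⟨T, fun z => st (inl z), q, a, b, c, d, by rw [d] at e; exact e, f, fun v p x r => ?_,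
    fun z p => ⟨hz z p, (g _ p).2.1, fun x r => ?_, fun m => ?_⟩, fun x p r => ?_,
    fun z p x y w => l _ p x (mem_filter.2 ⟨mem_univ _, y, w⟩)⟩
  · rw [Tr.rc, (g v p).2.2]; exact PRules.col_big _ _ r
  · rw [Tr.rc, (g _ p).2.2]; exact PRules.col_l _ _ r
  · rw [Tr.pc, (g _ p).2.2]; exact if_pos (hz z p).symm
  · obtain ⟨k1, k2⟩ := k x p r
    have e : T.p (inl x) = inl (st (inl x)).q := (g _ p).2.1
    rw [e] at k1 k2
    refine ⟨k1, k2.imp (fun y => e ▸ y.2) fun y => ?_⟩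
    have := (mem_filter.1 y.1).2
    exact ⟨this.1, this.2, e ▸ y.2⟩

/-- The slots of a counted set. -/
noncomputable def slots (G : SimpleGraph V) (F : Finset V) : Finset V :=
  univ.filter fun a => ∃ m ∈ F, G.Adj m a

/-- The filling rule from the validity of all tests, one counted set at a time. -/
theorem nf (h : M.NoFill (U ∪ P)) {T : Tr (PG G U P) D} (hD : T.Dm = PD U P)
    (hS : T.Sx = PS (M.fam.image (slots G))) {t : ℕ}
    (k : ∀ v ∈ T.R, ∀ g, Fil G D U P (T.pc v) g → ∀ F ∈ M.fam,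
      Cov G (Chg (U ∪ P) (slots G F) (T.rc v) g) t → M.ok F (U ∪ P) g) : T.NF t :=
  Tr.nf_pg hD hS fun v hv g a b => h g a.lt a.pr fun F p =>
    k v hv g a F p (b _ (mem_image_of_mem _ p))

end VS

end Pool.Agent.Lib.MP_12eaff_co.Acc2
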