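import Pool.Agent.Lib.MP_12eaff_co.Acc2.P12
import Pool.Agent.Lib.MP_12eaff_co.Acc2.Rob

set_option autoImplicit false
set_option linter.unusedSectionVars false

namespace Pool.Agent.Lib.MP_12eaff_co.Acc2

open Finset Pool.Agent.Lib.MP_12eaff_co.BK PV
open scoped Classical

variable {V : Type} [Fintype V] {G : SimpleGraph V} {D : ℕ}

/-- No filling if the changed vertices of every set of `SX` together with the hole have no
independent triple. -/
def Tr.NFh (T : Tr G D) (SX : Finset (Finset V)) : Prop := ∀ z ∈ T.R, ∀ g : V → ℕ,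
  (∀ m ∈ T.Dm, g m = T.col z m) → (∀ m, m ∉ T.Dm → g m < D) → (∀ a b, G.Adj a b → g a ≠ g b) →
  (∀ A ∈ SX, Cov G (insert z (A.filter fun a => g a ≠ T.col z a)) 2) → False

namespace Tr

variable {T : Tr G D} {SX : Finset (Finset V)}

/-- If one slot set of the tree contains all real vertices, the rule with the hole is enough. -/
theorem NFh.nf (h : T.NFh SX) {B : Finset V} (hB : B ∈ T.Sx) (k : ∀ m, m ∉ T.Dm → m ∈ B) :
    T.NF 2 := fun z hz g a b c d => h z hz g a b c fun _ _ => (d B hB).mono fun x p => by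
  rcases mem_insert.1 p with rfl | p
  · exact mem_filter.2 ⟨k x (T.real x hz), by rw [col_self hz]; exact (b x (T.real x hz)).ne⟩
  · exact mem_filter.2 ⟨k x fun e => (mem_filter.1 p).2 (a x e), (mem_filter.1 p).2⟩

theorem NFh.hcx (h : T.NFh SX) {z : V} (hz : z ∈ T.R) {S : Finset V} (h1 : z ∈ S)
    (h2 : ∀ m ∈ S, m ∉ T.Dm) (h3 : ∀ A ∈ SX, Cov G (S.filter fun m => m = z ∨ m ∈ A) 2) :
    HC G D (T.fm z S) z (T.col z) :=
  hc_of hz h1 h2 fun g a b c d => h z hz g b c d fun A p => (h3 A p).mono fun x k => by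
    rcases mem_insert.1 k with rfl | k
    · exact mem_filter.2 ⟨h1, .inl rfl⟩
    · exact mem_filter.2 ⟨by_contra fun q => (mem_filter.1 k).2 (a x q), .inr (mem_filter.1 k).1⟩

end Tr

open Tr IsA IsB in
/-- P2 if the three independent vertices are not slots of one set. -/
theorem IsB.p2h {T : Tr G D} {SX : Finset (Finset V)} {u v v2 : V} (h : IsB T) (nh : T.NFh SX)
    (st : AT.Stat G D T.Dm) (hu : u ∈ T.R) (ns : T.NS (T.p u) u)
    (hv : v ∈ T.Bd (T.p u)) (hv2 : v2 ∈ T.Bd (T.p u)) (vd : v ∉ T.Dm) (vd2 : v2 ∉ T.Dm)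
    (ne : v ≠ v2) (uv : G.Adj u v) (uv2 : G.Adj u v2)
    (h1 : Uq G (T.col (T.p u)) v u) (h2 : Uq G (T.col (T.p u)) v2 u) {Z : Finset V}
    (hZ : Z ⊆ W T u) (c3 : 3 ≤ Z.card)
    (fr : ∀ w ∈ Z, ¬ G.Adj v w → ¬ G.Adj v2 w → ∀ A ∈ SX, ¬ (v ∈ A ∧ v2 ∈ A ∧ w ∈ A)) :
    (∀ w ∈ Z, G.Adj v w) ∨ ∀ w ∈ Z, G.Adj v2 w := by
  refine h.p2' st hu ns hv hv2 vd vd2 ne uv uv2 h1 h2 hZ c3 fun w p n1 n2 => ?_
  obtain ⟨a0, ur, o, -⟩ := mem_W.1 (hZ p)
  have hq := T.p_mem u hu ur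
  have j : ∀ m, m = v ∨ m = v2 ∨ m = w → G.Adj (T.p u) m ∧ G.Adj u m := by
    rintro m (rfl | rfl | rfl)
    exacts [⟨(mem_Bd.1 hv).1, uv⟩, ⟨(mem_Bd.1 hv2).1, uv2⟩, ⟨T.O_adj _ hq _ o, a0⟩]
  have rl : ∀ m ∈ ({T.p u, u, v, v2, w} : Finset V), m ∉ T.Dm := by
    simp [T.real _ hq, T.real u hu, vd, vd2, W_real hu (hZ p)]
  refine nh.hcx hq (mem_insert_self _ _) rl fun A hA => ?_
  obtain ⟨Q, hQ⟩ : ∃ Q : V → Prop, ∀ m, Q m ↔ m = T.p u ∨ m ∈ A := ⟨_, fun _ => Iff.rfl⟩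
  refine (p2_cov (h.adj_par hu ur (W_par (hZ p))) j Q one_le_two ?_).mono fun m k =>
    mem_filter.2 ⟨(mem_filter.1 k).1, (hQ m).2 (mem_filter.1 k).2⟩
  by_contra! z
  have := eq_of_subset_of_card_le (filter_subset _ {v, v2, w}) (card_le_three.trans z)
  simp only [filter_eq_self, hQ] at this
  exact fr w p n1 n2 A hA
    ⟨(this v (by simp)).resolve_left (j v (by simp)).1.ne', (this v2 (by simp)).resolve_left
      (j v2 (by simp)).1.ne', (this w (by simp)).resolve_left (j w (by simp)).1.ne'⟩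

variable {U P : Finset V}

/-- The rule with the hole in terms of the graph. -/
theorem Tr.nfh_pg {T : Tr (PG G U P) D} (hD : T.Dm = PD U P) {SX : Finset (Finset V)}
    (h : ∀ z, inl z ∈ T.R → ∀ g, Fil G D U P (T.pc (inl z)) g →
      (∀ A ∈ SX, Cov G (insert z (Chg (U ∪ P) A (T.rc (inl z)) g)) 2) → False) :
    T.NFh (PS SX) := fun z hz g a b c d => by
  obtain ⟨z, rfl, _⟩ := PD_real (hD ▸ T.real z hz)
  refine h z hz _ (Tr.fil_pg hD a b c) fun A p => cov_pg (d _ (mem_PS rfl p)) fun x k => ?_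
  rcases mem_insert.1 k with rfl | k
  · exact mem_insert_self _ _
  · exact mem_insert_of_mem (mem_filter.2 ⟨mem_map_of_mem _ (mem_Chg.1 k).1, (mem_Chg.1 k).2.2⟩)

/-- The rule with the hole from the validity of all tests, one counted set at a time. -/
theorem VS.nfh {M : VS G D U} (h : M.NoFill (U ∪ P)) {T : Tr (PG G U P) D} (hD : T.Dm = PD U P)
    (k : ∀ z, inl z ∈ T.R → ∀ g, Fil G D U P (T.pc (inl z)) g → ∀ F ∈ M.fam,
      Cov G (insert z (Chg (U ∪ P) (VS.slots G F) (T.rc (inl z)) g)) 2 → M.ok F (U ∪ P) g) :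
    T.NFh (PS (M.fam.image (VS.slots G))) :=
  Tr.nfh_pg hD fun z hz g a b => h g a.lt a.pr fun F p =>
    k z hz g a F p (b _ (mem_image_of_mem _ p))

end Pool.Agent.Lib.MP_12eaff_co.Acc2
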