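import Pool.Agent.Lib.MP_12eaff_co.Acc2.G01
import Pool.Agent.Lib.MP_12eaff_co.ATD

set_option autoImplicit false
set_option linter.unusedSectionVars false

namespace Pool.Agent.Lib.MP_12eaff_co.Acc2

open Finset Pool.Agent.Lib.MP_12eaff_co.BK
open scoped Classical

variable {V : Type} [Fintype V] {G : SimpleGraph V} {D : ℕ} {F : Fm V} {Dm : Finset V}

/-- An edge joined to the path `a b c d` and a common neighbour `e` of `a`, `b`, `c`. -/
theorem k2kite (h : AT.Stat G D Dm) {W : Finset V} (hW : IsClq G W) (oW : ∀ w ∈ W, w ∉ Dm)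
    (h2 : 2 ≤ #W) {a b c d e : V} (o : a ∉ Dm ∧ d ∉ Dm ∧ c ∉ Dm ∧ b ∉ Dm ∧ e ∉ Dm)
    (hx : ∀ w ∈ W, G.Adj w a ∧ G.Adj w d ∧ G.Adj w c ∧ G.Adj w b ∧ G.Adj w e) (ab : G.Adj a b)
    (bc : G.Adj c b) (cd : G.Adj d c) (ae : G.Adj a e) (be : G.Adj b e) (ce : G.Adj c e)
    (ac : ¬ G.Adj a c) (ad : ¬ G.Adj a d) (bd : ¬ G.Adj d b) : False :=
  h.chk_join hW oW 2 h2 ![a, d, c, b, e]
    (AT.inj_of (G := G) _ [(2, 3), (2, 4), (3, 4), (0, 3), (1, 2), (0, 4)]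
      [(0, 1), (0, 2), (1, 3), (1, 4)] (by simp [*])
      (by
        have : a ≠ d := fun z => ac (z ▸ cd)
        have : a ≠ c := fun z => ad (z ▸ cd.symm)
        have : d ≠ b := fun z => ad (z ▸ ab)
        have : d ≠ e := fun z => ad (z ▸ ae)
        simp [*])
      (by decide))
    (by simpa [Fin.forall_fin_succ] using o)
    (fun w hw => by simpa [Fin.forall_fin_succ] using hx w hw)
    [(2, 3), (2, 4), (3, 4), (0, 3), (1, 2), (0, 4)] [(0, 1), (0, 2), (1, 3)] (by decide)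
    (by simp [*]) (by simp [*]) [51581492, 70459698] (by decide +kernel)

/-- P2, static part: if every member of the clique `Z` is adjacent to `v` or `v2`, one of the two
is complete to `Z`. -/
theorem p2_stat (st : AT.Stat G D Dm) {q u v v2 : V} (o : q ∉ Dm ∧ u ∉ Dm ∧ v ∉ Dm ∧ v2 ∉ Dm)
    (qu : G.Adj q u) (qv : G.Adj q v) (qv2 : G.Adj q v2) (uv : G.Adj u v) (uv2 : G.Adj u v2)
    (nv : ¬ G.Adj v v2) {Z : Finset V} (cl : IsClq G Z)
    (hZ : ∀ w ∈ Z, w ∉ Dm ∧ G.Adj q w ∧ G.Adj u w) (one : ∀ w ∈ Z, G.Adj v w ∨ G.Adj v2 w)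
    (c3 : 3 ≤ Z.card) : (∀ w ∈ Z, G.Adj v w) ∨ ∀ w ∈ Z, G.Adj v2 w := by
  by_contra! k
  obtain ⟨⟨w1, a1, n1⟩, w2, a2, n2⟩ := k
  have b1 := (one w1 a1).resolve_left n1
  have b2 := (one w2 a2).resolve_right n2
  have ne' : w1 ≠ w2 := fun e => n1 (e ▸ b2)
  obtain ⟨w, a3, p1, p2⟩ : ∃ w ∈ Z, w ≠ w1 ∧ w ≠ w2 := by
    by_contra! k
    have := card_le_card (s := Z) (t := {w1, w2}) fun w p => by
      have := k w p
      simp only [mem_insert, mem_singleton]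
      tauto
    have := card_le_two (a := w1) (b := w2)
    omega
  have cq : IsClq G {q, u} := fun a p b p' e => by
    have := qu.symm
    simp only [mem_insert, mem_singleton] at p p'
    grind
  have oq : ∀ w ∈ ({q, u} : Finset V), w ∉ Dm := by simp [o]
  rcases one w a3 with p | p
  · refine k2kite st cq oq (by rw [card_pair qu.ne])
      ⟨o.2.2.1, o.2.2.2, (hZ _ a1).1, (hZ _ a2).1, (hZ _ a3).1⟩ (fun z hz => ?_) b2
      (cl _ a1 _ a2 ne') b1 p (cl _ a2 _ a3 p2.symm) (cl _ a1 _ a3 p1.symm) n1 nv n2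
    rcases mem_insert.1 hz with rfl | hz
    · exact ⟨qv, qv2, (hZ _ a1).2.1, (hZ _ a2).2.1, (hZ _ a3).2.1⟩
    · rw [mem_singleton.1 hz]
      exact ⟨uv, uv2, (hZ _ a1).2.2, (hZ _ a2).2.2, (hZ _ a3).2.2⟩
  · refine k2kite st cq oq (by rw [card_pair qu.ne])
      ⟨o.2.2.2, o.2.2.1, (hZ _ a2).1, (hZ _ a1).1, (hZ _ a3).1⟩ (fun z hz => ?_) b1
      (cl _ a2 _ a1 ne'.symm) b2 p (cl _ a1 _ a3 p1.symm) (cl _ a2 _ a3 p2.symm) n2
      (fun e => nv e.symm) n1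
    rcases mem_insert.1 hz with rfl | hz
    · exact ⟨qv2, qv, (hZ _ a2).2.1, (hZ _ a1).2.1, (hZ _ a3).2.1⟩
    · rw [mem_singleton.1 hz]
      exact ⟨uv2, uv, (hZ _ a2).2.2, (hZ _ a1).2.2, (hZ _ a3).2.2⟩

/-- P2: both doubled neighbours of the hole `q` see the colour of `u` only at `u`; then one of
them is complete to every clique of three or more such vertices.  One frame for every member. -/
theorem HC.p2 (st : AT.Stat G D Dm) {f : V → ℕ} {q u v v2 : V} {B Z : Finset V}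
    (h : ∀ w ∈ Z, HC G D ⟨{q, u, v, v2, w}, B⟩ q f) (dq : (nb G q \ B).card ≤ D + 1)
    (du : (nb G u \ B).card ≤ D + 1) (o : q ∉ Dm ∧ u ∉ Dm ∧ v ∉ Dm ∧ v2 ∉ Dm) (qu : G.Adj q u)
    (qv : G.Adj q v) (qv2 : G.Adj q v2) (uv : G.Adj u v) (uv2 : G.Adj u v2) (ne : v ≠ v2)
    (c : f v = f v2) (h1 : Uq G f v u) (h2 : Uq G f v2 u) (cl : IsClq G Z)
    (hZ : ∀ w ∈ Z, w ∉ Dm ∧ G.Adj q w ∧ G.Adj u w ∧ w ≠ v ∧ w ≠ v2 ∧ Uq G f w u)
    (c3 : 3 ≤ Z.card) : (∀ w ∈ Z, G.Adj v w) ∨ ∀ w ∈ Z, G.Adj v2 w := by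
  obtain ⟨w, p⟩ := card_pos.1 (by omega : 0 < Z.card)
  exact p2_stat st o qu qv qv2 uv uv2 (fun e => (h w p).ne e c) cl
    (fun w p => ⟨(hZ w p).1, (hZ w p).2.1, (hZ w p).2.2.1⟩) (fun w p =>
      let ⟨_, z1, z2, z3, z4, z5⟩ := hZ w p
      (h w p).p2_same dq du subset_rfl qu qv qv2 z1 uv uv2 z2 ne c z3 z4 h1 h2 z5) c3

namespace IsB

variable {T : Tr G D} {u v v2 w x e r r' : V}

open Tr IsA

/-- P2 in the tree, with the test frames as a hypothesis. -/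
theorem p2' (h : IsB T) (st : AT.Stat G D T.Dm) (hu : u ∈ T.R) (ns : T.NS (T.p u) u)
    (hv : v ∈ T.Bd (T.p u)) (hv2 : v2 ∈ T.Bd (T.p u)) (vd : v ∉ T.Dm) (vd2 : v2 ∉ T.Dm)
    (ne : v ≠ v2) (uv : G.Adj u v) (uv2 : G.Adj u v2)
    (h1 : Uq G (T.col (T.p u)) v u) (h2 : Uq G (T.col (T.p u)) v2 u) {Z : Finset V}
    (hZ : Z ⊆ W T u) (c3 : 3 ≤ Z.card) (fr : ∀ w ∈ Z, ¬ G.Adj v w → ¬ G.Adj v2 w →
      HC G D (T.fm (T.p u) {T.p u, u, v, v2, w}) (T.p u) (T.col (T.p u))) :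
    (∀ w ∈ Z, G.Adj v w) ∨ ∀ w ∈ Z, G.Adj v2 w := by
  obtain ⟨w0, p0⟩ := card_pos.1 (by omega : 0 < Z.card)
  have ur := (mem_W.1 (hZ p0)).2.1
  have hq := T.p_mem u hu ur
  have qu := h.adj_par hu ur (W_par (hZ p0))
  have qv := (mem_Bd.1 hv).1
  have qv2 := (mem_Bd.1 hv2).1
  refine p2_stat st ⟨T.real _ hq, T.real u hu, vd, vd2⟩ qu qv qv2 uv uv2 (h.Bd_nadj hq hv hv2)
    (fun a p b q => h.W_adj hu ns (hZ p) (hZ q)) (fun w p => ⟨W_real hu (hZ p),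
      T.O_adj _ hq w (mem_W.1 (hZ p)).2.2.1, (mem_W.1 (hZ p)).1⟩) (fun w p => ?_) c3
  have o := (mem_W.1 (hZ p)).2.2.1
  by_contra! k
  exact ((fr w p k.1 k.2).p2_same (h.dgo hq _) (h.dg (T.real u hu) ns _) subset_rfl qu qv qv2
    (T.O_adj _ hq w o) uv uv2 (mem_W.1 (hZ p)).1 ne (h.Bd_col hq hv hv2)
    (fun e => (mem_Bd.1 hv).2.1 (e ▸ h.uq_O hq o)) (fun e => (mem_Bd.1 hv2).2.1 (e ▸ h.uq_O hq o))
    h1 h2 (W_uq hu (hZ p))).elim k.1 k.2

/-- The frame of P2: two adjacent vertices joined to three more. -/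
theorem p2_cov (qu : G.Adj x u) (hx : ∀ m, m = v ∨ m = v2 ∨ m = w → G.Adj x m ∧ G.Adj u m)
    (P : V → Prop) {t : ℕ} (t1 : 1 ≤ t) (h3 : (({v, v2, w} : Finset V).filter P).card ≤ t) :
    Cov G (({x, u, v, v2, w} : Finset V).filter P) t := fun I a b => by
  have m : ∀ y ∈ I, P y ∧ (y = x ∨ y = u ∨ y = v ∨ y = v2 ∨ y = w) := fun y k => by
    simpa [and_comm] using a k
  by_cases k : x ∈ I ∨ u ∈ I
  · refine (card_le_one.2 fun y p z q => ?_).trans t1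
    have := m y p
    have := m z q
    have := hx y
    have := hx z
    have := qu.symm
    have := b x
    have := b u
    grind
  · refine (card_le_card fun y p => ?_).trans h3
    have := m y p
    simp only [mem_filter, mem_insert, mem_singleton]
    grind

/-- P2 in the tree: `t` colour changes are allowed and at most `t` of `v`, `v2`, `w` are slot
vertices. -/
theorem p2 (h : IsB T) (st : AT.Stat G D T.Dm) (hu : u ∈ T.R) (ns : T.NS (T.p u) u)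
    (hv : v ∈ T.Bd (T.p u)) (hv2 : v2 ∈ T.Bd (T.p u)) (vd : v ∉ T.Dm) (vd2 : v2 ∉ T.Dm)
    (ne : v ≠ v2) (uv : G.Adj u v) (uv2 : G.Adj u v2)
    (h1 : Uq G (T.col (T.p u)) v u) (h2 : Uq G (T.col (T.p u)) v2 u) {Z : Finset V}
    (hZ : Z ⊆ W T u) (c3 : 3 ≤ Z.card)
    (fr : T.NF 3 ∨ ∀ w ∈ Z, ¬ G.Adj v w → ¬ G.Adj v2 w → ¬ (T.Sl v ∧ T.Sl v2 ∧ T.Sl w)) :
    (∀ w ∈ Z, G.Adj v w) ∨ ∀ w ∈ Z, G.Adj v2 w := by
  refine h.p2' st hu ns hv hv2 vd vd2 ne uv uv2 h1 h2 hZ c3 fun w p n1 n2 => ?_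
  obtain ⟨a0, ur, o, -⟩ := mem_W.1 (hZ p)
  have hq := T.p_mem u hu ur
  have cv := fun {t} => p2_cov (G := G) (v := v) (v2 := v2) (w := w) (t := t)
    (h.adj_par hu ur (W_par (hZ p))) (by
      rintro m (rfl | rfl | rfl)
      exacts [⟨(mem_Bd.1 hv).1, uv⟩, ⟨(mem_Bd.1 hv2).1, uv2⟩, ⟨T.O_adj _ hq _ o, a0⟩]) T.Sl
  have rl : ∀ m ∈ ({T.p u, u, v, v2, w} : Finset V), m ∉ T.Dm := by
    simp [T.real _ hq, T.real u hu, vd, vd2, W_real hu (hZ p)]
  rcases fr with k | k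
  · exact k.hc' hq (by simp) rl (cv (by omega) ((card_filter_le _ _).trans card_le_three))
  · refine h.nf.hc' hq (by simp) rl (cv one_le_two ?_)
    by_contra! z
    have := eq_of_subset_of_card_le (filter_subset T.Sl {v, v2, w}) (card_le_three.trans z)
    rw [filter_eq_self] at this
    exact k w p n1 n2 ⟨this v (by simp), this v2 (by simp), this w (by simp)⟩

/-- P1, exit part: an exit at the triangle vertex `v` has no neighbour among the tails. -/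
theorem p1_exit (h : IsB T) (hx : x ∈ T.R) (ho : e ∈ T.O x) (n : ¬ G.Adj (T.p x) e)
    (nx : T.NS (T.p x) x) (ns : T.NS (T.p x) e) (hv : v ∈ T.Bd (T.p x)) (hv2 : v2 ∈ T.Bd (T.p x)) (vd : v ∉ T.Dm)
    (vd2 : v2 ∉ T.Dm) (ne : v ≠ v2) (xv : G.Adj x v)
    (uv : Uq G (T.col (T.p x)) v x) {η : ℕ} (l : η < D)
    (h1 : ∀ m, G.Adj v2 m → T.col (T.p x) m ≠ η) (h2 : η ≠ T.col (T.p x) v2)
    (h3 : G.Adj x v2 → η ≠ T.col x e) (ev : G.Adj e v) (hw : w ∈ W T x) :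
    ¬ G.Adj e w ∨ T.Port (T.p x) x (T.col x e) := by
  refine or_iff_not_imp_right.2 fun np ew => ?_
  obtain ⟨a0, xr, a2, -⟩ := mem_W.1 hw
  have hq := T.p_mem x hx xr
  have qx := h.adj_par hx xr (W_par hw)
  have xe := T.O_adj x hx e ho
  obtain ⟨qv, bv, lv⟩ := mem_Bd.1 hv
  have qv2 := (mem_Bd.1 hv2).1
  have c := h.Bd_col hq hv hv2
  have hc := h.hc1 hq
  have uq := st1_uq hx xr ho np
  have cl : IsClq G {x, e, v} := fun a p b p' z => by
    have := xe.symm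
    have := xv.symm
    have := ev.symm
    simp only [mem_insert, mem_singleton] at p p'
    grind
  have s := (h.st1_hc hx xr (W_par hw) (S := {T.p x, v2, x, e, v}) (by simp) (by simp)
    (by simp [T.real _ hq, T.real x hx, O_real hx ho, vd, vd2]) (Cov.clqe cl qv2)).shift
    (by simp) xe.ne.symm uq
  have qe : T.p x ≠ e := (O_ne_p hx ho).symm
  have sv : ∀ m, m ≠ e → m ≠ x → m ≠ T.p x → shift D (T.st1 x) x e m = T.col (T.p x) m :=
    fun m p q r => by rw [shift_o p q, st1_o q r]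
  have ve : v ≠ e := ev.ne.symm
  have v2e : v2 ≠ e := fun z => n (z ▸ qv2)
  have s1 := sv v ve xv.ne.symm qv.ne.symm
  have sx : shift D (T.st1 x) x e x = T.st1 x e := shift_l xe.ne
  have v2x : v2 ≠ x := fun z => hc.ne xv (by rw [c, z])
  have d1 := (h.st1_dbl hx nx ho hw ew.ne np).2 fun z => n z.symm
  have d2 : ¬ Uq G (shift D (T.st1 x) x e) e v := fun k => by
    have nv : ¬ G.Adj v v2 := fun p => hc.ne p c
    have n2 : ¬ G.Adj e v2 := fun p => k v2 p ne.symm (by rw [s1, sv v2 v2e v2x qv2.ne.symm, c])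
    have := hc.ne xv
    have := qv.ne
    have := qv2.ne
    refine s.fill (K := {e, T.p x, v, v2}) (by simp [insert_subset_iff]) (by simp)
      (fun m => if m = v then T.col (T.p x) x else if m = v2 then η else T.col (T.p x) v)
      (fun m _ => ?_) (fun m p ⟨y, e1, e2, e3⟩ => ?_) fun a p b p' z => ?_
    · split_ifs
      exacts [col_lt hq hx qx.ne.symm, l, lv]
    · simp only [mem_insert, mem_singleton, not_or] at p e2
      rcases p with rfl | rfl | rfl | rfl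
      · exact k y e1 e2.2.2.1 (by rw [s1]; simpa [ve.symm, v2e.symm] using e3)
      · simp only [qv.ne, qv2.ne, if_false] at e3
        by_cases z : y = x
        · exact s.ne xv (by rw [s1, ← e3, z])
        · rw [sv y e2.1 z e2.2.1] at e3
          exact hc.double (h.dgo hq _) qv qv2 ne c lv e1 (e3 ▸ lv) e2.2.2.1 e2.2.2.2 v qv
            (Ne.symm e2.2.2.1) e3.symm
      · simp only [if_true] at e3
        by_cases z : y = x
        · refine uq _ qx.symm qe ?_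
          rw [z, sx] at e3
          rw [e3, st1, shift_l qx.ne]
        · exact uv y e1 z (by rw [← e3, sv y e2.1 z e2.2.1])
      · simp only [ne.symm, if_false, if_true] at e3
        by_cases z : y = x
        · exact h3 (z ▸ e1.symm) (by rw [← e3, z, sx, st1_real hx xr (O_real hx ho)])
        · exact h1 y e1 (by rw [← e3, sv y e2.1 z e2.2.1])
    · have := z.symm
      have := z.ne
      simp only [mem_insert, mem_singleton] at p p'
      grind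
  simp only [Uq, not_forall, not_not] at d1 d2
  obtain ⟨m, m1, m2, m3⟩ := d1
  obtain ⟨m', n1, n2, n3⟩ := d2
  have wv : v ≠ w := fun z => bv (z ▸ h.uq_O hq a2)
  have sw := sv w ew.ne.symm a0.ne.symm (T.O_adj _ hq w a2).ne.symm
  rcases s.dbl2 (h.dg (O_real hx ho) ns _) ew m1 ev n1 (Ne.symm m2) (Ne.symm n2) m3.symm n3.symm
    (sw ▸ T.lt _ hq w a2) (s1 ▸ lv) with z | z
  · exact wv z
  · refine h.uq_O hq a2 v qv wv ?_
    rw [← s1, z, m3, sw]

/-- The vertex `t(x)` that probes `x` is not adjacent to the parent. -/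
theorem t_off (h : IsB T) (hx : x ∈ T.R) (ho : e ∈ T.O x) (ht : T.PayT x e) (hp : x ∈ T.O e) :
    ¬ G.Adj (T.p x) e := h.t_nadj hx ho ht fun z => by
  have hq := T.p_mem x hx ht.1.1
  have := (O_mem (O_mem hx ho).1 hp).2
  have := T.d_p x hx ht.1.1
  have := T.d_p _ hq (t_nr hx ho ht)
  have := congrArg T.d z
  omega

/-- A tail off the probing vertex `t(x)` with an open witness is an exception. -/
theorem exc (h : IsB T) (hx : x ∈ T.R) (ho : e ∈ T.NT x) (ht : T.PayT x e) (hp : x ∈ T.O e)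
    (hr : r ∈ T.R) (rx : x ∈ T.O r) (cr : T.col r x = T.c x) (qr : G.Adj (T.p x) r)
    (n : ¬ G.Adj e r) (orc : Uq G (T.col e) x r → ∃ a a', T.Op2 r x e a a') :
    (¬ Uq G (T.col e) x r ∨ ¬ Uq G (T.col e) x (T.p x) ∧ T.c (T.p e) = T.col (T.p x) r) ∨
      ∃ a a', T.Op2 r x e a a' ∧ T.Shw a x (T.col a r) := by
  by_cases uq : Uq G (T.col e) x r
  swap
  · exact .inl (.inl uq)
  obtain ⟨o1, o2⟩ := T.mem_NT.1 ho
  obtain ⟨he, de⟩ := O_mem hx o1
  have hq := T.p_mem x hx ht.1.1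
  have qx := h.adj_par hx ht.1.1 ht.1.2
  have nx := nanc_of_O hx o1 o2
  have qd := T.real _ hq
  have rd := T.real r hr
  obtain ⟨a, a', o⟩ := orc uq
  refine (h.op_slot hr rx cr nx o uq).imp (fun ⟨m, m1, m2, m3, m4, m5⟩ => .inr ?_)
    fun k => ⟨a, a', o, k⟩
  obtain ⟨t1, t2, -⟩ := h.op_tight hr rx cr nx o
  have := d_chO (T.mem_ch.2 ⟨hx, ht.1.1, rfl⟩) ht.1.2
  have := m1.lt m2
  have := m3.le
  have := o.dep
  have := (O_mem hr rx).2
  have := d_chO o.1 (ch_O o.1 (.inr (by omega)))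
  have aR := o.anc.mem.1
  have ce : T.c e = T.c (T.p x) := by
    rw [← ht.2, col_base hx (T.real e he) fun z => O_ne_p hx o1 (T.mem_ch.1
      (z.ch_of_d (T.O_adj x hx e o1).ne.symm (O_mem he hp).2)).2.2.symm]
  have me : m ≠ e := fun z => by
    have qa : ¬ T.Anc (T.p x) a := fun k => by
      have := k.lt fun k => t1 (k ▸ qx.symm)
      omega
    refine T.prop a aR _ _ qr ?_
    rw [col_base aR qd qa, ← ce, ← z, m5.resolve_left fun k => h.t_off hx o1 ht hp (z ▸ k ▸ qr)]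
  have := m3.lt me
  have mc := m3.ch_of_d me (by omega)
  have em := T.O_adj m m3.mem.1 e (ch_O mc (.inr (by omega)))
  obtain ⟨-, p2, p3⟩ := T.mem_ch.1 mc
  have qe : ¬ T.Anc (T.p x) e := fun k =>
    t2 ((k.comp o.2.1 (by omega)).eq_of_d (by omega) ▸ qx.symm)
  refine ⟨fun k => k m m4 (fun z => by have := congrArg T.d z; omega) ?_, ?_⟩
  · rw [col_base he qd qe, ← p3, col_par he p2, ce]
  · rw [p3, m5.resolve_left fun k => n (k ▸ em.symm),
      col_base aR rd fun k => by have := k.le; omega,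
      col_base hq rd fun k => qr.ne (k.eq_of_d (by omega)).symm]

/-- There is only one exception. -/
theorem exc_one (h : IsB T) (hx : x ∈ T.R) (xr : x ≠ T.r) (po : x ∈ T.O (T.p x)) (he : e ∈ T.R)
    (hp : x ∈ T.O e) (ns : T.NS e x) (rd : r ∉ T.Dm) (rd' : r' ∉ T.Dm)
    (a : G.Adj x r) (a' : G.Adj x r') (q : G.Adj (T.p x) r) (q' : G.Adj (T.p x) r')
    (c : T.col (T.p x) r ≠ T.col (T.p x) r')
    (k : ¬ Uq G (T.col e) x r ∨ ¬ Uq G (T.col e) x (T.p x) ∧ T.c (T.p e) = T.col (T.p x) r)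
    (k' : ¬ Uq G (T.col e) x r' ∨ ¬ Uq G (T.col e) x (T.p x) ∧ T.c (T.p e) = T.col (T.p x) r') :
    T.col e r = T.col e r' := by
  have one : ∀ {s t}, s ∉ T.Dm → t ∉ T.Dm → G.Adj x s → G.Adj x t → ¬ Uq G (T.col e) x s →
      ¬ Uq G (T.col e) x t → T.col e s = T.col e t := fun {s t} sd td p p' d d' => by
    simp only [Uq, not_forall, not_not] at d d'
    obtain ⟨m, m1, m2, m3⟩ := d
    obtain ⟨m', n1, n2, n3⟩ := d'
    rcases (h.hc1 he).dbl_nb2 (h.dg (T.real x hx) ns _) (T.O_adj e he x hp).symm (T.lt e he x hp)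
      (h.probe_tight he hp) p m1 p' n1 (Ne.symm m2) (Ne.symm n2) m3.symm n3.symm (col_le he sd)
      (col_le he td) with z | z
    exacts [by rw [z], by rw [z, m3]]
  have qx := (h.adj_par hx xr po).symm
  have qd := T.real _ (T.p_mem x hx xr)
  rcases k with k | k <;> rcases k' with k' | k'
  exacts [one rd rd' a a' k k', absurd (one qd rd qx a k'.1 k) (T.prop e he _ _ q),
    absurd (one qd rd' qx a' k.1 k') (T.prop e he _ _ q'), absurd (k.2.symm.trans k'.2) c]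

/-- P1: only the coincidence of the colours of `v` and of a tail in `s(e)` is left. -/
theorem p1 (h : IsB T) (hx : x ∈ T.R) (ho : e ∈ T.NT x) (ht : T.PayT x e) (hp : x ∈ T.O e)
    (nx : T.NS (T.p x) x) (ns : T.NS (T.p x) e) (nsx : T.NS e x)
    {w1 w2 : V} (ne : w1 ≠ w2) (hw : ∀ w, w = w1 ∨ w = w2 → w ∈ W T x ∧ x ∈ T.O w)
    (hv : v ∈ T.Bd (T.p x)) (hv2 : v2 ∈ T.Bd (T.p x)) (vd2 : v2 ∉ T.Dm) (nv : v ≠ v2)
    (vR : v ∈ T.R)
    (vx : x ∈ T.O v) (cv : T.col v x = T.c x) (uv : Uq G (T.col (T.p x)) v x) {η : ℕ} (l : η < D)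
    (h1 : ∀ m, G.Adj v2 m → T.col (T.p x) m ≠ η) (h2 : η ≠ T.col (T.p x) v2)
    (h3 : G.Adj x v2 → η ≠ T.col x e)
    (orc : ∀ r, r = w1 ∨ r = w2 ∨ r = v → ¬ G.Adj e r → Uq G (T.col e) x r →
      ∃ a a', T.Op2 r x e a a') :
    (¬ G.Adj e v ∧ ∃ w, (w = w1 ∨ w = w2) ∧ ¬ G.Adj e w ∧ T.col e w = T.col e v) ∨
      T.Port (T.p x) x (T.col x e) ∨ ∃ r, (r = w1 ∨ r = w2 ∨ r = v) ∧ ¬ G.Adj e r ∧
        ∃ a a', T.Op2 r x e a a' ∧ T.Shw a x (T.col a r) := by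
  refine or_iff_not_imp_right.2 fun np => ?_
  obtain ⟨np, nq⟩ := not_or.1 np
  have o1 := (T.mem_NT.1 ho).1
  have he := (O_mem hx o1).1
  have hq := T.p_mem x hx ht.1.1
  have n := h.t_off hx o1 ht hp
  have vd := T.real v vR
  have xv := (T.O_adj v vR x vx).symm
  have wq : ∀ w, w = w1 ∨ w = w2 → w ∈ T.O (T.p x) := fun w p => (mem_W.1 (hw w p).1).2.2.1
  have wd : ∀ w, w = w1 ∨ w = w2 → w ∉ T.Dm := fun w p => W_real hx (hw w p).1
  have ex := fun w (p : w = w1 ∨ w = w2) (k : ¬ G.Adj e w) =>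
    (h.exc hx ho ht hp (W_mem hx (hw w p).1) (hw w p).2 (mem_W.1 (hw w p).1).2.2.2.1
      (T.O_adj _ hq w (wq w p)) k (orc w (p.imp_right .inl) k)).resolve_right
      fun z => nq ⟨w, p.imp_right .inl, k, z⟩
  have a := h.W_adj hx nx (hw w1 (.inl rfl)).1 (hw w2 (.inr rfl)).1 ne
  have pe := fun k w (p : w = w1 ∨ w = w2) =>
    (h.p1_exit hx o1 n nx ns hv hv2 vd vd2 nv xv uv l h1 h2 h3 k (hw w p).1).resolve_right np
  have ev : ¬ G.Adj e v := fun k => T.prop e he _ _ a (h.exc_one hx ht.1.1 ht.1.2 he hp nsx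
    (wd w1 (.inl rfl)) (wd w2 (.inr rfl))
    (mem_W.1 (hw w1 (.inl rfl)).1).1 (mem_W.1 (hw w2 (.inr rfl)).1).1
    (T.O_adj _ hq _ (wq w1 (.inl rfl))) (T.O_adj _ hq _ (wq w2 (.inr rfl))) (T.prop _ hq _ _ a)
    (ex w1 (.inl rfl) (pe k w1 (.inl rfl))) (ex w2 (.inr rfl) (pe k w2 (.inr rfl))))
  obtain ⟨w, p, k⟩ : ∃ w, (w = w1 ∨ w = w2) ∧ ¬ G.Adj e w := by
    by_contra! k
    exact ne ((h.exit_one3' hx o1 nx ns (.inl n) (hw w1 (.inl rfl)).1 (hw w2 (.inr rfl)).1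
      (k w1 (.inl rfl)) (k w2 (.inr rfl))).resolve_right np)
  refine ⟨ev, w, p, k, h.exc_one hx ht.1.1 ht.1.2 he hp nsx (wd w p) vd (mem_W.1 (hw w p).1).1 xv
    (T.O_adj _ hq w (wq w p)) (mem_Bd.1 hv).1 (h.uq_O hq (wq w p) v (mem_Bd.1 hv).1
      fun z => (mem_Bd.1 hv).2.1 (z ▸ h.uq_O hq (wq w p))).symm (ex w p k)
    ((h.exc hx ho ht hp vR vx cv (mem_Bd.1 hv).1 ev (orc v (.inr (.inr rfl)) ev)).resolve_right
      fun z => nq ⟨v, .inr (.inr rfl), ev, z⟩)⟩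

end IsB

end Pool.Agent.Lib.MP_12eaff_co.Acc2
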