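import Pool.Agent.Lib.MP_12eaff_co.Acc2.Re
import Pool.Agent.Lib.MP_12eaff_co.Acc2.NF
import Pool.Agent.Lib.MP_12eaff_co.ATD

set_option autoImplicit false
set_option linter.unusedSectionVars false

namespace Pool.Agent.Lib.MP_12eaff_co.Acc2

open Finset Pool.Agent.Lib.MP_12eaff_co.BK
open scoped Classical

/-- Vertices and ports. -/
inductive PV (V : Type) : Type
  | inl (a : V) : PV V
  | inr (e : V × V) : PV V

namespace PV

variable {V : Type}

/-- The vertex that carries a port. -/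
def fst : PV V → V
  | inl a => a
  | inr e => e.1

/-- The vertex behind a port. -/
def snd : PV V → V
  | inl a => a
  | inr e => e.2

theorem inl_injective : Function.Injective (inl : V → PV V) := fun _ _ h => PV.inl.inj h

noncomputable instance [Fintype V] : Fintype (PV V) :=
  Fintype.ofSurjective (Sum.elim inl inr : V ⊕ V × V → PV V) fun x => by
    rcases x with a | e
    exacts [⟨.inl a, rfl⟩, ⟨.inr e, rfl⟩]

end PV

open PV

variable {V : Type} [Fintype V] {G : SimpleGraph V} {D : ℕ} {U P : Finset V}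

/-- The port graph: `U` is deleted, every edge from `z` outside `U ∪ P` to `m ∈ U` becomes a
pendant port `(z, m)`; `P` is the set of parked holes. -/
def PG (G : SimpleGraph V) (U P : Finset V) : SimpleGraph (PV V) where
  Adj x y := match x, y with
    | inl a, inl b => G.Adj a b ∧ a ∉ U ∧ b ∉ U
    | inl a, inr e => a = e.1 ∧ a ∉ U ∪ P ∧ e.2 ∈ U ∧ G.Adj a e.2
    | inr e, inl a => a = e.1 ∧ a ∉ U ∪ P ∧ e.2 ∈ U ∧ G.Adj a e.2
    | inr _, inr _ => False
  symm := ⟨fun x y h => by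
    rcases x with a | a <;> rcases y with b | b
    exacts [⟨h.1.symm, h.2.2, h.2.1⟩, h, h, h]⟩
  loopless := ⟨fun x h => by
    rcases x with a | a
    exacts [h.1.ne rfl, h]⟩

/-- Immobile vertices of the port graph. -/
noncomputable def PD (U P : Finset V) : Finset (PV V) :=
  univ.filter fun x => ∀ a, x = inl a → a ∈ U ∪ P

theorem PG_ll {a b : V} : (PG G U P).Adj (inl a) (inl b) ↔ G.Adj a b ∧ a ∉ U ∧ b ∉ U := Iff.rfl

theorem PG_lr {a : V} {e : V × V} : (PG G U P).Adj (inl a) (inr e) ↔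
    a = e.1 ∧ a ∉ U ∪ P ∧ e.2 ∈ U ∧ G.Adj a e.2 := Iff.rfl

theorem PD_l {a : V} : inl a ∈ PD U P ↔ a ∈ U ∪ P := by simp [PD]

theorem PD_r {e : V × V} : inr e ∈ PD U P := by simp [PD]

theorem PD_real {x : PV V} (h : x ∉ PD U P) : ∃ a, x = inl a ∧ a ∉ U ∪ P := by
  rcases x with a | e
  exacts [⟨a, rfl, fun k => h (PD_l.2 k)⟩, absurd PD_r h]

theorem PG_real {a b : V} (ha : a ∉ U ∪ P) (hb : b ∉ U ∪ P) :
    (PG G U P).Adj (inl a) (inl b) ↔ G.Adj a b :=
  ⟨fun k => k.1, fun k => ⟨k, fun e => ha (mem_union_left _ e), fun e => hb (mem_union_left _ e)⟩⟩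

theorem PG_deg (a : V) : (nb (PG G U P) (inl a)).card ≤ (nb G a).card := by
  refine card_le_card_of_injOn PV.snd (fun x k => ?_) fun x p y q e => ?_
  · have := mem_nb.1 (mem_coe.1 k)
    rcases x with b | b
    exacts [mem_nb.2 this.1, mem_nb.2 this.2.2.2]
  · have p := mem_nb.1 (mem_coe.1 p)
    have q := mem_nb.1 (mem_coe.1 q)
    rcases x with b | b <;> rcases y with c | c
    · exact congrArg inl e
    · exact absurd ((show b = c.2 from e) ▸ q.2.2.1) p.2.2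
    · exact absurd ((show b.2 = c from e) ▸ p.2.2.1) q.2.2
    · exact congrArg inr (Prod.ext (p.1.symm.trans q.1) e)

theorem PG_stat (h : AT.Stat G D (U ∪ P)) : AT.Stat (PG G U P) D (PD U P) :=
  h.comap PV.fst (fun v k => by obtain ⟨a, rfl, e⟩ := PD_real k; exact e)
    (fun u v p q e => by
      obtain ⟨a, rfl, _⟩ := PD_real p
      obtain ⟨b, rfl, _⟩ := PD_real q
      exact congrArg inl e)
    fun u v p q => by
      obtain ⟨a, rfl, p'⟩ := PD_real p
      obtain ⟨b, rfl, q'⟩ := PD_real q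
      exact PG_real p' q'

/-- A real clique of the port graph is a clique of the graph off `U ∪ P`. -/
theorem PG_clq {Q : Finset (PV V)} (h : IsClq (PG G U P) Q) (r : ∀ x ∈ Q, x ∉ PD U P) :
    ∃ Q' : Finset V, IsClq G Q' ∧ Q'.card = Q.card ∧ ∀ a ∈ Q', a ∉ U ∪ P := by
  refine ⟨Q.preimage inl inl_injective.injOn, fun a p b q e =>
    (h _ (mem_preimage.1 p) _ (mem_preimage.1 q) (inl_injective.ne e)).1, ?_,
    fun a p k => r _ (mem_preimage.1 p) (PD_l.2 k)⟩
  rw [card_preimage]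
  exact congrArg card (filter_true_of_mem fun x k => by
    obtain ⟨a, rfl, _⟩ := PD_real (r x k); exact ⟨a, rfl⟩)

/-- Rules with ports: `f s` colours the vertices off `U ∪ P`, `port s z m` is the colour shown by
the edge from `z` to `m ∈ U` (values `> D` are blank). -/
structure PRules (G : SimpleGraph V) (D : ℕ) (U P : Finset V) (St : Type) where
  hole : St → V
  par : St → V
  f : St → V → ℕ
  port : St → V → V → ℕ
  X : St → Finset V
  wt : St → V → ℕ
  nx : St → V → St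
  real : ∀ s, hole s ∉ U ∪ P
  rpar : ∀ s, par s ∉ U ∪ P
  f_hole : ∀ s, f s (hole s) = D
  prop : ∀ s a b, a ∉ U ∪ P → b ∉ U ∪ P → G.Adj a b → f s a ≠ f s b
  full : ∀ s m, m ∉ U ∪ P → m ≠ hole s → f s m < D
  port_ne : ∀ s z m, port s z m ≠ D
  port_ok : ∀ s z m, z ∉ U ∪ P → m ∈ U → G.Adj z m → port s z m ≠ f s z
  wt3 : ∀ s u, 3 ≤ wt s u
  X_real : ∀ s, ∀ u ∈ X s, u ∉ U ∪ P ∧ ¬ G.Adj (hole s) u ∧ f s u ≠ f s (par s)
  par_ne : ∀ s u, u ∉ U ∪ P → G.Adj (hole s) u → u ≠ par s → f s u ≠ f s (par s)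
  own_par : ∀ s, ∀ m ∈ U, G.Adj (hole s) m → G.Adj (hole s) (par s) →
    port s (hole s) m ≠ f s (par s)
  nx_ok : ∀ s u, (u ∈ X s ∨ (u ∉ U ∪ P ∧ G.Adj (hole s) u ∧ u ≠ par s ∧
      (∀ m, m ∉ U ∪ P → G.Adj (hole s) m → m ≠ u → f s m ≠ f s u) ∧
      ∀ m ∈ U, G.Adj (hole s) m → port s (hole s) m ≠ f s u)) →
    hole (nx s u) = u ∧ par (nx s u) = hole s ∧
      ∀ m, m ∉ U ∪ P → f (nx s u) m = shift D (f s) (hole s) u m

namespace PRules

variable {St : Type} (M : PRules G D U P St)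

/-- The colouring of the port graph in a state. -/
noncomputable def col (s : St) : PV V → ℕ
  | inl a => if a ∈ U ∪ P then D + 1 + (Fintype.equivFin V a : ℕ) else M.f s a
  | inr e => M.port s e.1 e.2

/-- Real arcs. -/
def Arc (s : St) (u : V) : Prop := u ∉ U ∪ P ∧ G.Adj (M.hole s) u ∧ u ≠ M.par s ∧
  (∀ m, m ∉ U ∪ P → G.Adj (M.hole s) m → m ≠ u → M.f s m ≠ M.f s u) ∧
    ∀ m ∈ U, G.Adj (M.hole s) m → M.port s (M.hole s) m ≠ M.f s u

/-- Release: a colouring of the real vertices that avoids all ports and gains and loses every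
colour on at most `t` vertices with a neighbour in `U ∪ P` does not exist. -/
def Rel (t : ℕ) (s : St) : Prop := ∀ g : V → ℕ, (∀ a, a ∉ U ∪ P → g a < D) →
  (∀ a b, a ∉ U ∪ P → b ∉ U ∪ P → G.Adj a b → g a ≠ g b) →
  (∀ z m, z ∉ U ∪ P → m ∈ U → G.Adj z m → g z ≠ M.port s z m) →
  (∀ κ < D, (univ.filter fun a => a ∉ U ∪ P ∧ (∃ m ∈ U ∪ P, G.Adj a m) ∧ g a = κ ∧
    M.f s a ≠ κ).card ≤ t) →
  (∀ κ < D, (univ.filter fun a => a ∉ U ∪ P ∧ (∃ m ∈ U ∪ P, G.Adj a m) ∧ M.f s a = κ ∧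
    g a ≠ κ).card ≤ t) → False

theorem col_l (s : St) {a : V} (h : a ∉ U ∪ P) : M.col s (inl a) = M.f s a := if_neg h

theorem col_r (s : St) (e : V × V) : M.col s (inr e) = M.port s e.1 e.2 := rfl

theorem col_big (s : St) {a : V} (h : a ∈ U ∪ P) : D < M.col s (inl a) := by
  rw [col, if_pos h]; omega

theorem f_le (s : St) {a : V} (h : a ∉ U ∪ P) : M.f s a ≤ D := by
  by_cases e : a = M.hole s
  exacts [(e ▸ M.f_hole s).le, (M.full s a h e).le]

theorem col_prop (s : St) (x y : PV V) (h : (PG G U P).Adj x y) : M.col s x ≠ M.col s y := by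
  have k : ∀ a e, (PG G U P).Adj (inl a) (inr e) → M.col s (inl a) ≠ M.col s (inr e) :=
    fun a e h => by
      rw [M.col_l s h.2.1, col_r, ← h.1]; exact (M.port_ok s a e.2 h.2.1 h.2.2.1 h.2.2.2).symm
  rcases x with a | a <;> rcases y with b | b
  · by_cases p : a ∈ U ∪ P <;> by_cases q : b ∈ U ∪ P
    · rw [col, col, if_pos p, if_pos q]
      intro e
      exact h.1.ne ((Fintype.equivFin V).injective (Fin.ext (by omega)))
    · have := M.col_big s p
      have := M.f_le s q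
      rw [M.col_l s q]; omega
    · have := M.col_big s q
      have := M.f_le s p
      rw [M.col_l s p]; omega
    · rw [M.col_l s p, M.col_l s q]; exact M.prop s a b p q h.1
  exacts [k a b h, (k b a h).symm, h.elim]

theorem arc_iff (s : St) {u : V} (hu : u ∉ U ∪ P) : M.Arc s u ↔
    (PG G U P).Adj (inl (M.hole s)) (inl u) ∧ (inl u : PV V) ≠ inl (M.par s) ∧
      Uq (PG G U P) (M.col s) (inl (M.hole s)) (inl u) := by
  rw [PG_real (M.real s) hu, inl_injective.ne_iff]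
  refine ⟨fun ⟨_, a, b, c, d⟩ => ⟨a, b, fun x p q => ?_⟩, fun ⟨a, b, c⟩ =>
    ⟨hu, a, b, fun m p q r => ?_, fun m p q => ?_⟩⟩
  · rw [M.col_l s hu]
    rcases x with m | e
    · by_cases k : m ∈ U ∪ P
      · have := M.col_big s k
        have := M.f_le s hu
        omega
      · rw [M.col_l s k]; exact c m k p.1 fun e => q (congrArg inl e)
    · rw [col_r, ← p.1]; exact d _ p.2.2.1 p.2.2.2
  · have := c (inl m) ((PG_real (M.real s) p).2 q) (inl_injective.ne r)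
    rwa [M.col_l s p, M.col_l s hu] at this
  · have := c (inr (M.hole s, m)) ⟨rfl, M.real s, p, q⟩ (by simp)
    rwa [M.col_l s hu] at this

/-- The rules of the port graph. -/
noncomputable def rules : Rules (PG G U P) D (PD U P) St where
  hole s := inl (M.hole s)
  par s := inl (M.par s)
  f := M.col
  O s := (univ.filter (M.Arc s)).map ⟨inl, inl_injective⟩
  X s := (M.X s).map ⟨inl, inl_injective⟩
  wt s x := M.wt s x.fst
  nx s x := M.nx s x.fst
  real s k := M.real s (PD_l.1 k)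
  prop := M.col_prop
  full s m p q := by
    obtain ⟨a, rfl, k⟩ := PD_real p
    rw [M.col_l s k]; exact M.full s a k fun e => q (congrArg inl e)
  dm_ne s m k := by
    rcases m with a | e
    exacts [(M.col_big s (PD_l.1 k)).ne', M.port_ne s _ _]
  wt3 s _ := M.wt3 s _
  O_adj s u k := by
    obtain ⟨a, p, rfl⟩ := mem_map.1 k
    exact ((M.arc_iff s (mem_filter.1 p).2.1).1 (mem_filter.1 p).2).1
  X_nadj s u k e := by
    obtain ⟨a, p, rfl⟩ := mem_map.1 k
    exact (M.X_real s a p).2.1 e.1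
  uniq s u k := by
    obtain ⟨a, p, rfl⟩ := mem_map.1 k
    exact ((M.arc_iff s (mem_filter.1 p).2.1).1 (mem_filter.1 p).2).2.2
  ne_p s u k := by
    rcases k with k | k <;> obtain ⟨a, p, rfl⟩ := mem_map.1 k
    · obtain ⟨p1, p2, p3, _⟩ := (mem_filter.1 p).2
      exact (M.col_l s p1).trans_ne ((M.par_ne s a p1 p2 p3).trans_eq (M.col_l s (M.rpar s)).symm)
    · obtain ⟨p1, _, p3⟩ := M.X_real s a p
      exact (M.col_l s p1).trans_ne (p3.trans_eq (M.col_l s (M.rpar s)).symm)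
  nx_hole s u k := by
    rcases k with k | k <;> obtain ⟨a, p, rfl⟩ := mem_map.1 k
    exacts [congrArg inl (M.nx_ok s a (.inr (mem_filter.1 p).2)).1,
      congrArg inl (M.nx_ok s a (.inl p)).1]
  nx_par s u k := by
    rcases k with k | k <;> obtain ⟨a, p, rfl⟩ := mem_map.1 k
    exacts [congrArg inl (M.nx_ok s a (.inr (mem_filter.1 p).2)).2.1,
      congrArg inl (M.nx_ok s a (.inl p)).2.1]
  nx_f s u k m md := by
    obtain ⟨b, rfl, q⟩ := PD_real md
    have key : ∀ a, a ∉ U ∪ P → M.f (M.nx s a) b = shift D (M.f s) (M.hole s) a b →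
        M.col (M.nx s a) (inl b) = shift D (M.col s) (inl (M.hole s)) (inl a) (inl b) :=
      fun a p e => by
        rw [M.col_l _ q, e]
        simp only [shift, Function.update_apply, inl.injEq, M.col_l s p, M.col_l s q]
    rcases k with k | k <;> obtain ⟨a, p, rfl⟩ := mem_map.1 k
    exacts [key a (mem_filter.1 p).2.1 ((M.nx_ok s a (.inr (mem_filter.1 p).2)).2.2 b q),
      key a (M.X_real s a p).1 ((M.nx_ok s a (.inl p)).2.2 b q)]

theorem mem_O {s : St} {x : PV V} : x ∈ M.rules.O s ↔ ∃ a, M.Arc s a ∧ x = inl a := by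
  simp [rules, eq_comm]

theorem mem_X {s : St} {x : PV V} : x ∈ M.rules.X s ↔ ∃ a ∈ M.X s, x = inl a := by
  simp [rules, eq_comm]

/-- The release property gives the filling rule. -/
theorem nf {T : Tr (PG G U P) D} (hD : T.Dm = PD U P) {A : Finset (PV V)} (hA : A ∈ T.Sx)
    (sl : ∀ x, x ∉ U ∪ P → (∃ m ∈ U ∪ P, G.Adj x m) → inl x ∈ A) {st : PV V → St}
    (hs : ∀ v ∈ T.R, M.col (st v) = T.col v) {t : ℕ} (h : ∀ v ∈ T.R, M.Rel t (st v)) :
    T.NFc t := fun z hz g a b c d e => by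
  rw [← hs z hz] at a d e
  refine h z hz (fun x => g (inl x)) (fun x p => b _ fun k => p (PD_l.1 (hD ▸ k)))
    (fun x y p q r => c _ _ ((PG_real p q).2 r))
    (fun x m p q r => (c (inl x) (inr (x, m)) ⟨rfl, p, q, r⟩).trans_eq (a _ (hD ▸ PD_r)))
    (fun κ l => le_trans ?_ (d A hA κ l)) fun κ l => le_trans ?_ (e A hA κ l)
  all_goals
    refine card_le_card_of_injOn inl (fun x k => ?_) inl_injective.injOn
    obtain ⟨_, k1, k2, k3⟩ := mem_filter.1 (mem_coe.1 k)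
    exact mem_coe.2 (mem_filter.2 ⟨sl x k1 k2, by rwa [M.col_l _ k1]⟩)

/-- The tree on the port graph, with ownership and priorities. -/
theorem exists_tr0 (hd : ∀ v, (nb G v).card ≤ D + 1) {ι : Type}
    (mb : ι → PV V → Prop) (cl : PV V → ι) (hcl : ∀ u, mb (cl u) u)
    (E : (PV V) × (PV V) × (PV V → ℕ) → ℕ →
      (PV V) × (PV V) × (PV V → ℕ) → ℕ → PV V → Prop)
    (pf : PV V → PV V → ℕ) (s0 : St) (h0 : M.par s0 = M.hole s0) :
    ∃ (T : Tr (PG G U P) D) (st : PV V → St) (q : ι → PV V), PreB T ∧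
      T.Dm = PD U P ∧ T.S2 = ∅ ∧ T.r = inl (M.hole s0) ∧ st T.r = s0 ∧
      Own T mb cl q (fun a v u => E (a, T.p a, T.col a) (T.d a) (v, T.p v, T.col v) (T.d v) u)
        pf ∧
      (∀ v ∈ T.R, v = inl (M.hole (st v)) ∧ T.p v = inl (M.par (st v)) ∧ T.col v = M.col (st v)) ∧
      (∀ a, inl a ∈ T.R → inl a ≠ T.r → st (inl a) = M.nx (st (T.p (inl a))) a ∧
        (M.Arc (st (T.p (inl a))) a ∧ inl a ∈ T.O (T.p (inl a)) ∨ a ∈ M.X (st (T.p (inl a))) ∧
          T.d (inl a) = T.d (T.p (inl a)) + M.wt (st (T.p (inl a))) a)) ∧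
      ∀ v ∈ T.R, ∀ a ∈ M.X (st v), q (cl (inl a)) ∈ T.R ∧ mb (cl (inl a)) (q (cl (inl a))) ∧
        T.d (q (cl (inl a))) ≤ T.d v + M.wt (st v) a ∧
        (E (q (cl (inl a)), T.p (q (cl (inl a))), T.col (q (cl (inl a)))) (T.d (q (cl (inl a))))
          (v, T.p v, T.col v) (T.d v) (inl a) →
          inl a ∈ T.R ∧ T.d (inl a) ≤ T.d v + M.wt (st v) a) := by
  obtain ⟨T, st, q, d1, d2, h1, h2, h4, h5, h6, h7, h8⟩ :=
    M.rules.exists_own (S2 := ∅) (empty_subset _) mb cl hcl (fun s a t b u =>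
      E (inl (M.hole s), inl (M.par s), M.col s) a (inl (M.hole t), inl (M.par t), M.col t) b u)
      pf s0 (congrArg inl h0) ((M.col_l s0 (M.real s0)).trans (M.f_hole s0))
  have es : ∀ v ∈ T.R, ((inl (M.hole (st v)), inl (M.par (st v)), M.col (st v)) :
      (PV V) × (PV V) × (PV V → ℕ)) = (v, T.p v, T.col v) := fun v hv =>
    Prod.ext (h4 v hv).1 (Prod.ext (h4 v hv).2.1 (h4 v hv).2.2.1)
  have key : ∀ v ∈ T.R, ∀ u, u ∉ T.Dm → (u ∈ M.rules.O (st v) ↔ Pr T v u) := fun v hv u k => by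
    obtain ⟨a, rfl, p⟩ := PD_real (d1 ▸ k)
    have e := es v hv
    simp only [Prod.mk.injEq] at e
    rw [M.mem_O, Pr, ← e.2.1, ← e.2.2]
    nth_rewrite 2 [← e.1]
    nth_rewrite 5 [← e.1]
    rw [← M.arc_iff _ p]
    exact ⟨fun ⟨b, x, y⟩ => inl_injective y ▸ x, fun x => ⟨a, x, rfl⟩⟩
  have mo : ∀ v ∈ T.R, ∀ u, u ∈ T.O v ↔ Pr T v u ∧ u ∈ T.R ∧ T.d u ≤ T.d v + 1 := fun v hv u => by
    rw [(h4 v hv).2.2.2, mem_filter]
    exact and_congr_left fun k => key v hv u (T.real u k.1)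
  have ln : ∀ v ∈ T.R, ∀ u, u ∉ T.Dm → Pr T v u → M.rules.len (st v) u = 1 := fun v hv u md k =>
    if_pos ((key v hv u md).2 k)
  have lx : ∀ s, ∀ a ∈ M.X s, M.rules.len s (inl a) = M.wt s a := fun s a k => if_neg fun e => by
    obtain ⟨b, x, y⟩ := M.mem_O.1 e
    exact (M.X_real s a k).2.1 (inl_injective y ▸ x.2.1)
  refine ⟨T, st, q, ⟨fun v k => ?_,
    fun v _ => T.ns_of d2 v v, fun v hv r o m k a => ?_⟩, d1, d2, h1, h2,
    ⟨mo, h6, fun v hv hr => ?_, fun v hv u md hu => ?_, fun x hx v hv hu e k =>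
      h8 x hx v hv (.inl ((key v hv x (T.real x hx)).2 hu))
        (by rwa [ln v hv x (T.real x hx) hu]) ?_⟩,
    fun v hv => ⟨(h4 v hv).1.symm, (h4 v hv).2.1.symm, (h4 v hv).2.2.1.symm⟩,
    fun a hv r => ⟨(h5 _ hv r).1, ?_⟩, fun v hv a k => ?_⟩
  · obtain ⟨a, rfl, _⟩ := PD_real (d1 ▸ k)
    rw [d2, sdiff_empty]; exact (PG_deg a).trans (hd a)
  · have b := (T.O_adj _ (T.p_mem v hv r) v o).symm
    rw [← Tr.col_par hv r, ← (h4 v hv).2.2.1, ← (h4 v hv).2.1]
    rw [← (h4 v hv).2.1] at b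
    rw [← (h4 v hv).1] at a
    nth_rewrite 1 [← (h4 v hv).1] at b
    change M.col _ m ≠ M.col _ (inl _)
    rw [M.col_l _ (M.rpar _)]
    rcases m with m | e
    · have := M.col_big (st v) (PD_l.1 (d1 ▸ k))
      have := M.f_le (st v) (M.rpar (st v))
      omega
    · rw [col_r, ← a.1]; exact M.own_par _ _ a.2.2.1 a.2.2.2 b.1
  · have := (h5 v hv hr).2.2.2
    rwa [es _ (h6 _ v hv (hcl v)).1, es _ (T.p_mem v hv hr)] at this
  · obtain ⟨a1, a2, a3, a4⟩ := h7 v hv u (.inl ((key v hv u md).2 hu))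
    rw [ln v hv u md hu] at a3 a4
    rw [es _ a1, es v hv] at a4
    exact ⟨a1, a2, a3, fun k => (mo v hv u).2 ⟨hu, a4 k⟩⟩
  · rwa [es _ (h6 _ x hx (hcl x)).1, es v hv]
  · obtain ⟨_, b, c, _⟩ := h5 _ hv r
    have hq := T.p_mem _ hv r
    rcases b with b | b
    · have p := (key _ hq _ (T.real _ hv)).1 b
      obtain ⟨y, b1, b2⟩ := M.mem_O.1 b
      exact .inl ⟨inl_injective b2 ▸ b1,
        (mo _ hq _).2 ⟨p, hv, by rw [c, ln _ hq _ (T.real _ hv) p]⟩⟩
    · obtain ⟨y, b1, b2⟩ := M.mem_X.1 b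
      obtain rfl := inl_injective b2
      exact .inr ⟨b1, by rw [c, lx _ _ b1]⟩
  · obtain ⟨a1, a2, a3, a4⟩ := h7 v hv (inl a) (.inr (M.mem_X.2 ⟨a, k, rfl⟩))
    rw [lx _ a k] at a3 a4
    rw [es _ a1, es v hv] at a4
    exact ⟨a1, a2, a3, a4⟩

/-- The tree on the port graph, with ownership and priorities. -/
theorem exists_tr (hd : ∀ v, (nb G v).card ≤ D + 1) (hr : ∀ s, M.Rel 2 s) {ι : Type}
    (mb : ι → PV V → Prop) (cl : PV V → ι) (hcl : ∀ u, mb (cl u) u)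
    (E : (PV V) × (PV V) × (PV V → ℕ) → ℕ →
      (PV V) × (PV V) × (PV V → ℕ) → ℕ → PV V → Prop)
    (pf : PV V → PV V → ℕ) (s0 : St) (h0 : M.par s0 = M.hole s0) :
    ∃ (T : Tr (PG G U P) D) (st : PV V → St) (q : ι → PV V), IsB T ∧
      T.Dm = PD U P ∧ T.S2 = ∅ ∧ T.r = inl (M.hole s0) ∧ st T.r = s0 ∧
      Own T mb cl q (fun a v u => E (a, T.p a, T.col a) (T.d a) (v, T.p v, T.col v) (T.d v) u)
        pf ∧
      (∀ v ∈ T.R, v = inl (M.hole (st v)) ∧ T.p v = inl (M.par (st v)) ∧ T.col v = M.col (st v)) ∧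
      (∀ a, inl a ∈ T.R → inl a ≠ T.r → st (inl a) = M.nx (st (T.p (inl a))) a ∧
        (M.Arc (st (T.p (inl a))) a ∧ inl a ∈ T.O (T.p (inl a)) ∨ a ∈ M.X (st (T.p (inl a))) ∧
          T.d (inl a) = T.d (T.p (inl a)) + M.wt (st (T.p (inl a))) a)) ∧
      ∀ v ∈ T.R, ∀ a ∈ M.X (st v), q (cl (inl a)) ∈ T.R ∧ mb (cl (inl a)) (q (cl (inl a))) ∧
        T.d (q (cl (inl a))) ≤ T.d v + M.wt (st v) a ∧
        (E (q (cl (inl a)), T.p (q (cl (inl a))), T.col (q (cl (inl a)))) (T.d (q (cl (inl a))))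
          (v, T.p v, T.col v) (T.d v) (inl a) →
          inl a ∈ T.R ∧ T.d (inl a) ≤ T.d v + M.wt (st v) a) := by
  obtain ⟨T, st, q, a, b, c, d, e, f, g, k⟩ := M.exists_tr0 hd mb cl hcl E pf s0 h0
  refine ⟨T.re _ T.rk_self {univ} fun _ _ => False, st, q, (a.re _ _ _).isB ?_, b, c, d, e,
    f.re _ _ _, g, k⟩
  exact (M.nf (T := T.re _ T.rk_self {univ} fun _ _ => False) (st := st) b
    (mem_singleton_self _) (fun _ _ _ => mem_univ _)
    (fun v hv => (g v hv).2.2.symm) fun v _ => hr _).nf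

end PRules

end Pool.Agent.Lib.MP_12eaff_co.Acc2
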