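import Pool.Agent.Lib.MP_12eaff_co.Acc2.PG

set_option autoImplicit false
set_option linter.unusedSectionVars false

namespace Pool.Agent.Lib.MP_12eaff_co.Acc2

open Finset Pool.Agent.Lib.MP_12eaff_co.BK PV
open scoped Classical

variable {V : Type} [Fintype V] {G : SimpleGraph V} {D : ℕ} {U P : Finset V}

/-- `g` colours the real vertices and avoids the ports `pt`. -/
structure Fil (G : SimpleGraph V) (D : ℕ) (U P : Finset V) (pt : V → V → ℕ) (g : V → ℕ) :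
    Prop where
  lt : ∀ a, a ∉ U ∪ P → g a < D
  pr : ∀ a b, a ∉ U ∪ P → b ∉ U ∪ P → G.Adj a b → g a ≠ g b
  av : ∀ z m, z ∉ U ∪ P → m ∈ U → G.Adj z m → g z ≠ pt z m

/-- The real vertices of `A` that change their colour. -/
noncomputable def Chg (W A : Finset V) (f g : V → ℕ) : Finset V :=
  A.filter fun a => a ∉ W ∧ g a ≠ f a

/-- The real vertices of `A` that gain the colour `κ`. -/
noncomputable def New (W A : Finset V) (f g : V → ℕ) (κ : ℕ) : Finset V :=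
  A.filter fun a => a ∉ W ∧ g a = κ ∧ f a ≠ κ

theorem mem_Chg {W A : Finset V} {f g : V → ℕ} {a : V} :
    a ∈ Chg W A f g ↔ a ∈ A ∧ a ∉ W ∧ g a ≠ f a := mem_filter

theorem mem_New {W A : Finset V} {f g : V → ℕ} {κ : ℕ} {a : V} :
    a ∈ New W A f g κ ↔ a ∈ A ∧ a ∉ W ∧ g a = κ ∧ f a ≠ κ := mem_filter

/-- Slot sets of the port graph. -/
noncomputable def PS (SX : Finset (Finset V)) : Finset (Finset (PV V)) :=
  SX.image fun A => A.map ⟨inl, inl_injective⟩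

theorem mem_PS {SX : Finset (Finset V)} {S : Finset (Finset (PV V))} (h : S = PS SX) {A : Finset V}
    (p : A ∈ SX) : A.map ⟨inl, inl_injective⟩ ∈ S := h ▸ mem_image_of_mem _ p

theorem cov_pg {S : Finset (PV V)} {A : Finset V} {t : ℕ} (h : Cov (PG G U P) S t)
    (k : ∀ a ∈ A, inl a ∈ S) : Cov G A t := fun I a b => by
  rw [← card_map ⟨inl, inl_injective⟩]
  refine h _ (fun x p => ?_) fun x p y q e => ?_
  · obtain ⟨x, p', rfl⟩ := mem_map.1 p
    exact k x (a p')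
  · obtain ⟨x, p', rfl⟩ := mem_map.1 p
    obtain ⟨y, q', rfl⟩ := mem_map.1 q
    exact b x p' y q' e.1

namespace Tr

variable (T : Tr (PG G U P) D)

/-- The colouring of the real vertices in the state of `v`. -/
def rc (v : PV V) (a : V) : ℕ := T.col v (inl a)

/-- The ports in the state of `v`. -/
def pc (v : PV V) (z m : V) : ℕ := T.col v (inr (z, m))

/-- Own ports are kept, test ports are `tp`. -/
noncomputable def tk (tp : PV V → V → V → ℕ) (v : PV V) : PV V → ℕ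
  | inl a => T.col v (inl a)
  | inr e => if v = inl e.1 then T.col v (inr e) else tp v e.1 e.2

variable {T}

theorem rk_pg (hD : T.Dm = PD U P) {tp : PV V → V → V → ℕ}
    (h1 : ∀ v ∈ T.R, ∀ z m, tp v z m ≠ D)
    (h2 : ∀ v ∈ T.R, ∀ z m, z ∉ U ∪ P → m ∈ U → G.Adj z m → v ≠ inl z → tp v z m ≠ T.rc v z) :
    T.Rk (T.tk tp) := by
  have k : ∀ v ∈ T.R, ∀ a e, (PG G U P).Adj (inl a) (inr e) →
      T.tk tp v (inl a) ≠ T.tk tp v (inr e) := fun v hv a e h => by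
    obtain ⟨y, m⟩ := e
    obtain rfl : a = y := h.1
    simp only [tk]
    split_ifs with q
    · exact T.prop v hv _ _ h
    · exact (h2 v hv a m h.2.1 h.2.2.1 h.2.2.2 q).symm
  refine ⟨fun v hv m p => ?_, fun v hv m p => ?_, fun v hv x y h => ?_⟩
  · rcases m with a | e
    · rfl
    · obtain ⟨a, rfl, _⟩ := PD_real (hD ▸ T.real v hv)
      exact if_pos (congrArg inl (p.resolve_left fun q => q (hD ▸ PD_r)).1)
  · rcases m with a | e
    · exact T.dm_ne v hv _ p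
    · simp only [tk]
      split_ifs
      exacts [T.dm_ne v hv _ p, h1 v hv _ _]
  · rcases x with a | a <;> rcases y with b | b
    exacts [T.prop v hv _ _ h, k v hv a b h, (k v hv b a h).symm, h.elim]

theorem fil_pg (hD : T.Dm = PD U P) {z : PV V} {g : PV V → ℕ}
    (a : ∀ m ∈ T.Dm, g m = T.col z m) (b : ∀ m, m ∉ T.Dm → g m < D)
    (c : ∀ a b, (PG G U P).Adj a b → g a ≠ g b) : Fil G D U P (T.pc z) fun x => g (inl x) :=
  ⟨fun _ p => b _ fun k => p (PD_l.1 (hD ▸ k)), fun _ _ p q r => c _ _ ((PG_real p q).2 r),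
    fun x m p q r => (c (inl x) (inr (x, m)) ⟨rfl, p, q, r⟩).trans_eq (a _ (hD ▸ PD_r))⟩

/-- The filling rule in terms of the graph. -/
theorem nf_pg (hD : T.Dm = PD U P) {SX : Finset (Finset V)} (hS : T.Sx = PS SX) {t : ℕ}
    (h : ∀ v ∈ T.R, ∀ g, Fil G D U P (T.pc v) g →
      (∀ A ∈ SX, Cov G (Chg (U ∪ P) A (T.rc v) g) t) → False) : T.NF t :=
  fun z hz g a b c d => h z hz _ (fil_pg hD a b c) fun A p =>
    cov_pg (d _ (mem_PS hS p)) fun _ k =>
      mem_filter.2 ⟨mem_map_of_mem _ (mem_Chg.1 k).1, (mem_Chg.1 k).2.2⟩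

/-- The count form in terms of the graph. -/
theorem nfc_pg (hD : T.Dm = PD U P) {SX : Finset (Finset V)} (hS : T.Sx = PS SX) {t : ℕ}
    (h : ∀ v ∈ T.R, ∀ g, Fil G D U P (T.pc v) g →
      (∀ A ∈ SX, ∀ κ < D, (New (U ∪ P) A (T.rc v) g κ).card ≤ t) →
      (∀ A ∈ SX, ∀ κ < D, (New (U ∪ P) A g (T.rc v) κ).card ≤ t) → False) : T.NFc t :=
  fun z hz g a b c d e => by
  refine h z hz _ (fil_pg hD a b c)
    (fun A p κ l => le_trans ?_ (d _ (mem_PS hS p) κ l))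
    fun A p κ l => le_trans ?_ (e _ (mem_PS hS p) κ l)
  all_goals
    refine card_le_card_of_injOn inl (fun x k => ?_) inl_injective.injOn
    obtain ⟨k1, _, k3⟩ := mem_New.1 (mem_coe.1 k)
    exact mem_coe.2 (mem_filter.2 ⟨mem_map_of_mem _ k1, k3⟩)

/-- The filling rule that does not count a hole with a real double. -/
theorem nfz_pg (hD : T.Dm = PD U P) {SX : Finset (Finset V)} (hS : T.Sx = PS SX)
    (h : ∀ z, inl z ∈ T.R → (∃ a b, a ∉ U ∪ P ∧ b ∉ U ∪ P ∧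
    a ≠ b ∧ G.Adj z a ∧ G.Adj z b ∧ T.rc (inl z) a = T.rc (inl z) b) →
    ∀ g, Fil G D U P (T.pc (inl z)) g →
    (∀ A ∈ SX, Cov G ((Chg (U ∪ P) A (T.rc (inl z)) g).erase z) 2) → False) : T.NFz :=
  fun z hz hb g a b c d => by
  obtain ⟨z, rfl, _⟩ := PD_real (hD ▸ T.real z hz)
  obtain ⟨x, hx⟩ := nonempty_iff_ne_empty.2 hb.1
  obtain ⟨x1, x2, x3⟩ := IsB.mem_Bd.1 hx
  unfold Uq at x2
  push Not at x2
  obtain ⟨y, y1, y2, y3⟩ := x2
  have hy : y ∈ T.Bd (inl z) :=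
    IsB.mem_Bd.2 ⟨y1, fun k => k x x1 y2.symm y3.symm, y3 ▸ x3⟩
  obtain ⟨x, rfl, xr⟩ := PD_real (hD ▸ hb.2 x hx)
  obtain ⟨y, rfl, yr⟩ := PD_real (hD ▸ hb.2 y hy)
  refine h z hz ⟨y, x, yr, xr, fun q => y2 (congrArg inl q), y1.1, x1.1, y3⟩ _ (fil_pg hD a b c)
    fun A p => cov_pg (d _ (mem_PS hS p)) fun w k => ?_
  obtain ⟨k0, k⟩ := mem_erase.1 k
  exact mem_erase.2 ⟨inl_injective.ne k0,
    mem_filter.2 ⟨mem_map_of_mem _ (mem_Chg.1 k).1, (mem_Chg.1 k).2.2⟩⟩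

/-- A test on a set `S` of real vertices in terms of the graph. -/
theorem hc_pg (hD : T.Dm = PD U P) {z : PV V} (hz : z ∈ T.R) {S : Finset (PV V)} (h1 : z ∈ S)
    (h2 : ∀ m ∈ S, m ∉ T.Dm) (h : ∀ g, Fil G D U P (T.pc z) g →
      (∀ a, a ∉ U ∪ P → inl a ∉ S → g a = T.rc z a) → False) :
    HC (PG G U P) D (T.fm z S) z (T.col z) :=
  hc_of hz h1 h2 fun g a b c d => h _ (fil_pg hD b c d) fun _ _ q => a _ q

/-- The clique form of the filling rule in terms of the graph. -/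
theorem nf3_pg (hD : T.Dm = PD U P) (h : ∀ z, inl z ∈ T.R → ∀ (Y : Finset V) (a b d : V),
    IsClq G Y → 4 ≤ Y.card → (∀ y ∈ Y, G.Adj y a ∧ G.Adj y b ∧ G.Adj y d) →
    z ∈ {a, b, d} ∪ Y → (∀ m ∈ {a, b, d} ∪ Y, m ∉ U ∪ P) → ∀ g, Fil G D U P (T.pc (inl z)) g →
    (∀ x, x ∉ U ∪ P → x ∉ {a, b, d} ∪ Y → g x = T.rc (inl z) x) → False) : T.NF3 :=
  fun z hz Y a b d hY h4 hx hv hr => by
  obtain ⟨z, rfl, _⟩ := PD_real (hD ▸ T.real z hz)
  obtain ⟨a, rfl, _⟩ := PD_real (hD ▸ hr a (by simp))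
  obtain ⟨b, rfl, _⟩ := PD_real (hD ▸ hr b (by simp))
  obtain ⟨d, rfl, _⟩ := PD_real (hD ▸ hr d (by simp))
  have e : ∀ x, x ∈ {a, b, d} ∪ Y.preimage inl inl_injective.injOn ↔
      inl x ∈ ({inl a, inl b, inl d} ∪ Y : Finset (PV V)) := fun x => by simp
  refine hc_pg hD hz hv hr fun g p q => h z hz (Y.preimage inl inl_injective.injOn) a b d
    (fun x p y q e => (hY _ (mem_preimage.1 p) _ (mem_preimage.1 q) (inl_injective.ne e)).1) ?_
    (fun y k => ⟨(hx _ (mem_preimage.1 k)).1.1, (hx _ (mem_preimage.1 k)).2.1.1,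
      (hx _ (mem_preimage.1 k)).2.2.1⟩) ((e z).2 hv)
    (fun m k r => hr _ ((e m).1 k) (hD ▸ PD_l.2 r)) g p fun x r k => q x r fun l => k ((e x).2 l)
  rw [card_preimage, filter_true_of_mem fun x k => by
    obtain ⟨a, rfl, _⟩ := PD_real (hD ▸ hr x (mem_union_right _ k)); exact ⟨a, rfl⟩]
  exact h4

variable {tp : PV V → V → V → ℕ} (h : T.Rk (T.tk tp)) {A : Finset (Finset (PV V))}
  {X : PV V → PV V → Prop}

theorem re_rc (v : PV V) : (T.re _ h A X).rc v = T.rc v := rfl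

theorem re_own (z m : V) : (T.re _ h A X).pc (inl z) z m = T.pc (inl z) z m := if_pos rfl

theorem re_test {v : PV V} {z : V} (k : v ≠ inl z) (m : V) : (T.re _ h A X).pc v z m = tp v z m :=
  if_neg k

/-- Port tickets after the choice of the test ports. -/
theorem re_port (hD : T.Dm = PD U P) {v : PV V} {z : V} {κ : ℕ}
    (k : (T.re _ h A X).Port v (inl z) κ) (l : κ < D) (bl : ∀ a ∈ P, D < T.col v (inl a)) :
    v ≠ inl z ∧ ∃ m ∈ U, G.Adj z m ∧ tp v z m = κ ∧ T.pc (inl z) z m ≠ κ := by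
  obtain ⟨m, a, b, c, d⟩ := k
  refine ⟨fun e => d (e ▸ c), ?_⟩
  rcases m with m | ⟨y, m⟩
  · have p := (mem_union.1 (PD_l.1 (hD ▸ a))).resolve_left b.2.2
    have := bl m p
    have c : T.col v (inl m) = κ := c
    omega
  · obtain ⟨rfl, _, b1, b2⟩ := b
    exact ⟨m, b1, b2, (re_test (A := A) (X := X) h (fun e => d (e ▸ c)) m).symm.trans c,
      fun e => d ((re_own (A := A) (X := X) h z m).trans e)⟩

end Tr

end Pool.Agent.Lib.MP_12eaff_co.Acc2
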