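import Pool.Agent.Lib.MP_12eaff_co.Acc2.G01

set_option autoImplicit false
set_option linter.unusedSectionVars false

namespace Pool.Agent.Lib.MP_12eaff_co.Acc2

open Finset Pool.Agent.Lib.MP_12eaff_co.BK
open scoped Classical

variable {V : Type} [Fintype V] {G : SimpleGraph V} {D : ℕ}

namespace IsB

variable {T : Tr G D} {x y z s m e w : V} {K : Finset V}

open Tr IsA

/-- Two members that are doubled in tight states above `z` break a third double. -/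
theorem two_states (h : IsB T) (xd : x ∉ T.Dm) (nx : ¬ T.Anc x z) {r1 r2 s1 s2 b1 b2 : V}
    (a1 : G.Adj x r1) (a2 : G.Adj x r2) (a : G.Adj r1 r2) (rd1 : r1 ∉ T.Dm) (rd2 : r2 ∉ T.Dm)
    (o1 : ¬ T.Anc r1 z) (o2 : ¬ T.Anc r2 z)
    (z2 : T.Anc s2 z) (l : T.Anc s1 s2) (ns : T.NS s2 x) (d1 : ¬ Uq G (T.col s1) x r1)
    (d2 : ¬ Uq G (T.col s2) x r2) (t : T.Tight s2 x)
    (dp : s1 ≠ s2 → ¬ T.Shw s1 x (T.c r1) ∧
      ∀ m, G.Adj x m → T.Anc s1 m → T.Anc m z → s1 ≠ m ∧ T.d x ≤ T.d m)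
    (tw : ∀ m, G.Adj x m → m ≠ r1 → T.Anc m z → T.d x ≤ T.d m → T.c m ≠ T.c r1)
    (h1 : G.Adj x b1) (h2 : G.Adj x b2) (ne : b1 ≠ b2) {δ : ℕ} (dl : δ ≤ D) (e1 : δ ≠ T.c r1)
    (e2 : δ ≠ T.c r2) : ¬ (T.col s2 b1 = δ ∧ T.col s2 b2 = δ) := fun k => by
  have sR := z2.mem.1
  have c1 := col_base sR rd1 fun p => o1 (p.trans z2)
  have c2 := col_base sR rd2 fun p => o2 (p.trans z2)
  have uq : Uq G (T.col s2) x r1 := by
    by_contra d
    exact (h.hc1 sR).three_dbl (h.dg xd ns _) (T.full s2 sR x xd fun e => nx (e ▸ z2)) t a1 a2 h1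
      (T.prop s2 sR _ _ a)
      (by rw [c1, k.1]; exact e1.symm) (by rw [c2, k.1]; exact e2.symm) d d2
      (fun p => p b2 h2 ne.symm (by rw [k.1, k.2])) (col_le sR rd1) (col_le sR rd2) (k.1 ▸ dl)
  have n : s1 ≠ s2 := fun e => d1 (e ▸ uq)
  simp only [Uq, not_forall, not_not] at d1
  obtain ⟨m, m1, m2, m3⟩ := d1
  rw [col_base l.mem.1 rd1 fun p => o1 ((p.trans l).trans z2)] at m3
  have md : m ∉ T.Dm := fun p => (dp n).1 ⟨m, p, m1, m3⟩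
  have p : T.Anc s1 m ∧ T.Anc m s2 := by
    by_contra p
    exact uq m m1 m2 (by rw [col_diff l md p, m3, c1])
  obtain ⟨q1, q2⟩ := (dp n).2 m m1 p.1 (p.2.trans z2)
  exact tw m m1 m2 (p.2.trans z2) q2
    (by rw [← m3, col_base l.mem.1 md fun e => q1 (p.1.eq_of_d e.le)])

/-- Neighbours of the head below an open witness are deep. -/
theorem op_deep (h : IsB T) {r a a' : V} (hr : r ∈ T.R) (ho : x ∈ T.O r) (c : T.col r x = T.c x)
    (nx : ¬ T.Anc x z) (o : T.Op2 r x z a a') (m1 : G.Adj x m) (m2 : T.Anc a m) (m3 : T.Anc m z) :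
    a ≠ m ∧ T.d x ≤ T.d m := by
  obtain ⟨t1, t2, -⟩ := h.op_tight hr ho c nx o
  have n : a ≠ m := fun e => t1 (e ▸ m1)
  have := d_ch o.1
  have := (Anc.under o.1 o.2.1 m2 m3 n).lt fun e => t2 (e ▸ m1)
  have := o.dep
  have := (O_mem hr ho).2
  exact ⟨n, by omega⟩

/-- PAIR for two receivers: one is not open, or a double at `x` is broken in a tight state, or
a port of `x` shows the colour of a receiver at its open witness. -/
theorem pair2 (h : IsB T) (hK : IsClq G K) (hx : x ∈ K)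
    (tl : ∀ r ∈ K, r ≠ x → r ∈ T.R ∧ x ∈ T.O r ∧ T.col r x = T.c x) (hz : z ∈ T.R)
    (pz : y ∈ T.O z) (a : G.Adj y x) (yK : y ∉ K) (nx : ¬ T.Anc x z) (uq : Uq G (T.col z) y x)
    {r1 r2 b1 b2 : V} (ne : r1 ≠ r2) {δ : ℕ} (dl : δ ≤ D) (hr : ∀ r, r = r1 ∨ r = r2 → r ∈ K ∧
      r ≠ x ∧ ¬ G.Adj y r ∧ ¬ T.Anc r z ∧ δ ≠ T.c r ∧
      ∀ m, G.Adj x m → m ≠ r → T.Anc m z → T.d x ≤ T.d m → T.c m ≠ T.c r)
    (h1 : G.Adj x b1) (h2 : G.Adj x b2) (nb : b1 ≠ b2) (ns : ∀ a, T.Anc a z → T.NS a x) :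
    (∃ r, (r = r1 ∨ r = r2) ∧ Rcv G D (T.col z) K x y z r ∧ ¬ ∃ a a', T.Op2 r x z a a') ∨
      (∃ s, T.Anc s z ∧ T.Tight s x ∧ ¬ (T.col s b1 = δ ∧ T.col s b2 = δ)) ∨
      ∃ r, (r = r1 ∨ r = r2) ∧ ∃ a a', T.Op2 r x z a a' ∧ T.Shw a x (T.c r) := by
  refine or_iff_not_imp_left.2 fun no => or_iff_not_imp_right.2 fun np => ?_
  simp only [not_exists, not_and, not_forall, not_not] at no np
  have xz : x ≠ z := fun e => nx (e ▸ .refl _ (e ▸ hz))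
  have zy := T.O_adj z hz y pz
  obtain ⟨p1, p2, -, p4, p5, p6⟩ := hr r1 (.inl rfl)
  obtain ⟨q1, q2, -, q4, q5, q6⟩ := hr r2 (.inr rfl)
  have xd : x ∉ T.Dm := O_real (tl r1 p1 p2).1 (tl r1 p1 p2).2.1
  have rK : ∀ r ∈ K, r ∉ T.Dm := fun r k => by
    by_cases e : r = x
    exacts [e ▸ xd, T.real r (tl r k e).1]
  have h0 := h.hc hz (S := insert z (insert y K)) (by simp) (by
    simpa using ⟨T.real z hz, O_real hz pz, rK⟩) (Cov.clqe hK zy)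
  obtain ⟨tz, r0, e1, e2⟩ := h0.pair_st (h.dg xd (ns z (.refl z hz)) _)
    ((subset_insert _ _).trans (subset_insert _ _)) (by simp) hK hx zy (h.uq_O hz pz) a yK xz uq
  have st : ∀ r, r = r1 ∨ r = r2 → ∃ s, T.Anc s z ∧ ¬ Uq G (T.col s) x r ∧ T.Tight s x ∧
      (s ≠ z → ¬ T.Shw s x (T.c r) ∧
        ∀ m, G.Adj x m → T.Anc s m → T.Anc m z → s ≠ m ∧ T.d x ≤ T.d m) := fun r p => by
    obtain ⟨p1, p2, p3, p4, -⟩ := hr r p
    by_cases e : r = r0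
    · refine ⟨z, .refl z hz, fun q => ?_, tz, fun q => absurd rfl q⟩
      obtain ⟨m, m1, m2, m3 | m3⟩ := e1 (e ▸ p1) (e ▸ p2) (fun k => p3 (by rw [e, k]; exact zy.symm))
        x hx (e ▸ p2.symm)
      · exact q y a.symm (fun k => yK (k ▸ p1)) (by rw [e, m3.2])
      · exact q m m1 (fun k => m2 (k ▸ p1)) (by rw [e, m3.2])
    · obtain ⟨s, s', o⟩ := no r p (e2 r p1 p2 e p3)
      obtain ⟨t1, t2, t3⟩ := tl r p1 p2
      obtain ⟨-, -, -, q1, q2⟩ := h.op_tight t1 t2 t3 nx o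
      exact ⟨s, o.anc, q1, fun κ k n => (q2 κ k n).imp fun _ e => ⟨e.1, e.2.2⟩,
        fun _ => ⟨np r p s s' o, fun m => h.op_deep t1 t2 t3 nx o⟩⟩
  obtain ⟨s1, u1, u2, u3, u4⟩ := st r1 (.inl rfl)
  obtain ⟨s2, v1, v2, v3, v4⟩ := st r2 (.inr rfl)
  have x1 := hK x hx r1 p1 p2.symm
  have x2 := hK x hx r2 q1 q2.symm
  have a12 := hK r1 p1 r2 q1 ne
  rcases le_total (T.d s1) (T.d s2) with l | l
  · exact ⟨s2, v1, v3, h.two_states xd nx x1 x2 a12 (rK _ p1) (rK _ q1) p4 q4 v1 (u1.comp v1 l)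
      (ns _ v1) u2 v2 v3 (fun n => u4 fun e => n (e ▸ (v1.eq_of_d (e ▸ l)).symm)) p6 h1 h2 nb dl
      p5 q5⟩
  · exact ⟨s1, u1, u3, h.two_states xd nx x2 x1 a12.symm (rK _ q1) (rK _ p1) q4 p4 u1
      (v1.comp u1 l) (ns _ u1) v2 u2 u3 (fun n => v4 fun e => n (e ▸ (u1.eq_of_d (e ▸ l)).symm))
      q6 h1 h2 nb dl q5 p5⟩

/-- A doubled real neighbour that has moved hides `x` and has a unit, or probes `x`, or is the
hole. -/
theorem bd_moved (h : IsB T) (hx : x ∈ T.R) (hs : s ∈ T.R) (nx : ¬ T.Anc x s) (hm : m ∈ T.Bd x)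
    (md : m ∉ T.Dm) (c : T.col s m ≠ T.col x m) :
    (∃ a ∈ T.ch m, x ∈ T.H m ∧ (T.Anc a x ∨ T.Anc a s)) ∨ T.Anc m s ∧ (m = s ∨ x ∈ T.O m) := by
  obtain ⟨a, n, -⟩ := mem_Bd.1 hm
  by_cases k : T.Anc m s
  · by_cases e : m = s
    · exact .inr ⟨k, .inl e⟩
    obtain ⟨y, y1, y2⟩ := k.child e
    rcases adj_cases k.mem.1 hx a.symm with p | p | p
    exacts [.inr ⟨k, .inr p⟩, .inl ⟨y, y1, p, .inr y2⟩, absurd ((anc_ch p).trans k) nx]
  · have k' : T.Anc m x := by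
      by_contra p
      exact c (by rw [col_base hs md k, col_base hx md p])
    obtain ⟨y, y1, y2⟩ := k'.child a.ne.symm
    obtain ⟨-, p2, p3⟩ := T.mem_ch.1 y1
    refine .inl ⟨y, y1, F2' y1 y2 (fun e => n ?_) a.symm, .inl y2⟩
    subst e
    exact p3 ▸ h.uq_par hx p2 (h.par_O hx p2 (p3 ▸ a.symm))

/-- A clean tail has no deep twin. -/
theorem clean_tw (hx : x ∈ T.R) (hw : w ∈ W T x) (ho : x ∈ T.O w) (n : w ∉ T.Bd x)
    (m1 : G.Adj x m) (md : m ∉ T.Dm) (m2 : m ≠ w) (d : T.d x ≤ T.d m) : T.c m ≠ T.c w := fun e =>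
  n ((mem_Bd' hx (W_real hx hw)).2 ⟨(mem_W.1 hw).1, fun k => k m m1 m2 (by
    rw [col_base hx (W_real hx hw) (W_base hx hw ho),
      col_base hx md fun p => m1.ne (p.eq_of_d d).symm, e])⟩)

/-- PAIR-t for three tails and a high vertex `t(x)`. -/
theorem pair_t5 (h : IsB T) (hx : x ∈ T.R) (hy : y ∈ T.O x) (ng : ¬ G.Adj (T.p x) y)
    (hz : z ∈ T.R) (pz : y ∈ T.O z) (nx : ¬ T.Anc (T.p x) z) (uq : Uq G (T.col z) y x)
    {Z : Finset V} (hZ : ∀ w ∈ Z, w ∈ W T x ∧ x ∈ T.O w ∧ (¬ G.Adj y w → ¬ T.Anc w z))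
    (c3 : 3 ≤ Z.card) (he : e ∈ T.O x) (ht : T.PayT x e) (de : T.Anc e z → T.d e < T.d x)
    (hb : T.Bd x ≠ ∅) (np : T.NS (T.p x) x) (ny : T.NS x y) (ns : ∀ a, T.Anc a z → T.NS a x) :
    (∃ r ∈ insert (T.p x) Z, ¬ G.Adj y r ∧ r ∉ T.Bd x ∧
      Rcv G D (T.col z) (insert (T.p x) (insert x Z)) x y z r ∧ ¬ ∃ a a', T.Op2 r x z a a') ∨
      (∃ m ∈ T.Bd x, ∃ s, T.Anc s z ∧ T.Tight s x ∧ T.col s m ≠ T.col x m ∧ (m ∈ T.Dm ∨
        (∃ a ∈ T.ch m, x ∈ T.H m ∧ (T.Anc a x ∨ T.Anc a s)) ∨ T.Anc m s ∧ (m = s ∨ x ∈ T.O m))) ∨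
      (∃ w ∈ Z, T.PW x x w) ∨
      (∃ a a', T.Op2 (T.p x) x z a a' ∧ T.Port a x (T.col x e)) ∨
      ∃ w ∈ Z, ¬ G.Adj y w ∧ w ∉ T.Bd x ∧ ∃ a a', T.Op2 w x z a a' ∧ T.Port a x (T.col x w) := by
  by_cases pw : ∃ w ∈ Z, T.PW x x w
  · exact .inr (.inr (.inl pw))
  obtain ⟨xr, po⟩ := ht.1
  have hq := T.p_mem x hx xr
  have xy := T.O_adj x hx y hy
  have nx' : ¬ T.Anc x z := fun p => nx ((anc_p hx xr).trans p)
  have aq : ∀ w ∈ Z, G.Adj (T.p x) w := fun w k => T.O_adj _ hq w (mem_W.1 (hZ w k).1).2.2.1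
  have cl : IsClq G (insert (T.p x) (insert x Z)) := fun a p b q => (h.W_clq hx xr po np).1 a
    (insert_subset_insert _ (insert_subset_insert _ fun w k => (hZ w k).1) p) b
    (insert_subset_insert _ (insert_subset_insert _ fun w k => (hZ w k).1) q)
  have c1 : (Z.filter fun w => G.Adj y w).card ≤ 1 := card_le_one.2 fun a p b q =>
    (h.exit_one2 hx hy ng np ny (hZ a (mem_filter.1 p).1).1 (hZ b (mem_filter.1 q).1).1
      (mem_filter.1 p).2 (mem_filter.1 q).2).resolve_right fun k =>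
        k.elim (fun k => pw ⟨a, (mem_filter.1 p).1, k⟩) fun k => pw ⟨b, (mem_filter.1 q).1, k⟩
  have c2 := card_filter_add_card_filter_not (s := Z) fun w => G.Adj y w
  obtain ⟨w, w1, w2, w3⟩ : ∃ w ∈ Z, ¬ G.Adj y w ∧ w ∉ T.Bd x := by
    by_contra! k
    obtain ⟨a, p, b, q, n⟩ := one_lt_card.1 (show 1 < (Z.filter fun w => ¬ G.Adj y w).card by omega)
    rw [mem_filter] at p q
    exact n (h.W_soft2 hx (hZ a p.1).1 (hZ b q.1).1 (k a p.1 p.2) (k b q.1 q.2))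
  obtain ⟨b1, b2, nb, cb, eb⟩ := (h.Bd_cases hx).resolve_left hb
  have m1 : b1 ∈ T.Bd x := by simp [eb]
  have m2 : b2 ∈ T.Bd x := by simp [eb]
  have gB : T.p x ∉ T.Bd x := fun k => (mem_Bd.1 k).2.1 (h.uq_par hx xr po)
  obtain ⟨v1, v2, v3⟩ := hZ w w1
  have wd := W_real hx v1
  have cw := col_base hx wd (W_base hx v1 v2)
  have uw : Uq G (T.col x) x w := by_contra fun k => w3 ((mem_Bd' hx wd).2 ⟨(mem_W.1 v1).1, k⟩)
  refine (h.pair2 cl (by simp) (fun r p q => by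
      simp only [mem_insert, q, false_or] at p
      rcases p with rfl | p
      exacts [⟨hq, po, col_p_self hx xr⟩,
        ⟨(W_d hx (hZ r p).1).1, (hZ r p).2.1, (mem_W.1 (hZ r p).1).2.2.2.1⟩]) hz pz xy.symm (by
      simp only [mem_insert, not_or]
      exact ⟨O_ne_p hx hy, xy.ne.symm, fun k => ng (aq y k)⟩) nx' uq (aq w w1).ne
    (δ := T.col x b1) (mem_Bd.1 m1).2.2.le ?_ (mem_Bd.1 m1).1 (mem_Bd.1 m2).1 nb ns).imp ?_
      (Or.imp ?_ ?_)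
  · rintro r (rfl | rfl)
    · refine ⟨by simp, p_ne hx xr, fun k => ng k.symm, nx, ht.2 ▸ h.uq_O hx he b1 (mem_Bd.1 m1).1
        fun k => (mem_Bd.1 m1).2.1 (k ▸ h.uq_O hx he), fun m p _ q d k => ?_⟩
      have : m = e := by
        by_contra n
        exact h.uq_O hx he m p n
          (by rw [col_base hx q.real fun t => p.ne (t.eq_of_d d).symm, k, ht.2])
      have := de (this ▸ q)
      subst m
      omega
    · exact ⟨by simp [w1], (mem_W.1 v1).1.ne.symm, w2, v3 w2,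
        cw ▸ uw b1 (mem_Bd.1 m1).1 fun e => w3 (e ▸ m1),
        fun m p q k => clean_tw hx v1 v2 w3 p k.real q⟩
  · rintro ⟨r, rfl | rfl, p⟩
    exacts [⟨_, by simp, fun k => ng k.symm, gB, p⟩, ⟨r, by simp [w1], w2, w3, p⟩]
  · rintro ⟨s, s1, s2, s3⟩
    have n : ¬ T.Anc x s := fun p => nx' (p.trans s1)
    rcases not_and_or.1 s3 with p | p
    exacts [⟨b1, m1, s, s1, s2, p, or_iff_not_imp_left.2 fun k => h.bd_moved hx s1.mem.1 n m1 k p⟩,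
      ⟨b2, m2, s, s1, s2, cb ▸ p,
        or_iff_not_imp_left.2 fun k => h.bd_moved hx s1.mem.1 n m2 k (cb ▸ p)⟩]
  · rintro ⟨r, rfl | rfl, a, a', o, p⟩
    · exact .inr (.inl ⟨a, a', o, ht.2 ▸ p.port hx he ht.2⟩)
    · obtain ⟨m, k1, k2, k3⟩ := p
      exact .inr (.inr ⟨r, w1, w2, w3, a, a', o, m, k1, k2, k3.trans cw.symm,
        uw m k2 fun e => wd (e ▸ k1)⟩)

end IsB

end Pool.Agent.Lib.MP_12eaff_co.Acc2
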