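import Pool.Agent.Lib.MP_12eaff_co.Acc2.Inst

set_option autoImplicit false
set_option linter.unusedSectionVars false

namespace Pool.Agent.Lib.MP_12eaff_co.Acc2

open Finset Pool.Agent.Lib.MP_12eaff_co.BK
open scoped Classical

variable {V : Type} [Fintype V] {G : SimpleGraph V} {D : ℕ}

/-- The part of `IsB` that depends on the own ports only. -/
structure PreB (T : Tr G D) : Prop where
  deg : ∀ v, v ∉ T.Dm → (nb G v \ T.S2).card ≤ D + 1
  soft : ∀ v ∈ T.R, T.NS v v
  uqp : ∀ v ∈ T.R, v ≠ T.r → v ∈ T.O (T.p v) → ∀ m ∈ T.Dm, G.Adj v m → T.col v m ≠ T.c v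

theorem PreB.isB {T : Tr G D} (h : PreB T) (nf : T.NF 2) : IsB T := ⟨nf, h.deg, h.soft, h.uqp⟩

theorem IsB.preB {T : Tr G D} (h : IsB T) : PreB T := ⟨h.deg, h.soft, h.uqp⟩

namespace Tr

/-- New colours for the immobile vertices that are not adjacent to the hole. -/
structure Rk (T : Tr G D) (k : V → V → ℕ) : Prop where
  same : ∀ v ∈ T.R, ∀ m, m ∉ T.Dm ∨ G.Adj v m → k v m = T.col v m
  ne : ∀ v ∈ T.R, ∀ m ∈ T.Dm, k v m ≠ D
  prop : ∀ v ∈ T.R, ∀ a b, G.Adj a b → k v a ≠ k v b

variable {T : Tr G D} {k : V → V → ℕ}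

theorem rk_self (T : Tr G D) : T.Rk T.col := ⟨fun _ _ _ _ => rfl, T.dm_ne, T.prop⟩

/-- The same tree with other test ports, slot sets and exempt ports. -/
noncomputable def re (T : Tr G D) (k : V → V → ℕ) (h : T.Rk k) (A : Finset (Finset V))
    (X : V → V → Prop) : Tr G D where
  R := T.R
  r := T.r
  c := k T.r
  p := T.p
  d := T.d
  col := k
  O := T.O
  Dm := T.Dm
  S2 := T.S2
  Sx := A
  Xm := X
  r_mem := T.r_mem
  d_r := T.d_r
  p_r := T.p_r
  c_r := (h.same _ T.r_mem _ (.inl (T.real _ T.r_mem))).trans (col_self T.r_mem)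
  col_r := rfl
  real := T.real
  S2_sub := T.S2_sub
  prop := h.prop
  full v hv m md ne := (h.same v hv m (.inl md)).trans_lt (T.full v hv m md ne)
  dm_ne := h.ne
  p_mem := T.p_mem
  d_p := T.d_p
  pass v hv r o := by
    have q := T.p_mem v hv r
    have q2 : T.p (T.p v) ∉ T.Dm := by
      by_cases e : T.p v = T.r
      · rw [e, T.p_r]; exact T.real _ T.r_mem
      · exact T.real _ (T.p_mem _ q e)
    rw [h.same _ q v (.inl (T.real v hv)), h.same _ q _ (.inl q2)]
    exact T.pass v hv r o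
  col_p v hv r m md := by
    have q := T.p_mem v hv r
    rw [h.same v hv m (.inl md), T.col_p v hv r m md]
    simp only [shift, Function.update_apply, h.same _ q m (.inl md),
      h.same _ q v (.inl (T.real v hv))]
  O_adj := T.O_adj
  uniq v hv u o m a ne := by
    rw [h.same v hv m (.inr a), h.same v hv u (.inr (T.O_adj v hv u o))]
    exact T.uniq v hv u o m a ne
  ne_p v hv u o := by
    have q2 : T.p v ∉ T.Dm := by
      by_cases e : v = T.r
      · rw [e, T.p_r]; exact T.real _ T.r_mem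
      · exact T.real _ (T.p_mem _ hv e)
    rw [h.same v hv u (.inr (T.O_adj v hv u o)), h.same v hv _ (.inl q2)]
    exact T.ne_p v hv u o
  clo := T.clo

variable (h : T.Rk k) {A : Finset (Finset V)} {X : V → V → Prop}

theorem re_anc {a v : V} : (T.re k h A X).Anc a v ↔ T.Anc a v := by
  refine ⟨fun e => ?_, fun e => ?_⟩
  · induction e with
    | refl hv => exact Anc.refl _ hv
    | step v hv r _ ih => exact Anc.step _ v hv r ih
  · induction e with
    | refl hv => exact Anc.refl (T := T.re k h A X) _ hv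
    | step v hv r _ ih => exact Anc.step (T := T.re k h A X) _ v hv r ih

theorem re_ch (w : V) : (T.re k h A X).ch w = T.ch w := rfl

theorem re_c {m : V} (md : m ∉ T.Dm) : (T.re k h A X).c m = T.c m :=
  (h.same _ T.r_mem m (.inl md)).trans (congrFun T.col_r m)

include h in
theorem re_uq {v u : V} (hv : v ∈ T.R) (a : G.Adj v u) :
    Uq G (k v) v u ↔ Uq G (T.col v) v u :=
  forall_congr' fun m => forall_congr' fun b => by
    rw [h.same v hv m (.inr b), h.same v hv u (.inr a)]

theorem re_pr {v : V} (hv : v ∈ T.R) (u : V) : Pr (T.re k h A X) v u ↔ Pr T v u :=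
  and_congr_right fun a => and_congr_right fun _ => re_uq h hv a

theorem re_Bd {v : V} (hv : v ∈ T.R) : (T.re k h A X).Bd v = T.Bd v := by
  ext m
  rw [IsB.mem_Bd, IsB.mem_Bd]
  refine and_congr_right fun a => and_congr (not_congr (re_uq h hv a)) ?_
  rw [← h.same v hv m (.inr a)]; rfl

theorem re_Dr {v : V} (hv : v ∈ T.R) : (T.re k h A X).Dr v = T.Dr v := by
  ext m
  rw [IsB.mem_Dr, IsB.mem_Dr, re_pr h hv]
  refine and_congr_right fun a => and_congr_right fun _ => ?_
  rw [← h.same v hv m (.inr a.1)]; rfl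

theorem re_H {v : V} (hv : v ∈ T.R) : (T.re k h A X).H v = T.H v := by
  ext m
  rw [mem_H, mem_H]
  refine and_congr_right fun a => and_congr_left fun _ => ?_
  rw [← h.same v hv m (.inr a)]; rfl

end Tr

theorem PreB.re {T : Tr G D} {k : V → V → ℕ} (b : PreB T) (h : T.Rk k) (A : Finset (Finset V))
    (X : V → V → Prop) : PreB (T.re k h A X) :=
  ⟨b.deg, fun v hv m p a => (b.soft v hv m p a).trans_eq (h.same v hv m (.inr a)).symm,
    fun v hv r o m p a => (h.same v hv m (.inr a)).trans_ne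
      ((b.uqp v hv r o m p a).trans_eq (Tr.re_c (A := A) (X := X) h (T.real v hv)).symm)⟩

theorem Own.re {ι : Type} {T : Tr G D} {k : V → V → ℕ} {mb : ι → V → Prop} {cl : V → ι}
    {q : ι → V} {E : V → V → V → Prop} {pf : V → V → ℕ} (o : Own T mb cl q E pf) (h : T.Rk k)
    (A : Finset (Finset V)) (X : V → V → Prop) : Own (T.re k h A X) mb cl q E pf :=
  ⟨fun v hv u => by rw [Tr.re_pr h hv]; exact o.O_iff v hv u, o.own, o.el,
    fun v hv u md p => o.reach v hv u md ((Tr.re_pr h hv u).1 p),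
    fun x hx v hv p => o.fifo x hx v hv ((Tr.re_pr h hv x).1 p)⟩

end Pool.Agent.Lib.MP_12eaff_co.Acc2
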