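import Pool.Agent.Lib.MP_12eaff_co.Acc2.Cost

set_option autoImplicit false
set_option linter.unusedSectionVars false

namespace Pool.Agent.Lib.MP_12eaff_co.Acc2

open Finset Pool.Agent.Lib.MP_12eaff_co.BK
open scoped Classical

variable {V : Type} [Fintype V] {G : SimpleGraph V} {D : ℕ}

namespace Tr

variable {T : Tr G D}

/-- One witness, with the position of the payer. -/
theorem wit2 {v u z m : V} (hv : v ∈ T.R) (hu : u ∈ T.O v) (hz : z ∈ T.R) (hna : ¬ T.Anc v z)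
    (hm : G.Adj v m) (hmu : m ≠ u) (hc : T.col z m = T.col v u) :
    (m = T.p v ∧ T.PayT v u) ∨
      (∃ x ∈ T.ch m, v ∈ T.H m ∧ T.tc x v = T.col v u ∧
        ((T.Anc x v ∧ ¬ T.Anc m z) ∨ (¬ T.Anc x v ∧ T.Anc x z))) ∨
      (∃ x ∈ T.ch m, T.Anc x z ∧ ¬ T.Anc x v ∧ T.c x = T.col v u ∧ v ∈ T.O m ∧ ¬ T.Anc v m) ∨
      (m ∈ T.Dm ∧ T.Port z v (T.col v u)) := by
  by_cases md : m ∈ T.Dm
  · exact .inr (.inr (.inr ⟨md, port_of hv hu hm md hc⟩))
  have hvr : v ≠ T.r := fun e => hna (e ▸ anc_r hz)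
  have hne : T.col v m ≠ T.col v u := T.uniq v hv u hu m hm hmu
  have hlt : T.col v u < D := T.lt v hv u hu
  by_cases hmz : T.Anc m z ∧ m ≠ z
  · obtain ⟨x, hx, hxz⟩ := hmz.1.child hmz.2
    have hcx : T.c x = T.col v u := by rw [← col_anc hx hxz, hc]
    have hxv : ¬ T.Anc x v := fun h => hne (by rw [col_anc hx h, hcx])
    have hmR : m ∈ T.R := hmz.1.mem.1
    rcases adj_cases hmR hv hm.symm with h | h | h
    · exact Or.inr (Or.inr (.inl ⟨x, hx, hxz, hxv, hcx, h, fun h1 => hna (h1.trans hmz.1)⟩))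
    · exact Or.inr (Or.inl ⟨x, hx, h, by rw [tc, if_neg hxv, hcx], Or.inr ⟨hxv, hxz⟩⟩)
    · exact absurd ((anc_ch h).trans hmz.1) hna
  · have hmz1 : m ≠ z := by
      rintro rfl
      rw [col_self hz] at hc; omega
    have hmz2 : ¬ T.Anc m z := fun h => hmz ⟨h, hmz1⟩
    have hcm : T.c m = T.col v u := by rw [← col_base hz md hmz2, hc]
    have hmv : T.Anc m v := by
      by_contra h
      exact hne (by rw [col_base hv md h, hcm])
    by_cases hp : m = T.p v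
    · exact Or.inl ⟨hp, ⟨hvr, ch_O (T.mem_ch.2 ⟨hv, hvr, rfl⟩) (.inl (hp ▸ hm.symm))⟩,
        by rw [← hp, hcm]⟩
    · obtain ⟨x, hx, hxv⟩ := hmv.child hm.ne.symm
      obtain ⟨hx1, hx2, hx3⟩ := T.mem_ch.1 hx
      have hxne : x ≠ v := fun e => hp (by rw [← hx3, e])
      have h1 := hxv.lt hxne
      have h2 := d_ch hx
      exact Or.inr (Or.inl ⟨x, hx, F2 hmv.mem.1 hv hm.symm (by omega),
        by rw [tc, if_pos hxv, hx3, hcm], Or.inl ⟨hxv, hmz2⟩⟩)

/-- A hidden witness in a state of `S` is a paying pair. -/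
theorem payP_of {S : V → Prop} {v u z m x : V} (hv : v ∈ T.R) (hu : u ∈ T.O v) (hz : z ∈ T.R)
    (hS : S z) (hm : G.Adj v m) (hmu : m ≠ u) (hc : T.col z m = T.col v u) (hx : x ∈ T.ch m)
    (hH : v ∈ T.H m) (ht : T.tc x v = T.col v u)
    (h : (T.Anc x v ∧ ¬ T.Anc m z) ∨ (¬ T.Anc x v ∧ T.Anc x z)) : T.PayP S x v u := by
  obtain ⟨h1, h2, h3⟩ := T.mem_ch.1 hx
  refine ⟨h1, h2, h3 ▸ hH, ht, z, hS, ?_, h.imp (fun h => ⟨h.1, ?_⟩) id⟩
  · rw [h3, hc]; exact (T.uniq v hv u hu m hm hmu).symm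
  · rw [h3]; exact col_base hz (anc_ch hx).real h.2

end Tr

namespace IsB

variable {T : Tr G D}

open Tr

/-- Replay of a modification `f` of `s(a)` on `P` in a lower state `s(z)`: it is legal, or a
vertex of the path, or a port, shows the new colour of a modified vertex. -/
theorem replay (_ : IsB T) {a z : V} (haz : T.Anc a z) {F : Fm V} (hz : HC G D F z (T.col z))
    {f : V → ℕ} (hf : ∀ x y, G.Adj x y → f x ≠ f y) (P : V → Prop)
    (h0 : ∀ m, P m → m ∈ F.S ∧ f m < D) (h1 : ∀ m, ¬ P m → f m = T.col a m)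
    (h2 : ∀ m, P m → ¬ (T.Anc a m ∧ T.Anc m z)) :
    HC G D F z (fun m => if P m then f m else T.col z m) ∨
      (∃ x m, x ≠ T.r ∧ T.Anc a (T.p x) ∧ T.Anc x z ∧ P m ∧ G.Adj (T.p x) m ∧ f m = T.c x) ∨
      ∃ m y, P m ∧ y ∈ T.Dm ∧ ¬ P y ∧ G.Adj m y ∧ T.col z y = f m := by
  by_contra! k
  have nz : ¬ P z := fun e => h2 z e ⟨haz, Anc.refl z haz.mem.2⟩
  refine k.1 (hz.change hz.mem (fun m e => if_neg fun q => e (h0 m q).1)
    (by rw [if_neg nz, hz.hole]) (fun m e ne => ?_) fun x y e c => ?_)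
  · split_ifs with q
    exacts [(h0 m q).2, hz.lt m e ne]
  have px : P x := by
    by_contra q; exact c (if_neg q)
  rw [if_pos px]
  split_ifs with py
  · exact hf x y e
  by_cases yd : y ∈ T.Dm
  · exact (k.2.2 x y px yd py e).symm
  by_cases q : T.Anc a y ∧ T.Anc y z
  · by_cases yz : y = z
    · rw [yz, hz.hole]; exact (h0 x px).2.ne
    obtain ⟨w, hw, hwz⟩ := q.2.child yz
    obtain ⟨_, w2, w3⟩ := T.mem_ch.1 hw
    rw [col_anc hw hwz]
    exact k.2.1 w x w2 (w3 ▸ q.1) hwz px (w3 ▸ e.symm)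
  · rw [col_diff haz yd q, ← h1 y py]; exact hf x y e

/-- A triangle pair whose head is not the only neighbour of that colour in the state of the
parent has another payer (`m` real). -/
theorem tri_alt (_ : IsB T) {S : V → Prop} {x v m : V} (hx : x ∈ T.R) (hr : x ≠ T.r)
    (hv : v ∈ T.R) (hO : x ∈ T.O v) (hS : S x) (n1 : ¬ T.Anc v x) (n2 : ¬ T.Anc x v)
    (hm : G.Adj v m) (hmx : m ≠ x) (hc : T.col (T.p x) m = T.c x) :
    T.PayT v x ∨ (∃ y, T.p y = m ∧ y ≠ x ∧ T.PayP S y v x) ∨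
      T.Port (T.p x) v (T.col v x) := by
  have xd := T.real x hx
  by_cases md : m ∈ T.Dm
  · exact .inr (.inr (port_of hv hO hm md (by rw [hc, col_base hv xd n2])))
  have hq := T.p_mem x hx hr
  have hmq : m ≠ T.p x := by
    rintro rfl
    have := c_lt hx hr
    rw [col_self hq] at hc; omega
  have hc2 : T.col x m = T.col v x := by rw [col_step hx hr md hmx hmq, hc, col_base hv xd n2]
  rcases wit2 hv hO hx n1 hm hmx hc2 with k | ⟨y, hy, k1, k2, k3⟩ | ⟨y, hy, k1, _, k3, k4, _⟩ | k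
  · exact Or.inl k.2
  · have hp := (T.mem_ch.1 hy).2.2
    exact Or.inr (.inl ⟨y, hp, fun e => hmq (by rw [← hp, e]),
      payP_of hv hO hx hS hm hmx hc2 hy k1 k2 k3⟩)
  · exfalso
    have hp := (T.mem_ch.1 hy).2.2
    have hyx : y ≠ x := fun e => hmq (by rw [← hp, e])
    have d1 := d_ch hy
    have d2 := (T.clo m (anc_ch hy).mem.1 v k4).2
    have d3 := (T.clo v hv x hO).2
    have := k1.ch_of_d hyx (by omega)
    exact c_ch_ne this (T.mem_ch.1 hy).2.1 (by rw [k3, col_base hv xd n2])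
  · exact absurd k.1 md

end IsB

end Pool.Agent.Lib.MP_12eaff_co.Acc2
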