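import Pool.Agent.Lib.MP_12eaff_co.Acc2.RobV
import Pool.Agent.Lib.MP_12eaff_co.S8b

set_option autoImplicit false
set_option linter.unusedSectionVars false

namespace Pool.Agent.Lib.MP_12eaff_co.Acc2

open Finset Pool.Agent.Lib.MP_12eaff_co.BK PV Function
open scoped Classical

variable {V : Type} [Fintype V] {G : SimpleGraph V} {D L : ℕ} {Z P : Finset V}

/-- The cliques with `D` vertices. -/
noncomputable def KK (G : SimpleGraph V) (D : ℕ) : Finset (Finset V) :=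
  univ.filter fun K => IsClq G K ∧ K.card = D

/-- Their union. -/
noncomputable def UU (G : SimpleGraph V) (D : ℕ) : Finset V := (KK G D).biUnion id

/-- The counted sets. -/
noncomputable def FF (G : SimpleGraph V) (D : ℕ) (Z : Finset V) : Finset (Finset V) :=
  (KK G D).image (· \ Z)

/-- `Z` covers the edges between different largest cliques. -/
def Cov8 (G : SimpleGraph V) (D : ℕ) (Z : Finset V) : Prop :=
  ∀ K ∈ KK G D, ∀ u ∈ K, ∀ v ∈ UU G D, v ∉ K → G.Adj u v → u ∈ Z ∨ v ∈ Z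

theorem mem_KK {K : Finset V} : K ∈ KK G D ↔ IsClq G K ∧ K.card = D := by simp [KK]

theorem mem_UU {v : V} : v ∈ UU G D ↔ ∃ K ∈ KK G D, v ∈ K := by simp [UU]

theorem mem_FF {F : Finset V} : F ∈ FF G D Z ↔ ∃ K ∈ KK G D, K \ Z = F := mem_image

theorem cf_K (h : MC G D) (hD : 8 ≤ D) (h5 : ∀ K ∈ KK G D, 5 ≤ (K \ Z).card) :
    Cf G (UU G D) (FF G D Z) := by
  refine ⟨fun F p v q => ?_, fun F p F' p' v q q' => ?_, fun F p m q => ?_,
    fun F p z n a q b r s t => ?_, fun F p => ?_⟩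
  all_goals obtain ⟨K, k, rfl⟩ := mem_FF.1 p
  · exact mem_UU.2 ⟨K, k, (mem_sdiff.1 q).1⟩
  · obtain ⟨K', k', rfl⟩ := mem_FF.1 p'
    rw [dj8 h hD (mem_KK.1 k).1 (mem_KK.1 k).2 (mem_KK.1 k').1 (mem_KK.1 k').2 (mem_sdiff.1 q).1
      (mem_sdiff.1 q').1]
  · exact (card_le_card (sdiff_subset_sdiff Subset.rfl fun v e => mem_UU.2 ⟨K, k, e⟩)).trans
      (out_le h.deg (mem_KK.1 k).1 (mem_KK.1 k).2 (mem_sdiff.1 q).1)
  · exact rs8 h hD (mem_KK.1 k).1 (mem_KK.1 k).2 (fun e => n (mem_UU.2 ⟨K, k, e⟩))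
      (mem_sdiff.1 q).1 (mem_sdiff.1 r).1 s.symm t.symm
  · exact (Nat.le_succ 4).trans (h5 K k)

/-- The robust system of the largest cliques. -/
noncomputable def vsK (h : MC G D) (hD : 8 ≤ D) (h5 : ∀ K ∈ KK G D, 5 ≤ (K \ Z).card)
    (hL : 2 ≤ L) : VS G D (UU G D) := (cf_K h hD h5).vs D hL

theorem nofill_K (h : MC G D) (hD : 8 ≤ D) (h5 : ∀ K ∈ KK G D, 5 ≤ (K \ Z).card) (hL : 2 ≤ L)
    (cv : Cov8 G D Z) : (vsK h hD h5 hL).NoFill (UU G D) := fun g a b c =>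
  h.ncol (zg_colr h.deg (fun _ => mem_UU) (fun K k K' k' _ p q =>
    dj8 h hD (mem_KK.1 k).1 (mem_KK.1 k).2 (mem_KK.1 k').1 (mem_KK.1 k').2 p q)
    (fun _ => mem_KK.1) cv h5 a b
    (fun K k y l => let ⟨w, p, q⟩ := (c _ (mem_FF.2 ⟨K, k, rfl⟩)).nA y l
      ⟨w, p, fun m r s t => q ⟨m, r, s, t⟩⟩)
    fun K k y l z l' e => by
      have := (c _ (mem_FF.2 ⟨K, k, rfl⟩)).nB y l z l' e
      unfold Se at this
      convert this)

/-- Real cliques of the port graph are smaller than `D`. -/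
theorem clq_real (h : MC G D) (hD : 1 ≤ D) {Q : Finset (PV V)} (k : IsClq (PG G (UU G D) P) Q)
    (r : ∀ x ∈ Q, x ∉ PD (UU G D) P) : Q.card + 1 ≤ D := by
  obtain ⟨Q', a, b, c⟩ := PG_clq k r
  have := h.cf Q' a
  by_contra n
  obtain ⟨v, p⟩ := card_pos.1 (by omega : 0 < Q'.card)
  exact c v p (mem_union_left _ (mem_UU.2 ⟨Q', mem_KK.2 ⟨a, by omega⟩, p⟩))

end Pool.Agent.Lib.MP_12eaff_co.Acc2
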