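import Pool.Agent.Lib.MP_12eaff_co.Acc2.Rob
import Pool.Agent.Lib.MP_12eaff_co.Acc2.ZG

set_option autoImplicit false
set_option linter.unusedSectionVars false

namespace Pool.Agent.Lib.MP_12eaff_co.Acc2

open Finset Pool.Agent.Lib.MP_12eaff_co.BK PV Function
open scoped Classical

variable {V : Type} [Fintype V] {G : SimpleGraph V} {D L : ℕ} {U W F : Finset V}

/-- `m` sees `γ` on a vertex off `W`. -/
def Se (G : SimpleGraph V) (W : Finset V) (f : V → ℕ) (m : V) (γ : ℕ) : Prop :=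
  ∃ z ∉ W, G.Adj m z ∧ f z = γ

/-- `m` sees `γ` on two vertices off `W`. -/
def Mo (G : SimpleGraph V) (W : Finset V) (f : V → ℕ) (m : V) (γ : ℕ) : Prop :=
  ∃ a ∉ W, ∃ b ∉ W, a ≠ b ∧ G.Adj m a ∧ G.Adj m b ∧ f a = γ ∧ f b = γ

/-- Validity for one counted set: every colour is missed, every pair is not seen by two members,
at most `L` members see one colour twice. -/
structure VF (G : SimpleGraph V) (D L : ℕ) (F W : Finset V) (f : V → ℕ) : Prop where
  nA : ∀ γ < D, ∃ m ∈ F, ¬ Se G W f m γ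
  nB : ∀ γ < D, ∀ δ < D, γ ≠ δ →
    (F.filter fun m => Se G W f m γ ∧ Se G W f m δ).card + 2 ≤ F.card
  nM : ∀ γ < D, (F.filter fun m => Mo G W f m γ).card ≤ L

/-- Counted sets: disjoint, inside `U`, at most two slots for every member, at most one member
for every slot. -/
structure Cf (G : SimpleGraph V) (U : Finset V) (fam : Finset (Finset V)) : Prop where
  sub : ∀ F ∈ fam, F ⊆ U
  dj : ∀ F ∈ fam, ∀ F' ∈ fam, ∀ v ∈ F, v ∈ F' → F = F'
  two : ∀ F ∈ fam, ∀ m ∈ F, (nb G m \ U).card ≤ 2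
  rs : ∀ F ∈ fam, ∀ z, z ∉ U → ∀ a ∈ F, ∀ b ∈ F, G.Adj a z → G.Adj b z → a = b
  four : ∀ F ∈ fam, 4 ≤ F.card

variable {f : V → ℕ} {m z : V} {γ δ κ : ℕ}

theorem Mo.se (h : Mo G W f m γ) : Se G W f m γ := let ⟨a, b, _, _, _, c, _, d, _⟩ := h; ⟨a, b, c, d⟩

/-- A member has at most two slots. -/
theorem slot3 (h : (nb G m \ U).card ≤ 2) (k : U ⊆ W) {a b c : V} (a1 : a ∉ W) (b1 : b ∉ W)
    (c1 : c ∉ W) (a2 : G.Adj m a) (b2 : G.Adj m b) (c2 : G.Adj m c) : a = b ∨ a = c ∨ b = c := by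
  by_contra! e
  have : ({a, b, c} : Finset V).card ≤ (nb G m \ U).card := card_le_card fun x p => by
    simp only [mem_insert, mem_singleton] at p
    rcases p with rfl | rfl | rfl
    exacts [mem_sdiff.2 ⟨mem_nb.2 a2, fun q => a1 (k q)⟩, mem_sdiff.2 ⟨mem_nb.2 b2, fun q => b1 (k q)⟩,
      mem_sdiff.2 ⟨mem_nb.2 c2, fun q => c1 (k q)⟩]
  rw [card_eq_three.2 ⟨a, b, c, e.1, e.2.1, e.2.2, rfl⟩] at this
  omega

theorem se3 (h : (nb G m \ U).card ≤ 2) (k : U ⊆ W) (a : Se G W f m γ) (b : Se G W f m δ)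
    (c : Se G W f m κ) : γ = δ ∨ γ = κ ∨ δ = κ := by
  obtain ⟨a, a1, a2, rfl⟩ := a
  obtain ⟨b, b1, b2, rfl⟩ := b
  obtain ⟨c, c1, c2, rfl⟩ := c
  exact (slot3 h k a1 b1 c1 a2 b2 c2).imp (congrArg f) fun p => p.imp (congrArg f) (congrArg f)

theorem Mo.eq (a : Mo G W f m γ) (h : (nb G m \ U).card ≤ 2) (k : U ⊆ W) (c : Se G W f m κ) :
    κ = γ := by
  obtain ⟨a, a1, b, b1, e, a2, b2, a3, b3⟩ := a
  obtain ⟨c, c1, c2, rfl⟩ := c
  rcases slot3 h k a1 b1 c1 a2 b2 c2 with p | rfl | rfl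
  exacts [absurd p e, a3, b3]

/-- The member at the hole sees at most one colour. -/
theorem se_hole (h : (nb G m \ U).card ≤ 2) (k : U ⊆ W) (z1 : z ∉ W) (z2 : G.Adj m z)
    (z3 : f z = D) (l : γ < D) (l' : δ < D) (a : Se G W f m γ) (b : Se G W f m δ) : γ = δ := by
  rcases se3 h k a b ⟨z, z1, z2, z3⟩ with p | p | p
  exacts [p, by omega, by omega]

theorem se_update_ne (n : ¬ G.Adj m z) : Se G W (update f z γ) m κ ↔ Se G W f m κ :=
  exists_congr fun x => and_congr_right fun _ => and_congr_right fun a => by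
    rw [update_of_ne fun e : x = z => n (e ▸ a)]

theorem mo_update_ne (n : ¬ G.Adj m z) : Mo G W (update f z γ) m κ ↔ Mo G W f m κ :=
  exists_congr fun x => and_congr_right fun _ => exists_congr fun y => and_congr_right fun _ =>
    and_congr_right fun _ => and_congr_right fun a => and_congr_right fun b => by
      rw [update_of_ne fun e : x = z => n (e ▸ a), update_of_ne fun e : y = z => n (e ▸ b)]

theorem se_update (a : Se G W (update f z γ) m κ) : κ = γ ∨ Se G W f m κ := by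
  obtain ⟨x, a1, a2, a3⟩ := a
  by_cases e : x = z
  · rw [e, update_self] at a3; exact .inl a3.symm
  · rw [update_of_ne e] at a3; exact .inr ⟨x, a1, a2, a3⟩

theorem mo_update (a : Mo G W (update f z γ) m κ) : Mo G W f m κ ∨ κ = γ ∧ Se G W f m γ := by
  obtain ⟨x, x1, y, y1, e, x2, y2, x3, y3⟩ := a
  by_cases p : x = z
  · rw [p, update_self] at x3
    rw [update_of_ne (p ▸ e.symm)] at y3
    exact .inr ⟨x3.symm, y, y1, y2, y3.trans x3.symm⟩
  by_cases q : y = z
  · rw [q, update_self] at y3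
    rw [update_of_ne p] at x3
    exact .inr ⟨y3.symm, x, x1, x2, x3.trans y3.symm⟩
  · rw [update_of_ne p] at x3
    rw [update_of_ne q] at y3
    exact .inl ⟨x, x1, y, y1, e, x2, y2, x3, y3⟩

theorem VF.mono {W' : Finset V} {f' : V → ℕ} (k : ∀ m ∈ F, ∀ z, z ∉ W' → G.Adj m z → f' z < D →
    z ∉ W ∧ f z = f' z) (h : VF G D L F W f) : VF G D L F W' f' := by
  have s : ∀ m ∈ F, ∀ γ < D, Se G W' f' m γ → Se G W f m γ := fun m p γ l ⟨z, a, b, c⟩ =>
    let e := k m p z a b (c ▸ l); ⟨z, e.1, b, e.2.trans c⟩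
  refine ⟨fun γ l => let ⟨m, a, b⟩ := h.nA γ l; ⟨m, a, fun c => b (s m a γ l c)⟩,
    fun γ l δ l' e => le_trans (Nat.add_le_add_right (card_le_card fun m p => ?_) 2)
      (h.nB γ l δ l' e), fun γ l => (card_le_card fun m p => ?_).trans (h.nM γ l)⟩
  · obtain ⟨p, a, b⟩ := mem_filter.1 p
    exact mem_filter.2 ⟨p, s m p γ l a, s m p δ l' b⟩
  · obtain ⟨p, x, x1, y, y1, e, x2, y2, x3, y3⟩ := mem_filter.1 p
    have a := k m p x x1 x2 (x3 ▸ l)
    have b := k m p y y1 y2 (y3 ▸ l)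
    exact mem_filter.2 ⟨p, x, a.1, y, b.1, e, x2, y2, a.2.trans x3, b.2.trans y3⟩

/-- The three kinds of forced colours at the slot `z` of `m`. -/
inductive Frc (G : SimpleGraph V) (D L : ℕ) (F W : Finset V) (f : V → ℕ) (m : V) (γ : ℕ) : Prop
  | A : ¬ Se G W f m γ → (∀ w ∈ F, w ≠ m → Se G W f w γ) → Frc G D L F W f m γ
  | B (ε : ℕ) : ε < D → ε ≠ γ → Se G W f m ε → ¬ Se G W f m γ →
      ((F.erase m).filter fun w => Se G W f w γ ∧ Se G W f w ε).card + 2 = F.card →
      Frc G D L F W f m γ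
  | M : Se G W f m γ → ((F.erase m).filter fun w => Mo G W f w γ).card = L → Frc G D L F W f m γ

theorem card_filter_erase (P Q : V → Prop) [DecidablePred P] [DecidablePred Q] (m : V)
    (h : ∀ w ∈ F, w ≠ m → P w → Q w) :
    (F.filter P).card ≤ ((F.erase m).filter Q).card + 1 :=
  (card_le_card (t := insert m ((F.erase m).filter Q)) fun w p => by
    obtain ⟨a, b⟩ := mem_filter.1 p
    by_cases e : w = m
    · exact e ▸ mem_insert_self _ _
    · exact mem_insert_of_mem (mem_filter.2 ⟨mem_erase.2 ⟨e, a⟩, h w a e b⟩)).trans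
    (card_insert_le _ _)

theorem VF.frc (h : VF G D L F W f) (hm : m ∈ F) (hr : ∀ w ∈ F, w ≠ m → ¬ G.Adj w z)
    (n : ¬ VF G D L F W (update f z γ)) : Frc G D L F W f m γ := by
  by_contra c
  have sub : ∀ (P : V → Prop) [DecidablePred P],
      ((F.erase m).filter P).card ≤ (F.filter P).card := fun P _ =>
    card_le_card (filter_subset_filter _ (erase_subset _ _))
  have hB : ∀ ε < D, ε ≠ γ → γ < D → (F.filter fun w => Se G W (update f z γ) w γ ∧
      Se G W (update f z γ) w ε).card + 2 ≤ F.card := fun ε l e l' => by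
    by_cases q : Se G W f m ε ∧ ¬ Se G W f m γ
    · have a := card_filter_erase (fun w => Se G W (update f z γ) w γ ∧ Se G W (update f z γ) w ε)
        (fun w => Se G W f w γ ∧ Se G W f w ε) m fun w p r s =>
          ⟨(se_update_ne (hr w p r)).1 s.1, (se_update_ne (hr w p r)).1 s.2⟩
      have := sub fun w => Se G W f w γ ∧ Se G W f w ε
      have := h.nB γ l' ε l e.symm
      have : ((F.erase m).filter fun w => Se G W f w γ ∧ Se G W f w ε).card + 2 ≠ F.card :=
        fun k => c (.B ε l e q.1 q.2 k)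
      omega
    · refine le_trans (Nat.add_le_add_right (card_le_card fun w p => ?_) 2) (h.nB γ l' ε l e.symm)
      obtain ⟨p, a, b⟩ := mem_filter.1 p
      have b := (se_update b).resolve_left e
      refine mem_filter.2 ⟨p, ?_, b⟩
      by_cases r : w = m
      · exact r ▸ by_contra fun s => q ⟨r ▸ b, s⟩
      · exact (se_update_ne (hr w p r)).1 a
  refine n ⟨fun κ l => ?_, fun κ l ε l' e => ?_, fun κ l => ?_⟩
  · by_contra! k
    obtain ⟨w, a, b⟩ := h.nA κ l
    obtain rfl := (se_update (k w a)).resolve_right b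
    have o : ∀ x ∈ F, x ≠ m → Se G W f x κ := fun x p q => (se_update_ne (hr x p q)).1 (k x p)
    obtain rfl : w = m := by_contra fun e => b (o w a e)
    exact c (.A b o)
  · by_cases p : κ = γ
    · subst p; exact hB ε l' e.symm l
    by_cases q : ε = γ
    · subst q
      rw [filter_congr fun w _ => and_comm]; exact hB κ l e l'
    · refine le_trans (Nat.add_le_add_right (card_le_card fun w s => ?_) 2) (h.nB κ l ε l' e)
      obtain ⟨s, a, b⟩ := mem_filter.1 s
      exact mem_filter.2 ⟨s, (se_update a).resolve_left p, (se_update b).resolve_left q⟩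
  · by_cases q : κ = γ ∧ Se G W f m γ
    · obtain ⟨rfl, q⟩ := q
      have a := card_filter_erase (fun w => Mo G W (update f z κ) w κ) (fun w => Mo G W f w κ) m
        fun w p r s => (mo_update_ne (hr w p r)).1 s
      have := sub fun w => Mo G W f w κ
      have := h.nM κ l
      have : ((F.erase m).filter fun w => Mo G W f w κ).card ≠ L := fun k => c (.M q k)
      omega
    · refine (card_le_card fun w s => ?_).trans (h.nM κ l)
      obtain ⟨s, a⟩ := mem_filter.1 s
      refine mem_filter.2 ⟨s, ?_⟩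
      by_cases r : w = m
      · exact (mo_update a).resolve_right (r ▸ q)
      · exact (mo_update_ne (hr w s r)).1 a

/-- At most one colour is forced. -/
theorem Frc.uniq (h : VF G D L F W f) (hm : m ∈ F) (t : ∀ w ∈ F, (nb G w \ U).card ≤ 2)
    (k : U ⊆ W) (h4 : 4 ≤ F.card) (hL : 2 ≤ L) (z1 : z ∉ W) (z2 : G.Adj m z) (z3 : f z = D)
    (l : γ < D) (l' : δ < D) (a : Frc G D L F W f m γ) (b : Frc G D L F W f m δ) : γ = δ := by
  have ce := card_erase_add_one hm
  have meet : ∀ (P Q : V → Prop) [DecidablePred P] [DecidablePred Q],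
      F.card ≤ ((F.erase m).filter P).card + ((F.erase m).filter Q).card →
      ∃ w ∈ F, P w ∧ Q w := fun P Q _ _ e => by
    by_contra! n
    rw [← card_union_of_disjoint (disjoint_left.2 fun w p q =>
      n w (mem_of_mem_erase (mem_filter.1 p).1) (mem_filter.1 p).2 (mem_filter.1 q).2)] at e
    have := card_le_card (union_subset (filter_subset P (F.erase m)) (filter_subset Q (F.erase m)))
    omega
  have one : ∀ (P : V → Prop) [DecidablePred P], 1 ≤ ((F.erase m).filter P).card →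
      ∃ w ∈ F, w ≠ m ∧ P w := fun P _ e =>
    let ⟨w, p⟩ := card_pos.1 e
    ⟨w, mem_of_mem_erase (mem_filter.1 p).1, ne_of_mem_erase (mem_filter.1 p).1, (mem_filter.1 p).2⟩
  have AB : ∀ {γ δ ε : ℕ}, ¬ Se G W f m γ → (∀ w ∈ F, w ≠ m → Se G W f w γ) → ε ≠ δ →
      Se G W f m ε → ((F.erase m).filter fun w => Se G W f w δ ∧ Se G W f w ε).card + 2 = F.card →
      γ = δ := fun {γ δ ε} a1 a2 b1 b2 b3 => by
    obtain ⟨w, p, q, r⟩ := one (fun w => Se G W f w δ ∧ Se G W f w ε) (by omega)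
    rcases se3 (t w p) k (a2 w p q) r.1 r.2 with e | e | e
    exacts [e, absurd (e ▸ b2) a1, absurd e.symm b1]
  have AM : ∀ {γ δ : ℕ}, (∀ w ∈ F, w ≠ m → Se G W f w γ) →
      ((F.erase m).filter fun w => Mo G W f w δ).card = L → γ = δ := fun {γ δ} a2 b => by
    obtain ⟨w, p, q, r⟩ := one (fun w => Mo G W f w δ) (by omega)
    exact r.eq (t w p) k (a2 w p q)
  have BM : ∀ {γ δ ε : ℕ}, ε ≠ γ →
      ((F.erase m).filter fun w => Se G W f w γ ∧ Se G W f w ε).card + 2 = F.card →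
      ((F.erase m).filter fun w => Mo G W f w δ).card = L → False := fun {γ δ ε} e a b => by
    obtain ⟨w, p, q, r⟩ := meet (fun w => Se G W f w γ ∧ Se G W f w ε) (fun w => Mo G W f w δ)
      (by omega)
    exact e ((r.eq (t w p) k q.2).trans (r.eq (t w p) k q.1).symm)
  by_contra n
  rcases a with ⟨a1, a2⟩ | ⟨ε, a0, a1, a2, a3, a4⟩ | ⟨a1, a2⟩ <;>
    rcases b with ⟨b1, b2⟩ | ⟨η, b0, b1, b2, b3, b4⟩ | ⟨b1, b2⟩
  · have := h.nB γ l δ l' n
    have : (F.erase m).card ≤ (F.filter fun w => Se G W f w γ ∧ Se G W f w δ).card :=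
      card_le_card fun w p => let q := mem_erase.1 p; mem_filter.2 ⟨q.2, a2 w q.2 q.1, b2 w q.2 q.1⟩
    omega
  · exact n (AB a1 a2 b1 b2 b4)
  · exact n (AM a2 b2)
  · exact n (AB b1 b2 a1 a2 a4).symm
  · obtain rfl := se_hole (t m hm) k z1 z2 z3 a0 b0 a2 b2
    obtain ⟨w, p, q, r⟩ := meet (fun w => Se G W f w γ ∧ Se G W f w ε)
      (fun w => Se G W f w δ ∧ Se G W f w ε) (by omega)
    rcases se3 (t w p) k q.1 r.1 q.2 with e | e | e
    exacts [n e, a1 e.symm, b1 e.symm]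
  · exact BM a1 a4 b2
  · exact n (AM b2 a2).symm
  · exact BM b1 b4 a2
  · exact n (se_hole (t m hm) k z1 z2 z3 l l' a1 b1)

/-- The robust system. -/
def Cf.vs {fam : Finset (Finset V)} (h : Cf G U fam) (D : ℕ) {L : ℕ} (hL : 2 ≤ L) : VS G D U where
  fam := fam
  ok := VF G D L
  sub := h.sub
  dj := h.dj
  mono _ _ _ _ _ _ := VF.mono
  top F p f := by
    have n : ∀ m γ, ¬ Se G univ f m γ := fun m γ ⟨z, a, _⟩ => a (mem_univ z)
    have := h.four F p
    obtain ⟨m, q⟩ := card_pos.1 (by omega : 0 < F.card)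
    refine ⟨fun γ _ => ⟨m, q, n m γ⟩, fun γ _ δ _ _ => ?_, fun γ _ => ?_⟩
    · rw [filter_false_of_mem fun m _ k => n m γ k.1, card_empty]; omega
    · rw [filter_false_of_mem fun m _ k => n m γ k.se, card_empty]; omega
  uniq F p W f z γ δ k z1 z3 v l l' a b := by
    obtain ⟨m, q, r⟩ : ∃ m ∈ F, G.Adj m z := by
      by_contra! c
      exact a (v.mono fun m q x s t _ =>
        ⟨s, (update_of_ne (fun e : x = z => c m q (e ▸ t)) _ _).symm⟩)
    have hr : ∀ w ∈ F, w ≠ m → ¬ G.Adj w z := fun w s t u =>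
      t (h.rs F p z (fun e => z1 (k e)) w s m q u r)
    exact Frc.uniq v q (h.two F p) k (h.four F p) hL z1 r z3 l l' (v.frc q hr a) (v.frc q hr b)

end Pool.Agent.Lib.MP_12eaff_co.Acc2
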