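import Pool.Agent.Lib.MP_12eaff_co.Acc2.Tok

set_option autoImplicit false
set_option linter.unusedSectionVars false

namespace Pool.Agent.Lib.MP_12eaff_co.Acc2

open Finset Pool.Agent.Lib.MP_12eaff_co.BK
open scoped Classical

variable {V : Type} [Fintype V] {G : SimpleGraph V} {D : ℕ}

/-- In `s(z)` the parent of `r` is the only second witness for the `t`-arc `r → x`. -/
def DebZ (T : Tr G D) (r x z : V) : Prop :=
  T.PayT r x ∧ ¬ T.Anc (T.p r) z ∧ ∀ m, G.Adj r m → m ≠ x → m ≠ T.p r → T.col z m ≠ T.col r x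

/-- What a second witness for the arc `r → x` in the tight state `s(z)` gives. -/
def Sec (T : Tr G D) (Ex Ok : V → V → Prop) (r x z : V) : Prop :=
  T.HasI (T.U6 Ex Ok) r x ∨ T.PT r x ∨ (∃ a ∈ T.R, r ∈ T.Dr a) ∨ (∃ a b, T.Opn r x z a b) ∨
    LXB T Ok r z ∨ (∃ e, XE T Ex Ok r z e) ∨ DebZ T r x z ∨ T.ch z = ∅ ∧ T.c z = T.col r x

namespace IsB

variable {T : Tr G D} {Ex Ok Use : V → V → Prop} {u v w x e y z r a b m s : V}

open Tr IsA

theorem sec8 (h : IsB T) (hO : ∀ a, T.ch a ≠ ∅ → Ok a r) (hr : r ∈ T.R) (rx : x ∈ T.O r)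
    (hz : z ∈ T.R) (nr : ¬ T.Anc r z) (t : T.Tight z r) (m1 : G.Adj r m) (m2 : m ≠ x)
    (m3 : T.col z m = T.col r x) : Sec T Ex Ok r x z := by
  by_cases cs : T.ch z = ∅ ∧ T.c z = T.col r x
  · exact .inr (.inr (.inr (.inr (.inr (.inr (.inr cs))))))
  by_cases k : ∃ m, G.Adj r m ∧ m ≠ x ∧ (T.PayT r x → m ≠ T.p r) ∧ T.col z m = T.col r x
  · obtain ⟨m, k1, k2, k3, k4⟩ := k
    exact (h.wit8 (Ex := Ex) hO hr rx hz (fun a b => cs ⟨a, b⟩) nr t k1 k2 k3 k4).imp_right fun p =>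
      p.imp_right fun p => p.imp_right fun p => p.imp_right fun p => p.imp_right .inl
  push Not at k
  have : T.PayT r x ∧ m = T.p r := by
    by_contra p
    exact k m m1 m2 (fun x y => p ⟨x, y⟩) m3
  refine .inr (.inr (.inr (.inr (.inr (.inr (.inl ⟨this.1, fun p => ?_,
    fun m a b c => k m a b fun _ => c⟩))))))
  exact col_ne_base (t_nr hr rx this.1) p (by rw [← this.2, m3, this.1.2, this.2])

/-- The same from a double. -/
theorem sec_dbl (h : IsB T) (hO : ∀ a, T.ch a ≠ ∅ → Ok a r) (hr : r ∈ T.R) (rx : x ∈ T.O r)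
    (hz : z ∈ T.R) (nr : ¬ T.Anc r z) (t : T.Tight z r) (c : T.col z x = T.col r x)
    (d : ¬ Uq G (T.col z) r x) : Sec T Ex Ok r x z := by
  simp only [Uq, not_forall, not_not] at d
  obtain ⟨m, m1, m2, m3⟩ := d
  exact h.sec8 hO hr rx hz nr t m1 m2 (m3.trans c)

/-- ENTRY `z → x → r` for any arc `r → x` (tree arcs included). -/
theorem sec_ent (h : IsB T) (hO : ∀ a, T.ch a ≠ ∅ → Ok a r) (hr : r ∈ T.R) (rx : x ∈ T.O r)
    (hz : z ∈ T.R) (pz : x ∈ T.O z) (nr : ¬ T.Anc r z) (c : T.col z x = T.col r x)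
    (n : ¬ G.Adj z r) (u : Uq G (T.col z) x r) : T.Tight z r ∧ Sec T Ex Ok r x z :=
  let ⟨t, d⟩ := h.ent_tight hz pz (T.real r hr) (T.O_adj r hr x rx).symm
    (fun e => nr (e ▸ .refl _ (e ▸ hz))) n u
  ⟨t, h.sec_dbl hO hr rx hz nr t c d⟩

/-- PATH `z → y → x → r` for any arc `r → x` (tree arcs included). -/
theorem sec_path (h : IsB T) (hO : ∀ a, T.ch a ≠ ∅ → Ok a r) (hr : r ∈ T.R) (rx : x ∈ T.O r)
    (hz : z ∈ T.R) (pz : y ∈ T.O z) (a : G.Adj y x) (xz : x ≠ z) (nr : ¬ T.Anc r z)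
    (c : T.col z x = T.col r x) (uq : Uq G (T.col z) y x) (n : ¬ G.Adj y r) (ry : r ≠ y)
    (u : Uq G (T.col z) x r) : T.Tight z r ∧ Sec T Ex Ok r x z ∨
      r ∈ T.H z ∧ x ∉ T.O z ∧ ∀ m, G.Adj r m → T.col z m ≠ T.col z y :=
  let ⟨d, t⟩ := h.pair_tight hz pz a (T.clo r hr x rx).1 hr (T.O_adj r hr x rx).symm xz nr uq n ry u
  t.imp_left fun t => ⟨t, h.sec_dbl hO hr rx hz nr t c d⟩

/-- TRIANGLE `z → x → r → g` for any arc `g → x`. -/
theorem sec_tri {g : V} (h : IsB T) (hO : ∀ a, T.ch a ≠ ∅ → Ok a g) (hg : g ∈ T.R)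
    (gx : x ∈ T.O g) (hz : z ∈ T.R) (pz : x ∈ T.O z) (rd : r ∉ T.Dm) (xr : G.Adj x r)
    (rg : G.Adj r g) (rz : r ≠ z) (ng : ¬ T.Anc g z) (c : T.col z x = T.col g x)
    (u1 : Uq G (T.col z) x r) (u2 : Uq G (T.col z) r g) (n : ¬ G.Adj z g) :
    T.Tight z g ∧ Sec T Ex Ok g x z :=
  let ⟨t, _, m1, m2, m3⟩ := h.tri_tight hz pz rd (T.real g hg) xr rg (T.O_adj g hg x gx).symm rz
    (fun e => ng (e ▸ .refl _ (e ▸ hz))) u1 u2 n
  ⟨t, h.sec8 hO hg gx hz ng t m1 m2 (m3.trans c)⟩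

/-- A token or a ticket read from `Sec`. -/
theorem tok_of_hasI (ar : a ≠ T.r) (po : a ∈ T.O (T.p a))
    (k : T.HasI Use (T.p a) a ∨ T.PT (T.p a) a) : T.Tok Use a := ⟨ar, po, k⟩

/-- After the free member `a` of the double of `x` is recoloured, the other member `b` is unique. -/
theorem free_uq (h : IsB T) (hx : x ∈ T.R) (ha : a ∈ T.Bd x) (hb : b ∈ T.Bd x) (ab : a ≠ b)
    {κ : ℕ} (ne : κ ≠ T.col x a) : Uq G (Function.update (T.col x) a κ) x b := fun m p q => by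
  rw [Function.update_of_ne ab.symm]
  by_cases e : m = a
  · rwa [e, Function.update_self, ← h.Bd_col hx ha hb]
  · rw [Function.update_of_ne e]
    exact fun k => (h.hc1 hx).double (h.dgo hx _) (mem_Bd.1 ha).1 (mem_Bd.1 hb).1 ab
      (h.Bd_col hx ha hb) (mem_Bd.1 ha).2.2 p (k ▸ (mem_Bd.1 hb).2.2) e q b (mem_Bd.1 hb).1 q.symm
      k.symm

/-- H-EDGE: `a` can take `κ` in `s(x)`, then the hole runs `x → b → r`.  The vertex `r` sees the
colour of the double at a third vertex, and it is tight up to `κ`. -/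
theorem hedge (h : IsB T) (hx : x ∈ T.R) (ha : a ∈ T.Bd x) (hb : b ∈ T.Bd x) (ab : a ≠ b)
    (ad : a ∉ T.Dm) (bd : b ∉ T.Dm) (rd : r ∉ T.Dm) {κ : ℕ} (l : κ < D) (ne : κ ≠ T.col x a)
    (fr : ∀ m, G.Adj a m → T.col x m ≠ κ) (br : G.Adj b r) (n : ¬ G.Adj x r) (rx : r ≠ x)
    (u : Uq G (T.col x) b r) :
    (∃ m, G.Adj r m ∧ m ≠ b ∧ m ≠ a ∧ T.col x m = T.col x b) ∧
      ∀ η < D, η ≠ T.col x r → (η = κ → ¬ G.Adj r a) → ∃ m, G.Adj r m ∧ T.col x m = η := by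
  have xa := (mem_Bd.1 ha).1
  have xb := (mem_Bd.1 hb).1
  have nab := h.Bd_nadj hx ha hb
  have ra : r ≠ a := fun e => n (e ▸ xa)
  have hc := (h.hcE hx ad bd rd xa br).recol (by simp) xa.ne.symm l fr
  have s := (hc.two_shift (by simp) (by simp) xb.ne.symm rx (h.free_uq hx ha hb ab ne)
    (fun m p q => by
      rw [Function.update_of_ne ra, Function.update_of_ne fun e : m = a => nab (e ▸ p).symm]
      exact u m p q) br).2
  rw [Function.update_of_ne ra] at s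
  have key : ∀ η < D, η ≠ T.col x r → (η = κ → ¬ G.Adj r a) →
      ∃ m, G.Adj r m ∧ m ≠ b ∧ m ≠ a ∧ T.col x m = η := fun η p q o => by
    obtain ⟨m, m1, m2, m3⟩ := s η p q
    obtain ⟨-, m4⟩ := m3.resolve_left fun e => n (e.1 ▸ m1.symm)
    have : m ≠ a := fun e => o (by rw [← m4, e, Function.update_self]) (e ▸ m1)
    exact ⟨m, m1, m2, this, by rwa [Function.update_of_ne this] at m4⟩
  exact ⟨key _ (mem_Bd.1 hb).2.2 (T.prop x hx _ _ br) fun e =>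
    absurd (by rw [← e, h.Bd_col hx ha hb]) ne,
    fun η p q o => let ⟨m, m1, _, _, m2⟩ := key η p q o; ⟨m, m1, m2⟩⟩

end IsB

end Pool.Agent.Lib.MP_12eaff_co.Acc2
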