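import Pool.Agent.Lib.MP_12eaff_co.Acc2.Giv

set_option autoImplicit false
set_option linter.unusedSectionVars false

namespace Pool.Agent.Lib.MP_12eaff_co.Acc2

open Finset Pool.Agent.Lib.MP_12eaff_co.BK
open scoped Classical

variable {V : Type} [Fintype V] {G : SimpleGraph V} {D : ℕ}

/-- An end of the chain of `v` in `s(y)` with all its data: the unit through which it is reached,
and no accepted unit or port ticket for it. -/
structure XE (T : Tr G D) (Ex Ok : V → V → Prop) (v y e : V) : Prop where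
  xx : XX T Ex Ok v y e
  ne : T.Anc y v ∨ e ≠ y
  via : ∃ a e', T.p a = e ∧ Ok a v ∧ T.PayP (T.Vis v y) a v e'
  no : ∀ a, T.PayP (T.Vis v y) a v e → ¬ Ok a v
  pt : ¬ T.PT v e

namespace IsB

variable {T : Tr G D} {Ex Ok Use : V → V → Prop} {u v w x e y z r a m s : V}

open Tr IsA

/-- CHAIN in a tight state, with full ends. -/
theorem chainY8 (h : IsB T) (hO : ∀ x, T.ch x ≠ ∅ → Ok x v) (hv : v ∈ T.R)
    (n : ¬ T.Anc v y) (t : T.Tight y v) (k : T.PayP (T.Vis v y) x v u) (o : Ok x v) :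
    T.U6 Ex Ok x v ∨ LXB T Ok v y ∨ ∃ e, XE T Ex Ok v y e := by
  refine (chain7 (h.isSig2_vis n t) hv k o).imp_right ?_
  rintro ⟨e, nt, e1, e4, ⟨a, e', rfl, p, q⟩, e5, e6⟩
  have cl : T.Col Ok v (T.p a) := ⟨q.2.2.1, a, T.mem_ch.2 ⟨q.1, q.2.1, rfl⟩, p⟩
  have mv := q.vis_mv
  have eo := (T.mem_NT.1 nt).1
  by_cases e2 : T.PayT v (T.p a) ∨ T.PayZ v (T.p a)
  · exact .inr ⟨_, ⟨nt, e2, e1, cl, mv⟩, q.col_ne, ⟨a, e', rfl, p, q⟩, e5, e4⟩
  obtain ⟨e2, e3⟩ := not_or.1 e2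
  obtain ⟨x', b1⟩ := (e6.resolve_left e2).resolve_left e3
  obtain ⟨rfl, d, c⟩ := dec_of hO b1 (e5 _ b1)
  refine .inl ⟨d, fun m m1 m2 => by_contra fun m3 => ?_, _, nt, cl, c.symm, c ▸ mv, e2, e3, e4⟩
  rcases high_leaf hv eo b1.1 d.2.1 d.1 n m1 (fun z => mv (by rw [← z, m2, c, z]))
    (fun z => absurd z e2) m3 (m2.trans c) with ⟨x, x1, x2⟩ | ⟨g, x, k⟩ | k
  exacts [e5 x x2 (hO x x1), e3 (h.opn_z hv eo k (anc_p b1.1 d.2.1) n mv e2), e4 k]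

/-- The head of a pair seen from `y` is internal or `y`. -/
theorem head_or (k : T.PayP (T.Vis v y) x v u) : T.ch x ≠ ∅ ∨ x = y ∧ T.c y = T.col v u := by
  refine or_iff_not_imp_left.2 fun l => ?_
  have := dec_of (Ok := fun a _ => T.ch a ≠ ∅) (fun _ => id) k l
  exact ⟨this.1, this.2.2⟩

/-- Off `N(y)` an end has an internal child: bottom and leaf heads are never ends. -/
theorem _root_.Pool.Agent.Lib.MP_12eaff_co.Acc2.XE.inner (k : XE T Ex (O0 T) v y e)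
    (n : ¬ G.Adj v y) : ∃ a ∈ T.ch e, T.ch a ≠ ∅ ∧ ∃ e', T.PayP (T.Vis v y) a v e' := by
  obtain ⟨a, e', rfl, p, q⟩ := k.via
  exact ⟨a, T.mem_ch.2 ⟨q.1, q.2.1, rfl⟩, fun l =>
    n (((head_or q).resolve_left (not_not.2 l)).1 ▸ p l), e', q⟩

/-- An end at `t(v)`: the leaf state declines, or in the highest state that moves `e` the parent
of `v` is the only witness, or `e` is a child of a prober. -/
theorem xe_t (h : IsB T) (hO : ∀ x, T.ch x ≠ ∅ → Ok x v) (hv : v ∈ T.R) (n : ¬ T.Anc v y)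
    (t : T.Tight y v) (k : XE T Ex Ok v y e) (ht : T.PayT v e) :
    Dec T Ok v y ∧ T.c y = T.c (T.p v) ∨ ∃ z, T.MinE (T.Vis v y) v e z ∧
      ((T.PayZ v e ∨ T.CaseA v e) ∧ T.Anc e z ∨
        ¬ T.Anc (T.p v) z ∧ Uq G (T.col z) v (T.p v)) := by
  have hS := h.isSig2_vis n t
  have eo := (T.mem_NT.1 k.xx.1).1
  obtain ⟨a, e', rfl, -, q⟩ := k.via
  obtain ⟨z, hz⟩ := exists_minE ((expl_iff hS.mem hv eo).1 q.expl)
  rcases step2 hS hv eo hz with ⟨x, p⟩ | p | ⟨-, p⟩ | p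
  exacts [let ⟨_, b, c⟩ := dec_of hO p (k.no x p); .inl ⟨b, c.trans ht.2⟩,
    .inr ⟨z, hz, .inl ⟨.inl p.1, p.2⟩⟩, .inr ⟨z, hz, p.imp_left fun p => ⟨.inr p.1, p.2⟩⟩,
    absurd (p.pt hS.mem) k.pt]

/-- After `z → x → r → g` through the triangle `x r g`, with `g` off `N(z)`: `g` is tight and
sees the colour of `x` again. -/
theorem tri_tight {g : V} (h : IsB T) (hz : z ∈ T.R) (pz : x ∈ T.O z) (rd : r ∉ T.Dm)
    (gd : g ∉ T.Dm) (xr : G.Adj x r) (rg : G.Adj r g) (xg : G.Adj x g) (rz : r ≠ z) (gz : g ≠ z)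
    (u1 : Uq G (T.col z) x r) (u2 : Uq G (T.col z) r g) (n : ¬ G.Adj z g) :
    T.Tight z g ∧ ∃ m, G.Adj g m ∧ m ≠ x ∧ T.col z m = T.col z x := by
  have xd := O_real hz pz
  have hc := h.hc hz (S := insert z {x, r, g}) (mem_insert_self _ _)
    (by simpa using ⟨T.real z hz, xd, rd, gd⟩) (Cov.clq1 (fun a p b q ne => by
      have := xr.symm
      have := rg.symm
      have := xg.symm
      simp only [mem_insert, mem_singleton] at p q
      grind) z)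
  have s : ∀ κ < D, κ ≠ T.col z r → κ ≠ T.col z g → ∃ m, G.Adj g m ∧ m ≠ x ∧ T.col z m = κ :=
    fun κ a b c =>
      let ⟨m, m1, m2, _, m3⟩ := hc.tri3 (by simp) (by simp) (by simp)
        (T.O_adj z hz x pz).ne.symm rz gz (h.uq_O hz pz) u1 u2 xr rg xg a b c
      ⟨m, m1, m2, (m3.resolve_left fun e => n (e.1 ▸ m1.symm)).2⟩
  refine ⟨fun κ a b => ?_, s _ (T.lt z hz x pz) (hc.ne xr) (hc.ne xg)⟩
  by_cases c : κ = T.col z r
  exacts [⟨r, rg.symm, c.symm⟩, (s κ a c b).imp fun _ e => ⟨e.1, e.2.2⟩]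

/-- TOKEN: the parent of `a` is tight in `s(s)` and sees the colour of `a` again. -/
theorem tok8 (h : IsB T) (hO : ∀ x, T.ch x ≠ ∅ → Ok x (T.p a)) (ha : a ∈ T.R) (ar : a ≠ T.r)
    (po : a ∈ T.O (T.p a)) (hs : s ∈ T.R) (n : ¬ T.Anc (T.p a) s) (t : T.Tight s (T.p a))
    (m1 : G.Adj (T.p a) m) (m2 : m ≠ a) (m3 : T.col s m = T.c a) (cs : T.ch s = ∅ → T.c s ≠ T.c a) :
    T.Tok (T.U6 Ex Ok) a ∨ (T.PayT (T.p a) a ∧ T.col s (T.p (T.p a)) = T.c a ∧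
      ∀ m, G.Adj (T.p a) m → m ≠ a → m ≠ T.p (T.p a) → T.col s m ≠ T.c a) ∨
      (∃ b ∈ T.R, T.p a ∈ T.Dr b) ∨ (∃ m x, T.Opn (T.p a) a s m x) ∨ LXB T Ok (T.p a) s ∨
      ∃ e, XE T Ex Ok (T.p a) s e := by
  rcases tok_of ha ar po hs n m1 m2 m3 with k | ⟨x, k⟩ | k | k
  · exact .inr (.inl k)
  · have i : T.ch x ≠ ∅ := fun l =>
      let ⟨p, q⟩ := (head_or k).resolve_left (not_not.2 l)
      cs (p ▸ l) (q.trans (col_p_self ha ar))
    have hp := T.p_mem x k.1 k.2.1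
    rcases h.chainY8 (Ex := Ex) hO (T.p_mem a ha ar) n t k (hO x i) with p | p
    · exact ((h.mem_H2 hp).1 k.2.2.1).elim
        (fun q => .inl ⟨ar, po, .inl ⟨x, mem_Int.2 ⟨k.1, k.2.1, i, q⟩, k.pr, p⟩⟩)
        fun q => .inr (.inr (.inl ⟨_, hp, q⟩))
    · exact .inr (.inr (.inr (.inr p)))
  exacts [.inr (.inr (.inr (.inl k))), .inl ⟨ar, po, .inr k.vis_pt⟩]

/-- A second witness in a tight state whose own colour is not the colour of the target. -/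
theorem wit8 (h : IsB T) (hO : ∀ x, T.ch x ≠ ∅ → Ok x u) (hu : u ∈ T.R) (uw : w ∈ T.O u)
    (hy : y ∈ T.R) (cs : T.ch y = ∅ → T.c y ≠ T.col u w) (nu : ¬ T.Anc u y) (t : T.Tight y u)
    (m1 : G.Adj u m) (m2 : m ≠ w) (np : T.PayT u w → m ≠ T.p u) (m3 : T.col y m = T.col u w) :
    T.HasI (T.U6 Ex Ok) u w ∨ T.PT u w ∨ (∃ a ∈ T.R, u ∈ T.Dr a) ∨ (∃ a x, T.Opn u w y a x) ∨
      LXB T Ok u y ∨ ∃ e, XE T Ex Ok u y e := by
  rcases high hu uw hy nu m1 m2 np m3 with ⟨x, k⟩ | k | k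
  · have i : T.ch x ≠ ∅ := fun l =>
      let ⟨p, q⟩ := (head_or k).resolve_left (not_not.2 l)
      cs (p ▸ l) q
    have hp := T.p_mem x k.1 k.2.1
    rcases h.chainY8 (Ex := Ex) hO hu nu t k (hO x i) with p | p
    · exact ((h.mem_H2 hp).1 k.2.2.1).elim
        (fun q => .inl ⟨x, mem_Int.2 ⟨k.1, k.2.1, i, q⟩, k.pr, p⟩)
        fun q => .inr (.inr (.inl ⟨_, hp, q⟩))
    · exact .inr (.inr (.inr (.inr p)))
  exacts [.inr (.inr (.inr (.inl k))), .inr (.inl k.vis_pt)]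

/-- ENTRY for any tail: `z` probes `x`, and the prober `r` of `x` is off `N(z)` and unique at
`x`.  Then the arc `r → x` has a unit, or the parent of `r` is the only witness. -/
theorem ent8 (h : IsB T) (hO : ∀ a, T.ch a ≠ ∅ → Ok a r) (hr : r ∈ T.R) (rx : x ∈ T.O r)
    (hz : z ∈ T.R) (pz : x ∈ T.O z) (nx : ¬ T.Anc x z) (nx' : ¬ T.Anc x r) (nr : ¬ T.Anc r z)
    (n : ¬ G.Adj z r) (u : Uq G (T.col z) x r) : T.Tight z r ∧
    (T.HasI (T.U6 Ex Ok) r x ∨ T.PT r x ∨ (∃ a ∈ T.R, r ∈ T.Dr a) ∨ (∃ a b, T.Opn r x z a b) ∨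
      LXB T Ok r z ∨ (∃ e, XE T Ex Ok r z e) ∨ T.PayT r x ∧ ¬ T.Anc (T.p r) z ∧
        ∀ m, G.Adj r m → m ≠ x → m ≠ T.p r → T.col z m ≠ T.c x) := by
  obtain ⟨t, d⟩ := h.ent_tight hz pz (T.real r hr) (T.O_adj r hr x rx).symm
    (fun e => nr (e ▸ .refl _ (e ▸ hz))) n u
  have xd := O_real hz pz
  have c1 := col_base hz xd nx
  have c2 := col_base hr xd nx'
  refine ⟨t, ?_⟩
  by_cases k : ∃ m, G.Adj r m ∧ m ≠ x ∧ (T.PayT r x → m ≠ T.p r) ∧ T.col z m = T.c x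
  · obtain ⟨m, k1, k2, k3, k4⟩ := k
    exact (h.wit8 (Ex := Ex) hO hr rx hz (fun _ e => T.prop T.r T.r_mem _ _ (T.O_adj z hz x pz)
      (by rw [T.col_r, e, c2])) nr t k1 k2 k3 (k4.trans c2.symm)).imp_right fun p =>
        p.imp_right fun p => p.imp_right fun p => p.imp_right fun p => p.imp_right .inl
  push Not at k
  simp only [Uq, not_forall, not_not] at d
  obtain ⟨m, m1, m2, m3⟩ := d
  have : T.PayT r x ∧ m = T.p r := by
    by_contra p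
    exact k m m1 m2 (fun x y => p ⟨x, y⟩) (m3.trans c1)
  refine .inr (.inr (.inr (.inr (.inr (.inr ⟨this.1, fun p => ?_, fun m a b c => k m a b fun _ => c⟩)))))
  exact col_ne_base (t_nr hr rx this.1) p (by rw [← this.2, m3, c1, ← c2, this.1.2, this.2])

end IsB

end Pool.Agent.Lib.MP_12eaff_co.Acc2
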