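import Pool.Agent.Lib.MP_12eaff_co.Acc2.G01

set_option autoImplicit false
set_option linter.unusedSectionVars false

namespace Pool.Agent.Lib.MP_12eaff_co.Acc2

open Finset Pool.Agent.Lib.MP_12eaff_co.BK
open scoped Classical

variable {V : Type} [Fintype V] {G : SimpleGraph V} {D : ℕ}

/-- From existence in every large subset to a count. -/
theorem cnt_of {N : Finset V} {P : V → Prop} [DecidablePred P] {k : ℕ}
    (h : ∀ M ⊆ N, k + 1 ≤ M.card → ∃ r ∈ M, P r) : N.card ≤ (N.filter P).card + k := by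
  have := card_filter_add_card_filter_not (s := N) P
  by_contra e
  obtain ⟨r, r1, r2⟩ := h (N.filter fun r => ¬ P r) (filter_subset _ _) (by omega)
  exact (mem_filter.1 r1).2 r2

namespace IsB

variable {T : Tr G D} {x y z a a' e w w' : V} {K : Finset V}

open Tr IsA

/-- PAIR, count form: all but three members off `N(y)` are receivers without open witness
(or `x` has a port that shows the colour of the member). -/
theorem pair_cnt (h : IsB T) (hK : IsClq G K) (hx : x ∈ K)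
    (tl : ∀ r ∈ K, r ≠ x → r ∈ T.R ∧ x ∈ T.O r ∧ T.col r x = T.c x) (hz : z ∈ T.R)
    (pz : y ∈ T.O z) (a : G.Adj y x) (yK : y ∉ K) (nx : ¬ T.Anc x z)
    (uq : Uq G (T.col z) y x) (dz : T.d z ≤ T.d x + 2) {N : Finset V} (hN : N ⊆ K.erase x)
    (ny : ∀ r ∈ N, ¬ G.Adj y r) (ns : ∀ a, T.Anc a z → T.NS a x) :
    N.card ≤ (N.filter fun r => (Rcv G D (T.col z) K x y z r ∧ ¬ ∃ a a', T.Op2 r x z a a') ∨
      ∃ a a', T.Op2 r x z a a' ∧ T.Shw a x (T.col a r)).card + 3 :=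
  cnt_of fun _ s c => (h.pair4 hK hx tl hz pz a yK nx uq dz (s.trans hN) (fun r k => ny r (s k)) c
    ns).elim (fun ⟨r, p, q⟩ => ⟨r, p, Or.inl q⟩) fun ⟨r, p, q⟩ => ⟨r, p, Or.inr q⟩

/-- ENTRY for a shallow prober, count form: all but two members off `N(b)` are tight receivers
without open witness (or `x` has a port that shows the colour of the member). -/
theorem probe_cnt {b : V} (h : IsB T) (hK : IsClq G K) (hx : x ∈ K)
    (tl : ∀ r ∈ K, r ≠ x → r ∈ T.R ∧ x ∈ T.O r ∧ T.col r x = T.c x) (hb : b ∈ T.R)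
    (pb : x ∈ T.O b) (bK : b ∉ K) (nx : ¬ T.Anc x b) (db : T.d b ≤ T.d x + 1) {N : Finset V}
    (hN : N ⊆ K.erase x) (ny : ∀ r ∈ N, ¬ G.Adj b r) (ns : ∀ a, T.Anc a b → T.NS a x) :
    N.card ≤ (N.filter fun r => (Sees G K (T.col b) r (T.col b x) ∧ T.Tight b r ∧
      ¬ ∃ a a', T.Op2 r x b a a') ∨ ∃ a a', T.Op2 r x b a a' ∧ T.Shw a x (T.col a r)).card + 2 :=
  cnt_of fun _ s c => (h.probe3 hK hx tl hb pb bK nx db (s.trans hN) (fun r k => ny r (s k)) c
    ns).elim (fun ⟨r, p, q⟩ => ⟨r, p, Or.inl q⟩) fun ⟨r, p, q⟩ => ⟨r, p, Or.inr q⟩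

/-- A clean tail is open only through a port of the head or a hider of the head that has moved:
above `x`, or at least three levels above `z`. -/
theorem op_wit (h : IsB T) (hx : x ∈ T.R) (hw : w ∈ W T x) (ho : x ∈ T.O w) (n : w ∉ T.Bd x)
    (nx : ¬ T.Anc x z) (nw : ¬ T.Anc w z) (o : T.Op2 w x z a a') :
    T.Port a x (T.c w) ∨ ∃ m m', G.Adj x m ∧ m ≠ w ∧ T.col a m = T.c w ∧ m' ∈ T.ch m ∧
      ((T.Anc m' x ∧ m' ≠ x ∧ x ∈ T.H m ∧ ¬ T.Anc m a ∧ T.c m = T.c w) ∨
        T.Anc m' a ∧ m' ≠ a ∧ T.c m' = T.c w ∧ T.d m + 3 ≤ T.d z) := by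
  obtain ⟨a0, xr, a2, a3, -⟩ := mem_W.1 hw
  have wR := W_mem hx hw
  have wd := W_real hx hw
  have hq := T.p_mem x hx xr
  have aR := o.anc.mem.1
  obtain ⟨t1, -, -, t4, -⟩ := h.op_tight wR ho a3 nx o
  simp only [Uq, not_forall, not_not] at t4
  obtain ⟨m, m1, m2, m3⟩ := t4
  have na : ¬ T.Anc w a := fun p => nw (p.trans o.anc)
  rw [col_base aR wd na] at m3
  have cx := col_base hx wd (W_base hx hw ho)
  have u : T.col x m ≠ T.c w := fun k =>
    n ((mem_Bd' hx wd).2 ⟨a0, fun p => p m m1 m2 (by rw [k, cx])⟩)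
  by_cases dm : m ∈ T.Dm
  · exact .inl ⟨m, dm, m1, m3, u⟩
  by_cases p : T.Anc m a
  · obtain ⟨m', p1, p2⟩ := p.child fun e => t1 (e ▸ m1)
    rw [col_anc p1 p2] at m3
    have aw := o.2.2.2.2.1.resolve_right fun k => na (anc_ch k.1)
    have ne : m' ≠ a := fun e => T.ne_p a aR w aw (by
      subst e
      rw [col_base aR wd na, col_par aR (T.mem_ch.1 p1).2.1, m3])
    have := d_ch p1
    have := p2.lt ne
    have := o.lt
    exact .inr ⟨m, m', m1, m2, by rw [col_anc p1 p2, m3], p1, .inr ⟨p2, ne, m3, by omega⟩⟩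
  · have c := (col_base aR dm p).symm.trans m3
    have k : T.Anc m x := by
      by_contra k
      exact u (by rw [col_base hx dm k, c])
    obtain ⟨m', p1, p2⟩ := k.child m1.ne.symm
    have ne : m' ≠ x := fun e => by
      subst e
      obtain ⟨-, -, e⟩ := T.mem_ch.1 p1
      have mr : T.p m' ≠ T.r := fun r => by
        have := T.full m' hx w wd a0.ne.symm
        rw [cx, ← c, ← e, r, T.c_r] at this
        omega
      exact T.ne_p _ hq w a2 (by
        rw [← W_col hx hw, cx, col_par hq mr, e, c])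
    exact .inr ⟨m, m', m1, m2, m3, p1, .inl ⟨p2, ne, F2' p1 p2 ne m1.symm, p, c⟩⟩

/-- A vertex with a doubled neighbour `w` probes the neighbours that are adjacent to `w`. -/
theorem low_t (h : IsB T) (he : e ∈ T.R) (hw : w ∈ T.Bd e) (wd : w' ∉ T.Dm) (a : G.Adj e w')
    (b : G.Adj w w') : w' ∈ T.O e ∨ w' = T.p e ∨ w' ∈ T.Dr e := by
  by_contra! k
  rcases (h.mem_H2 he).1 (T.mem_H.2 ⟨a, T.full e he w' wd a.ne.symm, k.1, k.2.1⟩) with p | p
  exacts [h.Bd_nadj he hw p b, k.2.2 p]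

/-- N0: a prober `a` of `u`, off the parent of `u` and tight in `s(u)`, has a pair or a port
ticket with target `u` in `s(u)` or in a prober above, unless `u = t(a)` through `p a` alone. -/
theorem n0 {u : V} (h : IsB T) (hu : u ∈ T.R) (ha : a ∈ T.R) (o : u ∈ T.O a) (n : ¬ T.Anc u a)
    (na : a ≠ T.p u) (nq : ¬ G.Adj a (T.p u)) (t : T.Tight u a) :
    ¬ T.Anc a u ∧ ((T.PayT a u ∧ T.col u (T.p a) = T.col a u ∧ Uq G (T.col u) a (T.p a)) ∨
      (∃ x, T.PayP (T.Vis a u) x a u) ∨ T.PayD (T.Vis a u) a u) := by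
  have ur : u ≠ T.r := fun e => n (e ▸ anc_r ha)
  have au := T.O_adj a ha u o
  have du := (T.clo a ha u o).2
  have c := col_base ha (T.real u hu) n
  have n' : ¬ T.Anc a u := fun p => na (T.mem_ch.1 (p.ch_of_d au.ne du)).2.2.symm
  refine ⟨n', ?_⟩
  have ne : ∀ m, T.col u m = T.col a u → m ≠ u := fun m p e => by
    have := T.lt a ha u o
    rw [← p, e, col_self hu] at this
    omega
  by_cases k : ∃ m, G.Adj a m ∧ (T.PayT a u → m ≠ T.p a) ∧ T.col u m = T.col a u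
  · obtain ⟨m, m1, m2, m3⟩ := k
    refine .inr ((high ha o hu n' m1 (ne m m3) m2 m3).imp_right fun p => p.resolve_left ?_)
    rintro ⟨b, x, k1, k2, -, k4, k5, -⟩
    have := d_ch k1
    have := (T.clo b (anc_ch k1).mem.1 a k5).2
    by_cases e : x = u
    · exact nq ((T.mem_ch.1 (e ▸ k1)).2.2 ▸ (T.O_adj b (anc_ch k1).mem.1 a k5).symm)
    · exact c_ch_ne (k2.ch_of_d e (by omega)) (T.mem_ch.1 k1).2.1 (by rw [k4, c])
  · push Not at k
    obtain ⟨m, m1, m2⟩ := t (T.col a u) (T.lt a ha u o)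
      (by rw [c]; exact (h.ne_par hu ur au.symm (T.real a ha) na).symm)
    have : T.PayT a u ∧ m = T.p a := by
      by_contra p
      exact k m m1 (fun a b => p ⟨a, b⟩) m2
    obtain ⟨p, rfl⟩ := this
    exact .inl ⟨p, m2, fun m p q => m2 ▸ k m p fun _ => q⟩

end IsB

end Pool.Agent.Lib.MP_12eaff_co.Acc2
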